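import Pool.Agent.MP_2877d0_al.T.St
namespace Pool.Agent.MP_2877d0_al.T
open Matrix Finset

/-- the invariant of the aggregation -/
def Inv_Agg (ω : Vec) (acc : ℕ) (b : ℤ) : Prop :=
  ∃ (s : ℕ → ℤ) (top : ℤ),
    (acc : ℤ) = ∑ f ∈ range 37, (2 ^ 127 + s f) * (2 ^ 128) ^ f + top * (2 ^ 128) ^ 37 ∧
    (∀ f, f < 37 → |s f| ≤ b) ∧
    ∑ i : Fin 12, (s i * ω i + s (12 + i) * iv ω i + s (24 + i) * sg ω i) ≤ s 36

theorem mono_Agg {ω : Vec} {acc : ℕ} {b b' : ℤ} (h : Inv_Agg ω acc b) (e : b ≤ b') :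
    Inv_Agg ω acc b' := by
  obtain ⟨s, top, h1, h2, h3⟩ := h
  exact ⟨s, top, h1, fun f hf => (h2 f hf).trans e, h3⟩

theorem step_Agg {ω : Vec} {acc C y : ℕ} {b : ℤ} (h : Inv_Agg ω acc b) (hC : CutOK ω C)
    (hy : y < 2 ^ 20) : Inv_Agg ω (acc + y * C) (b + 2 ^ 120) := by
  obtain ⟨s, top, h1, h2, h3⟩ := h
  obtain ⟨c, c1, c2, c3⟩ := hC
  refine ⟨fun f => s f + y * c f, top + y, ?_, fun f hf => ?_, ?_⟩
  · rw [Nat.cast_add, Nat.cast_mul, h1, c1, mul_add, mul_sum]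
    generalize (2 ^ 128 : ℤ) = W
    generalize (2 ^ 127 : ℤ) = β
    rw [show ∑ f ∈ range 37, (β + (s f + y * c f)) * W ^ f =
      ∑ f ∈ range 37, (β + s f) * W ^ f + ∑ f ∈ range 37, y * (c f * W ^ f) by
        rw [← sum_add_distrib]
        exact sum_congr rfl fun f _ => by ring]
    generalize ∑ f ∈ range 37, (β + s f) * W ^ f = u
    generalize ∑ f ∈ range 37, (y : ℤ) * (c f * W ^ f) = v
    generalize W ^ 37 = w
    ring
  · have y1 : (y : ℤ) ≤ 2 ^ 20 := by exact_mod_cast hy.le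
    refine (abs_add_le _ _).trans (add_le_add (h2 f hf) ?_)
    rw [abs_mul, Nat.abs_cast, show (2 : ℤ) ^ 120 = 2 ^ 20 * 2 ^ 100 by norm_num]
    exact mul_le_mul y1 (c2 f hf) (abs_nonneg _) (by positivity)
  · have h4 := add_le_add h3 (mul_le_mul_of_nonneg_left c3 (Nat.cast_nonneg y))
    rw [mul_sum, ← sum_add_distrib] at h4
    push_cast
    refine le_trans (le_of_eq (sum_congr rfl fun i _ => ?_)) h4
    ring

theorem cons_Agg (C : ℕ) (pool : List ℕ) (m Y acc : ℕ) : agg (C :: pool) m Y acc =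
    if m = 0 then acc else if m % 2 = 0 then agg pool (m / 2) Y acc
    else agg pool (m / 2) (Y >>> 20) (acc + Y % 1048576 * C) := by
  have e : agg (C :: pool) m Y acc = Bool.rec (Bool.rec
      (agg pool (m >>> 1) (Y >>> 20) (acc + Y % 1048576 * C))
      (agg pool (m >>> 1) Y acc) (Nat.beq (m % 2) 0)) acc (Nat.beq m 0) := rfl
  rw [e, Nat.shiftRight_one]
  by_cases h : m = 0
  · rw [if_pos h, Nat.beq_eq.mpr h]
  rw [if_neg h, Bool.eq_false_iff.2 (mt Nat.beq_eq.mp h)]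
  by_cases h' : m % 2 = 0
  · rw [if_pos h', Nat.beq_eq.mpr h']
  · rw [if_neg h', Bool.eq_false_iff.2 (mt Nat.beq_eq.mp h')]

theorem ind_Agg (ω : Vec) (pool : List ℕ) (hp : ∀ C ∈ pool, CutOK ω C) :
    ∀ (k m Y acc : ℕ) (b : ℤ), m < 2 ^ k → Inv_Agg ω acc b →
      Inv_Agg ω (agg pool m Y acc) (b + k * 2 ^ 120) := by
  induction pool with
  | nil => exact fun k m Y acc b _ h => mono_Agg h (le_add_of_nonneg_right (by positivity))
  | cons C pool ih =>
    intro k m Y acc b hm h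
    have ih' := ih fun C' hC => hp C' (List.mem_cons_of_mem _ hC)
    rw [cons_Agg]
    by_cases h0 : m = 0
    · rw [if_pos h0]
      exact mono_Agg h (le_add_of_nonneg_right (by positivity))
    rw [if_neg h0]
    obtain ⟨k, rfl⟩ : ∃ j, k = j + 1 := by
      rcases k with _ | k
      · omega
      · exact ⟨k, rfl⟩
    have hm' : m / 2 < 2 ^ k := by rw [pow_succ] at hm; omega
    have e : b + ((k + 1 : ℕ) : ℤ) * 2 ^ 120 = b + 2 ^ 120 + k * 2 ^ 120 := by
      rw [Nat.cast_succ, add_mul, one_mul, add_assoc, add_comm (2 ^ 120)]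
    rw [e]
    split_ifs
    · exact ih' k _ _ _ _ hm' (mono_Agg h (le_add_of_nonneg_right (by positivity)))
    · exact ih' k _ _ _ _ hm' (step_Agg h (hp C List.mem_cons_self) (Nat.mod_lt _ (by norm_num)))

theorem acc_Agg : (acc0 : ℤ) = ∑ f ∈ range 37, 2 ^ 127 * (2 ^ 128) ^ f := by decide +kernel

theorem dig_Agg {X : ℕ} {d : ℕ → ℤ} {top : ℤ}
    (h : (X : ℤ) = ∑ f ∈ range 37, d f * (2 ^ 128) ^ f + top * (2 ^ 128) ^ 37)
    (hd : ∀ f, f < 37 → 0 ≤ d f ∧ d f < 2 ^ 128) {i : ℕ} (hi : i < 37) :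
    (dg 128 X i : ℤ) = d i := by
  rw [dg, Nat.shiftRight_eq_div_pow, pow_mul, Int.natCast_mod, Int.natCast_div, h, Nat.cast_pow,
    Nat.cast_pow, Nat.cast_ofNat, ← digit_eq _ (by positivity) i 37 d hi hd]
  have hW : (2 ^ 128 : ℤ) ≠ 0 := by positivity
  generalize (2 ^ 128 : ℤ) = W at hW ⊢
  obtain ⟨j, hj⟩ : ∃ j, 37 = j + 1 + i := ⟨36 - i, by omega⟩
  rw [show top * W ^ 37 = top * W ^ j * W * W ^ i by rw [hj]; ring,
    Int.add_mul_ediv_right _ _ (pow_ne_zero i hW), Int.add_mul_emod_self_right]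

theorem aggP : AggP := by
  intro ω pool m Y hp hm
  obtain ⟨s, top, h1, h2, h3⟩ := ind_Agg ω pool hp 64 m Y acc0 0 hm
    ⟨fun _ => 0, 0, by simpa only [add_zero, zero_mul] using acc_Agg, fun _ _ => by simp, by simp⟩
  have e : ∀ i, i < 37 → (dg 128 (agg pool m Y acc0) i : ℝ) - 2 ^ 127 = s i := fun i hi => by
    have h4 := dig_Agg h1 (fun f hf => by
      have := abs_le.1 (h2 f hf)
      norm_num at this ⊢
      constructor <;> linarith [this.1, this.2]) hi
    have h5 : (dg 128 (agg pool m Y acc0) i : ℝ) = 2 ^ 127 + s i := by exact_mod_cast h4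
    rw [h5, add_sub_cancel_left]
  rw [e 36 (by norm_num)]
  refine le_trans (le_of_eq (sum_congr rfl fun i _ => ?_)) h3
  have := i.2
  rw [e i (by omega), e (12 + i) (by omega), e (24 + i) (by omega)]

theorem dgs_Agg (w X i : ℕ) : dg w (X >>> w) i = dg w X (i + 1) := by
  rw [dg, dg, ← Nat.shiftRight_add, mul_add, mul_one, add_comm]

theorem coS_Agg (n : ℕ) : ∀ A B C box P : ℕ, coS n A B C box P = ∑ i ∈ range n,
    co (dg 128 A i) (dg 128 B i) (dg 128 C i) (dg 24 box (2 * i)) (dg 24 box (2 * i + 1))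
      (dg 9 P i) := by
  induction n with
  | zero => exact fun _ _ _ _ _ => rfl
  | succ n ih =>
    intro A B C box P
    have e : coS (n + 1) A B C box P = co (dg 128 A 0) (dg 128 B 0) (dg 128 C 0) (dg 24 box 0)
        (dg 24 box 1) (dg 9 P 0) +
        coS n (A >>> 128) (B >>> 128) (C >>> 128) (box >>> 48) (P >>> 9) := rfl
    rw [e, ih, sum_range_succ', add_comm,
      show box >>> 48 = box >>> 24 >>> 24 by rw [← Nat.shiftRight_add]]
    generalize co = f
    simp only [dgs_Agg, mul_add, mul_one, mul_zero, zero_add, add_assoc, Nat.reduceAdd]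

theorem blk_Agg (A j i : ℕ) (hi : i < 12) :
    dg 128 (A >>> (128 * j) % (1 <<< 1536)) i = dg 128 A (j + i) := by
  rw [Nat.one_shiftLeft, dg, dg]
  refine Nat.eq_of_testBit_eq fun t => ?_
  simp only [Nat.testBit_mod_two_pow, Nat.testBit_shiftRight]
  by_cases ht : t < 128
  · rw [decide_eq_true (show 128 * i + t < 1536 by omega), Bool.true_and, mul_add, add_assoc]
  · simp [ht]

theorem f1_Agg (a b c : ℝ) {ω : Vec} (h : ∀ i, 0 < ω i) (i : Fin 12) :
    f1 a b c (sg ω i) = a * ω i + b * iv ω i + c * sg ω i := by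
  rw [f1, sg, iv, add_sub_cancel_right, sub_add_cancel_right, Real.exp_neg, Real.exp_log (h i)]

theorem keep_Agg (pool : List ℕ) : ∀ m, ∀ C ∈ keepP pool m, C ∈ pool := by
  induction pool with
  | nil => exact fun _ _ h => h
  | cons C₀ pool ih =>
    intro m C hC
    have e : keepP (C₀ :: pool) m = Bool.rec (Bool.rec (C₀ :: keepP pool (m >>> 1))
        (keepP pool (m >>> 1)) (Nat.beq (m % 2) 0)) [] (Nat.beq m 0) := rfl
    rw [e] at hC
    generalize Nat.beq m 0 = u at hC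
    generalize Nat.beq (m % 2) 0 = v at hC
    cases u
    · cases v
      · exact (List.mem_cons.1 hC).elim (fun e => e ▸ List.mem_cons_self)
          fun e => List.mem_cons_of_mem _ (ih _ _ e)
      · exact List.mem_cons_of_mem _ (ih _ _ hC)
    · exact absurd hC List.not_mem_nil

theorem certP (_hB : BasP) (hC : CoP) (hA : AggP) : CertP := by
  refine ⟨fun ω V V' box pool d hω hb hin hp hc => ?_, keep_Agg⟩
  have h1 := hA ω pool (d % 18446744073709551616) (d >>> 172) hp (Nat.mod_lt _ (by norm_num))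
  have h2 : ∀ A, A = agg pool (d % 18446744073709551616) (d >>> 172) acc0 →
      12 * 2 ^ 200 + dg 128 A 36 <<< 48 + 1 ≤
        coS 12 (A >>> (128 * 0) % (1 <<< 1536)) (A >>> (128 * 12) % (1 <<< 1536))
          (A >>> (128 * 24) % (1 <<< 1536)) box (d >>> 64) + 2 ^ 175 := by
    rintro _ rfl
    exact Nat.le_of_ble_eq_true hc
  have h3 := h2 _ rfl
  generalize agg pool (d % 18446744073709551616) (d >>> 172) acc0 = A at h1 h3
  rw [coS_Agg, Nat.shiftLeft_eq, sum_range] at h3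
  have lt : ∀ w X i, dg w X i < 2 ^ w := fun w X i => Nat.mod_lt _ (by positivity)
  have h4 : ∀ i : Fin 12, (co (dg 128 (A >>> (128 * 0) % (1 <<< 1536)) i)
      (dg 128 (A >>> (128 * 12) % (1 <<< 1536)) i) (dg 128 (A >>> (128 * 24) % (1 <<< 1536)) i)
      (dg 24 box (2 * i)) (dg 24 box (2 * i + 1)) (dg 9 (d >>> 64) i) : ℝ) ≤
      2 ^ 200 + 2 ^ 48 * (((dg 128 A i : ℝ) - 2 ^ 127) * ω i +
        ((dg 128 A (12 + i) : ℝ) - 2 ^ 127) * iv ω i +
        ((dg 128 A (24 + i) : ℝ) - 2 ^ 127) * sg ω i) := fun i => by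
    rw [blk_Agg _ _ _ i.2, blk_Agg _ _ _ i.2, blk_Agg _ _ _ i.2, zero_add, ← f1_Agg _ _ _ hω,
      ← sub_le_iff_le_add']
    have h5 := hin i (by have := i.2; omega)
    rw [val, dif_pos i.2] at h5
    exact hC _ _ _ _ _ _ _ (lt _ _ _) (lt _ _ _) (lt _ _ _) (lt 9 _ _) (hb i).1 (hb i).2 h5
  have h5 := sum_le_sum fun i (_ : i ∈ (univ : Finset (Fin 12))) => h4 i
  rw [sum_add_distrib, ← mul_sum, ← Nat.cast_sum, sum_const, card_univ, Fintype.card_fin,
    nsmul_eq_mul] at h5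
  generalize ∑ i : Fin 12, co _ _ _ _ _ _ = S at h3 h5
  have h6 : (12 * 2 ^ 200 + dg 128 A 36 * 2 ^ 48 + 1 : ℝ) ≤ S + 2 ^ 175 := by exact_mod_cast h3
  push_cast at h5
  linarith

end Pool.Agent.MP_2877d0_al.T
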