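import Pool.Agent.MP_2877d0_al.T.St
namespace Pool.Agent.MP_2877d0_al.T
open Matrix Finset

/-- the recurrence in integers, scale `2^128` -/
def cz_Ap0 (t : ℤ) : ℕ → ℤ
  | 0 => 2 * 2 ^ 128
  | 1 => t
  | n + 2 => t * cz_Ap0 t (n + 1) / 2 ^ 128 - cz_Ap0 t n

/-- the embedding matrix in integers, scale `2^128` -/
def bz_Ap0 (i j : ℕ) : ℤ := if j = 0 then 2 ^ 128 else cz_Ap0 (thI.getD i 0) j

/-- the signed fields of a table -/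
def vz_Ap0 (TB : List ℕ) (j f : ℕ) : ℤ := (dg 192 (TB.getD j 0 + bp) f : ℤ) - 2 ^ 190

theorem err_Ap0 (t : ℤ) (θ : ℝ) (h : |2 ^ 128 * θ - t| ≤ 2 ^ 8) (ht : |t| ≤ 2 * 2 ^ 128)
    (hC : ∀ n, n < 12 → |cz_Ap0 t n| ≤ 3 * 2 ^ 128) (n : ℕ) :
    n < 12 → |2 ^ 128 * ch θ n - cz_Ap0 t n| ≤ 2 ^ 8 * 4 ^ n := by
  induction n using Nat.twoStepInduction with
  | zero =>
    intro _
    rw [ch, cz_Ap0]
    push_cast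
    norm_num
  | one =>
    intro _
    rw [ch, cz_Ap0]
    linarith
  | more n h0 h1 =>
    intro hn
    have a0 := h0 (by omega)
    have a1 := h1 (by omega)
    have a2 : |(cz_Ap0 t (n + 1) : ℝ)| ≤ 3 * 2 ^ 128 := by exact_mod_cast hC (n + 1) (by omega)
    have a3 : |(t : ℝ)| ≤ 2 * 2 ^ 128 := by exact_mod_cast ht
    obtain ⟨q, hq⟩ : ∃ q, q = t * cz_Ap0 t (n + 1) / 2 ^ 128 := ⟨_, rfl⟩
    have b1 : q * 2 ^ 128 ≤ t * cz_Ap0 t (n + 1) := hq ▸ Int.ediv_mul_le _ (by positivity)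
    have b2 : t * cz_Ap0 t (n + 1) < (q + 1) * 2 ^ 128 :=
      hq ▸ Int.lt_ediv_add_one_mul_self _ (by positivity)
    have b3 : (q : ℝ) * 2 ^ 128 ≤ t * cz_Ap0 t (n + 1) := by exact_mod_cast b1
    have b4 : (t : ℝ) * cz_Ap0 t (n + 1) < (q + 1) * 2 ^ 128 := by exact_mod_cast b2
    have c1 : |θ| ≤ 5 / 2 := by
      rw [abs_le] at h a3 ⊢
      constructor <;> linarith [h.1, h.2, a3.1, a3.2]
    have c2 : |θ * (2 ^ 128 * ch θ (n + 1) - cz_Ap0 t (n + 1))| ≤ 5 / 2 * (2 ^ 8 * 4 ^ (n + 1)) := by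
      rw [abs_mul]
      exact mul_le_mul c1 a1 (abs_nonneg _) (by norm_num)
    have c3 : |(2 ^ 128 * θ - t) * cz_Ap0 t (n + 1)| ≤ 2 ^ 8 * (3 * 2 ^ 128) := by
      rw [abs_mul]
      exact mul_le_mul h a2 (abs_nonneg _) (by norm_num)
    have c4 : (1 : ℝ) ≤ 4 ^ n := one_le_pow₀ (by norm_num)
    rw [ch, cz_Ap0, ← hq, Int.cast_sub]
    rw [pow_succ (4 : ℝ) n] at c2
    rw [pow_add (4 : ℝ) n 2]
    rw [abs_le] at a0 c2 c3 ⊢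
    constructor <;> linarith [a0.1, a0.2, c2.1, c2.2, c3.1, c3.2]

theorem c1_Ap0 : ∀ i, i < 12 → |thI.getD i 0| ≤ 2 * 2 ^ 128 ∧
    ∀ n, n < 12 → |cz_Ap0 (thI.getD i 0) n| ≤ 3 * 2 ^ 128 := by decide +kernel

theorem c2_Ap0 : ∀ j, j < 12 →
    (TB0.getD j 0 : ℤ) = ∑ f ∈ range 12, vz_Ap0 TB0 j f * (2 ^ 192) ^ f + 1 * (2 ^ 192) ^ 12 ∧
    ∀ i, i < 12 → |vz_Ap0 TB0 j i| ≤ (2 ^ 98 : ℕ) ∧
      |2 ^ 32 * vz_Ap0 TB0 j i - bz_Ap0 i j| ≤ 2 ^ 31 := by decide +kernel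

theorem c3_Ap0 : ∀ j, j < 12 →
    (TB1.getD j 0 : ℤ) = ∑ f ∈ range 12, vz_Ap0 TB1 j f * (2 ^ 192) ^ f + 1 * (2 ^ 192) ^ 12 ∧
    ∑ l : Fin 12, |ent Hm l j| ≤ 30 ∧
    ∀ i, i < 12 → |vz_Ap0 TB1 j i| ≤ (2 ^ 98 : ℕ) ∧
      |45 * 2 ^ 32 * vz_Ap0 TB1 j i - ∑ l : Fin 12, bz_Ap0 i l * ent Hm l j| ≤ 45 * 2 ^ 31 := by
  decide +kernel

theorem bm_Ap0 {θ : Vec} (h : Th θ) (i j : Fin 12) :
    |2 ^ 128 * Bm θ i j - bz_Ap0 i j| ≤ 2 ^ 30 := by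
  rw [Bm, of_apply, bz_Ap0]
  split_ifs
  · push_cast
    norm_num
  · refine (err_Ap0 _ _ (h.apx i) (c1_Ap0 i i.2).1 (c1_Ap0 i i.2).2 j j.2).trans ?_
    have : (4 : ℝ) ^ (j : ℕ) ≤ 4 ^ 11 := pow_le_pow_right₀ (by norm_num) (by omega)
    linarith

theorem ap0P : Ap0P := by
  intro θ h
  refine ⟨by decide +kernel, fun j hj => ⟨vz_Ap0 TB0 j, 1, (c2_Ap0 j hj).1, le_rfl, by norm_num,
    fun i => ⟨?_, ((c2_Ap0 j hj).2 i i.2).1⟩⟩⟩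
  have h1 := bm_Ap0 h i ⟨j, hj⟩
  have h2 : |(2 : ℝ) ^ 32 * vz_Ap0 TB0 j i - bz_Ap0 i j| ≤ 2 ^ 31 := by
    exact_mod_cast ((c2_Ap0 j hj).2 i i.2).2
  rw [col, dif_pos hj, Nat.cast_one]
  rw [abs_le] at h1 h2 ⊢
  constructor <;> linarith [h1.1, h1.2, h2.1, h2.2]

theorem ap1P : Ap1P := by
  intro θ h
  refine ⟨by decide +kernel, fun j hj => ⟨vz_Ap0 TB1 j, 1, (c3_Ap0 j hj).1, le_rfl, by norm_num,
    fun i => ⟨?_, ((c3_Ap0 j hj).2.2 i i.2).1⟩⟩⟩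
  have h0 : ∑ l : Fin 12, |(ent Hm l j : ℝ)| ≤ 30 := by exact_mod_cast (c3_Ap0 j hj).2.1
  have h1 : |2 ^ 128 * ∑ l : Fin 12, Bm θ i l * ent Hm l j -
      ∑ l : Fin 12, (bz_Ap0 i l : ℝ) * ent Hm l j| ≤ 2 ^ 30 * 30 := by
    rw [mul_sum, ← sum_sub_distrib]
    refine (abs_sum_le_sum_abs _ _).trans
      (le_trans ?_ (mul_le_mul_of_nonneg_left h0 (by positivity)))
    rw [mul_sum]
    refine sum_le_sum fun l _ => ?_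
    rw [← mul_assoc, ← sub_mul, abs_mul]
    exact mul_le_mul_of_nonneg_right (bm_Ap0 h i l) (abs_nonneg _)
  have h2 : |(45 : ℝ) * 2 ^ 32 * vz_Ap0 TB1 j i - ∑ l : Fin 12, (bz_Ap0 i l : ℝ) * ent Hm l j| ≤
      45 * 2 ^ 31 := by
    exact_mod_cast ((c3_Ap0 j hj).2.2 i i.2).2
  have h3 : Bd' θ i ⟨j, hj⟩ = 1 / 45 * ∑ l : Fin 12, Bm θ i l * ent Hm l j := rfl
  rw [col, dif_pos hj, Nat.cast_one, h3]
  rw [abs_le] at h1 h2 ⊢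
  constructor <;> linarith [h1.1, h1.2, h2.1, h2.2]

end Pool.Agent.MP_2877d0_al.T
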