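import Pool.Agent.MP_2877d0_al.T.St

namespace Pool.Agent.MP_2877d0_al.T

open Matrix Finset

theorem lam_ApA (w H j : ℕ) : |lam (w + 1) H j| ≤ ((2 ^ w : ℕ) : ℤ) := by
  unfold lam
  split_ifs
  · simp
  · have : H >>> ((w + 1) * j) % 2 ^ (w + 1) < 2 ^ (w + 1) := Nat.mod_lt _ (by positivity)
    generalize H >>> ((w + 1) * j) % 2 ^ (w + 1) = d at this
    have h : (d : ℤ) < 2 * 2 ^ w := by rw [← pow_succ']; exact_mod_cast this
    rw [Nat.add_sub_cancel, abs_le]
    push_cast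
    constructor <;> linarith [Int.natCast_nonneg d]

theorem bp_ApA : (bp : ℤ) = ∑ f ∈ range 12, 2 ^ 190 * (2 ^ 192) ^ f + 2 ^ 72 * (2 ^ 192) ^ 12 := by
  decide +kernel

theorem lin_ApA (hC : CombP) (hL : LinP) {l l' : List ℕ} {x : ℕ → Vec} {e m g w s H : ℕ}
    {z : ℕ → ℤ} (h : LA l x 12 e m g) (hz : ∀ j, |z j| ≤ ((2 ^ w : ℕ) : ℤ))
    (hs : ∑ j ∈ range l'.length, lam (w + 1) H j * l'.getD j 0 = ∑ j ∈ range 12, z j * l.getD j 0)
    (h1 : 12 * 2 ^ w * g < 2 ^ s) (h2 : 12 * 2 ^ w * m < 2 ^ 192) {e' m' g' : ℕ}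
    (k1 : 12 * 2 ^ w * e ≤ e') (k2 : 12 * 2 ^ w * m ≤ m') (k3 : 2 ^ s + 12 * 2 ^ w * g ≤ g') :
    AP (comb (fn w) (w + 1) (2 ^ (w + 1)) 1 l' H (Nat.shiftLeft 1 (2304 + s)) 0)
      (cmb x fun j => z j) e' m' g' := by
  obtain ⟨P, Q, a, b⟩ := hC (fn w) (w + 1) 1 l' H (Nat.shiftLeft 1 (2304 + s)) 0 w.succ_pos
  have e1 : Nat.shiftLeft 1 (2304 + s) = 2 ^ s * (2 ^ 192) ^ 12 := by
    rw [← pow_mul, ← pow_add, add_comm s]
    exact (Nat.shiftLeft_eq _ _).trans (one_mul _)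
  have e2 : fn w (2 ^ s * (2 ^ 192) ^ 12 + P) (0 + Q) = 2 ^ s * (2 ^ 192) ^ 12 + P - Q * 2 ^ w := by
    rw [zero_add, ← Nat.shiftLeft_eq]
    rfl
  rw [a, e1, e2]
  simp only [Nat.cast_one, one_mul, Nat.add_sub_cancel] at b
  obtain ⟨v, γ, c1, c2, c3, c4⟩ := hL l x 12 e m g z (2 ^ w) 0 (2 ^ s)
    (2 ^ s * (2 ^ 192) ^ 12 + P) (Q * 2 ^ w) le_rfl h hz (fun j a b => absurd b (by omega))
    (by
      rw [← hs, ← b, Nat.cast_add, Nat.cast_mul, Nat.cast_mul, Nat.cast_pow (2 ^ 192)]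
      simp only [Nat.cast_zero, zero_mul, sum_const_zero, Nat.cast_pow, Nat.cast_ofNat]
      ring) h1 (by rwa [zero_add])
  refine ⟨v, γ, by simpa only [Nat.cast_zero, zero_add] using c1, c2, c3.trans ?_, fun i =>
    ⟨(c4 i).1.trans ?_, (c4 i).2.trans ?_⟩⟩
  · exact_mod_cast k3
  · exact_mod_cast k1
  · exact_mod_cast k2

theorem apAP (hB : BasP) (hC : CombP) (hL : LinP) : ApAP := by
  obtain ⟨-, -, -, -, -, -, -, hd, hm, -, -, -, -, -, -, h192, -⟩ := hB
  refine ⟨fun TB B U h => ⟨by simp [cols, hm, h192], fun j hj => ?_⟩, fun L V a key h => ?_,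
    fun X x e m g ⟨v, γ, h1, h2, _, h4⟩ hm i => ?_⟩
  · have e1 : (cols TB U).getD j 0 = col16 TB (dg 192 U j) := by
      simp [cols, hm, h192, List.getD_eq_getElem?_getD, hj]
    have e2 : col (B * cst (Uz U)) j = cmb (col B) fun k => lam 16 (dg 192 U j) k := by
      funext i
      rw [col, dif_pos hj, Matrix.mul_apply, cmb, ← Fin.sum_univ_eq_sum_range
        (fun k => (lam 16 (dg 192 U j) k : ℝ) * col B k i) 12]
      exact sum_congr rfl fun k _ => by simp [col, cst, Uz, mul_comm]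
    rw [e1, e2]
    exact lin_ApA hC hL (w := 15) (s := 20) h (lam_ApA 15 _) (by rw [h.1]) (by norm_num)
      (by norm_num) (by norm_num) (by norm_num) (by norm_num)
  · have e2 : kap V a (lam 8 key) =
        cmb (col V) fun j => ((if j < a then 0 else lam 8 key (j - a) : ℤ) : ℝ) := by
      simp [kap]
    rw [e2, kapP, hd]
    refine lin_ApA hC hL (w := 7) (s := 32) h (fun j => ?_) ?_ (by norm_num)
      (by norm_num) (by norm_num) (by norm_num) (by norm_num)
    · split_ifs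
      · simp
      · exact lam_ApA 7 _ _
    · rw [List.length_drop, h.1]
      rcases le_total a 12 with ha | ha
      · conv_rhs => rw [← Nat.add_sub_cancel' ha, sum_range_add]
        rw [sum_eq_zero (s := range a) fun j hj => by rw [if_pos (mem_range.1 hj), zero_mul],
          zero_add]
        exact sum_congr rfl fun j _ => by simp [List.getD_eq_getElem?_getD]
      · rw [Nat.sub_eq_zero_of_le ha, sum_range_zero, sum_eq_zero fun j hj => by
          rw [if_pos ((mem_range.1 hj).trans_le ha), zero_mul]]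
  · have hm' : (m : ℤ) ≤ 2 ^ 128 := by exact_mod_cast hm
    have e : (dg 192 (X + bp) i : ℤ) = v i + 2 ^ 190 := by
      have k := digit_eq (2 ^ 192) (by positivity) i 12 (fun f => v f + 2 ^ 190) i.2 fun f hf => by
        have := abs_le.1 (h4 ⟨f, hf⟩).2
        constructor <;> linarith [this.1, this.2]
      rw [dg, Nat.shiftRight_eq_div_pow, pow_mul, Int.natCast_mod, Int.natCast_div, Nat.cast_add,
        h1, bp_ApA, ← k, Nat.cast_pow (2 ^ 192), Nat.cast_pow, Nat.cast_ofNat]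
      generalize (2 : ℤ) ^ 190 = β
      have W0 : (2 : ℤ) ^ 192 ≠ 0 := by positivity
      generalize (2 : ℤ) ^ 192 = W at W0
      have : W ^ 12 = W * W ^ (11 - (i : ℕ)) * W ^ (i : ℕ) := by
        rw [← pow_succ', ← pow_add]
        congr 1
        omega
      symm
      rw [← Int.add_mul_emod_self_left _ W ((γ + 2 ^ 72) * W ^ (11 - (i : ℕ))),
        ← Int.add_mul_ediv_right _ _ (pow_ne_zero _ W0), this]
      simp only [add_mul, sum_add_distrib]
      congr 2
      ring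
    have e' : (dg 192 (X + bp) i : ℝ) = v i + 2 ^ 190 := by exact_mod_cast e
    rw [e, e', add_sub_cancel_right, add_sub_cancel_right]
    exact h4 i

end Pool.Agent.MP_2877d0_al.T
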