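import Pool.Agent.MP_2877d0_al.T.St

namespace Pool.Agent.MP_2877d0_al.T

open Matrix Finset

theorem bp_ApB : (bp : ℤ) = ∑ f ∈ range 12, ((2 ^ 190 : ℕ) : ℤ) * (2 ^ 192) ^ f +
    ((2 ^ 72 : ℕ) : ℤ) * (2 ^ 192) ^ 12 := by
  decide +kernel

theorem dig_ApB {X : ℕ} {s : ℕ → ℤ} {γ : ℤ}
    (h : (X : ℤ) = ∑ f ∈ range 12, s f * (2 ^ 192) ^ f + γ * (2 ^ 192) ^ 12)
    (hs : ∀ f, f < 12 → 0 ≤ s f ∧ s f < 2 ^ 192) {i : ℕ} (hi : i < 12) :
    (dg 192 X i : ℤ) = s i := by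
  have e : ((2 : ℤ) ^ 192) ^ 12 = 2 ^ 192 * (2 ^ 192) ^ (11 - i) * (2 ^ 192) ^ i := by
    rw [← pow_succ', ← pow_add]; congr 1; omega
  rw [dg, Nat.shiftRight_eq_div_pow, pow_mul, Int.natCast_mod, Int.natCast_div, Nat.cast_pow,
    Nat.cast_pow, Nat.cast_ofNat, h, e, ← mul_assoc,
    Int.add_mul_ediv_right _ _ (by positivity), mul_left_comm, Int.add_mul_emod_self_left]
  exact digit_eq _ (by positivity) i 12 s hi hs

theorem lam_le_ApB {w : ℕ} (hw : 0 < w) (H j : ℕ) : |lam w H j| ≤ 2 ^ (w - 1) := by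
  unfold lam
  split_ifs
  · simp
  · have h1 : H >>> (w * j) % 2 ^ w < 2 ^ w := Nat.mod_lt _ (by positivity)
    have h2 : ((H >>> (w * j) % 2 ^ w : ℕ) : ℤ) < 2 ^ w := by exact_mod_cast h1
    have h3 : (2 : ℤ) ^ w = 2 * 2 ^ (w - 1) := by rw [← pow_succ']; congr 1; omega
    have h4 : (0 : ℤ) ≤ ((H >>> (w * j) % 2 ^ w : ℕ) : ℤ) := Int.natCast_nonneg _
    rw [abs_le]; constructor <;> linarith

theorem lam_zero_ApB {w H c j : ℕ} (h : H >>> (w * c) = 0) (hj : c ≤ j) : lam w H j = 0 := by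
  obtain ⟨d, rfl⟩ := Nat.exists_eq_add_of_le hj
  rw [lam, if_pos (by rw [mul_add, Nat.shiftRight_add, h, Nat.zero_shiftRight])]

theorem core_ApB (hL : LinP) {l : List ℕ} {x : ℕ → Vec} {n e m g : ℕ} (z : ℕ → ℤ) (Λ : ℕ)
    {P Q : ℕ} (hn : n ≤ 12) (hl : LA l x n e m g) (hz : ∀ j, |z j| ≤ (Λ : ℤ))
    (h0 : ∀ j, n ≤ j → j < 12 → z j = 0)
    (hP : (P : ℤ) - Q = bp + ∑ j ∈ range n, z j * l.getD j 0) (hg : 12 * Λ * g < 2 ^ 72)
    (s : ℕ) {c : ℕ → ℝ} (hc : ∀ j, (z j : ℝ) = 2 ^ s * c j) {e' m' : ℕ} (he : 12 * Λ * e ≤ e')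
    (hm : 12 * Λ * m ≤ m') (hm' : m' ≤ 2 ^ 189) : SR (P - Q) (cmb x c) (96 + s) e' m' := by
  obtain ⟨v, γ, h1, -, -, h2⟩ := hL l x n e m g z Λ (2 ^ 190) (2 ^ 72) P Q hn hl hz h0
    (by rw [hP, bp_ApB]) hg (lt_of_le_of_lt (Nat.add_le_add_left (hm.trans hm') _) (by norm_num))
  have hv : ∀ i : Fin 12, |v i| ≤ (m' : ℤ) := fun i => (h2 i).2.trans (by exact_mod_cast hm)
  have hm2 : (m' : ℤ) ≤ 2 ^ 189 := by exact_mod_cast hm'
  intro i
  have hd : (dg 192 (P - Q) i : ℤ) = 2 ^ 190 + v i := by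
    rw [dig_ApB h1 (fun f hf => ?_) i.2, Nat.cast_pow, Nat.cast_ofNat]
    have := abs_le.1 ((hv ⟨f, hf⟩).trans hm2)
    rw [Nat.cast_pow, Nat.cast_ofNat]
    constructor <;> linarith [this.1, this.2]
  have hr : (dg 192 (P - Q) i : ℝ) = 2 ^ 190 + v i := by exact_mod_cast hd
  have hx : cmb x (fun j => z j) i = 2 ^ s * cmb x c i := by
    simp only [cmb, hc, mul_sum, mul_assoc]
  refine ⟨?_, by rw [hd, add_sub_cancel_left]; exact hv i⟩
  rw [hr, add_sub_cancel_left, pow_add, mul_assoc, ← hx]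
  exact (h2 i).1.trans (by exact_mod_cast he)

theorem split_ApB (L : List ℕ) (c : ℕ) (a b : ℕ → ℤ) (h : ∀ j, c ≤ j → a j = 0) :
    ∑ j ∈ range L.length, (if j < c then a j else b (j - c)) * L.getD j 0 =
      ∑ j ∈ range L.length, a j * L.getD j 0 +
        ∑ j ∈ range (L.drop c).length, b j * (L.drop c).getD j 0 := by
  rcases le_total L.length c with hc | hc
  · rw [List.drop_eq_nil_of_le hc, List.length_nil, sum_range_zero, add_zero]
    exact sum_congr rfl fun j hj => by rw [if_pos ((mem_range.1 hj).trans_le hc)]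
  · obtain ⟨d, hd⟩ := Nat.exists_eq_add_of_le hc
    rw [List.length_drop, hd, sum_range_add, sum_range_add, add_tsub_cancel_left, add_assoc,
      ← sum_add_distrib]
    congr 1
    · exact sum_congr rfl fun j hj => by rw [if_pos (mem_range.1 hj)]
    · refine sum_congr rfl fun j _ => ?_
      rw [if_neg (by omega), h _ (by omega), zero_mul, zero_add, add_tsub_cancel_left,
        List.getD_eq_getElem?_getD, List.getD_eq_getElem?_getD, List.getElem?_drop]

theorem apBP (hB : BasP) (hC : CombP) (hL : LinP) : ApBP := by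
  refine ⟨fun L V H hl => ?_, fun L V c Hr Hi hl h0 => ?_, fun F x n H hn hl h0 => ?_⟩
  · obtain ⟨P, Q, e1, e2⟩ := hC (fn 19) 20 1 L H bp 0 (by norm_num)
    have e3 : c20 L H = bp + P - Q * 2 ^ 19 := by
      rw [← Nat.shiftLeft_eq, ← zero_add Q]; exact e1
    rw [e3]
    refine core_ApB hL (lam 20 H) (2 ^ 19) le_rfl hl (fun j => ?_) (fun j h1 h2 => by omega) ?_
      (by norm_num) 12 (fun j => by ring) (by norm_num) (by norm_num) (by norm_num)
    · exact_mod_cast lam_le_ApB (w := 20) (by norm_num) H j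
    · rw [hl.1] at e2
      simp only [Nat.cast_one, one_mul] at e2
      rw [← e2, Nat.cast_add, Nat.cast_mul, Nat.cast_pow, Nat.cast_ofNat, add_sub_assoc, mul_comm]
  · obtain ⟨P, Q, e1, e2⟩ := hC (fun acc s => comb (fn 19) 8 256 4096 (drp c L) Hi acc s) 20 1 L
      Hr bp 0 (by norm_num)
    obtain ⟨P', Q', e1', e2'⟩ := hC (fn 19) 8 4096 (drp c L) Hi (bp + P) (0 + Q) (by norm_num)
    have e3 : cQ L c Hr Hi = bp + P + P' - (0 + Q + Q') * 2 ^ 19 := by
      rw [← Nat.shiftLeft_eq]; exact e1.trans e1'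
    rw [e3]
    refine core_ApB hL (fun j => if j < c then lam 20 Hr j else 4096 * lam 8 Hi (j - c)) (2 ^ 19)
      le_rfl hl (fun j => ?_) (fun j h1 h2 => by omega) ?_
      (by norm_num) 12 (fun j => ?_) (by norm_num) (by norm_num) (by norm_num)
    · split_ifs
      · exact_mod_cast lam_le_ApB (w := 20) (by norm_num) Hr j
      · have := lam_le_ApB (w := 8) (by norm_num) Hi (j - c)
        rw [abs_mul, abs_of_pos (by norm_num : (0 : ℤ) < 4096)]
        norm_num at this ⊢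
        linarith
    · rw [hB.2.2.2.2.2.2.2.1] at e2'
      simp only [Nat.cast_one, one_mul] at e2
      rw [← hl.1, split_ApB L c _ (fun j => 4096 * lam 8 Hi j) fun j hj => lam_zero_ApB h0 hj,
        ← e2]
      rw [Nat.cast_ofNat] at e2'
      rw [← e2']
      generalize bp = b
      push_cast
      ring
    · split_ifs <;> push_cast <;> ring
  · obtain ⟨P, Q, e1, e2⟩ := hC (fn 35) 36 1 F H bp 0 (by norm_num)
    have e3 : c36 F H = bp + P - Q * 2 ^ 35 := by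
      rw [← Nat.shiftLeft_eq, ← zero_add Q]; exact e1
    rw [e3]
    refine core_ApB hL (lam 36 H) (2 ^ 35) hn hl (fun j => ?_) (fun j h1 _ => lam_zero_ApB h0 h1)
      ?_ (by norm_num) 28 (fun j => by ring) (by norm_num) (by norm_num) (by norm_num)
    · exact_mod_cast lam_le_ApB (w := 36) (by norm_num) H j
    · rw [hl.1] at e2
      simp only [Nat.cast_one, one_mul] at e2
      rw [← e2, Nat.cast_add, Nat.cast_mul, Nat.cast_pow, Nat.cast_ofNat, add_sub_assoc, mul_comm]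

end Pool.Agent.MP_2877d0_al.T
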