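import Pool.Agent.MP_2877d0_al.T.St

/-! Assembly of the checked claims. -/

namespace Pool.Agent.MP_2877d0_al.T

/-- claims `j, …, b - 1`, each in one part -/
noncomputable def chkL (ct : CT) (nt : NT) (NN b : ℕ) (l : List Tr) : ℕ → Bool :=
  List.rec (fun j => Nat.beq j b) (fun t _ ih j =>
    andB (Nat.beq (ctGet ct j).np 1) (andB (chkC ct nt NN j 0 t) (ih (Nat.add j 1)))) l

def Rg (p : ℕ → Prop) (a b : ℕ) : Prop := ∀ i, a ≤ i → i < b → p i

theorem Rg.trans {p : ℕ → Prop} {a b c : ℕ} (h : Rg p a b) (h' : Rg p b c) : Rg p a c :=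
  fun i h1 h2 => (Nat.lt_or_ge i b).elim (h i h1) fun h3 => h' i h3 h2

theorem Rg.one {p : ℕ → Prop} (a b : ℕ) (hb : Nat.beq (a + 1) b = true) (h : p a) : Rg p a b := by
  intro i h1 h2
  have := Nat.eq_of_beq_eq_true hb
  obtain rfl : i = a := by omega
  exact h

theorem andB_true {x y : Bool} (h : andB x y = true) : x = true ∧ y = true := by
  cases x
  · exact absurd h (by simp [andB])
  · exact ⟨rfl, h⟩

theorem Rg.ofL {ct : CT} {nt : NT} {NN b : ℕ} {l : List Tr} :
    ∀ {a : ℕ}, chkL ct nt NN b l a = true → Rg (Done ct nt NN) a b := by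
  induction l with
  | nil =>
    intro a h i h1 h2
    have : a = b := Nat.eq_of_beq_eq_true h
    omega
  | cons t l ih =>
    intro a h
    obtain ⟨h1, h2⟩ := andB_true (x := Nat.beq (ctGet ct a).np 1)
      (y := andB (chkC ct nt NN a 0 t) (chkL ct nt NN b l (a + 1))) h
    obtain ⟨h3, h4⟩ := andB_true h2
    have e : (ctGet ct a).np = 1 := Nat.eq_of_beq_eq_true h1
    refine (Rg.one a (a + 1) (Nat.beq_refl _) ⟨by omega, t, fun p hp => ?_⟩).trans (ih h4)
    obtain rfl : p = 0 := by omega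
    exact h3

theorem Rg.ofP {ct : CT} {nt : NT} {NN : ℕ} (j b np : ℕ) (t : Tr)
    (h0 : andB (Nat.beq (j + 1) b) (andB (Nat.beq (ctGet ct j).np np) (Nat.ble 1 np)) = true)
    (h : Rg (fun p => chkC ct nt NN j p t = true) 0 np) : Rg (Done ct nt NN) j b := by
  obtain ⟨h1, h2⟩ := andB_true h0
  obtain ⟨h3, h4⟩ := andB_true h2
  have e : (ctGet ct j).np = np := Nat.eq_of_beq_eq_true h3
  have := Nat.le_of_ble_eq_true h4
  exact Rg.one j b h1 ⟨by omega, t, fun p hp => h p (Nat.zero_le _) (e ▸ hp)⟩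

theorem Rg.ofA {q : ℕ → Bool} (a c b : ℕ) (hb : Nat.beq (a + c) b = true)
    (h : allN (fun i => q (Nat.add a i)) c = true) : Rg (fun i => q i = true) a b := by
  have e := Nat.eq_of_beq_eq_true hb
  subst e
  clear hb
  induction c with
  | zero => intro i h1 h2; omega
  | succ c ih =>
    obtain ⟨h1, h2⟩ := andB_true (x := q (a + c)) (y := allN (fun i => q (Nat.add a i)) c) h
    exact (ih h2).trans (Rg.one (a + c) (a + (c + 1)) (Nat.beq_refl _) h1)

end Pool.Agent.MP_2877d0_al.T
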