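import Pool.Agent.MP_2877d0_al.T.St

/-! Specifications of the small functions of the checker. -/

namespace Pool.Agent.MP_2877d0_al.T

open Matrix Finset

theorem andB_Bas (x y : Bool) : andB x y = true ↔ x = true ∧ y = true := by
  cases x <;> cases y <;> simp [andB]

theorem orB_Bas (x y : Bool) : orB x y = true ↔ x = true ∨ y = true := by
  cases x <;> cases y <;> simp [orB]

theorem allN_Bas (p : ℕ → Bool) (n : ℕ) : allN p n = true ↔ ∀ j, j < n → p j = true := by
  induction n with
  | zero => exact ⟨fun _ j hj => absurd hj (Nat.not_lt_zero j), fun _ => rfl⟩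
  | succ n ih =>
    show andB (p n) (allN p n) = true ↔ _
    rw [andB_Bas, ih]
    refine ⟨fun h j hj => ?_, fun h => ⟨h n (Nat.lt_succ_self n), fun j hj => h j (by omega)⟩⟩
    rcases Nat.lt_succ_iff_lt_or_eq.1 hj with e | e
    · exact h.2 j e
    · exact e ▸ h.1

theorem allL_Bas (p : ℕ → Bool) (l : List ℕ) : allL p l = true ↔ ∀ x ∈ l, p x = true := by
  induction l with
  | nil => exact ⟨fun _ x hx => absurd hx List.not_mem_nil, fun _ => rfl⟩
  | cons a l ih =>
    show andB (p a) (allL p l) = true ↔ _
    rw [andB_Bas, ih, List.forall_mem_cons]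

theorem ab_Bas (β d : ℕ) : (ab β d : ℤ) = |(d : ℤ) - β| := by
  show (((d - β) + (β - d) : ℕ) : ℤ) = _
  rcases abs_cases ((d : ℤ) - β) with h | h <;> omega

theorem mn_Bas (x y : ℕ) : mn x y = min x y := by
  show x - (x - y) = _
  omega

theorem mx_Bas (x y : ℕ) : mx x y = max x y := by
  show x + (y - x) = _
  omega

theorem drp_Bas (c : ℕ) (l : List ℕ) : drp c l = l.drop c := by
  induction c with
  | zero => rfl
  | succ c ih =>
    have e : ∀ m : List ℕ, (List.rec [] (fun _ t _ => t) m : List ℕ) = m.tail := fun m => by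
      cases m <;> rfl
    show (List.rec [] (fun _ t _ => t) (drp c l) : List ℕ) = _
    rw [e, ih, List.tail_drop]

theorem mapR_Bas (f : ℕ → ℕ) (l : List ℕ) : mapR f l = l.map f := by
  induction l with
  | nil => rfl
  | cons a l ih =>
    show f a :: mapR f l = _
    rw [ih, List.map_cons]

theorem sumL_Bas (l : List ℕ) : sumL l = ∑ i ∈ range l.length, l.getD i 0 := by
  induction l with
  | nil => rfl
  | cons a l ih =>
    show a + sumL l = _
    rw [ih, List.length_cons, sum_range_succ', add_comm]
    simp only [List.getD_cons_succ, List.getD_cons_zero]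

theorem zl_Bas (f : ℕ → ℕ → ℕ) (l : List ℕ) : ∀ l', zl f l l' = List.zipWith f l l' := by
  induction l with
  | nil => intro l'; rw [List.zipWith_nil_left]; rfl
  | cons a l ih =>
    intro l'
    cases l' with
    | nil => rfl
    | cons b l' =>
      show f a b :: zl f l l' = _
      rw [ih, List.zipWith_cons_cons]

theorem zs_Bas (l : List ℕ) : ∀ l' : List ℕ, l.length = l'.length →
    zs l l' = ∑ i ∈ range l.length, l.getD i 0 * l'.getD i 0 := by
  induction l with
  | nil => intro l' _; rfl
  | cons a l ih =>
    intro l' h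
    cases l' with
    | nil => exact absurd h (by simp)
    | cons b l' =>
      show a * b + zs l l' = _
      rw [ih l' (by simpa using h), List.length_cons, sum_range_succ', add_comm]
      simp only [List.getD_cons_succ, List.getD_cons_zero]

theorem pk_Bas (f : ℕ → ℕ) (l : List ℕ) :
    pk f l = ∑ i ∈ range l.length, f (l.getD i 0) * (2 ^ 128) ^ i := by
  induction l with
  | nil => rfl
  | cons a l ih =>
    show f a + pk f l <<< 128 = _
    rw [ih, Nat.shiftLeft_eq, List.length_cons, sum_range_succ', add_comm, sum_mul]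
    simp only [List.getD_cons_succ, List.getD_cons_zero, pow_zero, mul_one, pow_succ _ (_ : ℕ),
      mul_assoc]

theorem sumI_Bas (f : ℕ → ℤ) (n : ℕ) : sumI f n = ∑ j ∈ range n, f j := by
  induction n with
  | zero => rfl
  | succ n ih =>
    show sumI f n + f n = _
    rw [ih, sum_range_succ]

theorem dotZ_Bas (l : List ℤ) : ∀ l' : List ℤ, l.length = l'.length →
    dotZ l l' = ∑ i ∈ range l.length, l.getD i 0 * l'.getD i 0 := by
  induction l with
  | nil => intro l' _; rfl
  | cons a l ih =>
    intro l' h
    cases l' with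
    | nil => exact absurd h (by simp)
    | cons b l' =>
      show a * b + dotZ l l' = _
      rw [ih l' (by simpa using h), List.length_cons, sum_range_succ', add_comm]
      simp only [List.getD_cons_succ, List.getD_cons_zero]

theorem digs_Bas (w k A : ℕ) : digs w (2 ^ w) k A = (List.range k).map (dg w A) := by
  refine List.ext_getElem (by rw [digs_length, List.length_map, List.length_range])
    fun i h1 h2 => ?_
  rw [List.getElem_map, List.getElem_range, dg, ← digs_getD w (2 ^ w) k A i
    (by rwa [digs_length] at h1), List.getD_eq_getElem _ _ h1]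

theorem d192_Bas (St : ℕ) : d192 St = (List.range 12).map (dg 192 St) := by
  rw [← digs_Bas, d192]
  norm_num

theorem d128_Bas (P : ℕ) : d128 P = (List.range 12).map (dg 128 P) := by
  rw [← digs_Bas, d128]
  norm_num

theorem f12_Bas (P : ℕ) (p : ℕ → ℕ) (h : F12 P p) (i : ℕ) (hi : i < 12) : dg 128 P i = p i := by
  have k := digit_eq (2 ^ 128) (by positivity) i 12 (fun f => (p f : ℤ)) hi fun f hf =>
    ⟨Int.natCast_nonneg _, by
      have h1 : (p f : ℤ) ≤ 2 ^ 100 := by exact_mod_cast h.2 f hf
      exact h1.trans_lt (by norm_num)⟩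
  rw [dg, Nat.shiftRight_eq_div_pow, pow_mul, h.1]
  exact_mod_cast k

theorem fld_Bas (B f : ℕ) : fld B f = dg 24 B f := rfl

theorem ktAll_Bas (p : ℕ → Bool) (t : KT) (k : ℕ) : ktAll p t = true → Leaf k t → p k = true := by
  induction t with
  | non => intro _ h; exact h.elim
  | leaf j => intro h e; exact (show j = k from e) ▸ h
  | node q l r ihl ihr =>
    intro h e
    have h' := (andB_Bas (ktAll p l) (ktAll p r)).1 h
    exact e.elim (ihl h'.1) (ihr h'.2)

theorem find_Bas (key q : ℕ) (l r : KT) :
    ktFind key (KT.node q l r) = ktFind key l ∨ ktFind key (KT.node q l r) = ktFind key r := by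
  show (Bool.rec (ktFind key l) (ktFind key r) (Nat.ble q key) : ℕ) = _ ∨
    (Bool.rec (ktFind key l) (ktFind key r) (Nat.ble q key) : ℕ) = _
  cases Nat.ble q key
  · exact Or.inl rfl
  · exact Or.inr rfl

theorem ktFind_Bas (p : ℕ → Bool) (t : KT) (key : ℕ) : ktAll p t = true → Leaf (ktFind key t) t := by
  induction t with
  | non => intro h; exact absurd h Bool.false_ne_true
  | leaf j => intro _; exact rfl
  | node q l r ihl ihr =>
    intro h
    have h' := (andB_Bas (ktAll p l) (ktAll p r)).1 h
    rcases find_Bas key q l r with e | e <;> rw [e]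
    · exact Or.inl (ihl h'.1)
    · exact Or.inr (ihr h'.2)

theorem ktKey_Bas (t : KT) (key : ℕ) (h : 1 ≤ key) : ktFind key t = key → Leaf key t := by
  induction t with
  | non => intro e; exact absurd (show 0 = key from e) (by omega)
  | leaf j => intro e; exact e
  | node q l r ihl ihr =>
    intro h'
    rcases find_Bas key q l r with e | e <;> rw [e] at h'
    · exact Or.inl (ihl h')
    · exact Or.inr (ihr h')

theorem basP : BasP :=
  ⟨andB_Bas, orB_Bas, allN_Bas, allL_Bas, ab_Bas, mn_Bas, mx_Bas, drp_Bas, mapR_Bas, sumL_Bas,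
    zl_Bas, zs_Bas, pk_Bas, sumI_Bas, dotZ_Bas, d192_Bas, d128_Bas, f12_Bas, fld_Bas, ktAll_Bas,
    ktFind_Bas, ktKey_Bas⟩

end Pool.Agent.MP_2877d0_al.T
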