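import Pool.Agent.MP_2877d0_al.T.St
namespace Pool.Agent.MP_2877d0_al.T
open Matrix Finset

theorem dg_Box (f hi v lo f' : ℕ) (hv : v < 2 ^ 24) (hlo : lo < 2 ^ (24 * f)) :
    dg 24 (2 ^ (24 * f) * (2 ^ 24 * hi + v) + lo) f' =
      if f' < f then dg 24 lo f' else if f' = f then v else dg 24 hi (f' - f - 1) := by
  apply Nat.eq_of_testBit_eq
  intro i
  rw [dg, Nat.testBit_mod_two_pow, Nat.testBit_shiftRight, Nat.testBit_two_pow_mul_add _ hlo,
    Nat.testBit_two_pow_mul_add _ hv]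
  by_cases hi24 : i < 24
  · split_ifs with h1 h2 h3 h4 h5 h6 h7 h8 <;> try omega
    · rw [dg, Nat.testBit_mod_two_pow, Nat.testBit_shiftRight]
    · rw [show 24 * f' + i - 24 * f = i by omega]
      simp [hi24]
    · rw [dg, Nat.testBit_mod_two_pow, Nat.testBit_shiftRight,
        show 24 * f' + i - 24 * f - 24 = 24 * (f' - f - 1) + i by omega]
  · have h : (if f' < f then dg 24 lo f' else if f' = f then v else dg 24 hi (f' - f - 1)) <
        2 ^ i := by
      refine lt_of_lt_of_le ?_ (Nat.pow_le_pow_right two_pos (not_lt.1 hi24))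
      split_ifs
      · exact Nat.mod_lt _ (by norm_num)
      · exact hv
      · exact Nat.mod_lt _ (by norm_num)
    rw [Nat.testBit_lt_two_pow h]
    simp [hi24]

theorem fld_Box (B f : ℕ) : fld B f = dg 24 B f := rfl

theorem fld_lt_Box (B f : ℕ) : fld B f ≤ 16777215 :=
  Nat.le_of_lt_succ (Nat.mod_lt _ (by norm_num))

theorem setF_Box (B f v f' : ℕ) (hv : v ≤ 16777215) :
    fld (setF B f v) f' = if f' = f then v else fld B f' := by
  have hlo : B % 2 ^ (24 * f) < 2 ^ (24 * f) := Nat.mod_lt _ (by positivity)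
  have hd : B / 2 ^ (24 * f) % 2 ^ 24 < 2 ^ 24 := Nat.mod_lt _ (by positivity)
  have e1 : B = 2 ^ (24 * f) * (2 ^ 24 * (B / 2 ^ (24 * f) / 2 ^ 24) + B / 2 ^ (24 * f) % 2 ^ 24) +
      B % 2 ^ (24 * f) := by rw [Nat.div_add_mod, Nat.div_add_mod]
  have e2 : setF B f v = 2 ^ (24 * f) * (2 ^ 24 * (B / 2 ^ (24 * f) / 2 ^ 24) + v) +
      B % 2 ^ (24 * f) := by
    show B - (B >>> (24 * f) % 2 ^ 24) <<< (24 * f) + v <<< (24 * f) = _
    rw [Nat.shiftLeft_eq, Nat.shiftLeft_eq, Nat.shiftRight_eq_div_pow]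
    generalize B / 2 ^ (24 * f) / 2 ^ 24 = q at *
    generalize B / 2 ^ (24 * f) % 2 ^ 24 = d at *
    generalize B % 2 ^ (24 * f) = r at *
    generalize 2 ^ (24 * f) = M at *
    have e3 : B = (M * (2 ^ 24 * q) + r) + d * M := by rw [e1]; ring
    rw [e3, Nat.add_sub_cancel]
    ring
  rw [fld_Box, fld_Box, e2, dg_Box _ _ _ _ _ (by omega) hlo]
  conv_rhs => rw [e1, dg_Box _ _ _ _ _ hd hlo]
  split_ifs <;> first | rfl | omega

theorem mono_Box {x : ℝ} {lo hi lo' hi' : ℕ} (h : InI x lo hi) (h1 : lo' ≤ lo) (h2 : hi ≤ hi')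
    (h3 : hi' ≤ 16777215) : InI x lo' hi' :=
  ⟨h.1.imp (fun e => by omega) fun e => le_trans (by exact_mod_cast h1) e,
    h.2.imp (fun e => by omega) fun e => le_trans e (by exact_mod_cast h2)⟩

theorem univ_Box : (∀ f, f < 12 → fld univ0 (2 * f) = 1 ∧ fld univ0 (2 * f + 1) = 385) ∧
    ∀ f, f < 14 → 12 ≤ f → fld univ0 (2 * f) = 0 ∧ fld univ0 (2 * f + 1) = 16777215 := by
  decide +kernel

theorem high_Box (B t : ℕ) (h : 24 ≤ t) : fld B t = dg 24 (B >>> 576) (t - 24) := by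
  rw [fld_Box, dg, dg, ← Nat.shiftRight_add, show 576 + 24 * (t - 24) = 24 * t by omega]

theorem fin_Box (hB : BasP) {ω : Vec} {V V' : Mat} {box : ℕ} (h : finB box = true)
    (h' : InB ω V V' box) (i : Fin 12) : (fld box (2 * i) : ℝ) ≤ 32 * sg ω i ∧
      32 * sg ω i ≤ fld box (2 * i + 1) ∧ 1 ≤ fld box (2 * i) ∧ fld box (2 * i) ≤ 512 ∧
      fld box (2 * i + 1) ≤ 512 := by
  obtain ⟨bA, -, bN, -⟩ := hB
  have h1 := (bA _ _).1 ((bN _ _).1 h i i.2)
  rw [Nat.ble_eq, Nat.ble_eq] at h1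
  have h2 := h' i (by omega)
  rw [val, dif_pos i.2] at h2
  have h3 := h2.1.resolve_left (by omega)
  have h4 := h2.2.resolve_left (by omega)
  exact ⟨h3, h4, h1.1, le_trans (by exact_mod_cast h3.trans h4) h1.2, h1.2⟩

theorem boxP (hB : BasP) : BoxP := by
  have hB' := hB
  obtain ⟨bA, -, bN, -⟩ := hB'
  refine ⟨fun ω V V' box f v hf hv h => ?_, fun ω V V' box pre hs h f hf => ?_,
    fun ω V V' W W' g box pre hg hs h f hf => ?_, fun ω V V' box hs h i => ?_⟩
  · rcases le_total (val ω V V' f) v with h1 | h1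
    · refine Or.inl fun j hj => ?_
      rw [setF_Box _ _ _ _ hv, setF_Box _ _ _ _ hv, if_neg (by omega)]
      split_ifs with h2
      · obtain rfl : j = f := by omega
        exact ⟨(h j hj).1, Or.inr h1⟩
      · exact h j hj
    · refine Or.inr fun j hj => ?_
      rw [setF_Box _ _ _ _ hv, setF_Box _ _ _ _ hv, if_neg (show 2 * j + 1 ≠ 2 * f by omega)]
      split_ifs with h2
      · obtain rfl : j = f := by omega
        exact ⟨Or.inr h1, (h j hj).2⟩
      · exact h j hj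
  · have h1 := (bA _ _).1 ((bN _ _).1 hs f hf)
    rw [Nat.ble_eq, Nat.ble_eq] at h1
    exact mono_Box (h f hf) h1.1 h1.2 (fld_lt_Box _ _)
  · obtain ⟨h1, h2⟩ := (bA _ _).1 hs
    by_cases h12 : f < 12
    · have h3 := (bA _ _).1 ((bN _ _).1 h1 ((f + (12 - g)) % 12) (Nat.mod_lt _ (by norm_num)))
      rw [Nat.ble_eq, Nat.ble_eq, show ((f + (12 - g)) % 12 + g) % 12 = f by omega] at h3
      have h4 := h ((f + (12 - g)) % 12) (by omega)
      rw [val, dif_pos (Nat.mod_lt _ (by norm_num))] at h4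
      rw [val, dif_pos h12]
      exact mono_Box h4 h3.1 h3.2 (fld_lt_Box _ _)
    · rw [Nat.beq_eq] at h2
      have h3 : pre >>> 576 = univ0 >>> 576 := h2
      have h4 := univ_Box.2 f hf (by omega)
      rw [high_Box _ _ (by omega), high_Box _ _ (by omega), ← h3, ← high_Box _ _ (by omega),
        ← high_Box _ _ (by omega)] at h4
      exact ⟨Or.inl h4.1, Or.inl h4.2⟩
  · obtain ⟨h1, h2, h3, -, h4⟩ := fin_Box hB hs h i
    have h5 : (1 : ℝ) ≤ fld box (2 * i) := by exact_mod_cast h3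
    have h6 : (fld box (2 * i + 1) : ℝ) ≤ 512 := by exact_mod_cast h4
    constructor <;> linarith

theorem lam_Box (j : ℕ) : lam 20 528384 j = if j = 0 then 4096 else 0 := by
  rcases j with _ | j
  · decide +kernel
  · rw [lam, if_pos, if_neg (by omega)]
    rw [Nat.shiftRight_eq_div_pow]
    exact Nat.div_eq_of_lt (lt_of_lt_of_le (by norm_num)
      (Nat.pow_le_pow_right two_pos (show 20 ≤ 20 * (j + 1) by omega)))

theorem key_Box (hB : BasP) (hA : ApBP) (hS : SqP) {w : Vec} {V : Mat} {L : List ℕ} {t : ℕ}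
    {E : ℝ} (hw : ∀ i, 0 < w i) (hL : LC L V) (hQ : Qf w (col V 0) = 1)
    (ht : (t : ℝ) ≤ 2 ^ 48 * E) (h : allL (fun c => Nat.ble 19342813113834066795298816
      (Nat.mul c t)) (d128 (sqL (c20 L 528384))) = true) (i : Fin 12) : w i ≤ E := by
  obtain ⟨-, -, -, bL, -, -, -, -, -, -, -, -, -, -, -, -, bD, bF, -⟩ := hB
  have e : (cmb (col V) fun j => (lam 20 528384 j : ℝ) / 4096) = col V 0 := by
    funext i
    rw [cmb, sum_eq_single_of_mem 0 (by simp)]
    · rw [lam_Box, if_pos rfl]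
      norm_num
    · intro j _ hj
      rw [lam_Box, if_neg hj]
      simp
  have h1 := hA.1 L V 528384 hL
  rw [e] at h1
  obtain ⟨p, h2, h3⟩ := (hS _ _ h1).2
  have h4 := (bL _ _).1 h (p i) (by
    rw [bD, ← bF _ _ h2 i i.2]
    exact List.mem_map_of_mem (List.mem_range.2 i.2))
  rw [Nat.ble_eq] at h4
  have h5 : (2 : ℝ) ^ 84 ≤ p i * t := by
    have h6 : 2 ^ 84 ≤ p i * t := le_trans (by norm_num) h4
    exact_mod_cast h6
  have h6 : w i * col V 0 i ^ 2 ≤ 1 := by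
    rw [← hQ, Qf]
    exact single_le_sum (f := fun i => w i * col V 0 i ^ 2)
      (fun j _ => mul_nonneg (hw j).le (sq_nonneg _)) (mem_univ i)
  have h7 : (p i : ℝ) * t ≤ 2 ^ 36 * col V 0 i ^ 2 * (2 ^ 48 * E) :=
    mul_le_mul (h3 i) ht (Nat.cast_nonneg _) (by positivity)
  have h8 : 1 ≤ col V 0 i ^ 2 * E := by nlinarith
  have h9 : 0 ≤ E := by
    by_contra hE
    nlinarith [sq_nonneg (col V 0 i)]
  nlinarith [hw i]

theorem sub_Box {t : ℕ} {x : ℝ} (h : |(t : ℝ) - x| ≤ 1) (h1 : 2 ^ 30 ≤ t) :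
    ((t - 1 : ℕ) : ℝ) ≤ x := by
  rw [Nat.cast_sub (le_trans (by norm_num) h1)]
  have := (abs_le.1 h).2
  push_cast
  linarith

theorem add_Box {t : ℕ} {x : ℝ} (h : |(t : ℝ) - x| ≤ 1) : x ≤ ((t + 1 : ℕ) : ℝ) := by
  have := (abs_le.1 h).1
  push_cast
  linarith

theorem initP (hB : BasP) (hD : DualP) (hF : FirstP) (hA : ApBP) (hS : SqP) (hTab : TabP) :
    InitP := by
  have hB' := hB
  obtain ⟨bA, -⟩ := hB'
  refine ⟨fun ω V V' L L' a b hs h => ?_, fun ω V V' box s hw hf h i => ?_⟩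
  · obtain ⟨h1, h2⟩ := (bA _ _).1 h
    obtain ⟨h2, h3⟩ := (bA _ _).1 h2
    obtain ⟨h3, h4⟩ := (bA _ _).1 h3
    rw [Nat.ble_eq] at h1 h2
    have t1 := hTab 385 (by norm_num)
    have t2 := hTab 1 (by norm_num)
    have k1 := key_Box hB hA hS hs.pos hs.lc ((hF _ _ _ _ hs.fl).1 h1)
      (sub_Box t1.1 t1.2.2.1) h3
    have k2 := key_Box hB hA hS (w := iv ω) (fun i => inv_pos.2 (hs.pos i)) hs.lo
      ((hF _ _ _ _ (hD.2 _ _ _ _ _ hs.pos hs.dual hs.fl)).1 h2) (sub_Box t2.2.1 t2.2.2.2.2.1) h4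
    have k3 : ∀ i, (1 : ℝ) ≤ 32 * sg ω i ∧ 32 * sg ω i ≤ 385 := fun i => by
      have a1 := (Real.log_le_iff_le_exp (hs.pos i)).2 (k1 i)
      have a2 := (Real.log_le_iff_le_exp (inv_pos.2 (hs.pos i))).2 (k2 i)
      rw [Real.log_inv] at a2
      push_cast at a1 a2
      unfold sg
      constructor <;> linarith
    refine ⟨fun f hf => ?_, fun i => ?_⟩
    · by_cases h12 : f < 12
      · rw [(univ_Box.1 f h12).1, (univ_Box.1 f h12).2, val, dif_pos h12]
        exact ⟨Or.inr (by exact_mod_cast (k3 _).1), Or.inr (by exact_mod_cast (k3 _).2)⟩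
      · exact ⟨Or.inl (univ_Box.2 f hf (by omega)).1, Or.inl (univ_Box.2 f hf (by omega)).2⟩
    · have := k3 i
      constructor <;> linarith [this.1, this.2]
  · obtain ⟨h1, h2, -, h3, h4⟩ := fin_Box hB hf h i
    have t1 := hTab _ h3
    have t2 := hTab _ h4
    have e1 : ω i = Real.exp (sg ω i - 12) := by
      rw [sg, add_sub_cancel_right, Real.exp_log (hw i)]
    have e2 : iv ω i = Real.exp (12 - sg ω i) := by
      rw [iv, e1, ← Real.exp_neg, neg_sub]
    have p48 : (0 : ℝ) ≤ 2 ^ 48 := by positivity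
    cases s
    · rw [if_neg (by simp), e1]
      exact ⟨(sub_Box t1.1 t1.2.2.1).trans (mul_le_mul_of_nonneg_left
        (Real.exp_le_exp.2 (by linarith)) p48), (mul_le_mul_of_nonneg_left
        (Real.exp_le_exp.2 (by linarith)) p48).trans (add_Box t2.1)⟩
    · rw [if_pos rfl, e2]
      exact ⟨(sub_Box t2.2.1 t2.2.2.2.2.1).trans (mul_le_mul_of_nonneg_left
        (Real.exp_le_exp.2 (by linarith)) p48), (mul_le_mul_of_nonneg_left
        (Real.exp_le_exp.2 (by linarith)) p48).trans (add_Box t1.2.1)⟩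

end Pool.Agent.MP_2877d0_al.T
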