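import Pool.Agent.MP_2877d0_al.T.Math
namespace Pool.Agent.MP_2877d0_al.T
open Matrix Finset

lemma cst_mul_Child (M N : ZMat) : cst (M * N) = cst M * cst N := by
  ext i j; simp [cst, Matrix.mul_apply]

lemma det_zero_Child (N : ZMat) (A : Fin 12) (h : ∀ i k : Fin 12, k ≤ A → A ≤ i → N i k = 0) :
    N.det = 0 := by
  rw [Matrix.det_apply]
  refine Finset.sum_eq_zero fun σ _ => ?_
  have : ∃ k, k ≤ A ∧ A ≤ σ k := by
    by_contra hc
    push Not at hc
    have := Finset.card_le_card_of_injOn (s := Finset.Iic A) (t := Finset.Iio A) σ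
      (fun k hk => by simpa using hc k (by simpa using hk)) σ.injective.injOn
    rw [Fin.card_Iic, Fin.card_Iio] at this
    omega
  obtain ⟨k, h1, h2⟩ := this
  rw [Finset.prod_eq_zero (f := fun i => N (σ i) i) (Finset.mem_univ k) (h _ _ h1 h2), smul_zero]

lemma eta_Child (u : Mat) (h0 : ∀ i j, j < i → u i j = 0) (h1 : ∀ i, u i i = 1) (A : Fin 12) :
    ∃ η : Vec, (∀ k, A < k → η k = 0) ∧ η A = 1 ∧ u *ᵥ η = Pi.single A 1 := by
  have hb : u.BlockTriangular id := fun i j h => h0 i j h
  have hd : u.det = 1 := by rw [Matrix.det_of_isUpperTriangular hb]; simp [h1]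
  have hu : IsUnit u.det := by rw [hd]; exact isUnit_one
  let _ : Invertible u := Matrix.invertibleOfIsUnitDet u hu
  have hi : u⁻¹.BlockTriangular id := Matrix.blockTriangular_inv_of_blockTriangular hb
  have hm : u * u⁻¹ = 1 := Matrix.mul_nonsing_inv u hu
  have hz : ∀ k, A < k → u⁻¹ k A = 0 := fun k hk => hi hk
  refine ⟨fun k => u⁻¹ k A, hz, ?_, ?_⟩
  · have := congrFun (congrFun hm A) A
    rw [Matrix.mul_apply, Finset.sum_eq_single A, h1, one_mul, Matrix.one_apply_eq] at this
    · exact this
    · intro k _ hk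
      rcases lt_or_gt_of_ne hk with h | h
      · rw [h0 _ _ h, zero_mul]
      · rw [hz _ h, mul_zero]
    · simp
  · funext i
    have := congrFun (congrFun hm i) A
    rw [Matrix.mul_apply] at this
    simp only [Matrix.mulVec, dotProduct]
    rw [this, Matrix.one_apply, Pi.single_apply]

lemma Qf_Child (ω η : Vec) (M : Mat) :
    Qf ω (M *ᵥ η) = η ⬝ᵥ ((Mᵀ * diagonal ω * M) *ᵥ η) := by
  rw [← Matrix.mulVec_mulVec, ← Matrix.mulVec_mulVec, Matrix.dotProduct_mulVec,
    Matrix.vecMul_transpose]
  simp only [Qf, dotProduct, Matrix.mulVec_diagonal]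
  exact Finset.sum_congr rfl fun i _ => by ring

lemma cmb_Child (V : Mat) (y : Vec) :
    cmb (col V) (fun j => if h : j < 12 then y ⟨j, h⟩ else 0) = V *ᵥ y := by
  funext i
  simp only [cmb, Matrix.mulVec, dotProduct]
  rw [Finset.sum_range]
  exact Finset.sum_congr rfl fun j _ => by simp [col, mul_comm]

theorem childP : ChildP := by
  constructor
  · rintro ω V a b hab ⟨N, hN, hP, u, h0, h1, hG⟩
    have ha : a < 12 := by omega
    let A : Fin 12 := ⟨a, ha⟩
    let ξ : ℕ → ℤ := fun j => if h : a + j < 12 then N ⟨a + j, h⟩ A else 0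
    have hξ : ∀ j : Fin 12, a ≤ j.val → N j A = ξ (j.val - a) := by
      intro j hj
      have h : a + (j.val - a) < 12 := by omega
      simp only [ξ, dif_pos h]
      congr 1
      exact Fin.ext (by simp only; omega)
    have hz : ∀ j, 12 - a - b ≤ j → ξ j = 0 := by
      intro j hj
      by_cases h : a + j < 12
      · simp only [ξ, dif_pos h]
        exact hP _ _ (by simp only [A, Fin.lt_def]; omega) (Or.inr (by simp only; omega))
      · simp only [ξ, dif_neg h]
    have hlow : ∀ i k : Fin 12, k < A → A ≤ i → N i k = 0 := fun i k hk hi =>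
      hP i k (hk.trans_le hi) (Or.inl hk)
    obtain ⟨η, e0, e1, e2⟩ := eta_Child u h0 h1 A
    refine ⟨ξ, fun j => if h : j < 12 then (cst N *ᵥ η) ⟨j, h⟩ else 0,
      ⟨N, ⟨hN, hP, u, h0, h1, hG⟩, ha, hξ⟩, ?_, hz, ?_, ?_⟩
    · by_contra hc
      push Not at hc
      have hall : ∀ j, ξ j = 0 := fun j => (lt_or_ge j (12 - a - b)).elim (hc j) (hz j)
      refine hN.ne_zero (det_zero_Child N A fun i k hk hi => ?_)
      rcases hk.lt_or_eq with h | h
      · exact hlow i k h hi
      · rw [h, hξ i hi, hall]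
    · intro j hj
      by_cases h : j < 12
      · simp only [dif_pos h, Matrix.mulVec, dotProduct]
        rw [Finset.sum_eq_single A, e1, mul_one, ← hξ ⟨j, h⟩ hj]
        · rfl
        · intro k _ hk
          rcases lt_or_gt_of_ne hk with h' | h'
          · simp [cst, hlow ⟨j, h⟩ k h' hj]
          · rw [e0 _ h', mul_zero]
        · simp
      · have h' : ¬ a + (j - a) < 12 := by omega
        simp only [dif_neg h, ξ, dif_neg h', Int.cast_zero]
    · rw [cmb_Child, Matrix.mulVec_mulVec, Qf_Child, hG, ← Matrix.mulVec_mulVec,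
        Matrix.dotProduct_mulVec, Matrix.vecMul_transpose, e2]
      simp
  · rintro ω V a b ξ ⟨N, ⟨hN, hP, u, h0, h1, hG⟩, ha, hξ⟩
    let A : Fin 12 := ⟨a, ha⟩
    let s : Fin 12 → ℤ := fun i => if i = A then -1 else 1
    let r : Vec := fun i => (s i : ℝ)
    have hs : ∀ i, s i * s i = 1 := fun i => by by_cases h : i = A <;> simp [s, h]
    have hr : ∀ i, r i * r i = 1 := fun i => by simp only [r]; exact_mod_cast hs i
    have hc : cst (diagonal s) = diagonal r := by
      ext i j; by_cases h : i = j <;> simp [cst, r, h]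
    have hrr : (diagonal r : Mat) * diagonal r = 1 := by
      rw [Matrix.diagonal_mul_diagonal]; simp [hr]
    refine ⟨N * diagonal s, ⟨?_, ?_, diagonal r * u * diagonal r, ?_, ?_, ?_⟩, ha, ?_⟩
    · rw [Matrix.det_mul, Matrix.det_diagonal]
      exact hN.mul (IsUnit.prod_univ_iff.2 fun i => IsUnit.of_mul_eq_one _ (hs i))
    · intro i j hij h
      rw [Matrix.mul_diagonal, hP i j hij h, zero_mul]
    · intro i j hij
      rw [Matrix.mul_diagonal, Matrix.diagonal_mul, h0 i j hij, mul_zero, zero_mul]
    · intro i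
      rw [Matrix.mul_diagonal, Matrix.diagonal_mul, h1, mul_one, hr]
    · rw [cst_mul_Child, hc, ← Matrix.mul_assoc V, Matrix.transpose_mul (V * cst N),
        Matrix.diagonal_transpose]
      calc diagonal r * (V * cst N)ᵀ * diagonal ω * (V * cst N * diagonal r)
          = diagonal r * ((V * cst N)ᵀ * diagonal ω * (V * cst N)) * diagonal r := by
            simp only [Matrix.mul_assoc]
        _ = diagonal r * uᵀ * (diagonal r * diagonal r) * u * diagonal r := by
            rw [hG, hrr]; simp only [Matrix.mul_assoc, Matrix.one_mul]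
        _ = _ := by
            simp only [Matrix.transpose_mul, Matrix.diagonal_transpose, Matrix.mul_assoc]
    · intro j hj
      rw [Matrix.mul_diagonal, hξ j hj]
      simp [s, A]

/-- the shift of the indices -/
def rp_Child (g : ℕ) (i : Fin 12) : Fin 12 := ⟨(i.val + g) % 12, Nat.mod_lt _ (by norm_num)⟩

lemma rp_bij_Child (g : ℕ) : Function.Bijective (rp_Child g) := by
  refine Finite.injective_iff_bijective.1 fun i j h => ?_
  have := congrArg Fin.val h
  simp only [rp_Child] at this
  exact Fin.ext (by omega)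

theorem rotP : RotP := by
  refine ⟨?_, ?_, ?_⟩
  · rintro ω W g a b hg ⟨N, hN, hP, u, h0, h1, hG⟩
    refine ⟨N, hN, hP, u, h0, h1, ?_⟩
    rw [← hG]
    ext j k
    rw [Matrix.mul_apply, Matrix.mul_apply, ← (rp_bij_Child g).sum_comp]
    refine Finset.sum_congr rfl fun i _ => ?_
    rw [Matrix.mul_diagonal, Matrix.mul_diagonal, Matrix.transpose_apply, Matrix.transpose_apply]
    have : rot (12 - g) ω (rp_Child g i) = ω i := by
      simp only [rot, rp_Child]
      congr 1
      exact Fin.ext (by simp only; omega)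
    rw [this]
    rfl
  · intro W W' g h j k
    rw [← h j k, ← (rp_bij_Child g).sum_comp fun i => W' i (Fin.rev j) * W i k]
    rfl
  · rintro B ⟨Γ, hΓ, h⟩ g
    induction g with
    | zero =>
      refine ⟨1, by simp, fun i k => ?_⟩
      have : cst 1 = 1 := by ext i j; by_cases h : i = j <;> simp [cst, h, Matrix.one_apply]
      rw [this, Matrix.mul_one]
      simp only [rot]
      congr 1
      exact Fin.ext (by simp only; omega)
    | succ g ih =>
      obtain ⟨Δ, hΔ, ih⟩ := ih
      refine ⟨Δ * Γ, by rw [Matrix.det_mul]; exact hΔ.mul hΓ, fun i k => ?_⟩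
      have e : rot (g + 1) (fun i => B i k) i = rot 1 (fun i => B i k) (rp_Child g i) := by
        simp only [rot, rp_Child]
        congr 1
        exact Fin.ext (by simp only; omega)
      rw [e, h, cst_mul_Child, ← Matrix.mul_assoc, Matrix.mul_apply, Matrix.mul_apply]
      refine Finset.sum_congr rfl fun l _ => ?_
      rw [← ih i l]
      rfl

end Pool.Agent.MP_2877d0_al.T
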