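import Pool.Agent.MP_2877d0_al.T.Math
import Pool.Agent.MP_2877d0_al.T.Tab

/-! The checker (written with recursors, for the kernel). -/

namespace Pool.Agent.MP_2877d0_al.T

open Finset

/-- digit `j` of width `w` -/
def dg (w H j : ℕ) : ℕ := H >>> (w * j) % 2 ^ w

/-- signed digit `j`; zero once the number is used up -/
def lam (w H j : ℕ) : ℤ :=
  if H >>> (w * j) = 0 then 0 else ((H >>> (w * j) % 2 ^ w : ℕ) : ℤ) - 2 ^ (w - 1)

noncomputable def andB (x y : Bool) : Bool := Bool.rec false y x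
noncomputable def orB (x y : Bool) : Bool := Bool.rec y true x
noncomputable def allN (p : ℕ → Bool) (n : ℕ) : Bool :=
  Nat.rec true (fun j ih => Bool.rec false ih (p j)) n
noncomputable def allL (p : ℕ → Bool) (l : List ℕ) : Bool :=
  List.rec true (fun x _ ih => Bool.rec false ih (p x)) l
def ab (β d : ℕ) : ℕ := Nat.add (Nat.sub d β) (Nat.sub β d)
def mn (x y : ℕ) : ℕ := Nat.sub x (Nat.sub x y)
def mx (x y : ℕ) : ℕ := Nat.add x (Nat.sub y x)
noncomputable def drp (c : ℕ) (l : List ℕ) : List ℕ :=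
  Nat.rec l (fun _ ih => List.rec [] (fun _ t _ => t) ih) c
noncomputable def mapR (f : ℕ → ℕ) (l : List ℕ) : List ℕ :=
  List.rec [] (fun x _ ih => f x :: ih) l
noncomputable def sumL (l : List ℕ) : ℕ := List.rec 0 (fun x _ ih => Nat.add x ih) l
noncomputable def zl (f : ℕ → ℕ → ℕ) (l : List ℕ) : List ℕ → List ℕ :=
  List.rec (fun _ => []) (fun x _ ih l2 => List.rec [] (fun y t _ => f x y :: ih t) l2) l
noncomputable def zs (l : List ℕ) : List ℕ → ℕ :=
  List.rec (fun _ => 0) (fun x _ ih l2 =>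
    List.rec 0 (fun y t _ => Nat.add (Nat.mul x y) (ih t)) l2) l
noncomputable def pk (f : ℕ → ℕ) (l : List ℕ) : ℕ :=
  List.rec 0 (fun d _ ih => Nat.add (f d) (Nat.shiftLeft ih 128)) l

/-- `k (acc + ∑ digit * mul * V) (s + ∑ V)`, over the digits of `H` -/
noncomputable def comb (k : ℕ → ℕ → ℕ) (w M mul : ℕ) (l : List ℕ) : ℕ → ℕ → ℕ → ℕ :=
  List.rec (fun _ acc s => k acc s) (fun V _ ih H acc s =>
    Bool.rec (ih (Nat.shiftRight H w) (Nat.add acc (Nat.mul (Nat.mul (Nat.mod H M) mul) V))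
      (Nat.add s V)) (k acc s) (Nat.beq H 0)) l

def fn (sh acc s : ℕ) : ℕ := Nat.sub acc (Nat.shiftLeft s sh)
noncomputable def col16 (TB : List ℕ) (H : ℕ) : ℕ :=
  comb (fn 15) 16 65536 1 TB H (Nat.shiftLeft 1 2324) 0
noncomputable def kapP (L : List ℕ) (a key : ℕ) : ℕ :=
  comb (fn 7) 8 256 1 (drp a L) key (Nat.shiftLeft 1 2336) 0
noncomputable def c20 (L : List ℕ) (H : ℕ) : ℕ := comb (fn 19) 20 1048576 1 L H bp 0
noncomputable def cQ (L : List ℕ) (c Hr Hi : ℕ) : ℕ :=
  comb (fun acc s => comb (fn 19) 8 256 4096 (drp c L) Hi acc s) 20 1048576 1 L Hr bp 0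
noncomputable def c36 (L : List ℕ) (H : ℕ) : ℕ := comb (fn 35) 36 68719476736 1 L H bp 0

noncomputable def d192 (St : ℕ) : List ℕ := digs 192 6277101735386680763835789423207666416102355444464034512896 12 St
noncomputable def d128 (P : ℕ) : List ℕ := digs 128 340282366920938463463374607431768211456 12 P
def su (d : ℕ) : ℕ :=
  (fun a => Nat.add (Nat.shiftRight (Nat.mul a a) 24) 1)
    (Nat.add (Nat.shiftRight (ab 1569275433846670190958947355801916604025588861116008628224 d) 78) 2)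
def sl (d : ℕ) : ℕ :=
  (fun a => Nat.shiftRight (Nat.mul a a) 24) (Nat.sub (Nat.shiftRight (ab 1569275433846670190958947355801916604025588861116008628224 d) 78) 1)
noncomputable def sqU (St : ℕ) : ℕ := pk su (d192 St)
noncomputable def sqL (St : ℕ) : ℕ := pk sl (d192 St)

/-- the trivial cut -/
def G0 : ℕ := Nat.shiftLeft 1 4736

def mk (ty P N rp rn : ℕ) : ℕ :=
  Nat.sub (Nat.add (Nat.add G0 (Nat.shiftLeft P (Nat.mul 1536 ty))) (Nat.shiftLeft rp 4608))
    (Nat.add (Nat.shiftLeft N (Nat.mul 1536 ty)) (Nat.shiftLeft rn 4608))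

def tX (k : ℕ) : ℕ := Nat.mod (Nat.shiftRight TAB (Nat.mul 144 k)) 4722366482869645213696
def tY (k : ℕ) : ℕ := Nat.mod (Nat.shiftRight TAB (Nat.add (Nat.mul 144 k) 72)) 4722366482869645213696
def fld (B f : ℕ) : ℕ := Nat.mod (Nat.shiftRight B (Nat.mul 24 f)) 16777216
def setF (B f v : ℕ) : ℕ :=
  Nat.add (Nat.sub B (Nat.shiftLeft (fld B f) (Nat.mul 24 f))) (Nat.shiftLeft v (Nat.mul 24 f))

/-! ### cuts -/

noncomputable def cutQ (L : List ℕ) (a b s r : ℕ) : ℕ :=
  (fun c j0 Hi Hr =>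
    Bool.rec G0 (mk s 0 (sqU (cQ L c Hr Hi)) 0 68719476736)
      (andB (orB (Nat.ble c a) (Nat.ble 12 (Nat.add c b)))
        (andB (Nat.beq (Nat.shiftRight Hr (Nat.mul 20 c)) 0)
          (andB (Nat.ble (Nat.add c j0) 11)
            (andB (Nat.ble 1 (Nat.shiftRight Hi (Nat.mul 8 j0)))
              (Nat.ble 1 (ab 128 (Nat.mod (Nat.shiftRight Hi (Nat.mul 8 j0)) 256))))))))
    (Nat.mod r 16) (Nat.mod (Nat.shiftRight r 4) 16)
    (Nat.mod (Nat.shiftRight r 12) (Nat.shiftLeft 1 (Nat.mul 8 (Nat.mod (Nat.shiftRight r 8) 16))))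
    (Nat.shiftRight r (Nat.add 12 (Nat.mul 8 (Nat.mod (Nat.shiftRight r 8) 16))))

noncomputable def tD (F : List ℕ) (H j : ℕ) : List ℕ :=
  mapR (fun d => Nat.shiftRight d 68) (d192 (c36 F (Nat.add
    (Nat.mod (Nat.shiftRight H (Nat.mul 18 (Nat.mul j (Nat.sub j 1))))
      (Nat.shiftLeft 1 (Nat.mul 36 j))) (Nat.shiftLeft 34628173824 (Nat.mul 36 j)))))
noncomputable def tG (ρ F : List ℕ) (H j : ℕ) : List ℕ :=
  zl (fun r d => (fun x => Nat.mul r (Nat.mul x x)) (ab 5316911983139663491615228241121378304 d)) ρ (tD F H j)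
noncomputable def tS (ρ F : List ℕ) (H j : ℕ) : ℕ := sumL (tG ρ F H j)
noncomputable def tR (ρ F : List ℕ) (H j : ℕ) : List ℕ := zl Nat.mul ρ (tD F H j)
noncomputable def tE (ρ F : List ℕ) (H j l : ℕ) : ℕ :=
  ab (Nat.shiftLeft (Nat.add (sumL (tR ρ F H j)) (sumL (tR ρ F H l))) 122)
    (Nat.add (zs (tR ρ F H j) (tD F H l)) (Nat.shiftLeft (sumL ρ) 244))
noncomputable def tOK (ρ F : List ℕ) (H k : ℕ) : Bool :=
  allN (fun j => andB (Nat.ble 22835963083295358096932575511191922182123945984 (tS ρ F H j)) (andB (Nat.ble (tS ρ F H j) 93536104789177786765035829293842113257979682750464)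
    (allN (fun l => Nat.ble (Nat.shiftLeft (Nat.mul (tE ρ F H j l) (tE ρ F H j l)) 48)
      (Nat.mul (tS ρ F H j) (tS ρ F H l))) j))) k
noncomputable def tPi (S : ℕ → ℕ) (k : ℕ) : ℕ :=
  Nat.rec 281474976710656 (fun j ih =>
    Nat.shiftRight (Nat.mul ih (Nat.sub (Nat.shiftRight (S j) 112) 4096)) 48) k
noncomputable def tTau (ρ F : List ℕ) (H k : ℕ) : ℕ :=
  Nat.rec 0 (fun j ih => Nat.add ih
    (pk (fun g => Nat.div (Nat.shiftLeft g 36) (tS ρ F H j)) (tG ρ F H j))) k

/-- `2^36` times a lower bound of `log (P / 2^48) + 12` -/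
def lgL (m P : ℕ) : ℕ :=
  Nat.add (Nat.shiftLeft m 31) (Nat.div (Nat.shiftLeft (Nat.sub P (Nat.add (tX m) 1)) 37)
    (Nat.add P (Nat.add (tX m) 1)))

noncomputable def cutT (F : List ℕ) (fin : Bool) (s : Bool) (r : ℕ) : ℕ :=
  (fun k m bs H => (fun ρ => (fun τ P => (fun tb =>
    Bool.rec G0
      (Bool.rec
        (mk 2 τ 0 (Nat.add (Nat.add tb 824633720833) (Nat.shiftLeft (Nat.mul k k) 17)) (lgL m P))
        (mk 2 0 τ (Nat.add 824633720832 (Nat.shiftLeft (Nat.mul k k) 17)) (Nat.add tb (lgL m P)))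
        s)
      (andB fin (andB (Nat.ble k (List.length F)) (andB (tOK ρ F H k)
        (Nat.ble (Nat.add (tX m) 1) P)))))
    (Nat.shiftRight (zs (d128 τ) bs) 5))
    (tTau ρ F H k) (tPi (tS ρ F H) k))
    (mapR (Bool.rec tX tY s) bs))
    (Nat.mod r 8) (Nat.mod (Nat.shiftRight r 3) 512)
    (digs 9 512 12 (Nat.shiftRight r 12)) (Nat.shiftRight r 120)

noncomputable def sumI (f : ℕ → ℤ) (n : ℕ) : ℤ := Nat.rec 0 (fun j ih => Int.add ih (f j)) n

/-- cut for the candidate `key` at place `a` of the other side -/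
noncomputable def cutK (L : List ℕ) (a key s r : ℕ) : ℕ :=
  (fun x => Bool.rec G0 (mk s 0 (sqU (c20 L r)) 0 (Nat.shiftLeft (Nat.mul x x) 12))
    (andB (Nat.ble 1 key) (Nat.beq (Nat.shiftRight r (Nat.mul 20 (Nat.sub 12 a))) 0)))
    (Int.natAbs (sumI (fun j => lam 20 r (11 - a - j) * lam 8 key j) (12 - a)))

noncomputable def cutU (L : List ℕ) (a s lo hi r : ℕ) : ℕ :=
  (fun d => (fun M => Bool.rec G0
    (mk s (sqL (c20 L (Nat.add d 554050781184))) 0
      (Nat.shiftLeft (Nat.add 16777216 (Nat.mul M M)) 12) 0)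
    (andB (Nat.ble 2 a) (andB (Nat.ble 1 lo) (Nat.ble hi 16777214))))
    (mx (ab 8912896 (Nat.add lo d)) (ab 8912896 (Nat.add hi d)))) (Nat.mod r 1048576)

noncomputable def cutM (L : List ℕ) (s lo hi r : ℕ) : ℕ :=
  Bool.rec
    (Bool.rec G0 (mk s (sqL (c20 L 554051309568)) (sqU (c20 L 554051301376))
      (Nat.shiftLeft hi 26) 562949953421312) (Nat.ble hi 16777214))
    (Bool.rec G0 (mk s (sqL (c20 L 554051301376)) (sqU (c20 L 554051309568))
      562949953421312 (Nat.shiftLeft lo 26)) (Nat.ble 1 lo))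
    (Nat.beq r 0)

noncomputable def cutF (L : List ℕ) (a s : ℕ) : ℕ :=
  Bool.rec G0 (mk s (sqL (c20 L 528384)) 0 68719476736 0) (Nat.ble 1 a)

noncomputable def cutS (s : Bool) : ℕ :=
  Bool.rec (mk 2 ones 0 7541277964315 0) (mk 2 0 ones 0 7541277956315) s

/-- sets of candidate keys -/
inductive KT : Type
  | non : KT
  | leaf (k : ℕ) : KT
  | node (p : ℕ) (l r : KT) : KT

noncomputable def ktKey (t : KT) : ℕ := KT.rec 0 (fun k => k) (fun _ _ _ _ _ => 0) t
noncomputable def ktFind (key : ℕ) (t : KT) : ℕ :=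
  KT.rec 0 (fun k => k) (fun p _ _ x y => Bool.rec x y (Nat.ble p key)) t
noncomputable def ktAll (p : ℕ → Bool) (t : KT) : Bool :=
  KT.rec false p (fun _ _ _ x y => Bool.rec false y x) t
noncomputable def ktNon (t : KT) : Bool := KT.rec true (fun _ => false) (fun _ _ _ _ _ => false) t

/-- a claim: node, lengths of the two flags, side of the candidates, box, number of parts, keys -/
structure Cl : Type where
  nid : ℕ
  a : ℕ
  b : ℕ
  sd : ℕ
  pre : ℕ
  np : ℕ
  kt : KT

inductive CT : Type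
  | leaf (c : Cl) : CT
  | node (l r : CT) : CT

noncomputable def ctGet (t : CT) : ℕ → Cl :=
  CT.rec (fun c _ => c) (fun _ _ x y j =>
    Bool.rec (y (Nat.shiftRight j 1)) (x (Nat.shiftRight j 1)) (Nat.beq (Nat.mod j 2) 0)) t

inductive NT : Type
  | leaf (u0 u1 : ℕ) : NT
  | node (l r : NT) : NT

noncomputable def ntGet (t : NT) : ℕ → ℕ × ℕ :=
  NT.rec (fun u0 u1 _ => (u0, u1)) (fun _ _ x y j =>
    Bool.rec (y (Nat.shiftRight j 1)) (x (Nat.shiftRight j 1)) (Nat.beq (Nat.mod j 2) 0)) t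

noncomputable def cols (TB : List ℕ) (U : ℕ) : List ℕ := mapR (col16 TB) (d192 U)

/-- data that stay fixed while one claim is checked -/
structure Env : Type where
  L0 : List ℕ
  L1 : List ℕ
  nid : ℕ
  a : ℕ
  b : ℕ
  sd : ℕ
  fin : Bool
  idx : ℕ

/-- the key if the candidate is on side `s` -/
noncomputable def keyS (E : Env) (kt : KT) (s : ℕ) : ℕ :=
  Bool.rec 0 (ktKey kt) (Nat.beq E.sd s)

noncomputable def flg (L : List ℕ) (a key : ℕ) : List ℕ :=
  Bool.rec (List.take a L ++ [kapP L a key]) (List.take a L) (Nat.beq key 0)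

noncomputable def cutSide (L : List ℕ) (a b s : ℕ) (sb fin : Bool) (key okey box ty r : ℕ) : ℕ :=
  Bool.rec (Bool.rec (Bool.rec (Bool.rec (Bool.rec (Bool.rec
    (cutS sb)
    (cutF L a s) (Nat.beq ty 5))
    (cutM L s (fld box (Nat.add 24 (Nat.mul 2 s))) (fld box (Nat.add 25 (Nat.mul 2 s))) r)
      (Nat.beq ty 4))
    (cutU L a s (fld box (Nat.add 24 (Nat.mul 2 s))) (fld box (Nat.add 25 (Nat.mul 2 s))) r)
      (Nat.beq ty 3))
    (cutK L b okey s r) (Nat.beq ty 2))
    (cutT (flg L a key) fin sb r) (Nat.beq ty 1))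
    (cutQ L a b s r) (Nat.beq ty 0)

noncomputable def mkCut (E : Env) (kt : KT) (box c : ℕ) : ℕ :=
  Bool.rec
    (cutSide E.L1 E.b E.a 1 true E.fin (keyS E kt 1) (keyS E kt 0) box (Nat.mod c 8)
      (Nat.shiftRight c 4))
    (cutSide E.L0 E.a E.b 0 false E.fin (keyS E kt 0) (keyS E kt 1) box (Nat.mod c 8)
      (Nat.shiftRight c 4))
    (Nat.ble (Nat.mod c 16) 7)

/-! ### certificates -/

noncomputable def agg (pool : List ℕ) : ℕ → ℕ → ℕ → ℕ :=
  List.rec (fun _ _ acc => acc) (fun C _ ih m Y acc =>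
    Bool.rec (Bool.rec
      (ih (Nat.shiftRight m 1) (Nat.shiftRight Y 20)
        (Nat.add acc (Nat.mul (Nat.mod Y 1048576) C)))
      (ih (Nat.shiftRight m 1) Y acc) (Nat.beq (Nat.mod m 2) 0)) acc (Nat.beq m 0)) pool

def cP (a b k : ℕ) : ℕ := Nat.add (Nat.mul a (tX k)) (Nat.mul b (tY k))
def cN (k : ℕ) : ℕ := Nat.shiftLeft (Nat.add (tX k) (tY k)) 127
def vF (a b c k : ℕ) : ℕ :=
  Nat.sub (Nat.add (Nat.add 1606938044258990275541962092341162602522202993782792835301376 (cP a b k)) (Nat.shiftLeft (Nat.mul c k) 43))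
    (Nat.add (cN k) (Nat.shiftLeft k 170))
def dP (a c k : ℕ) : ℕ :=
  Nat.add (Nat.add (Nat.mul a (tX k)) (Nat.shiftLeft (tY k) 127)) (Nat.shiftLeft c 48)
def dN (b k : ℕ) : ℕ :=
  Nat.add (Nat.add (Nat.shiftLeft (tX k) 127) (Nat.mul b (tY k))) 47890485652059026823698344598447161988085597568237568

noncomputable def qR (a b c e h : ℕ) : Bool :=
  andB (Nat.ble (Nat.add (dP a c h) e) (dN b h))
    (orB (Nat.ble 170141183460469231731687303715884105728 a) (orB (Nat.ble b 170141183460469231731687303715884105728) (Nat.ble (Nat.add (cN h) e) (cP a b h))))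
noncomputable def qL (a b c e l : ℕ) : Bool :=
  andB (Nat.ble (Nat.add (dN b l) e) (dP a c l))
    (orB (Nat.ble a 170141183460469231731687303715884105728) (orB (Nat.ble 170141183460469231731687303715884105728 b) (Nat.ble (Nat.add (cN l) e) (cP a b l))))
def pen (a b e l h : ℕ) : ℕ :=
  Nat.add (Nat.shiftRight (Nat.mul
    (mx (Nat.sub (Nat.add (cP a b l) e) (cN l)) (Nat.sub (Nat.add (cP a b h) e) (cN h)))
    (Nat.mul (Nat.sub h l) (Nat.sub h l))) 13) 1
noncomputable def pc (a b c e l h : ℕ) : ℕ :=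
  Nat.sub (mn (vF a b c l) (vF a b c h))
    (Bool.rec (pen a b e l h) 0 (orB (qR a b c e h) (qL a b c e l)))
noncomputable def co (a b c l h t : ℕ) : ℕ :=
  (fun e => Bool.rec 0 (Nat.sub (Bool.rec
    (mn (mn (pc a b c e l t) (Nat.sub (mn (vF a b c t) (vF a b c (Nat.add t 1)))
      (pen a b e t (Nat.add t 1)))) (pc a b c e (Nat.add t 1) h))
    (pc a b c e l h) (Nat.beq t 0)) e) (Nat.ble h 512))
    (Nat.add (ab 170141183460469231731687303715884105728 a) (ab 170141183460469231731687303715884105728 b))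
noncomputable def coS (n : ℕ) : ℕ → ℕ → ℕ → ℕ → ℕ → ℕ :=
  Nat.rec (fun _ _ _ _ _ => 0) (fun _ ih A B C box P =>
    Nat.add (co (Nat.mod A 340282366920938463463374607431768211456) (Nat.mod B 340282366920938463463374607431768211456) (Nat.mod C 340282366920938463463374607431768211456)
      (Nat.mod box 16777216) (Nat.mod (Nat.shiftRight box 24) 16777216) (Nat.mod P 512))
      (ih (Nat.shiftRight A 128) (Nat.shiftRight B 128) (Nat.shiftRight C 128)
        (Nat.shiftRight box 48) (Nat.shiftRight P 9))) n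
noncomputable def cert (box : ℕ) (pool : List ℕ) (d : ℕ) : Bool :=
  (fun A => Nat.ble
    (Nat.add (Nat.add (Nat.mul 12 1606938044258990275541962092341162602522202993782792835301376)
      (Nat.shiftLeft (Nat.mod (Nat.shiftRight A 4608) 340282366920938463463374607431768211456) 48)) 1)
    (Nat.add (coS 12 (Nat.mod A (Nat.shiftLeft 1 1536))
      (Nat.mod (Nat.shiftRight A 1536) (Nat.shiftLeft 1 1536))
      (Nat.mod (Nat.shiftRight A 3072) (Nat.shiftLeft 1 1536)) box (Nat.shiftRight d 64)) 47890485652059026823698344598447161988085597568237568))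
    (agg pool (Nat.mod d 18446744073709551616) (Nat.shiftRight d 172) acc0)

noncomputable def keepP (pool : List ℕ) : ℕ → List ℕ :=
  List.rec (fun _ => []) (fun C _ ih m =>
    Bool.rec (Bool.rec (C :: ih (Nat.shiftRight m 1)) (ih (Nat.shiftRight m 1))
      (Nat.beq (Nat.mod m 2) 0)) [] (Nat.beq m 0)) pool

/-! ### boxes -/

noncomputable def subB (box pre : ℕ) : Bool :=
  allN (fun f => andB (Nat.ble (fld pre (2 * f)) (fld box (2 * f)))
    (Nat.ble (fld box (2 * f + 1)) (fld pre (2 * f + 1)))) 14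
noncomputable def subR (g box pre : ℕ) : Bool :=
  andB (allN (fun f => andB (Nat.ble (fld pre (2 * ((f + g) % 12))) (fld box (2 * f)))
    (Nat.ble (fld box (2 * f + 1)) (fld pre (2 * ((f + g) % 12) + 1)))) 12)
    (Nat.beq (Nat.shiftRight pre 576) (Nat.shiftRight univ0 576))
noncomputable def finB (box : ℕ) : Bool :=
  allN (fun f => andB (Nat.ble 1 (fld box (2 * f))) (Nat.ble (fld box (2 * f + 1)) 512)) 12
noncomputable def initOK (L0 L1 : List ℕ) (a b : ℕ) : Bool :=
  andB (Nat.ble 1 a) (andB (Nat.ble 1 b) (andB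
    (allL (fun c => Nat.ble 19342813113834066795298816 (Nat.mul c (Nat.sub (tX 385) 1))) (d128 (sqL (c20 L0 528384))))
    (allL (fun c => Nat.ble 19342813113834066795298816 (Nat.mul c (Nat.sub (tY 1) 1))) (d128 (sqL (c20 L1 528384))))))

/-! ### references to other claims -/

noncomputable def ilist (X : ℕ) : List ℤ :=
  (d192 (Nat.add X bp)).map fun d => (d : ℤ) - 1569275433846670190958947355801916604025588861116008628224
noncomputable def dotZ (l : List ℤ) : List ℤ → ℤ :=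
  List.rec (fun _ => 0) (fun x _ ih l2 =>
    List.rec 0 (fun y t _ => Int.add (Int.mul x y) (ih t)) l2) l
def near (x y : ℤ) : Bool := Nat.ble (Int.natAbs (x - y * 6277101735386680763835789423207666416102355444464034512896)) 1569275433846670190958947355801916604025588861116008628224
noncomputable def rdot (Lo T : List ℕ) (g j k : ℕ) : ℤ :=
  dotZ (ilist (Lo.getD (11 - j) 0))
    (List.drop g (ilist (T.getD k 0)) ++ List.take g (ilist (T.getD k 0)))
noncomputable def refS (Lo T : List ℕ) (c a key g : ℕ) : Bool :=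
  andB (Nat.ble c 12) (allN (fun k => Bool.rec
    (allN (fun j => orB (Nat.ble j k) (near (rdot Lo T g j k) 0)) 12)
    (andB (Nat.beq k a) (andB (Nat.ble 1 key) (orB
      (allN (fun j => orB (Nat.ble (j + 1) a) (near (rdot Lo T g j k) (lam 8 key (j - a)))) 12)
      (allN (fun j => orB (Nat.ble (j + 1) a) (near (rdot Lo T g j k) (-lam 8 key (j - a)))) 12))))
    (Nat.ble a k)) c)

noncomputable def useC (ct : CT) (E : Env) (box j : ℕ) : Bool :=
  (fun c : Cl => andB (Nat.ble (j + 1) E.idx) (andB (Nat.beq c.nid E.nid) (andB (Nat.ble c.a E.a)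
    (andB (Nat.ble c.b E.b) (andB (ktNon c.kt) (subB box c.pre)))))) (ctGet ct j)

noncomputable def refC (ct : CT) (nt : NT) (NN : ℕ) (E : Env) (kt : KT) (box j g : ℕ) : Bool :=
  (fun c : Cl => andB (Nat.ble (j + 1) E.idx) (andB (Nat.ble (c.nid + 1) NN) (andB (Nat.ble g 11)
    (andB (ktNon c.kt) (andB (subR g box c.pre)
    (andB (refS E.L1 (cols TB0 (ntGet nt c.nid).1) c.a E.a (keyS E kt 0) g)
      (refS E.L0 (cols TB1 (ntGet nt c.nid).2) c.b E.b (keyS E kt 1) g))))))) (ctGet ct j)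

/-! ### enumeration of the candidates -/

def gr (a Gp j : ℕ) : ℕ := Gp >>> (240 * j) % 2 ^ (20 * (12 - a))

noncomputable def entE (L Lo : List ℕ) (a Lp Gp k f : ℕ) : ℤ :=
  if f < 12 then (((dg 192 (L.getD k 0 + bp) f + 2 ^ 35) >>> 36 : ℕ) : ℤ) - 2 ^ 154
  else if f < 24 then
    (if f - 12 = k then 2 ^ 32 else if f - 12 < k then (dg 48 Lp (12 * k + (f - 12)) : ℤ) - 2 ^ 47
      else 0)
  else if f = 49 then 1
  else if k < a then 0
  else if f < 36 then
    (((dg 192 (c20 Lo (gr a Gp (k - a))) (f - 24) + 2 ^ 59) >>> 60 : ℕ) : ℤ) - 2 ^ 130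
  else if f < 48 then
    (if f - 36 < 12 - a then lam 20 (gr a Gp (k - a)) (11 - a - (f - 36)) else 0)
  else 256 ^ (k - a)

noncomputable def rowsE (L Lo : List ℕ) (a m Lp Gp : ℕ) : List (List ℤ) :=
  (List.range m).map fun k => (List.range 50).map (entE L Lo a Lp Gp k)

noncomputable def levE (rows : List (List ℤ)) (Dl : List ℕ) (a c : ℕ) : List (ℕ × ℕ × ℕ) :=
  mkLev (fun j => (Dl.getD j 0, 96 * (12 + j),
    (∑ f ∈ range 50, ent rows j f * (2 ^ 96) ^ f).toNat)) a c

noncomputable def goE (leaf : Bool → ℕ → ℕ → Bool) (lv : List (ℕ × ℕ × ℕ)) :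
    Bool → ℕ → ℕ → Bool :=
  go 79228162514264337593543950336 4294967296 4611686018427387936 64 32 32 leaf lv

/-- `e = [side, D, L, G, seq, η, ε, depth]`; part `p` of `np` of the enumeration -/
noncomputable def enumE (L Lo : List ℕ) (a b : ℕ) (wt e : List ℕ) (p np : ℕ)
    (leaf : Bool → ℕ → ℕ → Bool) : Bool :=
  (fun rows Dl => (fun lv =>
    andB (orB (Nat.ble 1 p) (decide (LatOK 96 50 (12 - b) 12 a (12 - b - a) 4294967296 4611686018427387904 32 32 bias0
      (2 ^ 82) (2 ^ 72) (e.getD 5 0 : ℕ) (e.getD 6 0 : ℕ) rows Dl wt lv)))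
      (goE (filt np p (goE leaf (List.drop (e.getD 7 0) lv))) (List.take (e.getD 7 0) lv)
        true bias0 79228162514264337593543950336))
    (levE rows Dl a (12 - b - a)))
    (rowsE L Lo a (12 - b) (e.getD 2 0) (e.getD 3 0)) (digs 48 281474976710656 12 (e.getD 1 0))

/-- `∑ j < c, 128 * 256 ^ j` -/
def k128 (c : ℕ) : ℕ := 128 * ((256 ^ c - 1) / 255)

def keyOf (K St : ℕ) : ℕ :=
  Nat.sub (Nat.add (Nat.mod (Nat.shiftRight St 4608) 79228162514264337593543950336) K) 19807040628566084398385987584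

noncomputable def lnL (c : ℕ) : ℕ → ℕ → ℕ → ℕ → ℕ :=
  Nat.rec (fun _ _ x y => ab y x) (fun _ ih G K x y =>
    (fun g d => ih (Nat.shiftRight G 96) (Nat.shiftRight K 8) (Nat.add x (Nat.mul g d))
      (Nat.add y (Nat.add (Nat.shiftLeft g 7) (Nat.shiftLeft d 94))))
      (Nat.mod G 79228162514264337593543950336) (Nat.mod K 256)) c

def pU (d : ℕ) : ℕ :=
  (fun a => Nat.add (Nat.shiftRight (Nat.mul a a) 24) 1)
    (Nat.add (Nat.shiftRight (ab 19807040628566084398385987584 d) 18) 2)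

noncomputable def qs (μ : ℕ) (pl : List ℕ) : List (ℕ × ℕ × ℕ) → ℕ → ℕ → Bool :=
  List.rec (fun _ x y => Nat.ble (Nat.add x 1) y) (fun p _ ih z x y =>
    List.rec false (fun t z' _ => (fun m =>
      ih z' (Nat.add x (Nat.mul (Nat.sub p m) t.2.1)) (Nat.add y (Nat.mul (Nat.sub m p) t.2.2)))
      (Nat.shiftRight (Nat.mul μ t.1) 24)) z) pl

noncomputable def qtry (L2 : ℕ) (pl : List ℕ) (z : List (ℕ × ℕ × ℕ)) (n : ℕ) : ℕ → Bool :=
  Nat.rec (fun _ => false) (fun _ ih sq => Bool.rec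
    ((fun μ => orB (qs μ pl z (Nat.shiftLeft μ 60) (Nat.shiftLeft L2 60))
      (ih (Nat.shiftRight sq 8))) (Nat.shiftRight (Nat.mul L2 (Nat.mod sq 256)) 8))
    false (Nat.beq sq 0)) n

noncomputable def quick (c K sq : ℕ) (z : List (ℕ × ℕ × ℕ)) (St : ℕ) : Bool :=
  (fun x => qtry (Nat.mul x x) (mapR pU (digs 96 79228162514264337593543950336 12 (Nat.shiftRight St 2304))) z 8 sq)
    (lnL c (Nat.shiftRight St 3456) (keyOf K St) (Nat.shiftLeft c 101) 0)

noncomputable def memC (ct : CT) (top : KT) (key : ℕ) : Bool :=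
  Nat.beq (ktFind key (ctGet ct (ktFind key top)).kt) key

noncomputable def leafQ (ct : CT) (top : KT) (c K sq : ℕ) (zz : List (ℕ × ℕ × ℕ))
    (z : Bool) (St _rem : ℕ) : Bool :=
  orB z (orB (quick c K sq zz St) (memC ct top (keyOf K St)))

noncomputable def topOK (ct : CT) (E : Env) (box s : ℕ) (top : KT) : Bool :=
  ktAll (fun j => (fun c : Cl => andB (Nat.ble (j + 1) E.idx) (andB (Nat.beq c.nid E.nid)
    (andB (Nat.beq c.a E.a) (andB (Nat.beq c.b E.b) (andB (Nat.beq c.sd s) (subB box c.pre))))))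
    (ctGet ct j)) top

/-- lower and upper bounds, scale `2^48`, of the weights (`s = false`) or their inverses -/
noncomputable def wLo (s : Bool) (box i : ℕ) : ℕ :=
  Bool.rec (tX (fld box (2 * i)) - 1) (tY (fld box (2 * i + 1)) - 1) s
noncomputable def wHi (s : Bool) (box i : ℕ) : ℕ :=
  Bool.rec (tX (fld box (2 * i + 1)) + 1) (tY (fld box (2 * i)) + 1) s

noncomputable def enumS (ct : CT) (L Lo : List ℕ) (a b : ℕ) (s : Bool) (box : ℕ) (e : List ℕ)
    (top : KT) (p np : ℕ) : Bool :=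
  andB (Nat.ble (a + b) 11) (andB (Nat.ble 1 b) (andB (finB box)
    (enumE L Lo a b ((List.range 12).map (wLo s box)) e p np
      (leafQ ct top (12 - b - a) (k128 (12 - b - a)) (e.getD 4 0)
        ((List.range 12).map fun i =>
          (dg 128 (sqL (c20 Lo 528384)) i, wHi (!s) box i, wLo (!s) box i))))))

noncomputable def enumC (ct : CT) (E : Env) (box : ℕ) (e : List ℕ) (top : KT) (p np : ℕ) : Bool :=
  Bool.rec (andB (topOK ct E box 1 top) (enumS ct E.L1 E.L0 E.b E.a true box e top p np))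
    (andB (topOK ct E box 0 top) (enumS ct E.L0 E.L1 E.a E.b false box e top p np))
    (Nat.beq (e.getD 0 0) 0)

/-! ### proof trees -/

inductive Tr : Type
  | cert (d : ℕ) : Tr
  | cut (c : ℕ) (t : Tr) : Tr
  | keep (m : ℕ) (t : Tr) : Tr
  | split (f v : ℕ) (l r : Tr) : Tr
  | kb (l r : Tr) : Tr
  | use (j : ℕ) : Tr
  | ref (j g : ℕ) : Tr
  | enum (e : List ℕ) (top : KT) : Tr

noncomputable def chk (ct : CT) (nt : NT) (NN : ℕ) (E : Env) (p np : ℕ) (t : Tr) :
    KT → ℕ → List ℕ → Bool :=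
  Tr.rec
    (fun d _ box pool => andB E.fin (cert box pool d))
    (fun c _ ih kt box pool => ih kt box (mkCut E kt box c :: pool))
    (fun m _ ih kt box pool => ih kt box (keepP pool m))
    (fun f v _ _ x y kt box pool => andB (Nat.ble f 13) (andB (Nat.ble v 16777215)
      (andB (x kt (setF box (Nat.add (Nat.mul 2 f) 1) v) pool)
        (y kt (setF box (Nat.mul 2 f) v) pool))))
    (fun _ _ x y kt box pool => KT.rec false (fun _ => false)
      (fun _ l r _ _ => andB (x l box pool) (y r box pool)) kt)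
    (fun j _ box _ => useC ct E box j)
    (fun j g kt box _ => refC ct nt NN E kt box j g)
    (fun e top _ box _ => enumC ct E box e top p np) t

/-- part `p` of the check of claim `j` -/
noncomputable def chkC (ct : CT) (nt : NT) (NN j p : ℕ) (t : Tr) : Bool :=
  (fun c : Cl => (fun L0 L1 => andB (Nat.ble (c.nid + 1) NN) (andB (Nat.ble c.sd 1)
    (Bool.rec
      (Bool.rec (chk ct nt NN ⟨L0, L1, c.nid, c.a, c.b, c.sd, false, j⟩ p c.np t c.kt c.pre [])
        (chk ct nt NN ⟨L0, L1, c.nid, c.a, c.b, c.sd, true, j⟩ p c.np t c.kt univ0 [])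
        (initOK L0 L1 c.a c.b))
      (chk ct nt NN ⟨L0, L1, c.nid, c.a, c.b, c.sd, true, j⟩ p c.np t c.kt c.pre [])
      (finB c.pre))))
    (cols TB0 (ntGet nt c.nid).1) (cols TB1 (ntGet nt c.nid).2)) (ctGet ct j)

noncomputable def uz (U k : ℕ) : List ℤ := (List.range 12).map (lam 16 (dg 192 U k))

noncomputable def nodeOK (u : ℕ × ℕ) : Bool :=
  allN (fun j => allN (fun k => decide (dotZ (uz u.2 (11 - j)) (uz u.1 k) =
    if j = k then 1 else 0)) 12) 12

/-! ### the first enumeration -/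

noncomputable def leafR (kt : KT) (z : Bool) (St _rem : ℕ) : Bool :=
  orB z (Bool.rec true (Nat.beq (ktFind (keyOf (k128 11) St) kt) (keyOf (k128 11) St))
    (Nat.ble (sumAbs 19807040628566084398385987584 (digs 96 79228162514264337593543950336 12 St)) 1152921504606855424))

noncomputable def rootE (u : ℕ × ℕ) (kt : KT) (e : List ℕ) (p np : ℕ) : Bool :=
  enumE (cols TB1 u.2) (cols TB0 u.1) 0 1 (List.replicate 12 562949953421312) e p np (leafR kt)

/-- the norm of a listed vector of the dual lattice is smaller than `2 / D` -/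
noncomputable def normOK (u : ℕ × ℕ) (key : ℕ) : Bool :=
  Nat.ble (756680642578125 * ((d192 (kapP (cols TB1 u.2) 0 key + bp)).map
    fun d => ab 1569275433846670190958947355801916604025588861116008628224 d + 2 ^ 30).prod + 1) (2 ^ 1153)

end Pool.Agent.MP_2877d0_al.T
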