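import Pool.Agent.MP_2877d0_al.T.St
namespace Pool.Agent.MP_2877d0_al.T
open Matrix Finset

theorem lam_succ_Comb (w H j : ℕ) : lam w H (j + 1) = lam w (H >>> w) j := by
  unfold lam
  rw [← Nat.shiftRight_add, show w * (j + 1) = w + w * j by ring]

theorem combP : CombP := by
  intro k w mul l H acc s _
  induction l generalizing H acc s with
  | nil => exact ⟨0, 0, rfl, by simp⟩
  | cons V t ih =>
    by_cases h : H = 0
    · subst h
      exact ⟨0, 0, rfl, by simp [lam]⟩
    · obtain ⟨P, Q, h1, h2⟩ := ih (H >>> w) (acc + H % 2 ^ w * mul * V) (s + V)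
      refine ⟨H % 2 ^ w * mul * V + P, V + Q, ?_, ?_⟩
      · have e : Nat.beq H 0 = false := by
          cases H with
          | zero => exact absurd rfl h
          | succ _ => rfl
        have e2 : comb k w (2 ^ w) mul (V :: t) H acc s = Bool.rec
            (comb k w (2 ^ w) mul t (H >>> w) (acc + H % 2 ^ w * mul * V) (s + V)) (k acc s)
            (Nat.beq H 0) := rfl
        rw [e2, e, ← add_assoc, ← add_assoc]
        exact h1
      · have e : lam w H 0 = ((H % 2 ^ w : ℕ) : ℤ) - 2 ^ (w - 1) := by simp [lam, h]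
        rw [List.length_cons, sum_range_succ', e]
        simp only [lam_succ_Comb, List.getD_cons_succ, List.getD_cons_zero]
        rw [← h2, Nat.cast_add, Nat.cast_add, Nat.cast_mul, Nat.cast_mul]
        ring

theorem pos_Comb {W : ℤ} (hW : 0 ≤ W) (c : ℕ → ℤ) (n : ℕ) (h : ∀ f, f < n → 1 - W ≤ c f) :
    1 ≤ ∑ f ∈ range n, c f * W ^ f + W ^ n := by
  induction n with
  | zero => simp
  | succ n ih =>
    have h1 := ih fun f hf => h f (by omega)
    have h2 := mul_le_mul_of_nonneg_right (h n (by omega)) (pow_nonneg hW n)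
    rw [sum_range_succ, pow_succ]
    linarith

theorem bd_Comb {R : Type} [CommRing R] [LinearOrder R] [IsStrictOrderedRing R] {n : ℕ}
    (hn : n ≤ 12) (z y : ℕ → R) {a b : R} (ha : 0 ≤ a) (hb : 0 ≤ b) (hz : ∀ j, |z j| ≤ a)
    (hy : ∀ j, j < n → |y j| ≤ b) : |∑ j ∈ range n, z j * y j| ≤ 12 * a * b := by
  refine (abs_sum_le_sum_abs _ _).trans ((sum_le_card_nsmul _ _ (a * b) fun j hj => ?_).trans ?_)
  · rw [abs_mul]
    exact mul_le_mul (hz j) (hy j (mem_range.1 hj)) (abs_nonneg _) ha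
  · rw [card_range, nsmul_eq_mul, mul_assoc]
    exact mul_le_mul_of_nonneg_right (by exact_mod_cast hn) (mul_nonneg ha hb)

theorem linP : LinP := by
  intro l x n e m g z Λ β γ0 P Q hn hl hz hz0 hP hg hm
  have hm' : (β : ℤ) + 12 * Λ * m < 2 ^ 192 := by exact_mod_cast hm
  have hg' : 12 * (Λ : ℤ) * g < γ0 := by exact_mod_cast hg
  have hW : (0 : ℤ) ≤ 2 ^ 192 := by positivity
  have hl2 := hl.2
  unfold AP at hl2
  generalize (2 : ℤ) ^ 192 = W at *
  choose! v γ h1 h2 h3 h4 using hl2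
  have b1 : |∑ j ∈ range n, z j * γ j| ≤ 12 * (Λ : ℤ) * g :=
    bd_Comb hn z γ (by positivity) (by positivity) hz fun j hj =>
      abs_le.2 ⟨by linarith [h2 j hj, h3 j hj], h3 j hj⟩
  have b2 : ∀ i : Fin 12, |∑ j ∈ range n, z j * v j i| ≤ 12 * (Λ : ℤ) * m := fun i =>
    bd_Comb hn z (fun j => v j i) (by positivity) (by positivity) hz fun j hj => (h4 j hj i).2
  have b3 := abs_le.1 b1
  have key : (P : ℤ) - Q = ∑ f ∈ range 12, (β + ∑ j ∈ range n, z j * v j f) * W ^ f +
      (γ0 + ∑ j ∈ range n, z j * γ j) * W ^ 12 := by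
    have k : ∑ j ∈ range n, z j * l.getD j 0 =
        ∑ j ∈ range n, z j * (∑ f ∈ range 12, v j f * W ^ f + γ j * W ^ 12) :=
      sum_congr rfl fun j hj => by rw [h1 j (mem_range.1 hj)]
    rw [hP, k]
    simp only [mul_add, add_mul, sum_add_distrib, mul_sum, sum_mul, mul_assoc]
    rw [sum_comm]
    ring
  have hQ : Q ≤ P := by
    have k1 := pos_Comb hW (fun f => β + ∑ j ∈ range n, z j * v j f) 12 fun f hf => by
      have := (abs_le.1 (b2 ⟨f, hf⟩)).1
      have : (0 : ℤ) ≤ β := by positivity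
      simp only at *
      linarith
    have k2 := mul_le_mul_of_nonneg_right
      (show 1 ≤ γ0 + ∑ j ∈ range n, z j * γ j by linarith [b3.1]) (pow_nonneg hW 12)
    have : (Q : ℤ) ≤ P := by linarith
    exact_mod_cast this
  refine ⟨fun f => ∑ j ∈ range n, z j * v j f, γ0 + ∑ j ∈ range n, z j * γ j,
    by rw [Nat.cast_sub hQ, key], by linarith [b3.1], by linarith [b3.2], fun i => ⟨?_, b2 i⟩⟩
  have e1 : cmb x (fun j => z j) i = ∑ j ∈ range n, (z j : ℝ) * x j i :=
    (sum_subset (range_subset_range.2 hn) fun j hj hj' => by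
      simp only [hz0 j (by simpa using hj') (mem_range.1 hj), Int.cast_zero, zero_mul]).symm
  have e2 := bd_Comb hn (fun j => (z j : ℝ)) (fun j => (v j i : ℝ) - 2 ^ 96 * x j i)
    (a := Λ) (b := e) (by positivity) (by positivity) (fun j => by exact_mod_cast hz j)
    fun j hj => (h4 j hj i).1
  rw [e1, Int.cast_sum, mul_sum, ← sum_sub_distrib]
  refine le_of_eq_of_le (congrArg _ (sum_congr rfl fun j _ => ?_)) e2
  push_cast
  ring

end Pool.Agent.MP_2877d0_al.T
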