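import Pool.Agent.MP_2877d0_al.T.St

namespace Pool.Agent.MP_2877d0_al.T

open Matrix Finset

lemma pos_CutQ {w : Vec} {V : Mat} {a b : ℕ} (h : Fl w V a b) (i : Fin 12) : 0 ≤ w i := by
  obtain ⟨N, -, -, u, h1, h2, h3⟩ := h
  generalize V * cst N = X at h3
  have d : u.det = 1 := by
    rw [det_of_isUpperTriangular fun i j hij => h1 i j hij]
    simp [h2]
  have hX : IsUnit X.det := by
    refine isUnit_iff_ne_zero.2 fun e => ?_
    have k := congrArg det h3
    rw [det_mul, e, mul_zero, det_mul, det_transpose, d] at k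
    simp at k
  have e : diagonal w = (u * X⁻¹)ᵀ * (u * X⁻¹) := by
    rw [transpose_mul, Matrix.mul_assoc, ← Matrix.mul_assoc uᵀ, ← h3, Matrix.mul_assoc _ X,
      mul_nonsing_inv _ hX, Matrix.mul_one, ← Matrix.mul_assoc, ← transpose_mul,
      mul_nonsing_inv _ hX, transpose_one, Matrix.one_mul]
  have k := congrFun (congrFun e i) i
  rw [diagonal_apply_eq, Matrix.mul_apply] at k
  rw [k]
  exact sum_nonneg fun j _ => mul_self_nonneg _

lemma rec_CutQ (hM : MkP) {ω : Vec} {X : ℕ} {b : Bool} (h : b = true → CutOK ω X) :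
    CutOK ω (@Bool.rec (fun _ => ℕ) G0 X b) := by
  cases b
  · exact hM.1 ω
  · exact h rfl

lemma up_CutQ (hS : SqP) (hM : MkP) {ω x : Vec} {s St rn : ℕ} (hs : s ≤ 1)
    (hp : ∀ i, 0 ≤ gv s ω i) (h : SR St x 108 (2 ^ 42) (3 * 2 ^ 138)) (h1 : rn ≤ 2 ^ 100)
    (h2 : (rn : ℝ) ≤ 2 ^ 36 * Qf (gv s ω) x) : CutOK ω (mk s 0 (sqU St) 0 rn) := by
  obtain ⟨p, p1, p2⟩ := (hS St x h).1
  refine hM.2.2.2 ω s _ _ _ _ _ p (by omega) hM.2.1 p1 (by positivity) h1 ?_
  rw [Qf, mul_sum] at h2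
  rw [Nat.cast_zero, zero_sub]
  refine le_trans ?_ (neg_le_neg h2)
  rw [← sum_neg_distrib]
  exact sum_le_sum fun i _ => by nlinarith [mul_le_mul_of_nonneg_right (p2 i) (hp i)]

lemma lam_CutQ (w H j : ℕ) : |lam (w + 1) H j| ≤ 2 ^ w := by
  rw [lam]
  split_ifs
  · simp
  · have h := Nat.mod_lt (H >>> ((w + 1) * j)) (Nat.two_pow_pos (w + 1))
    generalize H >>> ((w + 1) * j) % 2 ^ (w + 1) = y at h
    have h' : (y : ℤ) < 2 ^ w * 2 := by exact_mod_cast h
    rw [Nat.add_sub_cancel, abs_le]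
    constructor <;> linarith [Int.natCast_nonneg y]

theorem cutQP (hB : BasP) (hQ : QcutP) (hF : FirstP) (hA : ApBP) (hS : SqP) (hM : MkP) :
    CutQP := by
  intro ω V L a b s r hs hf hL
  have hp := pos_CutQ hf
  constructor
  · unfold cutQ
    generalize Nat.mod r 16 = c
    generalize Nat.mod (Nat.shiftRight r 4) 16 = j0
    generalize Nat.mod (Nat.shiftRight r 12) _ = Hi
    generalize Nat.shiftRight r (Nat.add 12 _) = Hr
    refine rec_CutQ hM fun h => ?_
    simp only [hB.1, hB.2.1, Nat.ble_eq, Nat.beq_eq, Nat.add_eq, Nat.mul_eq, ab, Nat.sub_eq] at h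
    obtain ⟨h1, h2, h3, h4, h5⟩ := h
    refine up_CutQ hS hM hs hp (hA.2.1 L V c Hr Hi hL h2) (by norm_num) ?_
    have k := hQ _ V a b c (fun j => if j < c then (lam 20 Hr j : ℝ) / 4096
      else (lam 8 Hi (j - c) : ℝ)) (fun j => lam 8 Hi (j - c)) hf h1
      (fun j hj _ => if_neg (by omega)) ⟨c + j0, by omega, by omega, by
        change 1 ≤ Hi >>> (8 * j0) at h4
        change 1 ≤ Hi >>> (8 * j0) % 256 - 128 + (128 - Hi >>> (8 * j0) % 256) at h5
        rw [Nat.add_sub_cancel_left, lam, if_neg (by omega)]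
        omega⟩
    push_cast
    linarith
  · refine rec_CutQ hM fun h => ?_
    obtain ⟨p, p1, p2⟩ := (hS _ _ (hA.1 L V 528384 hL)).2
    have e : (cmb (col V) fun j => (lam 20 528384 j : ℝ) / 4096) = col V 0 := by
      have : ∀ j ∈ range 12, lam 20 528384 j = if j = 0 then 4096 else 0 := by decide +kernel
      funext i
      rw [cmb, sum_eq_single_of_mem 0 (by simp) fun j hj h0 => by simp [this j hj, h0],
        this 0 (by simp)]
      simp
    have k := (hF _ V a b hf).1 (Nat.ble_eq ▸ h)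
    rw [e] at p2
    refine hM.2.2.2 ω s _ _ _ _ p _ (by omega) p1 hM.2.1 (by norm_num) (by positivity) ?_
    refine (sum_le_sum (g := fun i => 2 ^ 36 * (gv s ω i * col V 0 i ^ 2)) fun i _ => ?_).trans ?_
    · push_cast
      nlinarith [mul_le_mul_of_nonneg_right (p2 i) (hp i)]
    · rw [← mul_sum, ← Qf, k]
      norm_num

theorem cutKP (hB : BasP) (hC : CrossP) (hA : ApBP) (hS : SqP) (hM : MkP) : CutKP := by
  intro ω V V' L a b key s r hs hω hd hL hc
  have hp : ∀ i, 0 < gv s ω i := fun i => by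
    rw [gv]
    split_ifs
    · exact hω i
    · exact inv_pos.2 (hω i)
    · omega
  refine rec_CutQ hM fun h => ?_
  simp only [hB.1, Nat.ble_eq, Nat.beq_eq, Nat.mul_eq, Nat.sub_eq] at h
  have k := hC (iv (gv s ω)) V' V b a _ (fun j => (lam 20 r j : ℝ) / 4096) (fun i => inv_pos.2 (hp i)) hd
    (hc h.1) fun j hj => by
      obtain ⟨t, rfl⟩ := Nat.exists_eq_add_of_le hj
      have h2 : r >>> (20 * (12 - b)) = 0 := h.2
      rw [lam, if_pos (by rw [mul_add, Nat.shiftRight_add, h2, Nat.zero_shiftRight])]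
      simp
  rw [show iv (iv (gv s ω)) = gv s ω from funext fun i => inv_inv _] at k
  rw [hB.2.2.2.2.2.2.2.2.2.2.2.2.2.1]
  obtain ⟨z, hz⟩ : ∃ z, z = ∑ j ∈ range (12 - b), lam 20 r (11 - b - j) * lam 8 key j := ⟨_, rfl⟩
  have z1 : z.natAbs ≤ 2 ^ 30 := by
    have : |z| ≤ (12 - b : ℕ) * 2 ^ 26 := by
      rw [hz]
      refine (abs_sum_le_sum_abs _ _).trans ((sum_le_card_nsmul _ _ (2 ^ 26) fun j _ => ?_).trans
        (by simp))
      rw [abs_mul]
      exact (mul_le_mul (lam_CutQ 19 _ _) (lam_CutQ 7 _ _) (abs_nonneg _) (by positivity)).trans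
        (by norm_num)
    rw [Int.abs_eq_natAbs] at this
    omega
  rw [← hz]
  have e : Nat.shiftLeft (Nat.mul z.natAbs z.natAbs) 12 = z.natAbs * z.natAbs * 2 ^ 12 :=
    Nat.shiftLeft_eq _ _
  rw [e]
  refine up_CutQ hS hM hs (fun i => (hp i).le) (hA.1 L V r hL)
    ((Nat.mul_le_mul_right _ (Nat.mul_le_mul z1 z1)).trans (by norm_num)) ?_
  rw [show ∑ j ∈ range (12 - b), (lam 20 r (11 - b - j) : ℝ) / 4096 * lam 8 key j = z / 4096 by
    rw [hz]; push_cast; rw [sum_div]; exact sum_congr rfl fun j _ => by ring] at k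
  push_cast
  rw [Nat.cast_natAbs, Int.cast_abs, abs_mul_abs_self]
  nlinarith

theorem cutSP (hM : MkP) : CutSP := by
  intro ω s hω h
  have k := congrArg Real.log h
  rw [Real.log_mul (by norm_num) (prod_pos fun i _ => hω i).ne', Real.log_one,
    Real.log_prod fun i _ => (hω i).ne', show (756680642578125 : ℝ) = 3 ^ 18 * 5 ^ 9 by norm_num,
    Real.log_mul (by norm_num) (by norm_num), Real.log_pow, Real.log_pow] at k
  have e : ∑ i, gv 2 ω i = ∑ i, Real.log (ω i) + 144 := by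
    simp only [gv, sg, OfNat.ofNat_ne_zero, OfNat.ofNat_ne_one, if_false, sum_add_distrib]
    norm_num
  cases s
  · refine hM.2.2.2 ω 2 _ _ _ _ _ _ le_rfl hM.2.2.1 hM.2.1 (by norm_num) (by positivity) ?_
    rw [← mul_sum, e]
    push_cast at k ⊢
    linarith [Real.log_three_gt_d9, Real.log_five_gt_d9]
  · refine hM.2.2.2 ω 2 _ _ _ _ _ _ le_rfl hM.2.1 hM.2.2.1 (by positivity) (by norm_num) ?_
    rw [← mul_sum, e]
    push_cast at k ⊢
    linarith [Real.log_three_lt_d9, Real.log_five_lt_d9]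

end Pool.Agent.MP_2877d0_al.T
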