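import Pool.Agent.MP_2877d0_al.T.St

/-! Soundness of the tangent cut. -/

namespace Pool.Agent.MP_2877d0_al.T

open Matrix Finset

theorem log_CutT {ρ : ℕ} {β : ℝ} (h : |(ρ : ℝ) - 2 ^ 48 * Real.exp β| ≤ 1) (h' : 2 ^ 30 ≤ ρ) :
    |Real.log ((ρ : ℝ) / 2 ^ 48) - β| ≤ 1 / 2 ^ 29 := by
  have h0 : (2 : ℝ) ^ 30 ≤ ρ := by exact_mod_cast h'
  obtain ⟨h1, h2⟩ := abs_le.1 h
  have r0 : (0 : ℝ) < ρ := lt_of_lt_of_le (by norm_num) h0
  have e : Real.log ((ρ : ℝ) / 2 ^ 48) - β = Real.log (ρ / (2 ^ 48 * Real.exp β)) := by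
    rw [← div_div, Real.log_div (x := (ρ : ℝ) / 2 ^ 48) (by positivity) (Real.exp_pos β).ne',
      Real.log_exp]
  rw [e]
  generalize 2 ^ 48 * Real.exp β = y at h1 h2
  have y0 : 0 < y := by linarith
  have k1 := Real.one_sub_inv_le_log_of_pos (div_pos r0 y0)
  have k2 := Real.log_le_sub_one_of_pos (div_pos r0 y0)
  have k3 : y / ρ ≤ 1 + 1 / 2 ^ 29 := by
    rw [div_le_iff₀ r0]
    linarith
  have k4 : ρ / y ≤ 1 + 1 / 2 ^ 29 := by
    rw [div_le_iff₀ y0]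
    linarith
  rw [inv_div] at k1
  exact abs_le.2 ⟨by linarith, by linarith⟩

theorem lg0_CutT {m P X : ℕ} (hm : m < 512) (h : X ≤ P)
    (hX : 2 ^ 48 * Real.exp ((m : ℝ) / 32 - 12) ≤ X) :
    ((m * 2 ^ 31 + (P - X) * 2 ^ 37 / (P + X) : ℕ) : ℝ) ≤
      2 ^ 36 * Real.log ((P : ℝ) / 2 ^ 48) + 824633720832 ∧
      m * 2 ^ 31 + (P - X) * 2 ^ 37 / (P + X) ≤ 2 ^ 41 := by
  have X0 : (0 : ℝ) < X := lt_of_lt_of_le (by positivity) hX
  have h' : (X : ℝ) ≤ P := by exact_mod_cast h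
  have P0 : (0 : ℝ) < P := X0.trans_le h'
  constructor
  · have k1 : (((P - X) * 2 ^ 37 / (P + X) : ℕ) : ℝ) ≤ ((P : ℝ) - X) * 2 ^ 37 / (P + X) := by
      refine Nat.cast_div_le.trans (le_of_eq ?_)
      rw [Nat.cast_mul, Nat.cast_sub h, Nat.cast_add, Nat.cast_pow, Nat.cast_ofNat]
    have k2 := Real.le_log_one_add_of_nonneg (div_nonneg (sub_nonneg.2 h') X0.le)
    have e1 : 1 + ((P : ℝ) - X) / X = P / X := by field_simp; ring
    have e2 : 2 * (((P : ℝ) - X) / X) / ((P - X) / X + 2) = 2 * ((P - X) / (P + X)) := by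
      have : ((P : ℝ) - X) / X + 2 = (P + X) / X := by field_simp; ring
      rw [this]
      field_simp
    rw [e1, e2, Real.log_div P0.ne' X0.ne'] at k2
    have k3 := Real.log_le_log (by positivity) hX
    rw [Real.log_mul (by positivity) (Real.exp_pos _).ne', Real.log_exp] at k3
    rw [Real.log_div P0.ne' (by positivity), Nat.cast_add, Nat.cast_mul, Nat.cast_pow,
      Nat.cast_ofNat]
    rw [mul_div_right_comm] at k1
    linarith
  · have k1 : (P - X) * 2 ^ 37 / (P + X) ≤ 2 ^ 37 :=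
      Nat.div_le_of_le_mul (Nat.mul_le_mul_right _ (by omega))
    omega

theorem lg_CutT (hTab : TabP) {m P : ℕ} (hm : m < 512) (h : tX m + 1 ≤ P) :
    (lgL m P : ℝ) ≤ 2 ^ 36 * Real.log ((P : ℝ) / 2 ^ 48) + 824633720832 ∧ lgL m P ≤ 2 ^ 41 := by
  have e : lgL m P = m * 2 ^ 31 + (P - (tX m + 1)) * 2 ^ 37 / (P + (tX m + 1)) := by
    rw [← Nat.shiftLeft_eq, ← Nat.shiftLeft_eq]
    rfl
  rw [e]
  refine lg0_CutT hm h ?_
  have := (abs_le.1 (hTab m hm.le).1).1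
  rw [Nat.cast_add, Nat.cast_one]
  linarith

theorem tb_CutT (hB : BasP) {τ : ℕ} {p : ℕ → ℕ} {bs : List ℕ} (h : F12 τ p) (hl : bs.length = 12)
    (hp : ∀ i, i < 12 → p i ≤ 12 * 2 ^ 36) (hb : ∀ i, i < 12 → bs.getD i 0 < 512) :
    ((zs (d128 τ) bs >>> 5 : ℕ) : ℝ) ≤ ∑ i : Fin 12, (p i : ℝ) * ((bs.getD i 0 : ℝ) / 32) ∧
      ∑ i : Fin 12, (p i : ℝ) * ((bs.getD i 0 : ℝ) / 32) ≤ (zs (d128 τ) bs >>> 5 : ℕ) + 1 ∧
      zs (d128 τ) bs >>> 5 ≤ 2 ^ 60 := by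
  obtain ⟨-, -, -, -, -, -, -, -, -, -, -, hz, -, -, -, -, hd, hg, -⟩ := hB
  have l1 : (d128 τ).length = 12 := by rw [hd, List.length_map, List.length_range]
  have e : zs (d128 τ) bs = ∑ i ∈ range 12, p i * bs.getD i 0 := by
    rw [hz _ _ (l1.trans hl.symm), l1]
    refine sum_congr rfl fun i hi => ?_
    have hi' := mem_range.1 hi
    rw [hd, ← hg τ p h i hi', List.getD_eq_getElem _ _ (by simpa using hi'), List.getElem_map,
      List.getElem_range]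
  have e' : ∑ i : Fin 12, (p i : ℝ) * ((bs.getD i 0 : ℝ) / 32) = (zs (d128 τ) bs : ℝ) / 32 := by
    rw [e, Fin.sum_univ_eq_sum_range (fun i => (p i : ℝ) * ((bs.getD i 0 : ℝ) / 32)) 12,
      Nat.cast_sum, sum_div]
    exact sum_congr rfl fun i _ => by rw [Nat.cast_mul, mul_div_assoc]
  have b : zs (d128 τ) bs ≤ 12 * (12 * 2 ^ 36 * 512) := by
    rw [e]
    refine (sum_le_card_nsmul _ _ (12 * 2 ^ 36 * 512) fun i hi => ?_).trans (by simp)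
    exact Nat.mul_le_mul (hp i (mem_range.1 hi)) (hb i (mem_range.1 hi)).le
  rw [e', Nat.shiftRight_eq_div_pow]
  generalize zs (d128 τ) bs = Z at b
  have k1 : Z / 2 ^ 5 * 32 ≤ Z := by omega
  have k2 : Z ≤ (Z / 2 ^ 5 + 1) * 32 := by omega
  refine ⟨?_, ?_, by omega⟩
  · rw [le_div_iff₀ (by norm_num)]
    exact_mod_cast k1
  · rw [div_le_iff₀ (by norm_num)]
    exact_mod_cast k2

theorem ineq_CutT (hF : FrameP) (hR : TreP) (hD : TdP) {w β : Vec} {x : ℕ → Vec} {F ρ : List ℕ}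
    {n k H : ℕ} (h0 : ∀ i, 0 < w i) (hn : n ≤ 12) (hL : LA F x n (2 ^ 30) (2 ^ 128) (2 ^ 33))
    (hfl : Flag w x n) (h7 : k ≤ 7) (hk : k ≤ n) (hl : ρ.length = 12)
    (hρ : ∀ i : Fin 12, 2 ^ 30 ≤ ρ.getD i 0 ∧ ρ.getD i 0 ≤ 2 ^ 66 ∧
      |Real.log ((ρ.getD i 0 : ℝ) / 2 ^ 48) - β i| ≤ 1 / 2 ^ 29 ∧ |Real.log (w i) - β i| ≤ 16)
    (hok : tOK ρ F H k = true) (hP : 0 < tPi (tS ρ F H) k) :
    ∃ p : ℕ → ℕ, F12 (tTau ρ F H k) p ∧ (∀ i, i < 12 → p i ≤ 12 * 2 ^ 36) ∧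
      ∑ i : Fin 12, (p i : ℝ) * (Real.log (w i) - β i) +
        2 ^ 36 * Real.log ((tPi (tS ρ F H) k : ℝ) / 2 ^ 48) ≤ k * k * 2 ^ 17 := by
  obtain ⟨c, f, c1, c2, c3, c4, c5, c6, c7⟩ := hD F ρ x n H k hn hL hk hl hok
  exact ⟨_, c6, c7, hR k (fun j => cmb x (c j)) w β (fun i => ρ.getD i 0) f (tS ρ F H) h7 h0
    (hF w x n c hn hfl c1 c2 k hk) hρ c3 c4 c5 hP⟩

theorem core_CutT (hB : BasP) (hM : MkP) (hTab : TabP) (hF : FrameP) (hR : TreP) (hD : TdP)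
    {ω : Vec} {x : ℕ → Vec} {F bs : List ℕ} {n k m H : ℕ} {fin s : Bool} (h0 : ∀ i, 0 < ω i)
    (hn : n ≤ 12) (hL : LA F x n (2 ^ 30) (2 ^ 128) (2 ^ 33))
    (hfl : Flag (if s = true then iv ω else ω) x n) (hfin : fin = true → Bd ω) (h7 : k ≤ 7)
    (hm : m < 512) (hl : bs.length = 12) (hb : ∀ i, i < 12 → bs.getD i 0 < 512)
    (ρ : List ℕ) (hρ : ρ = mapR (Bool.rec tX tY s) bs) (τ P tb : ℕ) (hτ : τ = tTau ρ F H k)
    (hP : P = tPi (tS ρ F H) k) (htb : tb = zs (d128 τ) bs >>> 5) :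
    CutOK ω (Bool.rec G0 (Bool.rec (mk 2 τ 0 (tb + 824633720833 + (k * k) <<< 17) (lgL m P))
      (mk 2 0 τ (824633720832 + (k * k) <<< 17) (tb + lgL m P)) s)
      (andB fin (andB (Nat.ble k F.length) (andB (tOK ρ F H k) (Nat.ble (tX m + 1) P))))) := by
  cases ht : andB fin (andB (Nat.ble k F.length) (andB (tOK ρ F H k) (Nat.ble (tX m + 1) P)))
  · exact hM.1 ω
  rw [hB.1, hB.1, hB.1, Nat.ble_eq, Nat.ble_eq, hL.1] at ht
  obtain ⟨t1, t2, t3, t4⟩ := ht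
  have bd := hfin t1
  obtain ⟨g1, g2⟩ := lg_CutT hTab hm t4
  have hP0 : 0 < tPi (tS ρ F H) k := by omega
  have hmap := hB.2.2.2.2.2.2.2.2.1
  have l1 : ρ.length = 12 := by rw [hρ, hmap, List.length_map, hl]
  have r1 : ∀ i : Fin 12, ρ.getD i 0 = (Bool.rec tX tY s : ℕ → ℕ) (bs.getD i 0) := fun i => by
    rw [hρ, hmap, List.getD_eq_getElem _ _ (by rw [List.length_map, hl]; exact i.2),
      List.getElem_map, List.getD_eq_getElem _ _ (by rw [hl]; exact i.2)]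
  have b1 : ∀ i : Fin 12, (0 : ℝ) ≤ (bs.getD i 0 : ℝ) / 32 ∧ (bs.getD i 0 : ℝ) / 32 ≤ 16 :=
    fun i => ⟨by positivity, by
      have : (bs.getD i 0 : ℝ) ≤ 512 := by exact_mod_cast (hb i i.2).le
      linarith⟩
  have kk : k * k ≤ 7 * 7 := Nat.mul_le_mul h7 h7
  have gv2 : gv 2 ω = sg ω := rfl
  rw [Nat.shiftLeft_eq]
  cases s
  · obtain ⟨p, p1, p2, p3⟩ := ineq_CutT hF hR hD (β := fun i => (bs.getD i 0 : ℝ) / 32 - 12) h0 hn
      hL hfl h7 t2 l1 (fun i => by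
        obtain ⟨a1, -, a2, a3, -⟩ := hTab _ (hb i i.2).le
        have a4 := bd i
        have a5 := b1 i
        rw [r1 i]
        unfold sg at a4
        exact ⟨a2, a3.trans (by norm_num), log_CutT a1 a2,
          abs_le.2 ⟨by linarith, by linarith⟩⟩) t3 hP0
    rw [← hτ] at p1
    rw [← hP] at p3
    obtain ⟨q1, q2, q3⟩ := tb_CutT hB p1 hl p2 hb
    rw [← htb] at q1 q2 q3
    refine hM.2.2.2 ω 2 _ _ _ _ p _ le_rfl p1 hM.2.1 (by omega) (by omega) ?_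
    have e : ∑ i : Fin 12, ((p i : ℝ) - (0 : ℕ)) * gv 2 ω i =
        ∑ i : Fin 12, (p i : ℝ) * (Real.log (ω i) - ((bs.getD i 0 : ℝ) / 32 - 12)) +
          ∑ i : Fin 12, (p i : ℝ) * ((bs.getD i 0 : ℝ) / 32) := by
      rw [← sum_add_distrib, gv2]
      exact sum_congr rfl fun i _ => by unfold sg; push_cast; ring
    rw [e]
    push_cast
    linarith
  · obtain ⟨p, p1, p2, p3⟩ := ineq_CutT hF hR hD (w := iv ω)
      (β := fun i => 12 - (bs.getD i 0 : ℝ) / 32) (fun i => inv_pos.2 (h0 i)) hn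
      hL hfl h7 t2 l1 (fun i => by
        obtain ⟨-, a1, -, -, a2, a3⟩ := hTab _ (hb i i.2).le
        have a4 := bd i
        have a5 := b1 i
        rw [r1 i]
        unfold sg at a4
        unfold iv
        rw [Real.log_inv]
        exact ⟨a2, a3, log_CutT a1 a2, abs_le.2 ⟨by linarith, by linarith⟩⟩) t3 hP0
    rw [← hτ] at p1
    rw [← hP] at p3
    obtain ⟨q1, q2, q3⟩ := tb_CutT hB p1 hl p2 hb
    rw [← htb] at q1 q2 q3
    refine hM.2.2.2 ω 2 _ _ _ _ _ p le_rfl hM.2.1 p1 (by omega) (by omega) ?_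
    have e : ∑ i : Fin 12, (((0 : ℕ) : ℝ) - p i) * gv 2 ω i =
        ∑ i : Fin 12, (p i : ℝ) * (Real.log (iv ω i) - (12 - (bs.getD i 0 : ℝ) / 32)) -
          ∑ i : Fin 12, (p i : ℝ) * ((bs.getD i 0 : ℝ) / 32) := by
      rw [← sum_sub_distrib, gv2]
      exact sum_congr rfl fun i _ => by unfold sg iv; rw [Real.log_inv]; push_cast; ring
    rw [e]
    push_cast
    linarith

theorem cutTP (hB : BasP) (hM : MkP) (hTab : TabP) (hF : FrameP) (hR : TreP) (hD : TdP) :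
    CutTP := fun _ _ _ _ r _ _ h0 hn hL hfl hfin =>
  core_CutT hB hM hTab hF hR hD (k := r % 8) (m := r >>> 3 % 512) (H := r >>> 120)
    (bs := digs 9 512 12 (r >>> 12)) h0 hn hL hfl hfin (by omega) (Nat.mod_lt _ (by norm_num))
    (digs_length _ _ _ _) (fun i hi => by
      rw [digs_getD _ _ _ _ _ hi]
      exact Nat.mod_lt _ (by norm_num)) _ rfl _ _ _ rfl rfl rfl

end Pool.Agent.MP_2877d0_al.T
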