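import Pool.Agent.MP_2877d0_al.T.St

/-! Soundness of the cuts for the second vector, the list of flag vectors and the nodes. -/

namespace Pool.Agent.MP_2877d0_al.T

open Matrix Finset

theorem cmb_CutU (V : Mat) {d : ℕ} (hd : d < 1048576) :
    (cmb (col V) fun j => (lam 20 (d + 554050781184) j : ℝ) / 4096) =
      fun i => ((d : ℝ) - 524288) / 4096 * col V 0 i + col V 1 i := by
  have h0 : lam 20 (d + 554050781184) 0 = (d : ℤ) - 524288 := by
    unfold lam
    rw [Nat.shiftRight_eq_div_pow, if_neg (by omega)]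
    omega
  have h1 : lam 20 (d + 554050781184) (0 + 1) = 4096 := by
    unfold lam
    rw [Nat.shiftRight_eq_div_pow, if_neg (by omega)]
    omega
  have h2 : ∀ j, lam 20 (d + 554050781184) (j + 1 + 1) = 0 := fun j => by
    unfold lam
    rw [Nat.shiftRight_eq_div_pow, if_pos]
    refine Nat.div_eq_of_lt (lt_of_lt_of_le (b := 2 ^ 40) (by omega) ?_)
    exact Nat.pow_le_pow_right two_pos (by omega)
  funext i
  unfold cmb
  beta_reduce
  rw [show (12 : ℕ) = 10 + 1 + 1 from rfl, sum_range_succ', sum_range_succ', h0, h1,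
    sum_eq_zero fun j _ => by rw [h2, Int.cast_zero, zero_div, zero_mul]]
  push_cast
  ring

theorem sq_CutU (hA : ApBP) (hS : SqP) {L : List ℕ} {V : Mat} (hL : LC L V) {d : ℕ}
    (hd : d < 1048576) :
    (∃ p, F12 (sqU (c20 L (d + 554050781184))) p ∧ ∀ i : Fin 12,
      2 ^ 36 * (((d : ℝ) - 524288) / 4096 * col V 0 i + col V 1 i) ^ 2 ≤ (p i : ℝ)) ∧
    (∃ p, F12 (sqL (c20 L (d + 554050781184))) p ∧ ∀ i : Fin 12,
      (p i : ℝ) ≤ 2 ^ 36 * (((d : ℝ) - 524288) / 4096 * col V 0 i + col V 1 i) ^ 2) := by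
  have := hA.1 L V (d + 554050781184) hL
  rw [cmb_CutU V hd] at this
  exact hS _ _ this

theorem pos_CutU {ω : Vec} (h : ∀ i, 0 < ω i) {s : ℕ} (hs : s ≤ 1) (i : Fin 12) :
    0 < gv s ω i := by
  unfold gv
  split_ifs with h0 h1
  · exact h i
  · exact inv_pos.2 (h i)
  · omega

theorem u_CutU (hB : BasP) (hF : FirstP) (hA : ApBP) (hS : SqP) (hM : MkP) {ω : Vec} {V : Mat}
    {L : List ℕ} {a b s lo hi d : ℕ} (hs : s ≤ 1) (hfl : Fl (gv s ω) V a b) (hL : LC L V)
    (h1 : lo < 2 ^ 24) (hI : InI (muV (gv s ω) V) lo hi) (h0 : ∀ i, 0 < ω i) (hd : d < 1048576)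
    (M : ℕ) (hM' : M = mx (ab 8912896 (lo + d)) (ab 8912896 (hi + d))) :
    CutOK ω (Bool.rec G0 (mk s (sqL (c20 L (d + 554050781184))) 0 ((16777216 + M * M) <<< 12) 0)
      (andB (Nat.ble 2 a) (andB (Nat.ble 1 lo) (Nat.ble hi 16777214)))) := by
  cases ht : andB (Nat.ble 2 a) (andB (Nat.ble 1 lo) (Nat.ble hi 16777214))
  · exact hM.1 ω
  rw [hB.1, hB.1, Nat.ble_eq, Nat.ble_eq, Nat.ble_eq] at ht
  obtain ⟨t1, t2, t3⟩ := ht
  obtain ⟨-, -, -, -, hab, -, hmx, -⟩ := hB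
  have a1 := hab 8912896 (lo + d)
  have a2 := hab 8912896 (hi + d)
  rw [hmx] at hM'
  have m1 : 8912896 ≤ M + (lo + d) ∧ hi + d ≤ M + 8912896 ∧ M ≤ 2 ^ 25 := by
    rw [abs_eq_max_neg] at a1 a2
    omega
  have m2 := (Nat.cast_le (α := ℝ)).2 m1.1
  have m3 := (Nat.cast_le (α := ℝ)).2 m1.2.1
  simp only [Nat.cast_add, Nat.cast_ofNat] at m2 m3
  have m4 : M * M ≤ 2 ^ 25 * 2 ^ 25 := Nat.mul_le_mul m1.2.2 m1.2.2
  have i1 := hI.1.resolve_left (by omega)
  have i2 := hI.2.resolve_left (by omega)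
  obtain ⟨p, p1, p2⟩ := (sq_CutU hA hS hL hd).2
  have q := (hF _ V a b hfl).2.1 t1 (((d : ℝ) - 524288) / 4096)
  rw [Nat.shiftLeft_eq]
  refine hM.2.2.2 ω s _ _ _ _ p _ (by omega) p1 hM.2.1 (by omega) (by omega) ?_
  unfold muV at i1 i2
  generalize Ip (gv s ω) (col V 0) (col V 1) = μ at *
  have k1 : ∑ i : Fin 12, ((p i : ℝ) - (0 : ℕ)) * gv s ω i ≤ 2 ^ 36 * Qf (gv s ω)
      fun i => ((d : ℝ) - 524288) / 4096 * col V 0 i + col V 1 i := by
    unfold Qf
    rw [mul_sum]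
    refine sum_le_sum fun i _ => ?_
    have := mul_le_mul_of_nonneg_right (p2 i) (pos_CutU h0 hs i).le
    push_cast
    linarith
  have k2 : (4096 * (((d : ℝ) - 524288) / 4096 + μ)) ^ 2 ≤ (M : ℝ) ^ 2 :=
    sq_le_sq' (by linarith) (by linarith)
  rw [q] at k1
  push_cast at k1 ⊢
  linarith

theorem m_CutU (hA : ApBP) (hS : SqP) (hM : MkP) {ω : Vec} {V : Mat}
    {L : List ℕ} {s lo hi r : ℕ} (hs : s ≤ 1) (hL : LC L V) (h1 : lo < 2 ^ 24)
    (hI : InI (muV (gv s ω) V) lo hi) (h0 : ∀ i, 0 < ω i) : CutOK ω (cutM L s lo hi r) := by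
  obtain ⟨⟨pu, u1, u2⟩, pl, l1, l2⟩ := sq_CutU hA hS hL (d := 528384) (by norm_num)
  obtain ⟨⟨nu, v1, v2⟩, nl, w1, w2⟩ := sq_CutU hA hS hL (d := 520192) (by norm_num)
  have e : muV (gv s ω) V = ∑ i, 4096 * (gv s ω i * (col V 0 i * col V 1 i)) + 8388608 := by
    unfold muV Ip
    rw [mul_sum]
  unfold cutM
  cases Nat.beq r 0
  · cases ht : Nat.ble hi 16777214
    · exact hM.1 ω
    rw [Nat.ble_eq] at ht
    have i2 := hI.2.resolve_left (by omega)
    have e1 : Nat.shiftLeft hi 26 = hi * 2 ^ 26 := Nat.shiftLeft_eq _ _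
    refine hM.2.2.2 ω s _ _ _ _ pl nu (by omega) l1 v1 (by omega) (by omega) ?_
    have k : ∑ i : Fin 12, ((pl i : ℝ) - nu i) * gv s ω i ≤
        2 ^ 26 * ∑ i, 4096 * (gv s ω i * (col V 0 i * col V 1 i)) := by
      rw [mul_sum]
      refine sum_le_sum fun i _ => ?_
      have := mul_le_mul_of_nonneg_right (sub_le_sub (l2 i) (v2 i)) (pos_CutU h0 hs i).le
      push_cast at this
      linarith
    rw [e1]
    push_cast
    linarith
  · cases ht : Nat.ble 1 lo
    · exact hM.1 ω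
    rw [Nat.ble_eq] at ht
    have i1 := hI.1.resolve_left (by omega)
    have e1 : Nat.shiftLeft lo 26 = lo * 2 ^ 26 := Nat.shiftLeft_eq _ _
    refine hM.2.2.2 ω s _ _ _ _ nl pu (by omega) w1 u1 (by omega) (by omega) ?_
    have k : ∑ i : Fin 12, ((nl i : ℝ) - pu i) * gv s ω i ≤
        -2 ^ 26 * ∑ i, 4096 * (gv s ω i * (col V 0 i * col V 1 i)) := by
      rw [mul_sum]
      refine sum_le_sum fun i _ => ?_
      have := mul_le_mul_of_nonneg_right (sub_le_sub (w2 i) (u2 i)) (pos_CutU h0 hs i).le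
      push_cast at this
      linarith
    rw [e1]
    push_cast
    linarith

theorem cutUP (hB : BasP) (hF : FirstP) (hA : ApBP) (hS : SqP) (hM : MkP) : CutUP :=
  fun _ _ _ _ _ _ _ _ r hs hfl hL h1 _ hI h0 =>
    ⟨u_CutU hB hF hA hS hM (d := r % 1048576) hs hfl hL h1 hI h0 (Nat.mod_lt _ (by norm_num))
      _ rfl, m_CutU hA hS hM hs hL h1 hI h0⟩

theorem ap_CutU {L : List ℕ} {V : Mat} (hL : LC L V) {j : ℕ} (hj : j < 12) :
    AP (L.getD j 0) (col V j) (2 ^ 30) (2 ^ 128) (2 ^ 33) := by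
  obtain ⟨v, γ, h1, h2, h3, h4⟩ := hL.2 j hj
  refine ⟨v, γ, h1, h2, h3.trans (by norm_num), fun i => ⟨(h4 i).1.trans (by norm_num),
    (h4 i).2.trans (by norm_num)⟩⟩

theorem flgP (hF : FlagP) (hA : ApAP) : FlgP := by
  intro ω V L a b key hfl hL hc
  have hl := hL.1
  have tk : ∀ j, j < a → (L.take a).getD j 0 = L.getD j 0 := fun j hj => by
    rw [List.getD_eq_getElem?_getD, List.getElem?_take_of_lt hj, ← List.getD_eq_getElem?_getD]
  unfold flg
  cases ht : Nat.beq key 0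
  · have h1 := hc (Nat.pos_of_ne_zero (Nat.ne_of_beq_eq_false ht))
    have ha : a < 12 := by
      obtain ⟨_, _, h, _⟩ := h1
      exact h
    have l1 : (L.take a).length = a := by rw [List.length_take, hl]; omega
    refine ⟨_, a + 1, ha, ⟨?_, fun j hj => ?_⟩, hF.2 ω V a b _ h1⟩
    · show (L.take a ++ [kapP L a key]).length = a + 1
      rw [List.length_append, l1, List.length_singleton]
    · show AP ((L.take a ++ [kapP L a key]).getD j 0) _ _ _ _
      split_ifs with h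
      · rw [List.getD_append _ _ _ _ (by omega), tk j h]
        exact ap_CutU hL (by omega)
      · rw [List.getD_append_right _ _ _ _ (by omega), l1, show j - a = 0 by omega,
          List.getD_cons_zero]
        exact hA.2.1 L V a key hL
  · refine ⟨col V, min a 12, min_le_right _ _, ⟨?_, fun j hj => ?_⟩,
      hF.1 ω V _ b (min_le_right _ _) ?_⟩
    · show (L.take a).length = _
      rw [List.length_take, hl]
    · show AP ((L.take a).getD j 0) _ _ _ _
      rw [tk j (by omega)]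
      exact ap_CutU hL (by omega)
    · obtain ⟨N, h1, h2, h3⟩ := hfl
      exact ⟨N, h1, fun i j h h' => h2 i j h (by omega), h3⟩

theorem nodeP (hB : BasP) : NodeP := by
  intro B B' u hBB h
  obtain ⟨-, -, hN, -, -, -, -, -, -, -, -, -, -, -, hd, -⟩ := hB
  have ul : ∀ U k, (uz U k).length = 12 := fun U k => by
    rw [uz, List.length_map, List.length_range]
  have ug : ∀ U k (i : Fin 12), (uz U k).getD i 0 = lam 16 (dg 192 U k) i := fun U k i => by
    rw [List.getD_eq_getElem _ _ (by rw [ul]; exact i.2)]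
    simp only [uz, List.getElem_map, List.getElem_range]
  have key : ∀ j k : Fin 12, ∑ i, Uz u.2 i (Fin.rev j) * Uz u.1 i k = if j = k then 1 else 0 := by
    intro j k
    have h1 := of_decide_eq_true ((hN _ _).1 ((hN _ _).1 h j j.2) k k.2)
    rw [hd _ _ ((ul _ _).trans (ul _ _).symm), ul, ← Fin.sum_univ_eq_sum_range
      (fun i => (uz u.2 (11 - j)).getD i 0 * (uz u.1 k).getD i 0) 12] at h1
    rw [← show (if (j : ℕ) = k then 1 else 0 : ℤ) = if j = k then 1 else 0 by simp only [Fin.ext_iff],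
      ← h1]
    refine sum_congr rfl fun i _ => ?_
    rw [ug, ug, show 11 - (j : ℕ) = (Fin.rev j : ℕ) by rw [Fin.val_rev]; omega]
    rfl
  have hu : IsUnit (Uz u.1).det := Matrix.isUnit_det_of_left_inverse
    (B := Matrix.of fun j i => Uz u.2 i (Fin.rev j)) (by
      ext j k
      rw [mul_apply, one_apply, ← key]
      rfl)
  refine ⟨fun j k => ?_, hu, ?_⟩
  · have e : (B' * cst (Uz u.2))ᵀ * (B * cst (Uz u.1)) = (cst (Uz u.2))ᵀ * cst (Uz u.1) := by
      rw [transpose_mul, Matrix.mul_assoc, ← Matrix.mul_assoc B'ᵀ, hBB, Matrix.one_mul]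
    have e1 := congrFun (congrFun e (Fin.rev j)) k
    have e2 := congrArg (Int.cast : ℤ → ℝ) (key j k)
    rw [mul_apply, mul_apply] at e1
    push_cast at e2
    exact e1.trans e2
  · rw [det_mul, cst, cast_det]
    rcases Int.isUnit_iff.1 hu with e | e <;> rw [e] <;> simp

end Pool.Agent.MP_2877d0_al.T
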