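import Pool.Agent.MP_2877d0_al.T.Math

namespace Pool.Agent.MP_2877d0_al.T

open Matrix Finset

lemma pat_Dual (a b : ℕ) (N : ZMat) : Pat a b N ↔
    N.BlockTriangular fun i : Fin 12 => if i.val < a ∨ 12 ≤ i.val + b then i.val else a := by
  refine ⟨fun h i j hij => ?_, fun h i j h1 h2 => h ?_⟩
  · have h1 : j.val < i.val ∧ (j.val < a ∨ 12 ≤ i.val + b) := by
      simp only at hij
      split_ifs at hij <;> omega
    exact h i j h1.1 h1.2
  · have h3 : j.val < i.val := h1
    simp only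
    split_ifs <;> omega

lemma inv_Dual {a b : ℕ} {N : ZMat} (hN : IsUnit N.det) (h : Pat a b N) : Pat a b N⁻¹ := by
  have := N.invertibleOfIsUnitDet hN
  rw [pat_Dual] at h ⊢
  exact blockTriangular_inv_of_blockTriangular h

lemma cst_Dual {M N : ZMat} (h : M * N = 1) : cst M * cst N = 1 := by
  have := congrArg (Int.castRingHom ℝ).mapMatrix h
  rwa [map_mul, map_one] at this

lemma gram_Dual {X Y D D' u v : Mat} (h1 : Y * X = 1) (h2 : D' * D = 1) (h3 : v * u = 1)
    (h : Xᵀ * D * X = uᵀ * u) : Y * D' * Yᵀ = v * vᵀ := by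
  have a1 : Yᵀ * Xᵀ = 1 := by rw [← transpose_mul, mul_eq_one_comm.1 h1, transpose_one]
  have a2 : uᵀ * vᵀ = 1 := by rw [← transpose_mul, h3, transpose_one]
  have a3 : Y * D' * Yᵀ * (uᵀ * u) = 1 := by
    rw [← h]
    calc _ = Y * (D' * (Yᵀ * Xᵀ) * D) * X := by simp only [Matrix.mul_assoc]
      _ = 1 := by rw [a1, Matrix.mul_one, h2, Matrix.mul_one, h1]
  have a4 : uᵀ * u * (v * vᵀ) = 1 := by
    calc _ = uᵀ * (u * v) * vᵀ := by simp only [Matrix.mul_assoc]
      _ = 1 := by rw [mul_eq_one_comm.1 h3, Matrix.mul_one, a2]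
  rw [← Matrix.mul_one (Y * D' * Yᵀ), ← a4, ← Matrix.mul_assoc, a3, Matrix.one_mul]

theorem dualP : DualP := by
  refine ⟨fun V V' h j k => ?_, ?_⟩
  · have := h k.rev j.rev
    simp only [Fin.rev_rev, Fin.rev_inj] at this
    simp only [mul_comm (V _ _), this, eq_comm]
  rintro ω V V' a b hω hD ⟨N, hN, hP, u, hu, hu1, hG⟩
  have hb : u.BlockTriangular id := fun i j h => hu i j h
  have hdet : IsUnit u.det := by
    rw [det_of_isUpperTriangular hb]
    simp only [hu1, Finset.prod_const_one, isUnit_one]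
  have := u.invertibleOfIsUnitDet hdet
  have hv : u⁻¹.BlockTriangular id := blockTriangular_inv_of_blockTriangular hb
  have hvu : u⁻¹ * u = 1 := nonsing_inv_mul u hdet
  have hv1 : ∀ i, u⁻¹ i i = 1 := fun i => by
    have e := congrFun (congrFun hvu i) i
    rw [mul_apply, Finset.sum_eq_single i, hu1, mul_one, one_apply_eq] at e
    · exact e
    · intro k _ hk
      rcases lt_or_gt_of_ne hk with h | h
      · rw [hv h, zero_mul]
      · rw [hu k i h, mul_zero]
    · exact fun h => absurd (Finset.mem_univ i) h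
  have hPV : (V'.submatrix id Fin.rev)ᵀ * V = 1 := by
    ext j k
    rw [one_apply, ← hD j k]
    rfl
  have hY : cst N⁻¹ * (V'.submatrix id Fin.rev)ᵀ * (V * cst N) = 1 := by
    rw [Matrix.mul_assoc, ← Matrix.mul_assoc _ V, hPV, Matrix.one_mul,
      cst_Dual (nonsing_inv_mul N hN)]
  have hDD : diagonal (iv ω) * diagonal ω = 1 := by
    rw [diagonal_mul_diagonal, ← diagonal_one]
    exact congrArg diagonal (funext fun i => inv_mul_cancel₀ (hω i).ne')
  have key := gram_Dual hY hDD hvu hG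
  refine ⟨(N⁻¹.submatrix Fin.revPerm Fin.revPerm)ᵀ, ?_, fun i j h1 h2 => ?_,
    (u⁻¹.submatrix Fin.revPerm Fin.revPerm)ᵀ, fun i j h => hv (Fin.rev_lt_rev.2 h),
    fun i => hv1 _, ?_⟩
  · rw [det_transpose, det_submatrix_equiv_self]
    exact isUnit_nonsing_inv_det N hN
  · refine inv_Dual hN hP _ _ (Fin.rev_lt_rev.2 h1) ?_
    have h3 : j.val < i.val := h1
    simp only [Fin.revPerm_apply, Fin.val_rev]
    omega
  · have e : V' * cst (N⁻¹.submatrix Fin.revPerm Fin.revPerm)ᵀ =
        ((cst N⁻¹ * (V'.submatrix id Fin.rev)ᵀ).submatrix Fin.revPerm id)ᵀ := by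
      ext i j
      simp only [mul_apply, transpose_apply, submatrix_apply, cst, map_apply, id]
      rw [← Equiv.sum_comp Fin.revPerm]
      simp only [Fin.revPerm_apply, Fin.rev_rev, mul_comm]
    rw [e, transpose_transpose, transpose_transpose, transpose_submatrix u⁻¹,
      submatrix_mul_equiv, ← key]
    rfl

end Pool.Agent.MP_2877d0_al.T
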