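import Pool.Agent.MP_2877d0_al.T.St
namespace Pool.Agent.MP_2877d0_al.T
open Matrix Finset

theorem ent_EnumE (L Lo : List ℕ) (a m Lp Gp : ℕ) {k f : ℕ} (hk : k < m) (hf : f < 50) :
    ent (rowsE L Lo a m Lp Gp) k f = entE L Lo a Lp Gp k f := by
  unfold ent rowsE
  rw [List.getD_eq_getElem?_getD, List.getD_eq_getElem?_getD, List.getElem?_map,
    List.getElem?_range hk, Option.map_some, Option.getD_some, List.getElem?_map,
    List.getElem?_range hf, Option.map_some, Option.getD_some]

theorem rnd_EnumE (d : ℕ) (x : ℝ) (h : |(d : ℝ) - 2 ^ 190 - 2 ^ 96 * x| ≤ ((2 ^ 19 : ℕ) : ℝ)) :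
    |2 ^ 60 * x - (((((d + 2 ^ 35) >>> 36 : ℕ) : ℤ) - 2 ^ 154 : ℤ) : ℝ)| ≤ 1 := by
  rw [Nat.shiftRight_eq_div_pow]
  obtain ⟨q, hq⟩ : ∃ q, q = (d + 2 ^ 35) / 2 ^ 36 := ⟨_, rfl⟩
  have h1 : 2 ^ 36 * q ≤ d + 2 ^ 35 := hq ▸ Nat.mul_div_le _ _
  have h2 : d + 2 ^ 35 < 2 ^ 36 * (q + 1) := hq ▸ Nat.lt_mul_div_succ _ (by positivity)
  rw [← hq]
  have h3 : (2 : ℝ) ^ 36 * q ≤ d + 2 ^ 35 := by exact_mod_cast h1
  have h4 : (d : ℝ) + 2 ^ 35 < 2 ^ 36 * (q + 1) := by exact_mod_cast h2
  rw [abs_le] at h ⊢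
  push_cast at h ⊢
  constructor <;> linarith [h.1, h.2]

theorem enumEP (hB : BasP) (hA : ApAP) : EnumEP := by
  intro V L Lo wt e a b np leaf w ξ x hL hnp hp hw hx h0 hne hQ
  obtain ⟨rows, hrows⟩ : ∃ rows, rows = rowsE L Lo a (12 - b) (e.getD 2 0) (e.getD 3 0) := ⟨_, rfl⟩
  obtain ⟨Dl, hDl⟩ : ∃ Dl, Dl = digs 48 281474976710656 12 (e.getD 1 0) := ⟨_, rfl⟩
  obtain ⟨lv, hlv⟩ : ∃ lv, lv = levE rows Dl a (12 - b - a) := ⟨_, rfl⟩
  have hp' : ∀ p, p < np → orB (Nat.ble 1 p) (decide (LatOK 96 50 (12 - b) 12 a (12 - b - a)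
      4294967296 4611686018427387904 32 32 bias0 (2 ^ 82) (2 ^ 72) (e.getD 5 0 : ℕ)
      (e.getD 6 0 : ℕ) rows Dl wt lv)) = true ∧
      goE (filt np p (goE leaf (List.drop (e.getD 7 0) lv))) (List.take (e.getD 7 0) lv)
        true bias0 79228162514264337593543950336 = true := by
    intro p h
    rw [hlv, hrows, hDl]
    exact (hB.1 _ _).1 (hp p h)
  have hK : LatOK 96 50 (12 - b) 12 a (12 - b - a) 4294967296 4611686018427387904 32 32 bias0
      (2 ^ 82) (2 ^ 72) (e.getD 5 0 : ℕ) (e.getD 6 0 : ℕ) rows Dl wt lv := by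
    rcases (hB.2.1 _ _).1 (hp' 0 hnp).1 with h | h
    · exact absurd h (by decide)
    · exact of_decide_eq_true h
  have hgo : go 79228162514264337593543950336 4294967296 4611686018427387936 64 32 32 leaf lv true
      bias0 79228162514264337593543950336 = true :=
    go_split _ _ _ _ _ _ leaf lv (e.getD 7 0) np hnp true bias0 _ fun p h => (hp' p h).2
  have hgo' : go (2 ^ 96) 4294967296 (4611686018427387904 + 32) (2 * 32) 32 32 leaf lv true
      bias0 79228162514264337593543950336 = true := by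
    rw [show (2 : ℕ) ^ 96 = 79228162514264337593543950336 by norm_num,
      show 4611686018427387904 + 32 = 4611686018427387936 by norm_num,
      show 2 * 32 = 64 by norm_num]
    exact hgo
  have hac : a + (12 - b - a) = 12 - b := hK.1.1
  have hent : ∀ k f, k < 12 - b → f < 50 →
      ent rows k f = entE L Lo a (e.getD 2 0) (e.getD 3 0) k f := fun k f hk hf => by
    rw [hrows, ent_EnumE _ _ _ _ _ _ hk hf]
  have key := lattice_sound hK hgo' (fun k i => if h : i < 12 then col V k ⟨i, h⟩ else 0) (2 ^ 60)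
    (fun k hk i hi => by
      rw [hent k i hk (by omega), dif_pos hi, entE, if_pos hi]
      exact rnd_EnumE _ _ (hA.2.2 _ _ _ _ _ (hL.2 k (by omega)) (by norm_num) ⟨i, hi⟩).1)
    x (fun j => ξ (j - a)) (fun j hj _ => hx j hj) (by
      have e1 : ∑ i ∈ range 12, (wt.getD i 0 : ℝ) *
          (∑ k ∈ range (12 - b), x k * if h : i < 12 then col V k ⟨i, h⟩ else 0) ^ 2 ≤
          2 ^ 48 * Qf w (cmb (col V) x) := by
        rw [sum_range, Qf, mul_sum]
        refine sum_le_sum fun i _ => ?_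
        have e2 : (∑ k ∈ range (12 - b), x k * if h : (i : ℕ) < 12 then col V k ⟨i, h⟩ else 0) =
            cmb (col V) x i := by
          simp only [dif_pos i.2, Fin.eta]
          refine sum_subset (range_subset_range.2 (Nat.sub_le _ _)) fun k _ hk => ?_
          have hk' : 12 - b ≤ k := by simpa using hk
          rw [hx k (by omega), h0 _ (by omega), Int.cast_zero, zero_mul]
        rw [e2, ← mul_assoc]
        exact mul_le_mul_of_nonneg_right (hw i) (sq_nonneg _)
      push_cast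
      linarith)
  simp only [Nat.add_sub_cancel_left] at key
  rcases key with h | ⟨σ, hσ, h1, St, r, h2, h3⟩
  · obtain ⟨j, hj, hj'⟩ := hne
    exact absurd (h j hj) hj'
  · refine ⟨σ, St, r, hσ, h2, fun j hj => ?_, fun f hf => ?_⟩
    · have := h1 j hj
      rcases hσ with rfl | rfl
      · simpa using this
      · simpa using this
    · rw [dg, h3 f hf]
      congr 1
      exact sum_congr rfl fun j hj => by
        rw [hent _ f (by have := mem_range.1 hj; omega) hf]

theorem dgs_EnumE (w G n j : ℕ) : dg w (G >>> (w * n)) j = dg w G (n + j) := by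
  rw [dg, dg, ← Nat.shiftRight_add, mul_add]

theorem ln_EnumE (c : ℕ) : ∀ G K x y : ℕ, lnL c G K x y =
    ab (y + ∑ j ∈ range c, (128 * dg 96 G j + 2 ^ 94 * dg 8 K j))
      (x + ∑ j ∈ range c, dg 96 G j * dg 8 K j) := by
  induction c with
  | zero => intro G K x y; rfl
  | succ c ih =>
    intro G K x y
    have e : lnL (c + 1) G K x y = lnL c (G >>> (96 * 1)) (K >>> (8 * 1))
        (x + G % 79228162514264337593543950336 * (K % 256))
        (y + ((G % 79228162514264337593543950336) <<< 7 + (K % 256) <<< 94)) := rfl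
    have g0 : G % 79228162514264337593543950336 = dg 96 G 0 := by
      rw [dg, mul_zero, Nat.shiftRight_zero]
      norm_num
    have k0 : K % 256 = dg 8 K 0 := by
      rw [dg, mul_zero, Nat.shiftRight_zero]
      norm_num
    rw [e, ih, g0, k0, sum_range_succ', sum_range_succ', Nat.shiftLeft_eq, Nat.shiftLeft_eq]
    simp only [dgs_EnumE, add_comm 1]
    congr 1 <;> ring

theorem lt_EnumE (s : ℕ → ℤ) (c : ℕ) (h : ∀ j, j < c → s j ≤ 255) :
    ∑ j ∈ range c, s j * 256 ^ j < 256 ^ c := by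
  induction c with
  | zero => simp
  | succ c ih =>
    have h1 := ih fun j hj => h j (by omega)
    have h2 : s c * 256 ^ c ≤ 255 * 256 ^ c :=
      mul_le_mul_of_nonneg_right (h c (by omega)) (by positivity)
    rw [sum_range_succ, pow_succ]
    linarith

theorem keyP (hB : BasP) : KeyP := by
  intro L Lo a c Lp Gp ξ St hc hc' hS hz
  have hs : ∀ j, j < c → 64 ≤ ξ j + 128 ∧ ξ j + 128 ≤ 192 := fun j hj => by
    have := abs_le.1 (hS.1 j hj)
    constructor <;> linarith [this.1, this.2]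
  have h48 : (dg 96 St 48 : ℤ) = 2 ^ 94 + ∑ j ∈ range c, ξ j * 256 ^ j := by
    rw [hS.2 48 (by norm_num)]
    congr 1
    refine sum_congr rfl fun j _ => ?_
    rw [entE, if_neg (by norm_num), if_neg (by norm_num), if_neg (by norm_num), if_neg (by omega),
      if_neg (by norm_num), if_neg (by norm_num), Nat.add_sub_cancel_left]
  have hk : (k128 c : ℤ) = ∑ j ∈ range c, 128 * 256 ^ j := by
    rw [k128, ← Nat.geomSum_eq (m := 256) (by norm_num) c, mul_sum]
    push_cast
    rfl
  have hpos : 0 < ∑ j ∈ range c, (ξ j + 128) * 256 ^ j :=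
    sum_pos (fun j hj => mul_pos (by linarith [(hs j (mem_range.1 hj)).1]) (by positivity))
      ⟨0, mem_range.2 hc⟩
  have hsum : (dg 96 St 48 : ℤ) + k128 c - 2 ^ 94 = ∑ j ∈ range c, (ξ j + 128) * 256 ^ j := by
    simp only [add_mul, sum_add_distrib]
    rw [h48, hk]
    ring
  obtain ⟨K, hK⟩ : ∃ K, K = keyOf (k128 c) St := ⟨_, rfl⟩
  have hKz : (K : ℤ) = ∑ j ∈ range c, (ξ j + 128) * 256 ^ j := by
    have e : keyOf (k128 c) St = St >>> (96 * 48) % 79228162514264337593543950336 + k128 c -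
        19807040628566084398385987584 := rfl
    rw [show (79228162514264337593543950336 : ℕ) = 2 ^ 96 by norm_num,
      show (19807040628566084398385987584 : ℕ) = 2 ^ 94 by norm_num, ← dg] at e
    have h1 : 2 ^ 94 ≤ dg 96 St 48 + k128 c := by
      have : ((2 ^ 94 : ℕ) : ℤ) ≤ (dg 96 St 48 + k128 c : ℕ) := by
        push_cast
        linarith
      exact_mod_cast this
    rw [hK, e, Nat.cast_sub h1, ← hsum]
    push_cast
    ring
  have hd : ∀ j, j < c → (dg 8 K j : ℤ) = ξ j + 128 := fun j hj => by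
    rw [dg, Nat.shiftRight_eq_div_pow, pow_mul]
    push_cast
    rw [hKz]
    exact digit_eq 256 (by norm_num) j c (fun j => ξ j + 128) hj fun f hf =>
      ⟨by linarith [(hs f hf).1], by linarith [(hs f hf).2]⟩
  rw [← hK]
  refine ⟨by omega, funext fun j => ?_, hd, fun hac => ?_⟩
  · rcases lt_or_ge j c with hj | hj
    · have h1 := hd j hj
      have h2 : K >>> (8 * j) ≠ 0 := fun e => by
        rw [dg, e] at h1
        have := (hs j hj).1
        simp at h1
        omega
      rw [lam, if_neg h2, ← dg, h1]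
      norm_num
    · have h1 : (K : ℤ) < 256 ^ j :=
        (hKz ▸ lt_EnumE _ c fun f hf => by linarith [(hs f hf).2]).trans_le
          (pow_le_pow_right₀ (by norm_num) hj)
      have h2 : K >>> (8 * j) = 0 := by
        rw [Nat.shiftRight_eq_div_pow, pow_mul]
        exact Nat.div_eq_of_lt (by exact_mod_cast h1)
      rw [lam, if_pos h2, hz j hj]
  · rw [ln_EnumE, hB.2.2.2.2.1, show 3456 = 96 * 36 by norm_num, Nat.shiftLeft_eq]
    simp only [dgs_EnumE]
    congr 1
    have e1 : ∀ j ∈ range c, (∑ k ∈ range c, ξ k * lam 20 (gr a Gp k) (11 - a - j)) * ξ j =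
        2 ^ 101 + (dg 96 St (36 + j) : ℤ) * dg 8 K j -
          (128 * dg 96 St (36 + j) + 2 ^ 94 * dg 8 K j) := by
      intro j hj
      have hj' := mem_range.1 hj
      have e2 : ∑ k ∈ range c, ξ k * entE L Lo a Lp Gp (a + k) (36 + j) =
          ∑ k ∈ range c, ξ k * lam 20 (gr a Gp k) (11 - a - j) := sum_congr rfl fun k _ => by
        rw [entE, if_neg (by omega), if_neg (by omega), if_neg (by omega), if_neg (by omega),
          if_neg (by omega), if_pos (by omega), if_pos (by omega), Nat.add_sub_cancel_left,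
          Nat.add_sub_cancel_left]
      rw [hS.2 (36 + j) (by omega), hd j hj', e2]
      ring
    rw [sum_congr rfl e1, sum_sub_distrib]
    simp only [Nat.cast_add, Nat.cast_mul, Nat.cast_sum, Nat.cast_pow, Nat.cast_ofNat,
      sum_add_distrib, sum_const, card_range, nsmul_eq_mul, zero_add]

end Pool.Agent.MP_2877d0_al.T
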