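import Pool.Agent.MP_2877d0_al.T.St
namespace Pool.Agent.MP_2877d0_al.T
open Matrix Finset

theorem getD_EnumS {α : Type} (f : ℕ → α) (d : α) (i : Fin 12) :
    ((List.range 12).map f).getD i d = f i := by
  rw [List.getD_eq_getElem _ _ (by simp)]
  simp

theorem lam_EnumS (j : ℕ) : lam 20 528384 j = if j = 0 then 4096 else 0 := by
  cases j with
  | zero => decide +kernel
  | succ j =>
    have : 528384 >>> (20 * (j + 1)) = 0 := by
      rw [Nat.shiftRight_eq_div_pow]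
      exact Nat.div_eq_of_lt (lt_of_lt_of_le (by norm_num)
        (Nat.pow_le_pow_right two_pos (by omega : 20 ≤ 20 * (j + 1))))
    rw [lam, if_pos this, if_neg (Nat.succ_ne_zero j)]

theorem cmb_EnumS (V : Mat) :
    (cmb (col V) fun j => (lam 20 528384 j : ℝ) / 4096) = col V 0 := by
  funext i
  unfold cmb
  rw [Finset.sum_eq_single 0 (fun j _ hj => by simp only [lam_EnumS, if_neg hj]; simp) (by simp)]
  simp only [lam_EnumS, if_pos]
  norm_num

theorem iv_EnumS (ω : Vec) (s : Bool) :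
    (if (!s) = true then iv ω else ω) = iv (if s = true then iv ω else ω) := by
  cases s
  · simp
  · funext i
    simp [iv]

theorem enumSP (hB : BasP) (hC : ChildP) (hA : ApBP) (hS : SqP) (hI : InitP) (hE : EnumEP)
    (hK : KeyP) (hQ : QuickP) : EnumSP := by
  intro ω V V' X X' ct L Lo e a b box np s top hSd hIn hnp hp
  obtain ⟨b1, b2, -, -, -, -, -, -, -, -, -, -, -, -, -, -, -, b18, -⟩ := hB
  have hp' := fun p h => by
    have := hp p h
    rw [enumS, b1, b1, b1, Nat.ble_eq, Nat.ble_eq] at this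
    exact this
  obtain ⟨hab, hb, hfin, -⟩ := hp' 0 hnp
  have hpos : ∀ i, 0 < ω i := fun i => by
    have := hSd.pos i
    cases s
    · simpa using this
    · simpa [iv] using this
  obtain ⟨ξ, x, hc, ⟨j, j1, j2⟩, hz, hx, hq⟩ := hC.1 _ V a b (by omega) hSd.fl
  obtain ⟨σ, St, r, hσ, hl, hSt⟩ := hE V L Lo _ e a b np _ _ ξ x hSd.lc hnp
    (fun p h => (hp' p h).2.2.2)
    (fun i => by rw [getD_EnumS]; exact (hI.2 ω X X' box s hpos hfin hIn i).1) hx
    (fun j h => hz j (by omega)) ⟨j, by omega, j2⟩ hq.le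
  have hc' : Cand (if s = true then iv ω else ω) V a b fun j => σ * ξ j := by
    rcases hσ with rfl | rfl
    · simpa only [one_mul] using hc
    · simpa only [neg_one_mul] using hC.2 _ V a b ξ hc
  have hz' : ∀ j, 12 - b - a ≤ j → σ * ξ j = 0 := fun j h => by rw [hz j (by omega), mul_zero]
  obtain ⟨k1, k2, -⟩ := hK L Lo a _ _ _ _ St (by omega) (by omega) hSt hz'
  rw [leafQ, b2, b2] at hl
  rcases hl with hl | hl | hl
  · exact absurd hl (by decide)
  · refine (hQ _ V V' L Lo a b _ _ _ St _ _ hSd hab hb hc' hz' hSt (fun i => ?_) hl).elim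
    obtain ⟨p, p1, p2⟩ := (hS _ _ (hA.1 Lo V' 528384 hSd.lo)).2
    have h1 := hI.2 ω X X' box (!s) hpos hfin hIn i
    rw [iv_EnumS] at h1
    rw [cmb_EnumS] at p2
    rw [getD_EnumS]
    refine ⟨?_, h1.2, h1.1⟩
    show ((dg 128 _ i : ℕ) : ℝ) ≤ _
    rw [b18 _ p p1 i i.2]
    exact p2 i
  · exact ⟨_, k1, k2 ▸ hc', hl⟩

theorem mem_EnumS {ω : Vec} {V V' : Mat} {a b sd k : ℕ}
    (h : if sd = 0 then Cand ω V a b (lam 8 k) else Cand (iv ω) V' b a (lam 8 k)) (t : KT)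
    (ht : Leaf k t) : Mem ω V V' a b sd t := by
  induction t with
  | non => trivial
  | leaf j =>
    obtain rfl : j = k := ht
    exact h
  | node p l r ihl ihr => exact Or.imp ihl ihr ht

theorem top_EnumS (hB : BasP) (hX : BoxP) {B B' : Mat} {ct : CT} {nt : NT} {NN : ℕ} {E : Env}
    {ω : Vec} {box s key : ℕ} {top : KT} (hC : Cx B B' ct nt NN E ω)
    (hIn : InB ω (V0 B nt E.nid) (V1 B' nt E.nid) box) (ht : topOK ct E box s top = true)
    (k1 : 1 ≤ key) (hm : memC ct top key = true)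
    (h : if s = 0 then Cand ω (V0 B nt E.nid) E.a E.b (lam 8 key)
      else Cand (iv ω) (V1 B' nt E.nid) E.b E.a (lam 8 key)) : False := by
  obtain ⟨b1, -, -, -, -, -, -, -, -, -, -, -, -, -, -, -, -, -, -, b20, b21, b22⟩ := hB
  have h1 := b20 _ top _ ht (b21 _ top key ht)
  rw [memC, Nat.beq_eq] at hm
  have h2 := b22 _ key k1 hm
  simp only [b1, Nat.ble_eq, Nat.beq_eq] at h1
  obtain ⟨t1, t2, t3, t4, t5, t6⟩ := h1
  have h3 := hC.old _ t1 ω hC.pos
  rw [t2, t3, t4, t5] at h3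
  exact h3 hC.fl (hX.2.1 _ _ _ _ _ t6 hIn) (mem_EnumS h _ h2)

theorem enumCP (hB : BasP) (hD : DualP) (hA : ApAP) (hN : NodeP) (hX : BoxP) (h : EnumSP) :
    EnumCP := by
  intro B B' ct nt NN E ω box np e top hC hIn hnp hp
  have hd : Dual (V0 B nt E.nid) (V1 B' nt E.nid) :=
    (hN B B' _ hC.fld.dual (hC.nodes _ hC.nid)).1
  have l0 : LC E.L0 (V0 B nt E.nid) := hC.l0 ▸ hA.1 TB0 B _ hC.fld.ap0
  have l1 : LC E.L1 (V1 B' nt E.nid) := hC.l1 ▸ hA.1 TB1 B' _ hC.fld.ap1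
  unfold enumC at hp
  cases hb : Nat.beq (e.getD 0 0) 0
  · rw [hb] at hp
    have hp' := fun p k => (hB.1 _ _).1 (hp p k)
    obtain ⟨key, k1, k2, k3⟩ := h ω _ _ _ _ ct E.L1 E.L0 e E.b E.a box np true top
      ⟨fun i => inv_pos.2 (hC.pos i), hD.1 _ _ hd, hD.2 ω _ _ _ _ hC.pos hd hC.fl, l1, l0⟩ hIn hnp
      fun p k => (hp' p k).2
    exact top_EnumS hB hX hC hIn (hp' 0 hnp).1 k1 k3 k2
  · rw [hb] at hp
    have hp' := fun p k => (hB.1 _ _).1 (hp p k)
    obtain ⟨key, k1, k2, k3⟩ := h ω _ _ _ _ ct E.L0 E.L1 e E.a E.b box np false top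
      ⟨hC.pos, hd, hC.fl, l0, l1⟩ hIn hnp fun p k => (hp' p k).2
    exact top_EnumS hB hX hC hIn (hp' 0 hnp).1 k1 k3 k2

end Pool.Agent.MP_2877d0_al.T
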