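import Pool.Agent.MP_2877d0_al.T.Glue
import Pool.Agent.MP_2877d0_al.T.D.All

namespace Pool.Agent.MP_2877d0_al.T

theorem not_dec12 {n : ℕ} (hn : 12 ≤ n) :
    ¬ ∀ G : Matrix (Fin n) (Fin n) ℝ, G.det ≠ 0 → Dec G :=
  not_dec_of (N := 1969) (by decide) (by decide) D.allDone D.allNode D.allRoot
    (by decide +kernel) hn

end Pool.Agent.MP_2877d0_al.T
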