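import Pool.Agent.MP_2877d0_al.T.Math

namespace Pool.Agent.MP_2877d0_al.T

open Matrix Finset

theorem cst_mul_First (M N : ZMat) : cst (M * N) = cst M * cst N := by
  ext i j
  simp [cst, Matrix.mul_apply]

theorem cst_one_First : cst 1 = 1 := by
  ext i j
  by_cases h : i = j <;> simp [cst, Matrix.one_apply, h]

theorem gram_First (ω : Vec) (V : Mat) (j k : Fin 12) :
    (Vᵀ * diagonal ω * V) j k = ∑ i, ω i * (V i j * V i k) := by
  rw [Matrix.mul_apply]
  refine Finset.sum_congr rfl fun i _ => ?_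
  rw [Matrix.mul_diagonal, Matrix.transpose_apply]
  ring

theorem firstP (hP : PatP) : FirstP := by
  rintro ω V a b ⟨N, hN, hpat, u, hu0, hu1, hG⟩
  have hNN : N * N⁻¹ = 1 := Matrix.mul_nonsing_inv N hN
  have hpat' : Pat a b N⁻¹ := hP.2.1 a b N N⁻¹ hNN hpat
  have hdet' : IsUnit (N⁻¹).det := Matrix.isUnit_nonsing_inv_det N hN
  have hV : V * cst N * cst N⁻¹ = V := by
    rw [Matrix.mul_assoc, ← cst_mul_First, hNN, cst_one_First, Matrix.mul_one]
  obtain ⟨w, hw⟩ : ∃ w : Mat, w = u * cst N⁻¹ := ⟨_, rfl⟩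
  have hGw : Vᵀ * diagonal ω * V = wᵀ * w := by
    calc Vᵀ * diagonal ω * V
        = (V * cst N * cst N⁻¹)ᵀ * diagonal ω * (V * cst N * cst N⁻¹) := by rw [hV]
      _ = (cst N⁻¹)ᵀ * ((V * cst N)ᵀ * diagonal ω * (V * cst N)) * cst N⁻¹ := by
          rw [Matrix.transpose_mul (V * cst N)]
          simp only [Matrix.mul_assoc]
      _ = wᵀ * w := by
          rw [hG, hw, Matrix.transpose_mul]
          simp only [Matrix.mul_assoc]
  have hw0 : ∀ i k : Fin 12, k.val < a → k < i → w i k = 0 := by
    intro i k hk hki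
    rw [hw, Matrix.mul_apply]
    refine Finset.sum_eq_zero fun l _ => ?_
    rcases lt_or_ge l i with h | h
    · rw [hu0 i l h, zero_mul]
    · have : N⁻¹ l k = 0 := hpat' l k (lt_of_lt_of_le hki h) (Or.inl hk)
      simp [cst, this]
  have hw1 : ∀ k : Fin 12, k.val < a → w k k ^ 2 = 1 := by
    intro k hk
    have h1 : w k k = ((N⁻¹ k k : ℤ) : ℝ) := by
      rw [hw, Matrix.mul_apply, Finset.sum_eq_single k]
      · simp [cst, hu1]
      · intro l _ hl
        rcases lt_or_gt_of_ne hl with h | h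
        · rw [hu0 k l h, zero_mul]
        · have : N⁻¹ l k = 0 := hpat' l k h (Or.inl hk)
          simp [cst, this]
      · simp
    rcases hP.2.2 a b N⁻¹ hdet' hpat' k (Or.inl hk) with h | h <;> rw [h1, h] <;> norm_num
  have hg : ∀ j k : Fin 12, ∑ i, ω i * (V i j * V i k) = ∑ i, w i j * w i k := by
    intro j k
    rw [← gram_First, hGw, Matrix.mul_apply]
    rfl
  have hc0 : col V 0 = fun i => V i 0 := by
    funext i
    simp [col]
  have hc1 : col V 1 = fun i => V i 1 := by
    funext i
    simp [col]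
  have h00 : 1 ≤ a → ∑ i, ω i * (V i 0 * V i 0) = 1 := by
    intro ha
    rw [hg, Finset.sum_eq_single 0]
    · rw [← sq]
      exact hw1 0 ha
    · intro l _ hl
      rw [hw0 l 0 ha (Fin.pos_iff_ne_zero.mpr hl), zero_mul]
    · simp
  refine ⟨fun ha => ?_, fun ha c => ?_, ?_⟩
  · rw [← h00 ha, hc0]
    simp only [Qf, sq]
  · have ha0 : (0 : Fin 12).val < a := by simp; omega
    have ha1 : (1 : Fin 12).val < a := by simp; omega
    have h01 : ∑ i, ω i * (V i 0 * V i 1) = w 0 0 * w 0 1 := by
      rw [hg, Finset.sum_eq_single 0]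
      · intro l _ hl
        rw [hw0 l 0 ha0 (Fin.pos_iff_ne_zero.mpr hl), zero_mul]
      · simp
    have h11 : ∑ i, ω i * (V i 1 * V i 1) = w 0 1 ^ 2 + 1 := by
      rw [hg, Fintype.sum_eq_add 0 1 (by decide), ← sq, ← sq, hw1 1 ha1]
      rintro l ⟨hl0, hl1⟩
      have : (1 : Fin 12) < l := by
        rw [Fin.lt_def]
        have h0 : l.val ≠ 0 := fun h => hl0 (Fin.ext h)
        have h1 : l.val ≠ 1 := fun h => hl1 (Fin.ext h)
        simp
        omega
      rw [hw0 l 1 ha1 this, zero_mul]
    have hexp : Qf ω (fun i => c * col V 0 i + col V 1 i) =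
        c ^ 2 * ∑ i, ω i * (V i 0 * V i 0) + 2 * c * ∑ i, ω i * (V i 0 * V i 1) +
          ∑ i, ω i * (V i 1 * V i 1) := by
      rw [hc0, hc1, Qf, Finset.mul_sum, Finset.mul_sum, ← Finset.sum_add_distrib,
        ← Finset.sum_add_distrib]
      refine Finset.sum_congr rfl fun i _ => ?_
      ring
    have hip : Ip ω (col V 0) (col V 1) = w 0 0 * w 0 1 := by
      rw [← h01, hc0, hc1, Ip]
    rw [hexp, hip, h00 (by omega), h01, h11]
    have := hw1 0 ha0
    linear_combination (-(w 0 1) ^ 2) * this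
  · have hud : u.det = 1 := by
      rw [Matrix.det_of_upperTriangular (fun i j h => hu0 i j h)]
      simp [hu1]
    have hNd : (cst N).det ^ 2 = 1 := by
      have h1 : (cst N).det = ((N.det : ℤ) : ℝ) := by
        rw [Int.cast_det]
        rfl
      rcases Int.isUnit_iff.mp hN with h | h <;> rw [h1, h] <;> norm_num
    have h2 := congrArg Matrix.det hG
    simp only [Matrix.det_mul, Matrix.det_transpose, Matrix.det_diagonal, hud] at h2
    linear_combination h2 - V.det ^ 2 * (∏ i, ω i) * hNd

theorem crossP : CrossP := by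
  rintro ω V V' a b ξ c hω hD ⟨N, ⟨hN, hpat, u, hu0, hu1, hG⟩, ha, hξ⟩ hc
  have hud : u.det = 1 := by
    rw [Matrix.det_of_upperTriangular (fun i j h => hu0 i j h)]
    simp [hu1]
  have huu : IsUnit u.det := by rw [hud]; exact isUnit_one
  letI : Invertible u := Matrix.invertibleOfIsUnitDet u huu
  have hbt : u.BlockTriangular id := fun i j h => hu0 i j h
  have hinv : ∀ i j : Fin 12, j < i → u⁻¹ i j = 0 := fun i j h =>
    Matrix.blockTriangular_inv_of_blockTriangular hbt h
  have hmul : u * u⁻¹ = 1 := Matrix.mul_nonsing_inv u huu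
  obtain ⟨A, hA⟩ : ∃ A : Fin 12, A = ⟨a, ha⟩ := ⟨_, rfl⟩
  have hAv : A.val = a := by rw [hA]
  rw [← hA] at hξ
  have hAA : u⁻¹ A A = 1 := by
    have h1 := congrFun (congrFun hmul A) A
    rw [Matrix.mul_apply, Finset.sum_eq_single A, hu1, one_mul, Matrix.one_apply_eq] at h1
    · exact h1
    · intro l _ hl
      rcases lt_or_gt_of_ne hl with h | h
      · rw [hu0 A l h, zero_mul]
      · rw [hinv l A h, mul_zero]
    · simp
  obtain ⟨X, hX⟩ : ∃ X : Mat, X = cst N * u⁻¹ := ⟨_, rfl⟩
  have hx : ∀ j : Fin 12, a ≤ j.val → X j A = ξ (j.val - a) := by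
    intro j hj
    rw [hX, Matrix.mul_apply, Finset.sum_eq_single A, hAA, mul_one, ← hξ j hj]
    · rfl
    · intro l _ hl
      rcases lt_or_gt_of_ne hl with h | h
      · have hl' : l.val < a := by rw [← hAv]; exact h
        have : N j l = 0 := hpat j l (by rw [Fin.lt_def]; omega) (Or.inl hl')
        simp [cst, this]
      · rw [hinv l A h, mul_zero]
    · simp
  have hZ : (V * X)ᵀ * diagonal ω * (V * X) = 1 := by
    calc (V * X)ᵀ * diagonal ω * (V * X)
        = (u⁻¹)ᵀ * ((V * cst N)ᵀ * diagonal ω * (V * cst N)) * u⁻¹ := by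
          rw [hX, ← Matrix.mul_assoc V, Matrix.transpose_mul (V * cst N)]
          simp only [Matrix.mul_assoc]
      _ = (u * u⁻¹)ᵀ * (u * u⁻¹) := by
          rw [hG, Matrix.transpose_mul]
          simp only [Matrix.mul_assoc]
      _ = 1 := by rw [hmul]; simp
  have hy : ∑ i, ω i * (V * X) i A ^ 2 = 1 := by
    have h1 := gram_First ω (V * X) A A
    rw [hZ, Matrix.one_apply_eq] at h1
    rw [h1]
    simp only [sq]
  have hphi : ∀ i, cmb (col V') c i = ∑ j : Fin 12, c (11 - j.val) * V' i (Fin.rev j) := by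
    intro i
    rw [cmb, ← Finset.sum_range_reflect, Finset.sum_range]
    refine Finset.sum_congr rfl fun j _ => ?_
    have hj : 12 - 1 - j.val < 12 := by omega
    have h2 : Fin.rev j = ⟨12 - 1 - j.val, hj⟩ := by
      apply Fin.ext
      rw [Fin.val_rev]
      simp only
      omega
    rw [h2, col, dif_pos hj]
  have hsum : ∑ i, cmb (col V') c i * (V * X) i A =
      ∑ j ∈ range (12 - a), c (11 - a - j) * ξ j := by
    have h1 : ∑ i, cmb (col V') c i * (V * X) i A = ∑ j : Fin 12, c (11 - j.val) * X j A := by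
      simp only [hphi, Finset.sum_mul]
      rw [Finset.sum_comm]
      refine Finset.sum_congr rfl fun j _ => ?_
      have h3 : ∑ i, V' i (Fin.rev j) * (V * X) i A = X j A := by
        simp only [Matrix.mul_apply, Finset.mul_sum]
        rw [Finset.sum_comm]
        have h4 : ∀ k, ∑ i, V' i (Fin.rev j) * (V i k * X k A) =
            (if j = k then 1 else 0) * X k A := by
          intro k
          rw [← hD j k, Finset.sum_mul]
          refine Finset.sum_congr rfl fun i _ => ?_
          ring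
        simp [h4]
      rw [← h3, Finset.mul_sum]
      refine Finset.sum_congr rfl fun i _ => ?_
      ring
    have h2 : ∑ j : Fin 12, c (11 - j.val) * X j A =
        ∑ j ∈ range 12, (if j < a then 0 else c (11 - j) * ξ (j - a)) := by
      rw [Finset.sum_range]
      refine Finset.sum_congr rfl fun j _ => ?_
      by_cases h : j.val < a
      · rw [if_pos h, hc _ (by omega), zero_mul]
      · rw [if_neg h, hx j (by omega)]
    have h5 : 12 = a + (12 - a) := by omega
    rw [h1, h2]
    conv_lhs => rw [h5]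
    rw [Finset.sum_range_add, Finset.sum_eq_zero, zero_add]
    · refine Finset.sum_congr rfl fun j _ => ?_
      rw [if_neg (by omega), Nat.add_sub_cancel_left, Nat.sub_add_eq]
    · intro j hj
      rw [if_pos (Finset.mem_range.mp hj)]
  rw [← hsum]
  have hcs := Finset.sum_sq_le_sum_mul_sum_of_sq_eq_mul Finset.univ
    (r := fun i => cmb (col V') c i * (V * X) i A)
    (f := fun i => iv ω i * cmb (col V') c i ^ 2) (g := fun i => ω i * (V * X) i A ^ 2)
    (fun i _ => mul_nonneg (inv_nonneg.mpr (hω i).le) (sq_nonneg _))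
    (fun i _ => mul_nonneg (hω i).le (sq_nonneg _))
    (fun i _ => by
      have := (hω i).ne'
      simp only [iv]
      field_simp)
  rw [hy, mul_one] at hcs
  exact hcs

end Pool.Agent.MP_2877d0_al.T
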