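import Pool.Agent.MP_2877d0_al.T.Math

namespace Pool.Agent.MP_2877d0_al.T

open Matrix Finset

theorem sum_cast_Flag {m : ℕ} (hm : m ≤ 12) (F : Fin 12 → ℝ)
    (hF : ∀ r : Fin 12, m ≤ r.val → F r = 0) :
    ∑ r : Fin m, F (Fin.castLE hm r) = ∑ r, F r := by
  refine Fintype.sum_of_injective (Fin.castLE hm) (Fin.castLE_injective hm) _ _ ?_ fun _ => rfl
  intro r hr
  apply hF
  by_contra h
  exact hr ⟨⟨r.val, by omega⟩, Fin.ext rfl⟩

theorem detsq_Flag {m : ℕ} (T : Matrix (Fin m) (Fin m) ℝ) (h0 : ∀ i j, j < i → T i j = 0)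
    (h1 : ∀ i, T i i ^ 2 = 1) : T.det ^ 2 = 1 := by
  rw [Matrix.det_of_isUpperTriangular (fun i j h => h0 i j h), ← Finset.prod_pow]
  simp [h1]

theorem entry_Flag (ω : Vec) (Y : Mat) (j l : Fin 12) :
    (Yᵀ * diagonal ω * Y) j l = ∑ i, ω i * (Y i j * Y i l) := by
  rw [Matrix.mul_apply]
  refine Finset.sum_congr rfl fun i _ => ?_
  rw [Matrix.mul_diagonal, Matrix.transpose_apply]
  ring

theorem core_Flag (ω : Vec) (X u T : Mat) (hu0 : ∀ i j, j < i → u i j = 0)
    (hu1 : ∀ i, u i i = 1) (hX : Xᵀ * diagonal ω * X = uᵀ * u) (m : ℕ) (hm : m ≤ 12)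
    (g : ℕ → Vec) (hg : ∀ j : Fin 12, j.val < m → ∀ i, g j.val i = (X * T) i j)
    (h0 : ∀ l j : Fin 12, j.val < m → j < l → T l j = 0)
    (h1 : ∀ j : Fin 12, j.val < m → T j j ^ 2 = 1) :
    (Matrix.of fun j l : Fin m => Ip ω (g j) (g l)).det = 1 := by
  have hP : (X * T)ᵀ * diagonal ω * (X * T) = (u * T)ᵀ * (u * T) := by
    rw [Matrix.transpose_mul, Matrix.transpose_mul]
    calc Tᵀ * Xᵀ * diagonal ω * (X * T) = Tᵀ * (Xᵀ * diagonal ω * X) * T := by
          simp only [Matrix.mul_assoc]
      _ = Tᵀ * uᵀ * (u * T) := by rw [hX]; simp only [Matrix.mul_assoc]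
  have hz : ∀ r j : Fin 12, j.val < m → j < r → (u * T) r j = 0 := by
    intro r j hj hr
    rw [Matrix.mul_apply]
    refine Finset.sum_eq_zero fun k _ => ?_
    by_cases hk : k < r
    · rw [hu0 r k hk, zero_mul]
    · rw [h0 k j hj (lt_of_lt_of_le hr (not_lt.mp hk)), mul_zero]
  have hd : ∀ j : Fin 12, j.val < m → (u * T) j j = T j j := by
    intro j hj
    rw [Matrix.mul_apply, Finset.sum_eq_single j]
    · rw [hu1, one_mul]
    · intro k _ hk
      rcases lt_or_gt_of_ne hk with h | h
      · rw [hu0 j k h, zero_mul]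
      · rw [h0 k j hj h, mul_zero]
    · intro h
      exact absurd (Finset.mem_univ j) h
  let w : Matrix (Fin m) (Fin m) ℝ :=
    Matrix.of fun r j => (u * T) (Fin.castLE hm r) (Fin.castLE hm j)
  have hw : (Matrix.of fun j l : Fin m => Ip ω (g j) (g l)) = wᵀ * w := by
    ext j l
    have e1 : Ip ω (g j) (g l) =
        ((X * T)ᵀ * diagonal ω * (X * T)) (Fin.castLE hm j) (Fin.castLE hm l) := by
      rw [entry_Flag]
      unfold Ip
      refine Finset.sum_congr rfl fun i _ => ?_
      rw [← hg (Fin.castLE hm j) j.isLt i, ← hg (Fin.castLE hm l) l.isLt i]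
      rfl
    rw [Matrix.of_apply, e1, hP, Matrix.mul_apply, Matrix.mul_apply,
      ← sum_cast_Flag hm]
    · rfl
    · intro r hr
      rw [Matrix.transpose_apply, hz r (Fin.castLE hm j) j.isLt, zero_mul]
      have := j.isLt
      rw [Fin.lt_def]
      simp only [Fin.val_castLE]
      omega
  have hs : w.det ^ 2 = 1 := by
    apply detsq_Flag
    · intro i j hij
      exact hz _ _ j.isLt hij
    · intro i
      show (u * T) (Fin.castLE hm i) (Fin.castLE hm i) ^ 2 = 1
      rw [hd _ i.isLt]
      exact h1 _ i.isLt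
  rw [hw, Matrix.det_mul, Matrix.det_transpose, ← sq, hs]

theorem cst_mul_Flag (M N : ZMat) : cst M * cst N = cst (M * N) := by
  ext i j
  simp [cst, Matrix.mul_apply]

theorem cst_one_Flag : cst 1 = 1 := by
  ext i j
  by_cases h : i = j <;> simp [cst, Matrix.one_apply, h]

theorem col_Flag (V : Mat) (j i : Fin 12) : col V j.val i = V i j := by
  simp [col, j.isLt]

theorem inv_Flag (hP : PatP) (a b : ℕ) (N : ZMat) (hN : IsUnit N.det) (hp : Pat a b N) :
    ∃ M : ZMat, N * M = 1 ∧ M * N = 1 ∧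
      (∀ l j : Fin 12, j.val < a → j < l → M l j = 0) ∧
      ∀ j : Fin 12, j.val < a → cst M j j ^ 2 = 1 := by
  have h1 : N * N⁻¹ = 1 := Matrix.mul_nonsing_inv N hN
  have h2 : Pat a b N⁻¹ := hP.2.1 a b N N⁻¹ h1 hp
  refine ⟨N⁻¹, h1, Matrix.nonsing_inv_mul N hN, fun l j hj hl => h2 l j hl (Or.inl hj), ?_⟩
  intro j hj
  rcases hP.2.2 a b N⁻¹ (Matrix.isUnit_nonsing_inv_det N hN) h2 j (Or.inl hj) with h | h <;>
    simp [cst, h]

theorem flagP (hP : PatP) : FlagP := by
  constructor
  · rintro ω V a b ha ⟨N, hN, hp, u, hu0, hu1, hX⟩ m hm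
    obtain ⟨M, hM, -, h0, h1⟩ := inv_Flag hP a b N hN hp
    refine core_Flag ω (V * cst N) u (cst M) hu0 hu1 hX m (le_trans hm ha) (col V) ?_ ?_ ?_
    · intro j _ i
      rw [Matrix.mul_assoc, cst_mul_Flag, hM, cst_one_Flag, Matrix.mul_one, col_Flag]
    · intro l j hj hl
      simp [cst, h0 l j (by omega) hl]
    · intro j hj
      exact h1 j (by omega)
  · rintro ω V a b ξ ⟨N, ⟨hN, hp, u, hu0, hu1, hX⟩, ha, hξ⟩ m hm
    obtain ⟨M, hM, hM', h0, h1⟩ := inv_Flag hP a b N hN hp
    let D : Mat := Matrix.of fun k j =>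
      if j.val < a then (1 : Mat) k j else if k.val < a then 0 else cst N k j
    have hlt : ∀ l j : Fin 12, j.val < a → (cst M * D) l j = cst M l j := by
      intro l j hj
      rw [Matrix.mul_apply]
      have : ∀ k, D k j = (1 : Mat) k j := fun k => by simp [D, hj]
      simp only [this]
      rw [← Matrix.mul_apply, Matrix.mul_one]
    have hge : ∀ l j : Fin 12, a ≤ j.val → a ≤ l.val → (cst M * D) l j = (1 : Mat) l j := by
      intro l j hj hl
      rw [← cst_one_Flag, ← hM', ← cst_mul_Flag, Matrix.mul_apply, Matrix.mul_apply]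
      refine Finset.sum_congr rfl fun k _ => ?_
      by_cases hk : k.val < a
      · have : cst M l k = 0 := by
          simp [cst, h0 l k hk (by rw [Fin.lt_def]; omega)]
        rw [this, zero_mul, zero_mul]
      · have : D k j = cst N k j := by simp [D, hk, not_lt.mpr hj]
        rw [this]
    refine core_Flag ω (V * cst N) u (cst M * D) hu0 hu1 hX m (by omega)
      (fun j => if j < a then col V j else kap V a ξ) ?_ ?_ ?_
    · intro j hj i
      have e : V * cst N * (cst M * D) = V * D := by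
        rw [Matrix.mul_assoc, ← Matrix.mul_assoc (cst N), cst_mul_Flag, hM, cst_one_Flag,
          Matrix.one_mul]
      rw [e, Matrix.mul_apply]
      by_cases hja : j.val < a
      · have : ∀ k, D k j = (1 : Mat) k j := fun k => by simp [D, hja]
        simp only [this, if_pos hja]
        rw [← Matrix.mul_apply, Matrix.mul_one, col_Flag]
      · have hj' : j = ⟨a, ha⟩ := Fin.ext (by simp only; omega)
        simp only [if_neg hja]
        unfold kap cmb
        rw [Finset.sum_range]
        refine Finset.sum_congr rfl fun k _ => ?_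
        rw [col_Flag, mul_comm]
        congr 1
        by_cases hk : k.val < a
        · simp [D, hk, hja]
        · have : D k j = cst N k j := by simp [D, hk, hja]
          rw [this, hj']
          simp [cst, hk, hξ k (not_lt.mp hk)]
    · intro l j hj hl
      by_cases hja : j.val < a
      · rw [hlt l j hja]
        simp [cst, h0 l j hja hl]
      · rw [hge l j (not_lt.mp hja) (by rw [Fin.lt_def] at hl; omega),
          Matrix.one_apply_ne (ne_of_gt hl)]
    · intro j hj
      by_cases hja : j.val < a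
      · rw [hlt j j hja]
        exact h1 j hja
      · rw [hge j j (not_lt.mp hja) (not_lt.mp hja), Matrix.one_apply_eq, one_pow]

theorem frameP : FrameP := by
  intro ω f k c hk hf hc1 hc0 m hm
  have hm12 : m ≤ 12 := le_trans hm hk
  let T : Matrix (Fin m) (Fin m) ℝ := Matrix.of fun l j => c j l
  have hg : ∀ (j : Fin m) (i : Fin 12), cmb f (c j) i = ∑ l : Fin m, c j l * f l i := by
    intro j i
    unfold cmb
    rw [Finset.sum_range, ← sum_cast_Flag hm12]
    · rfl
    · intro r hr
      have := j.isLt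
      rw [hc0 j r (by omega), zero_mul]
  have hG : (Matrix.of fun j l : Fin m => Ip ω (cmb f (c j)) (cmb f (c l))) =
      Tᵀ * (Matrix.of fun j l : Fin m => Ip ω (f j) (f l)) * T := by
    ext j l
    simp only [Matrix.of_apply, Matrix.mul_apply, Matrix.transpose_apply, T, Ip, hg,
      Finset.mul_sum, Finset.sum_mul]
    rw [Finset.sum_comm]
    refine Finset.sum_congr rfl fun p _ => ?_
    rw [Finset.sum_comm]
    refine Finset.sum_congr rfl fun q _ => ?_
    refine Finset.sum_congr rfl fun i _ => ?_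
    ring
  have hT : T.det ^ 2 = 1 := by
    apply detsq_Flag
    · intro i j hij
      exact hc0 j i hij
    · intro i
      show c i i ^ 2 = 1
      rw [hc1, one_pow]
  show (Matrix.of fun j l : Fin m => Ip ω (cmb f (c j)) (cmb f (c l))).det = 1
  rw [hG, Matrix.det_mul, Matrix.det_mul, Matrix.det_transpose, hf m hm, mul_one, ← sq, hT]

end Pool.Agent.MP_2877d0_al.T
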