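import Pool.Agent.MP_2877d0_al.T.St

namespace Pool.Agent.MP_2877d0_al.T

open Matrix Finset

set_option exponentiation.threshold 400

/-- all subset sums, with the number of terms -/
def sub_Fld : List ℤ → ℤ → ℕ → Bool
  | [], a, c => decide (c = 0 ∨ c = 12 ∨ (100 < a % 1048576 ∧ a % 1048576 < 1048476))
  | x :: l, a, c => sub_Fld l a c && sub_Fld l (a + x) (c + 1)

def nL_Fld : List ℤ := [8146071, 7451004, 5116245, 706668, -1957564, -118773, -5774239, 1466813,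
  -440978, -3122427, 356, -8327455]

theorem ok_Fld (n : ℕ) : ∀ (f : Fin n → ℤ) (b : Fin n → Prop) [DecidablePred b] (a : ℤ) (c : ℕ),
    sub_Fld (List.ofFn f) a c = true →
    sub_Fld [] (a + ∑ i, if b i then f i else 0) (c + ∑ i, if b i then 1 else 0) = true := by
  induction n with
  | zero => intro f b _ a c h; simpa using h
  | succ n ih =>
    intro f b _ a c h
    rw [List.ofFn_succ, sub_Fld, Bool.and_eq_true] at h
    rw [Fin.sum_univ_succ, Fin.sum_univ_succ]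
    by_cases h0 : b 0
    · rw [if_pos h0, if_pos h0, ← add_assoc, ← add_assoc]
      exact ih _ (fun i => b i.succ) _ _ h.2
    · rw [if_neg h0, if_neg h0, zero_add, zero_add]
      exact ih _ (fun i => b i.succ) _ _ h.1

theorem run_Fld : sub_Fld (List.ofFn fun i : Fin 12 => nL_Fld.getD i 0) 0 0 = true := by
  decide +kernel

theorem tab_Fld : ∀ i : Fin 12, |thI.getD i 0| ≤ 2 ^ 129 ∧
    |thI.getD i 0 ^ 3 - 2 ^ 364 * nL_Fld.getD i 0| ≤ 2 ^ 364 := by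
  decide +kernel

theorem cube_Fld {x t n : ℝ} (h1 : |2 ^ 128 * x - t| ≤ 2 ^ 8) (h2 : |t| ≤ 2 ^ 129)
    (h3 : |t ^ 3 - 2 ^ 364 * n| ≤ 2 ^ 364) : |1048576 * (x * (x * x)) - n| ≤ 2 := by
  obtain ⟨a, ha⟩ : ∃ a, a = 2 ^ 128 * x := ⟨_, rfl⟩
  rw [← ha] at h1
  have h4 : |a| ≤ 2 ^ 130 := by
    have := abs_add_le (a - t) t
    rw [sub_add_cancel] at this
    have h5 : (2 : ℝ) ^ 8 + 2 ^ 129 ≤ 2 ^ 130 := by norm_num
    linarith
  have h5 : |a * a + a * t + t * t| ≤ 2 ^ 262 := by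
    have b1 : |a * a| ≤ 2 ^ 130 * 2 ^ 130 := by rw [abs_mul]; gcongr
    have b2 : |a * t| ≤ 2 ^ 130 * 2 ^ 129 := by rw [abs_mul]; gcongr
    have b3 : |t * t| ≤ 2 ^ 129 * 2 ^ 129 := by rw [abs_mul]; gcongr
    have b4 : (2 : ℝ) ^ 130 * 2 ^ 130 + 2 ^ 130 * 2 ^ 129 + 2 ^ 129 * 2 ^ 129 ≤ 2 ^ 262 := by
      norm_num
    linarith [abs_add_three (a * a) (a * t) (t * t)]
  have h6 : |(a - t) * (a * a + a * t + t * t)| ≤ 2 ^ 8 * 2 ^ 262 := by rw [abs_mul]; gcongr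
  have h7 : (2 : ℝ) ^ 364 * (1048576 * (x * (x * x)) - n) =
      (a - t) * (a * a + a * t + t * t) + (t ^ 3 - 2 ^ 364 * n) := by
    have : (2 : ℝ) ^ 364 * 1048576 = 2 ^ 128 * 2 ^ 128 * 2 ^ 128 := by norm_num
    rw [ha]
    linear_combination x * (x * x) * this
  have h8 := abs_add_le ((a - t) * (a * a + a * t + t * t)) (t ^ 3 - 2 ^ 364 * n)
  have h9 : (2 : ℝ) ^ 8 * 2 ^ 262 ≤ 2 ^ 364 := by
    rw [← pow_add]
    exact pow_le_pow_right₀ one_le_two (by norm_num)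
  rw [← h7, abs_mul, abs_of_pos (by positivity : (0 : ℝ) < 2 ^ 364)] at h8
  refine le_of_mul_le_mul_left ?_ (by positivity : (0 : ℝ) < 2 ^ 364)
  linarith

theorem sum_Fld {θ : Vec} (h : Th θ) (S : Finset (Fin 12)) (h1 : S.Nonempty) (h2 : S ≠ univ)
    (k : ℤ) : ∑ i ∈ S, θ i * (θ i * θ i) ≠ k := by
  intro e
  have h3 : ∀ i : Fin 12, |1048576 * (θ i * (θ i * θ i)) - (nL_Fld.getD i 0 : ℤ)| ≤ 2 := fun i =>
    cube_Fld (h.apx i) (by exact_mod_cast (tab_Fld i).1) (by exact_mod_cast (tab_Fld i).2)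
  have h4 := ok_Fld 12 _ (· ∈ S) 0 0 run_Fld
  rw [zero_add, zero_add, sum_ite_mem, sum_ite_mem, univ_inter, ← card_eq_sum_ones, sub_Fld,
    decide_eq_true_eq] at h4
  have h5 : |((1048576 * k - ∑ i ∈ S, nL_Fld.getD i 0 : ℤ) : ℝ)| ≤ ((24 : ℤ) : ℝ) := by
    push_cast
    rw [← e, mul_sum, ← sum_sub_distrib]
    refine (abs_sum_le_sum_abs _ _).trans ((sum_le_card_nsmul _ _ _ fun i _ => h3 i).trans ?_)
    have : (S.card : ℝ) ≤ 12 := by exact_mod_cast (card_le_univ S).trans (by simp)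
    rw [nsmul_eq_mul]
    linarith
  rw [← Int.cast_abs, Int.cast_le, abs_le] at h5
  have h6 := card_pos.2 h1
  have h7 : S.card ≠ 12 := fun c => h2 (eq_univ_of_card S (by simpa using c))
  omega

theorem fldP (hT : ThP) (h0 : Ap0P) (h1 : Ap1P) (hO : OrdP) (hG : GramP) : FldP := by
  obtain ⟨θ, h⟩ := hT
  obtain ⟨ho, -, g3, g4⟩ := hG θ h
  obtain ⟨-, -, Γ, hΓ⟩ := hO θ h
  have nz : ∀ x, InO (Bm θ) x → x ≠ 0 → ∀ i, x i ≠ 0 := fun x hx hx0 =>
    ho.ne_zero (ho.mul _ _ (InO.col _ 1) (ho.mul _ _ (InO.col _ 1) (InO.col _ 1))) (sum_Fld h)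
      hx hx0
  refine ⟨Bm θ, Bd' θ, g3, h0 θ h, h1 θ h, g4, ⟨Γ, ?_, hΓ⟩, ho, nz, ?_, fun _ => rfl⟩
  · have e : (Bm θ).submatrix (Equiv.addRight (1 : Fin 12)) id = Bm θ * cst Γ :=
      Matrix.ext fun i k => hΓ i k
    have e1 := congrArg det e
    rw [det_permute, det_mul, cst, cast_det, mul_comm] at e1
    have e2 := mul_left_cancel₀ ho.det_ne e1
    rw [← Int.cast_inj (α := ℝ).1 e2]
    exact Units.isUnit _
  · rintro y ⟨w, hw⟩ hy0 i hi
    have e : (Bm θ)ᵀ * Bm θ * Hz.map (Int.cast : ℤ → ℝ) = ((45 : ℤ) : ℝ) • (1 : Mat) := by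
      have := congrArg transpose g3
      rw [transpose_mul, transpose_transpose, transpose_one, Bd', Matrix.mul_smul] at this
      rw [← this, smul_smul, Matrix.mul_assoc]
      norm_num
      rfl
    have h3 := dual_scaled ho.det_ne Hz 45 e hw
    refine nz _ ⟨_, h3⟩ (fun hc => hy0 ?_) i (by simp [hi])
    funext k
    simpa using congrFun hc k

end Pool.Agent.MP_2877d0_al.T
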