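import Pool.Agent.MP_2877d0_al.T.St

namespace Pool.Agent.MP_2877d0_al.T

open Matrix Finset

theorem rec_MkCut {ω : Vec} {x y : ℕ} (hx : CutOK ω x) (hy : CutOK ω y) (b : Bool) :
    CutOK ω (Bool.rec x y b) := by
  cases b
  · exact hx
  · exact hy

theorem iv_iv_MkCut (ω : Vec) : iv (iv ω) = ω := funext fun _ => inv_inv _

theorem fld_lt_MkCut (B f : ℕ) : fld B f < 2 ^ 24 := Nat.mod_lt _ (by norm_num)

theorem side_MkCut (hQ : CutQP) (hK : CutKP) (hU : CutUP) (hS : CutSP) (hT : CutTP) (hG : FlgP)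
    (ω : Vec) (V V' : Mat) (L : List ℕ) (a b s : ℕ) (sb fin : Bool) (key okey box ty r : ℕ)
    (hs : s ≤ 1) (hsb : gv s ω = if sb = true then iv ω else ω) (hp : ∀ i, 0 < ω i)
    (hf : Fl (gv s ω) V a b) (hL : LC L V) (hd : Dual V' V)
    (h1 : 1 ≤ key → Cand (gv s ω) V a b (lam 8 key))
    (h2 : 1 ≤ okey → Cand (iv (gv s ω)) V' b a (lam 8 okey))
    (hI : InI (muV (gv s ω) V) (fld box (Nat.add 24 (Nat.mul 2 s)))
      (fld box (Nat.add 25 (Nat.mul 2 s))))
    (hb : fin = true → Bd ω) (hdet : 756680642578125 * ∏ i, ω i = 1) :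
    CutOK ω (cutSide L a b s sb fin key okey box ty r) := by
  have q := hQ ω V L a b s r hs hf hL
  have u := hU ω V L a b s _ _ r hs hf hL (fld_lt_MkCut _ _) (fld_lt_MkCut _ _) hI hp
  obtain ⟨x, n, k1, k2, k3⟩ := hG _ V L a b key hf hL h1
  rw [hsb] at k3
  exact rec_MkCut (rec_MkCut (rec_MkCut (rec_MkCut (rec_MkCut (rec_MkCut (hS ω sb hp hdet) q.2 _)
    u.2 _) u.1 _) (hK ω V V' L a b okey s r hs hp hd hL h2) _)
    (hT ω x _ n r fin sb hp k1 k2 k3 hb) _) q.1 _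

theorem key_MkCut {E : Env} {kt : KT} {s : ℕ} (h : 1 ≤ keyS E kt s) :
    E.sd = s ∧ kt = KT.leaf (keyS E kt s) := by
  unfold keyS at *
  cases e : Nat.beq E.sd s
  · rw [e] at h
    exact absurd h (Nat.not_succ_le_zero 0)
  · rw [e] at h
    refine ⟨Nat.eq_of_beq_eq_true e, ?_⟩
    cases kt
    · exact absurd h (Nat.not_succ_le_zero 0)
    · rfl
    · exact absurd h (Nat.not_succ_le_zero 0)

theorem mkCutP (hB : BasP) (hD : DualP) (hF : FirstP) (hA : ApAP) (hN : NodeP) (hQ : CutQP)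
    (hK : CutKP) (hU : CutUP) (hS : CutSP) (hT : CutTP) (hG : FlgP) : MkCutP := by
  intro B B' ct nt NN E ω kt box c hc hb hm
  obtain ⟨d1, -, d3⟩ := hN B B' _ hc.fld.dual (hc.nodes _ hc.nid)
  have g0 : gv 0 ω = ω := rfl
  have g1 : gv 1 ω = iv ω := rfl
  have hdet : 756680642578125 * ∏ i, ω i = 1 := by
    have := (hF ω _ _ _ hc.fl).2.2
    rwa [V0, d3, hc.fld.det] at this
  have c0 : 1 ≤ keyS E kt 0 → Cand ω (V0 B nt E.nid) E.a E.b (lam 8 (keyS E kt 0)) := fun h => by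
    obtain ⟨e1, e2⟩ := key_MkCut h
    rw [e2, Mem, if_pos e1] at hm
    exact hm
  have c1 : 1 ≤ keyS E kt 1 →
      Cand (iv ω) (V1 B' nt E.nid) E.b E.a (lam 8 (keyS E kt 1)) := fun h => by
    obtain ⟨e1, e2⟩ := key_MkCut h
    rw [e2, Mem, if_neg (by omega)] at hm
    exact hm
  refine rec_MkCut ?_ ?_ _
  · refine side_MkCut hQ hK hU hS hT hG ω (V1 B' nt E.nid) (V0 B nt E.nid) _ _ _ _ _ _ _ _ _ _ _
      le_rfl rfl hc.pos (hD.2 ω _ _ _ _ hc.pos d1 hc.fl) (hc.l1 ▸ hA.1 _ _ _ hc.fld.ap1) d1 c1 ?_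
      (hb 13 (by norm_num)) hc.fin hdet
    rw [g1, iv_iv_MkCut]
    exact c0
  · exact side_MkCut hQ hK hU hS hT hG ω (V0 B nt E.nid) (V1 B' nt E.nid) _ _ _ _ _ _ _ _ _ _ _
      zero_le_one rfl hc.pos hc.fl (hc.l0 ▸ hA.1 _ _ _ hc.fld.ap0) (hD.1 _ _ d1) c0 c1
      (hb 12 (by norm_num)) hc.fin hdet

theorem chkP (hB : BasP) (hM : MkCutP) (hC : CertP) (hX : BoxP) (hR : RefCP) (hE : EnumCP) :
    ChkP := by
  intro B B' ct nt NN E ω np t kt box pool hc hn
  have hA := hB.1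
  induction t generalizing kt box pool with
  | cert d =>
    intro hb _ hp h
    obtain ⟨h1, h2⟩ := (hA _ _).1 (h 0 hn)
    exact hC.1 ω _ _ box pool d hc.pos (hc.fin h1) hb hp h2
  | cut c t ih =>
    intro hb hm hp h
    refine ih kt box (mkCut E kt box c :: pool) hb hm (fun C hC => ?_) h
    rcases List.mem_cons.1 hC with rfl | e
    · exact hM B B' ct nt NN E ω kt box c hc hb hm
    · exact hp C e
  | keep m t ih =>
    intro hb hm hp h
    exact ih kt box (keepP pool m) hb hm (fun C e => hp C (hC.2 pool m C e)) h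
  | split f v l r ihl ihr =>
    intro hb hm hp h
    have k := fun p hp => (hA _ _).1 (h p hp)
    have k1 := fun p hp => (hA _ _).1 (k p hp).2
    have k2 := fun p hp => (hA _ _).1 (k1 p hp).2
    rcases hX.1 ω _ _ box f v (Nat.le_of_ble_eq_true (k 0 hn).1)
      (Nat.le_of_ble_eq_true (k1 0 hn).1) hb with e | e
    · exact ihl kt _ pool e hm hp fun p hp => (k2 p hp).1
    · exact ihr kt _ pool e hm hp fun p hp => (k2 p hp).2
  | kb l r ihl ihr =>
    intro hb hm hp h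
    cases kt with
    | non => exact Bool.false_ne_true (h 0 hn)
    | leaf k => exact Bool.false_ne_true (h 0 hn)
    | node q x y =>
      have k := fun p hp => (hA _ _).1 (h p hp)
      rcases hm with e | e
      · exact ihl x box pool hb e hp fun p hp => (k p hp).1
      · exact ihr y box pool hb e hp fun p hp => (k p hp).2
  | use j =>
    intro hb hm _ h
    exact (hR B B' ct nt NN E ω kt box hc hb hm).1 j (h 0 hn)
  | ref j g =>
    intro hb hm _ h
    exact (hR B B' ct nt NN E ω kt box hc hb hm).2 j g (h 0 hn)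
  | enum e top =>
    intro hb _ _ h
    exact hE B B' ct nt NN E ω box np e top hc hb hn h

theorem mainP (hB : BasP) (hA : ApAP) (hN : NodeP) (hX : BoxP) (hI : InitP) (h : ChkP) :
    MainP := by
  intro B B' ct nt NN N hf hn hd j
  induction j using Nat.strong_induction_on with
  | _ j ih =>
  intro hj ω hp hfl hb hm
  obtain ⟨h0, t, ht⟩ := hd j hj
  have k := fun p hp => (hB.1 _ _).1 (ht p hp)
  have k1 := fun p hp => (hB.1 _ _).1 (k p hp).2
  have k2 := fun p hp => (k1 p hp).2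
  have n1 : (ctGet ct j).nid < NN := Nat.le_of_ble_eq_true (k 0 h0).1
  have cx : ∀ fin : Bool, (fin = true → Bd ω) → Cx B B' ct nt NN
      ⟨cols TB0 (ntGet nt (ctGet ct j).nid).1, cols TB1 (ntGet nt (ctGet ct j).nid).2,
        (ctGet ct j).nid, (ctGet ct j).a, (ctGet ct j).b, (ctGet ct j).sd, fin, j⟩ ω :=
    fun fin e => ⟨hf, hn, n1, Nat.le_of_ble_eq_true (k1 0 h0).1, rfl, rfl,
      fun i hi => ih i hi (lt_trans hi hj), hp, hfl, e⟩
  cases e : finB (ctGet ct j).pre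
  · rw [e] at k2
    cases e' : initOK (cols TB0 (ntGet nt (ctGet ct j).nid).1)
      (cols TB1 (ntGet nt (ctGet ct j).nid).2) (ctGet ct j).a (ctGet ct j).b
    · rw [e'] at k2
      exact h B B' ct nt NN _ ω _ t _ _ [] (cx false fun e => absurd e Bool.false_ne_true) h0 hb hm
        (fun _ e => absurd e List.not_mem_nil) k2
    · rw [e'] at k2
      obtain ⟨i1, i2⟩ := hI.1 ω _ _ _ _ _ _ ⟨hp, (hN B B' _ hf.dual (hn _ n1)).1, hfl,
        hA.1 _ _ _ hf.ap0, hA.1 _ _ _ hf.ap1⟩ e'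
      exact h B B' ct nt NN _ ω _ t _ _ [] (cx true fun _ => i2) h0 i1 hm
        (fun _ e => absurd e List.not_mem_nil) k2
  · rw [e] at k2
    exact h B B' ct nt NN _ ω _ t _ _ [] (cx true fun _ => hX.2.2.2 ω _ _ _ e hb) h0 hb hm
      (fun _ e => absurd e List.not_mem_nil) k2

end Pool.Agent.MP_2877d0_al.T
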