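import Pool.Agent.MP_2877d0_al.T.Math

namespace Pool.Agent.MP_2877d0_al.T

open Matrix Finset

lemma quad_OneK {A B M a x b : ℝ} (ha : 0 < a) (hax : a ≤ x) (hxb : x ≤ b) (hM : 0 ≤ M)
    (h1 : A * a + B * a⁻¹ ≤ M) (h2 : A * b + B * b⁻¹ ≤ M) : A * x + B * x⁻¹ ≤ M := by
  have hx : 0 < x := ha.trans_le hax
  have hb : 0 < b := hx.trans_le hxb
  have key : ∀ y : ℝ, 0 < y → (A * y + B * y⁻¹ ≤ M ↔ A * y ^ 2 + B ≤ M * y) := by
    intro y hy
    have e : A * y + B * y⁻¹ = (A * y ^ 2 + B) / y := by field_simp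
    rw [e, div_le_iff₀ hy]
  rcases le_total 0 A with hA | hA
  · rw [key a ha] at h1
    rw [key b hb] at h2
    rw [key x hx]
    rcases (hax.trans hxb).eq_or_lt with e | hab
    · have : x = a := le_antisymm (e ▸ hxb) hax
      rw [this]
      exact h1
    · have p1 := mul_nonneg (sub_nonneg.2 h1) (sub_nonneg.2 hxb)
      have p2 := mul_nonneg (sub_nonneg.2 h2) (sub_nonneg.2 hax)
      have p3 := mul_nonneg (mul_nonneg hA (mul_nonneg (sub_nonneg.2 hax) (sub_nonneg.2 hxb)))
        (sub_pos.2 hab).le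
      have p4 : 0 ≤ (M * x - (A * x ^ 2 + B)) * (b - a) := by nlinarith
      have := (mul_nonneg_iff_of_pos_right (sub_pos.2 hab)).1 p4
      linarith
  · rcases le_total B 0 with hB | hB
    · have q1 := mul_nonpos_of_nonpos_of_nonneg hA hx.le
      have q2 := mul_nonpos_of_nonpos_of_nonneg hB (inv_pos.2 hx).le
      linarith
    · have q1 := mul_le_mul_of_nonpos_left hax hA
      have q2 := mul_le_mul_of_nonneg_left (inv_anti₀ ha hax) hB
      linarith

lemma f2le_OneK {A B l h t M : ℝ} (hl : l ≤ t) (hh : t ≤ h) (hM : 0 ≤ M)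
    (h1 : f1'' A B l ≤ M) (h2 : f1'' A B h ≤ M) : f1'' A B t ≤ M := by
  have e : ∀ y : ℝ, f1'' A B y = A * Real.exp (y - 12) + B * (Real.exp (y - 12))⁻¹ := by
    intro y
    rw [f1'', ← Real.exp_neg, neg_sub]
  rw [e] at h1 h2 ⊢
  exact quad_OneK (Real.exp_pos _) (Real.exp_le_exp.2 (by linarith))
    (Real.exp_le_exp.2 (by linarith)) hM h1 h2

lemma e1_OneK (t : ℝ) : HasDerivAt (fun s : ℝ => Real.exp (s - 12)) (Real.exp (t - 12)) t := by
  simpa using ((hasDerivAt_id t).sub_const 12).exp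

lemma e2_OneK (t : ℝ) : HasDerivAt (fun s : ℝ => Real.exp (12 - s)) (-Real.exp (12 - t)) t := by
  simpa using ((hasDerivAt_id t).const_sub 12).exp

lemma d1_OneK (A B C M l h t : ℝ) :
    HasDerivAt (fun s => f1 A B C s - M / 2 * ((s - l) * (s - h)))
      (f1' A B C t - M / 2 * (2 * t - l - h)) t := by
  have a1 := (((e1_OneK t).const_mul A).add ((e2_OneK t).const_mul B)).add
    ((hasDerivAt_id t).const_mul C)
  have a2 := ((((hasDerivAt_id t).sub_const l).mul ((hasDerivAt_id t).sub_const h))).const_mul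
    (M / 2)
  refine (a1.sub a2).congr_deriv ?_
  simp only [f1', id]
  ring

lemma d2_OneK (A B C M l h t : ℝ) :
    HasDerivAt (fun s => f1' A B C s - M / 2 * (2 * s - l - h)) (f1'' A B t - M) t := by
  have a1 := (((e1_OneK t).const_mul A).sub ((e2_OneK t).const_mul B)).add_const C
  have a2 := (((((hasDerivAt_id t).const_mul 2).sub_const l).sub_const h)).const_mul (M / 2)
  refine (a1.sub a2).congr_deriv ?_
  simp only [f1'']
  ring

theorem oneKP : OneKP := by
  intro A B C l h s M hl hh hM h1 h2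
  have hc : ConcaveOn ℝ (Set.Icc l h) (fun s => f1 A B C s - M / 2 * ((s - l) * (s - h))) := by
    refine concaveOn_of_hasDerivWithinAt2_nonpos (convex_Icc l h)
      (f' := fun s => f1' A B C s - M / 2 * (2 * s - l - h)) (f'' := fun s => f1'' A B s - M)
      (fun t _ => (d1_OneK A B C M l h t).continuousAt.continuousWithinAt)
      (fun t _ => (d1_OneK A B C M l h t).hasDerivWithinAt)
      (fun t _ => (d2_OneK A B C M l h t).hasDerivWithinAt) fun t ht => ?_
    have ht' := interior_subset ht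
    exact sub_nonpos.2 (f2le_OneK ht'.1 ht'.2 hM h1 h2)
  have hm := hc.min_le_of_mem_Icc (Set.left_mem_Icc.2 (hl.trans hh))
    (Set.right_mem_Icc.2 (hl.trans hh)) (show s ∈ Set.Icc l h from ⟨hl, hh⟩)
  simp only [sub_self, zero_mul, mul_zero, sub_zero] at hm
  have hq := mul_nonneg hM (sq_nonneg (2 * s - l - h))
  nlinarith

end Pool.Agent.MP_2877d0_al.T
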