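import Pool.Agent.MP_2877d0_al.T.Math

namespace Pool.Agent.MP_2877d0_al.T

open Matrix Finset

lemma quad_OneR {a b c u v w : ℝ} (ha : 0 ≤ a) (h1 : u ≤ v) (h2 : v ≤ w) (h3 : u < w)
    (hu : a * u ^ 2 + c * u + b ≤ 0) (hw : a * w ^ 2 + c * w + b ≤ 0) :
    a * v ^ 2 + c * v + b ≤ 0 := by
  have e : (w - u) * (a * v ^ 2 + c * v + b) = (w - v) * (a * u ^ 2 + c * u + b) +
      (v - u) * (a * w ^ 2 + c * w + b) - a * ((v - u) * (w - v) * (w - u)) := by ring
  have a1 := mul_nonpos_of_nonneg_of_nonpos (sub_nonneg.2 h2) hu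
  have a2 := mul_nonpos_of_nonneg_of_nonpos (sub_nonneg.2 h1) hw
  have a3 := mul_nonneg ha (mul_nonneg (mul_nonneg (sub_nonneg.2 h1) (sub_nonneg.2 h2))
    (sub_pos.2 h3).le)
  by_contra h
  have := mul_pos (sub_pos.2 h3) (not_le.1 h)
  linarith

lemma core_OneR {A B C x1 x2 x3 y1 y2 y3 : ℝ} (p1 : 0 < x1) (h1 : x1 < x2) (h2 : x2 ≤ x3)
    (q3 : 0 < y3) (k1 : y2 < y1) (k2 : y3 ≤ y2) (e1 : x1 * y1 = 1) (e2 : x2 * y2 = 1)
    (e3 : x3 * y3 = 1) (a1 : A * x1 - B * y1 + C < 0) (a2 : 0 < A * x2 - B * y2 + C)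
    (a3 : A * x3 - B * y3 + C ≤ 0) (h : 0 ≤ A ∨ B ≤ 0 ∨ 0 ≤ A * x3 + B * y3) : False := by
  have ex : ∀ x y : ℝ, x * y = 1 → A * x ^ 2 + C * x + -B = x * (A * x - B * y + C) :=
    fun x y e => by linear_combination B * e
  have ey : ∀ x y : ℝ, x * y = 1 → -B * y ^ 2 + C * y + A = y * (A * x - B * y + C) :=
    fun x y e => by linear_combination -A * e
  by_cases hA : 0 ≤ A
  · have := quad_OneR (b := -B) (c := C) hA h1.le h2 (h1.trans_le h2)
      (by rw [ex _ _ e1]; exact (mul_neg_of_pos_of_neg p1 a1).le)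
      (by rw [ex _ _ e3]; exact mul_nonpos_of_nonneg_of_nonpos (by linarith) a3)
    rw [ex _ _ e2] at this
    exact absurd this (not_le.2 (mul_pos (by linarith) a2))
  by_cases hB : B ≤ 0
  · have := quad_OneR (a := -B) (b := A) (c := C) (neg_nonneg.2 hB) k2 k1.le (k2.trans_lt k1)
      (by rw [ey _ _ e3]; exact mul_nonpos_of_nonneg_of_nonpos q3.le a3)
      (by rw [ey _ _ e1]; exact (mul_neg_of_pos_of_neg (by linarith) a1).le)
    rw [ey _ _ e2] at this
    exact absurd this (not_le.2 (mul_pos (by linarith) a2))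
  have b1 := mul_nonneg (sub_nonneg.2 h2) (mul_nonneg q3.le ((h.resolve_left hA).resolve_left hB))
  have b2 := mul_nonneg (sub_nonneg.2 h2)
    (mul_nonneg (not_le.1 hB).le (mul_nonneg q3.le (sub_nonneg.2 k2)))
  have e : (A * x3 - B * y3 + C) - (A * x2 - B * y2 + C) =
      (x3 - x2) * (y3 * (A * x3 + B * y3)) + (x3 - x2) * (B * (y3 * (y2 - y3))) := by
    linear_combination (-(x3 - x2) * A - B * y2) * e3 + B * y3 * e2
  linarith

lemma der_OneR (A B C s : ℝ) : HasDerivAt (f1 A B C) (f1' A B C s) s := by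
  have h1 := (((hasDerivAt_id s).sub_const 12).exp.const_mul A).add
    (((hasDerivAt_id s).const_sub 12).exp.const_mul B) |>.add ((hasDerivAt_id s).const_mul C)
  refine h1.congr_deriv ?_
  simp only [f1', id]
  ring

lemma qc_OneR {g g' : ℝ → ℝ} (hg : ∀ s, HasDerivAt g (g' s) s) {l h s : ℝ} (h1 : l ≤ s)
    (h2 : s ≤ h) (hn : ∀ s1 s2, s1 < s2 → s2 ≤ h → g' s1 < 0 → 0 < g' s2 → False) :
    min (g l) (g h) ≤ g s := by
  by_contra hc
  obtain ⟨a1, a2⟩ := lt_min_iff.1 (not_le.1 hc)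
  have l1 : l < s := lt_of_le_of_ne h1 fun e => absurd a1 (by rw [e]; exact lt_irrefl _)
  have l2 : s < h := lt_of_le_of_ne h2 fun e => absurd a2 (by rw [e]; exact lt_irrefl _)
  have hc : Continuous g := continuous_iff_continuousAt.2 fun s => (hg s).continuousAt
  obtain ⟨s1, b1, b2⟩ := exists_hasDerivAt_eq_slope g g' l1 hc.continuousOn fun x _ => hg x
  obtain ⟨s2, b3, b4⟩ := exists_hasDerivAt_eq_slope g g' l2 hc.continuousOn fun x _ => hg x
  refine hn s1 s2 (b1.2.trans b3.1) b3.2.le ?_ ?_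
  · rw [b2]
    exact div_neg_of_neg_of_pos (sub_neg.2 a1) (sub_pos.2 l1)
  · rw [b4]
    exact div_pos (sub_pos.2 a2) (sub_pos.2 l2)

theorem oneRP : OneRP := by
  intro A B C l h s h1 h2 h3 h4
  refine qc_OneR (der_OneR A B C) h1 h2 fun s1 s2 a1 a2 a3 a4 => ?_
  have e : ∀ t : ℝ, Real.exp (t - 12) * Real.exp (12 - t) = 1 := fun t => by
    rw [← Real.exp_add, sub_add_sub_cancel, sub_self, Real.exp_zero]
  exact core_OneR (Real.exp_pos _) (Real.exp_lt_exp.2 (by linarith))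
    (Real.exp_le_exp.2 (by linarith)) (Real.exp_pos _) (Real.exp_lt_exp.2 (by linarith))
    (Real.exp_le_exp.2 (by linarith)) (e s1) (e s2) (e h) a3 a4 h3 h4

theorem oneLP (h : OneRP) : OneLP := by
  intro A B C l r s h1 h2 h3 h4
  have e1 : ∀ t : ℝ, 24 - t - 12 = 12 - t := fun t => by ring
  have e2 : ∀ t : ℝ, 12 - (24 - t) = t - 12 := fun t => by ring
  have e : ∀ t, f1 A B C t = f1 B A (-C) (24 - t) + 24 * C := fun t => by
    simp only [f1, e1, e2]
    ring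
  have h5 := h B A (-C) (24 - r) (24 - l) (24 - s) (by linarith) (by linarith)
    (by simp only [f1', e1, e2] at h3 ⊢; linarith)
    (by
      simp only [f1'', e1, e2] at h4 ⊢
      rcases h4 with h4 | h4 | h4
      exacts [Or.inr (Or.inl h4), Or.inl h4, Or.inr (Or.inr (by linarith))])
  rw [e l, e r, e s, min_add_add_right, min_comm]
  linarith

end Pool.Agent.MP_2877d0_al.T
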