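import Pool.Agent.MP_2877d0_al.T.St

/-! The order spanned by the columns of the embedding matrix and its trace form. -/

namespace Pool.Agent.MP_2877d0_al.T

open Matrix Finset

theorem mul_Ord (x : ℝ) (n : ℕ) :
    ∀ m, ch x (n + m) * ch x n = ch x (2 * n + m) + ch x m := by
  induction n using Nat.twoStepInduction with
  | zero => intro m; simp only [ch, mul_zero, zero_add]; ring
  | one =>
    intro m
    rw [show 2 * 1 + m = m + 2 by ring, add_comm 1 m]
    simp only [ch]
    ring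
  | more n h1 h2 =>
    intro m
    have e1 := h1 (m + 2)
    have e2 := h2 (m + 1)
    rw [show n + (m + 2) = n + 2 + m by ring, show 2 * n + (m + 2) = 2 * n + m + 2 by ring] at e1
    rw [show n + 1 + (m + 1) = n + 2 + m by ring,
      show 2 * (n + 1) + (m + 1) = 2 * n + m + 2 + 1 by ring] at e2
    rw [show 2 * (n + 2) + m = 2 * n + m + 2 + 2 by ring, ch, ch]
    rw [ch.eq_3 x m] at e1
    linear_combination x * e2 - e1

theorem dbl_Ord (x : ℝ) (n : ℕ) : ch (x ^ 2 - 2) n = ch x (2 * n) := by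
  induction n using Nat.twoStepInduction with
  | zero => rfl
  | one => simp only [ch]; ring
  | more n h1 h2 =>
    have e := mul_Ord x 2 (2 * n)
    rw [show 2 + 2 * n = 2 * (n + 1) by ring, show 2 * 2 + 2 * n = 2 * (n + 2) by ring] at e
    rw [ch, h1, h2]
    simp only [ch] at e
    linear_combination e

theorem cols_Ord {B : Mat} {y : Vec} (h : ∀ j, InO B (fun i => y i * B i j)) {x : Vec}
    (hx : InO B x) : InO B (fun i => y i * x i) := by
  obtain ⟨v, rfl⟩ := hx
  choose w hw using h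
  refine ⟨fun k => ∑ j, v j * w j k, funext fun i => ?_⟩
  have e : ∀ j, y i * B i j = ∑ k, B i k * w j k := fun j => congrFun (hw j) i
  simp only [mulVec, dotProduct, mul_sum, Int.cast_sum, Int.cast_mul, ← mul_assoc, e, sum_mul]
  rw [sum_comm]
  exact sum_congr rfl fun k _ => sum_congr rfl fun j _ => by ring

theorem cmb_Ord {B : Mat} {x y z : Vec} (hx : InO B x) (hy : InO B y) (c : ℤ)
    (e : ∀ i, z i = x i + c * y i) : InO B z := by
  rw [funext e]
  exact hx.add (hy.zsmul c)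

theorem chm_Ord {θ : Vec} (h : Th θ) {y : Vec} (hy : InO (Bm θ) y) (n : ℕ) :
    InO (Bm θ) fun i => ch (θ i) n * y i := by
  have c0 : InO (Bm θ) fun _ => 1 := InO.col _ 0
  have c : ∀ k, k < 12 → InO (Bm θ) fun i => ch (θ i) k := fun k hk => by
    rcases k with _ | k
    · exact cmb_Ord c0 c0 1 fun i => by norm_num [ch]
    · exact InO.col (Bm θ) ⟨k + 1, hk⟩
  have c' : ∀ k, k < 13 → InO (Bm θ) fun i => ch (θ i) k := fun k hk => by
    rcases Nat.lt_succ_iff_lt_or_eq.1 hk with hk | rfl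
    · exact c k hk
    · exact cmb_Ord (cmb_Ord (c 9 (by norm_num)) (c 3 (by norm_num)) (-1) fun _ => rfl) c0 1
        fun i => by rw [h.root]; push_cast; ring
  have m : ∀ x, InO (Bm θ) x → InO (Bm θ) fun i => θ i * x i := fun x hx => by
    refine cols_Ord (fun ⟨j, hj⟩ => ?_) hx
    rcases j with _ | j
    · exact cmb_Ord (c 1 (by norm_num)) c0 0 fun i => by simp [Bm, ch]
    · exact cmb_Ord (c' (j + 2) (by omega)) (c j (by omega)) 1 fun i => by simp [Bm, ch]
  induction n using Nat.twoStepInduction with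
  | zero => exact cmb_Ord hy hy 1 fun i => by simp [ch, two_mul]
  | one => exact m y hy
  | more n h1 h2 => exact cmb_Ord (m _ h2) h1 (-1) fun i => by rw [ch]; push_cast; ring

theorem ordP : OrdP := by
  intro θ h
  have c0 : InO (Bm θ) 1 := InO.col _ 0
  refine ⟨c0, fun x y hx hy => cols_Ord (fun ⟨j, hj⟩ => ?_) hy, ?_⟩
  · rcases j with _ | j
    · simpa [Bm] using hx
    · simpa [Bm, mul_comm] using chm_Ord h hx (j + 1)
  · have : ∀ k : Fin 12, InO (Bm θ) (rot 1 fun i => Bm θ i k) := fun ⟨k, hk⟩ => by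
      rcases k with _ | k
      · exact c0
      · refine cmb_Ord (chm_Ord h c0 (2 * (k + 1))) c0 0 fun i => ?_
        rw [← dbl_Ord, ← h.sq]
        simp [rot, Bm]
    choose v hv using this
    exact ⟨Matrix.of fun j k => v k j, fun i k => congrFun (hv k) i⟩

/-- the traces -/
def tr_Ord : List ℤ := [24, 0, 0, 3, 0, 0, 3, 0, 0, -6, 0, 0, 3, 0, 0, -12, 0, 0, -6, 0, 0, 3, 0]

theorem prod_Ord (θ : Vec) (a k : ℕ) : ∑ i, ch (θ i) a * ch (θ i) k =
    ∑ i, ch (θ i) (a + k) + ∑ i, ch (θ i) (a - k + (k - a)) := by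
  rcases le_total a k with e | e <;> obtain ⟨m, rfl⟩ := Nat.exists_eq_add_of_le e
  · rw [show a + (a + m) = 2 * a + m by omega, show a - (a + m) + (a + m - a) = m by omega]
    simp only [mul_comm (ch _ a), mul_Ord, sum_add_distrib]
  · rw [show k + m + k = 2 * k + m by omega, show k + m - k + (k - (k + m)) = m by omega]
    simp only [mul_Ord, sum_add_distrib]

theorem trace_Ord {θ : Vec} (h : Th θ) (n : ℕ) (hn : n < 23) :
    ∑ i, ch (θ i) n = tr_Ord.getD n 0 := by
  obtain ⟨s, hs⟩ : ∃ s : ℕ → ℝ, ∀ n, s n = ∑ i, ch (θ i) n := ⟨_, fun _ => rfl⟩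
  have d : ∀ n, s (2 * n) = s n := fun n => by
    simp only [hs, ← dbl_Ord, ← h.sq]
    exact Equiv.sum_comp (Equiv.addRight (1 : Fin 12)) fun i => ch (θ i) n
  have p : ∀ a k, ∑ i, ch (θ i) a * ch (θ i) k = s (a + k) + s (a - k + (k - a)) := fun a k => by
    rw [prod_Ord, hs, hs]
  have r : ∀ k, s (12 + k) + s (12 - k + (k - 12)) = s (9 + k) + s (9 - k + (k - 9)) -
      (s (3 + k) + s (3 - k + (k - 3))) + s k := fun k => by
    rw [← p, ← p, ← p, hs, ← sum_sub_distrib, ← sum_add_distrib]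
    exact sum_congr rfl fun i _ => by rw [h.root]; ring
  have s0 : s 0 = 24 := by rw [hs]; norm_num [ch]
  have r0 := r 0; have r1 := r 1; have r2 := r 2; have r3 := r 3; have r4 := r 4; have r5 := r 5
  have r6 := r 6; have r7 := r 7; have r8 := r 8; have r9 := r 9; have r10 := r 10
  have d1 := d 1; have d2 := d 2; have d3 := d 3; have d4 := d 4; have d5 := d 5; have d6 := d 6
  have d7 := d 7; have d8 := d 8; have d9 := d 9; have d10 := d 10; have d11 := d 11
  simp only [Nat.reduceAdd, Nat.reduceSub] at r0 r1 r2 r3 r4 r5 r6 r7 r8 r9 r10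
  simp only [Nat.reduceMul] at d1 d2 d3 d4 d5 d6 d7 d8 d9 d10 d11
  rw [← hs]
  interval_cases n <;> simp only [tr_Ord, List.getD_cons_zero, List.getD_cons_succ] <;>
    push_cast <;> linarith

theorem tab_Ord : (∀ j k : Fin 12, ent Gm j k = if j.val = 0 then (if k.val = 0 then 12 else
    tr_Ord.getD k 0) else if k.val = 0 then tr_Ord.getD j 0 else
    tr_Ord.getD (j + k) 0 + tr_Ord.getD (j - k + (k - j)) 0) ∧
    ∀ j k : Fin 12, ∑ l, Hz l j * Gz l k = if j = k then 45 else 0 := by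
  constructor <;> decide +kernel

theorem det_Ord : Gz.det = 756680642578125 := by
  have : Gz = !![12, 0, 0, 3, 0, 0, 3, 0, 0, -6, 0, 0;
      0, 24, 3, 0, 3, 3, 0, 3, -6, 0, -6, 3;
      0, 3, 24, 0, 3, 3, 0, -6, 3, 0, 3, -6;
      3, 0, 0, 27, 0, 0, -3, 0, 0, 6, 0, 0;
      0, 3, 3, 0, 24, -6, 0, 3, 3, 0, 3, -12;
      0, 3, 3, 0, -6, 24, 0, 3, 3, 0, -12, 3;
      3, 0, 0, -3, 0, 0, 27, 0, 0, -9, 0, 0;
      0, 3, -6, 0, 3, 3, 0, 24, -12, 0, 3, -6;
      0, -6, 3, 0, 3, 3, 0, -12, 24, 0, -6, 3;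
      -6, 0, 0, 6, 0, 0, -9, 0, 0, 18, 0, 0;
      0, -6, 3, 0, 3, -12, 0, 3, -6, 0, 24, 3;
      0, 3, -6, 0, -12, 3, 0, -6, 3, 0, 3, 24] := by decide +kernel
  rw [this]
  eval_det

theorem gram_Ord {θ : Vec} (h : Th θ) : (Bm θ)ᵀ * Bm θ = cst Gz := by
  ext j k
  have hj := j.2
  have hk := k.2
  simp only [mul_apply, transpose_apply, Bm, Gz, of_apply, cst, map_apply, tab_Ord.1]
  split_ifs with h1 h2 h2
  · simp
  · simp only [one_mul, trace_Ord h k (by omega)]
  · simp only [mul_one, trace_Ord h j (by omega)]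
  · push_cast
    rw [← trace_Ord h _ (by omega), ← trace_Ord h _ (by omega), prod_Ord]

set_option linter.unusedVariables false in
theorem gramP (hO : OrdP) (h0 : Ap0P) : GramP := by
  intro θ h
  have g := gram_Ord h
  have d : (Bm θ).det ^ 2 = 756680642578125 := by
    have := congrArg det g
    rw [det_mul, det_transpose, cst, cast_det, det_Ord] at this
    rw [sq, this]
    norm_num
  refine ⟨⟨fun e => by norm_num [e] at d, (hO θ h).1, (hO θ h).2.1⟩, g, ?_, d⟩
  rw [Bd', transpose_smul, transpose_mul, smul_mul, Matrix.mul_assoc, g]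
  ext j k
  have := congrArg (Int.cast : ℤ → ℝ) (tab_Ord.2 j k)
  push_cast at this
  simp only [Matrix.smul_apply, mul_apply, transpose_apply, cst, map_apply, this, one_apply,
    smul_eq_mul]
  split_ifs <;> norm_num

end Pool.Agent.MP_2877d0_al.T
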