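import Pool.Agent.MP_2877d0_al.T.Math

namespace Pool.Agent.MP_2877d0_al.T

open Matrix Finset

def lev_Pat (a b : ℕ) (i : Fin 12) : ℕ := if i.val < a ∨ 12 ≤ i.val + b then i.val else a

theorem iff_Pat (a b : ℕ) (N : ZMat) : Pat a b N ↔ N.BlockTriangular (lev_Pat a b) := by
  constructor
  · intro h i j hij
    have hi := i.2
    have hj := j.2
    unfold lev_Pat at hij
    refine h i j ?_ ?_
    · rw [Fin.lt_def]
      split_ifs at hij <;> omega
    · split_ifs at hij <;> omega
  · intro h i j hij hc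
    have hi := i.2
    have hj := j.2
    rw [Fin.lt_def] at hij
    refine h ?_
    unfold lev_Pat
    split_ifs <;> omega

theorem inv_Pat (a b : ℕ) (M N : ZMat) (h : M * N = 1) (hM : Pat a b M) : Pat a b N := by
  rw [iff_Pat] at hM ⊢
  let _ : Invertible M := invertibleOfRightInverse M N h
  rw [← Matrix.inv_eq_right_inv h]
  exact Matrix.blockTriangular_inv_of_blockTriangular hM

theorem patP : PatP := by
  refine ⟨?_, inv_Pat, ?_⟩
  · intro a b M N hM hN
    rw [iff_Pat] at hM hN ⊢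
    exact hM.mul hN
  · intro a b M hdet hM i hi
    have h1 : M * M⁻¹ = 1 := Matrix.mul_nonsing_inv M hdet
    have hN := inv_Pat a b M M⁻¹ h1 hM
    have h2 : (M * M⁻¹) i i = M i i * M⁻¹ i i := by
      rw [Matrix.mul_apply]
      refine Finset.sum_eq_single i ?_ (by simp)
      intro k _ hk
      rcases lt_or_gt_of_ne hk with hlt | hlt
      · rcases hi with hi | hi
        · rw [hM i k hlt (Or.inl (by rw [Fin.lt_def] at hlt; omega)), zero_mul]
        · rw [hM i k hlt (Or.inr hi), zero_mul]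
      · rcases hi with hi | hi
        · rw [hN k i hlt (Or.inl hi), mul_zero]
        · rw [hN k i hlt (Or.inr (by have := Fin.lt_def.1 hlt; omega)), mul_zero]
    rw [h1, Matrix.one_apply_eq] at h2
    exact Int.eq_one_or_neg_one_of_mul_eq_one h2.symm

theorem cmb_Pat (V : Mat) (x : ℕ → ℝ) :
    cmb (col V) x = V *ᵥ (fun j : Fin 12 => x j.val) := by
  funext i
  unfold cmb col
  rw [Finset.sum_range]
  simp only [Matrix.mulVec, dotProduct]
  refine Finset.sum_congr rfl fun j _ => ?_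
  rw [dif_pos j.2, mul_comm]

theorem cst_mul_Pat (M N : ZMat) : cst (M * N) = cst M * cst N := by
  unfold cst
  exact Matrix.map_mul (f := Int.castRingHom ℝ)

theorem cst_one_Pat : cst 1 = 1 := by
  unfold cst
  exact Matrix.map_one _ (by simp) (by simp)

theorem qf_Pat (ω : Vec) (W u : Mat) (h : Wᵀ * diagonal ω * W = uᵀ * u) (η : Vec) :
    Qf ω (W *ᵥ η) = ∑ i, (u *ᵥ η) i ^ 2 := by
  have h1 : Qf ω (W *ᵥ η) = η ⬝ᵥ ((Wᵀ * diagonal ω * W) *ᵥ η) := by
    rw [← Matrix.mulVec_mulVec, ← Matrix.mulVec_mulVec, Matrix.dotProduct_mulVec,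
      Matrix.vecMul_transpose]
    unfold Qf
    simp only [dotProduct, Matrix.mulVec_diagonal]
    refine Finset.sum_congr rfl fun i _ => ?_
    ring
  rw [h1, h, ← Matrix.mulVec_mulVec, Matrix.dotProduct_mulVec, Matrix.vecMul_transpose]
  simp only [dotProduct, sq]

theorem qcutP (hP : PatP) : QcutP := by
  intro ω V a b c x n hF hc hx hn
  obtain ⟨N, hdet, hN, u, hu0, hu1, hu⟩ := hF
  have h1 : N * N⁻¹ = 1 := Matrix.mul_nonsing_inv N hdet
  have hN' : Pat a b N⁻¹ := hP.2.1 a b N N⁻¹ h1 hN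
  set x' : Vec := fun j : Fin 12 => x j.val with hx'
  set η : Vec := cst N⁻¹ *ᵥ x' with hη
  have hxη : x' = cst N *ᵥ η := by
    rw [hη, Matrix.mulVec_mulVec, ← cst_mul_Pat, h1, cst_one_Pat, Matrix.one_mulVec]
  have hq : Qf ω (cmb (col V) x) = ∑ i, (u *ᵥ η) i ^ 2 := by
    rw [cmb_Pat, ← hx', hxη, Matrix.mulVec_mulVec]
    exact qf_Pat ω _ u hu η
  have hz : ∀ (M : ZMat), Pat a b M → ∀ j k : Fin 12, c ≤ j.val → k.val < c → M j k = 0 := by
    intro M hM j k hj hk
    exact hM j k (by rw [Fin.lt_def]; omega) (by omega)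
  have hint : ∀ j : Fin 12, c ≤ j.val → ∃ z : ℤ, η j = z := by
    intro j hj
    refine ⟨∑ k : Fin 12, N⁻¹ j k * n k.val, ?_⟩
    rw [hη]
    simp only [Matrix.mulVec, dotProduct, cst, Matrix.map_apply]
    push_cast
    refine Finset.sum_congr rfl fun k _ => ?_
    by_cases hk : k.val < c
    · rw [hz _ hN' j k hj hk]; simp
    · rw [hx']
      simp only
      rw [hx k.val (by omega) k.2]
  have hex : ∃ j : Fin 12, c ≤ j.val ∧ η j ≠ 0 := by
    by_contra hcon
    push Not at hcon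
    obtain ⟨j, hj, hj12, hnj⟩ := hn
    apply hnj
    have h2 : x' ⟨j, hj12⟩ = 0 := by
      rw [hxη]
      simp only [Matrix.mulVec, dotProduct, cst, Matrix.map_apply]
      refine Finset.sum_eq_zero fun k _ => ?_
      by_cases hk : k.val < c
      · rw [hz _ hN ⟨j, hj12⟩ k hj hk]; simp
      · rw [hcon k (by omega), mul_zero]
    have h3 : x j = 0 := h2
    rw [hx j hj hj12] at h3
    exact_mod_cast h3
  obtain ⟨j0, hj0, hη0⟩ := hex
  obtain ⟨m, hm, hmax⟩ := Finset.exists_max_image (univ.filter fun j : Fin 12 => η j ≠ 0)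
    (fun j => j.val) ⟨j0, by simp [hη0]⟩
  have hm0 : η m ≠ 0 := (Finset.mem_filter.1 hm).2
  have hcm : c ≤ m.val := hj0.trans (hmax j0 (by simp [hη0]))
  have hum : (u *ᵥ η) m = η m := by
    simp only [Matrix.mulVec, dotProduct]
    rw [Finset.sum_eq_single m _ (by simp), hu1, one_mul]
    intro k _ hk
    rcases lt_or_gt_of_ne hk with hlt | hlt
    · rw [hu0 m k hlt, zero_mul]
    · have : η k = 0 := by
        by_contra hne
        have := hmax k (by simp [hne])
        have := Fin.lt_def.1 hlt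
        omega
      rw [this, mul_zero]
  obtain ⟨z, hz'⟩ := hint m hcm
  have hz0 : z ≠ 0 := by
    intro h0
    apply hm0
    rw [hz', h0]; simp
  have hsq : (1 : ℝ) ≤ (u *ᵥ η) m ^ 2 := by
    rw [hum, hz']
    have : (1 : ℤ) ≤ z ^ 2 := by
      have := Int.one_le_abs hz0
      nlinarith [sq_abs z]
    exact_mod_cast this
  rw [hq]
  exact hsq.trans (Finset.single_le_sum (f := fun i => (u *ᵥ η) i ^ 2)
    (fun i _ => sq_nonneg _) (Finset.mem_univ m))

end Pool.Agent.MP_2877d0_al.T
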