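import Pool.Agent.MP_2877d0_al.T.St

/-! Soundness of the one-variable bounds of a certificate. -/

namespace Pool.Agent.MP_2877d0_al.T

open Matrix Finset

theorem cP_Pc (a b k : ℕ) : (cP a b k : ℝ) = a * tX k + b * tY k := by
  show ((a * tX k + b * tY k : ℕ) : ℝ) = _
  push_cast
  ring

theorem cN_Pc (k : ℕ) : cN k = (tX k + tY k) * 2 ^ 127 := Nat.shiftLeft_eq _ _

theorem cN'_Pc (k : ℕ) : (cN k : ℝ) = (tX k + tY k) * 2 ^ 127 := by
  rw [cN_Pc]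
  push_cast
  ring

theorem dP_Pc (a c k : ℕ) : (dP a c k : ℝ) = a * tX k + tY k * 2 ^ 127 + c * 2 ^ 48 := by
  show ((a * tX k + tY k <<< 127 + c <<< 48 : ℕ) : ℝ) = _
  rw [Nat.shiftLeft_eq, Nat.shiftLeft_eq]
  push_cast
  ring

theorem dN_Pc (b k : ℕ) : (dN b k : ℝ) = tX k * 2 ^ 127 + b * tY k + 2 ^ 175 := by
  show ((tX k <<< 127 + b * tY k + 47890485652059026823698344598447161988085597568237568 : ℕ) : ℝ)
    = _
  rw [Nat.shiftLeft_eq]
  push_cast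
  ring

theorem vF_Pc (a b c k : ℕ) (hk : k ≤ 512) (hX : tX k ≤ 2 ^ 54) (hY : tY k ≤ 2 ^ 66) :
    (vF a b c k : ℝ) = 2 ^ 200 + cP a b k + c * k * 2 ^ 43 - (cN k + k * 2 ^ 170) := by
  show ((1606938044258990275541962092341162602522202993782792835301376 + cP a b k +
    (c * k) <<< 43 - (cN k + k <<< 170) : ℕ) : ℝ) = _
  rw [Nat.shiftLeft_eq, Nat.shiftLeft_eq, Nat.cast_sub]
  · push_cast
    ring
  · rw [cN_Pc]
    generalize tX k = X at *
    generalize tY k = Y at *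
    generalize cP a b k = P
    generalize c * k = Q
    omega

theorem err_Pc {A B X Y x y : ℝ} (hX : |X - x| ≤ 1) (hY : |Y - y| ≤ 1) :
    |A * X + B * Y - (A * x + B * y)| ≤ |A| + |B| := by
  rw [show A * X + B * Y - (A * x + B * y) = A * (X - x) + B * (Y - y) by ring]
  refine (abs_add_le _ _).trans (add_le_add ?_ ?_) <;> rw [abs_mul]
  · exact mul_le_of_le_one_right (abs_nonneg _) hX
  · exact mul_le_of_le_one_right (abs_nonneg _) hY

theorem facts_Pc (hTab : TabP) (a b c k : ℕ) (hk : k ≤ 512) {A B C : ℝ}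
    (hA : A = a - 2 ^ 127) (hB : B = b - 2 ^ 127) (hC : C = c - 2 ^ 127) :
    |(vF a b c k : ℝ) - 2 ^ 200 - 2 ^ 48 * f1 A B C (k / 32)| ≤ |A| + |B| ∧
    |(dP a c k : ℝ) - dN b k - 2 ^ 48 * f1' A B C (k / 32)| ≤ |A| + |B| ∧
    |(cP a b k : ℝ) - cN k - 2 ^ 48 * f1'' A B (k / 32)| ≤ |A| + |B| := by
  obtain ⟨h1, h2, -, h3, -, h4⟩ := hTab k hk
  have e1 := err_Pc (A := A) (B := B) h1 h2
  have e2 := err_Pc (A := A) (B := -B) h1 h2
  rw [abs_neg] at e2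
  rw [vF_Pc a b c k hk h3 h4, cP_Pc, cN'_Pc, dP_Pc, dN_Pc, f1, f1', f1'']
  refine ⟨le_of_eq_of_le (congrArg _ ?_) e1, le_of_eq_of_le (congrArg _ ?_) e2,
    le_of_eq_of_le (congrArg _ ?_) e1⟩ <;> rw [hA, hB]
  · rw [hC]
    ring
  · rw [hC]
    ring
  · ring

theorem low_Pc {A B C s : ℝ} (hA : |A| ≤ 2 ^ 127) (hB : |B| ≤ 2 ^ 127) (hC : |C| ≤ 2 ^ 127)
    (h0 : 0 ≤ s) (h1 : s ≤ 16) : -2 ^ 200 ≤ 2 ^ 48 * f1 A B C s := by
  have e : Real.exp 12 ≤ 2 ^ 20 := by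
    have := Real.exp_one_lt_d9
    calc Real.exp 12 = Real.exp 1 ^ 12 := by rw [← Real.exp_nat_mul]; norm_num
      _ ≤ 3 ^ 12 := pow_le_pow_left₀ (Real.exp_pos 1).le (by linarith) 12
      _ ≤ 2 ^ 20 := by norm_num
  have k : ∀ D x : ℝ, |D| ≤ 2 ^ 127 → 0 ≤ x → x ≤ 2 ^ 20 → -2 ^ 147 ≤ D * x := fun D x h2 h3 h4 => by
    have := (abs_le.1 h2).1
    nlinarith
  have k1 := k A _ hA (Real.exp_pos (s - 12)).le ((Real.exp_le_exp.2 (by linarith)).trans e)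
  have k2 := k B _ hB (Real.exp_pos (12 - s)).le ((Real.exp_le_exp.2 (by linarith)).trans e)
  have k3 := k C s hC h0 (by linarith)
  rw [f1]
  linarith

theorem sub_Pc {x y : ℕ} {r : ℝ} (h0 : 0 ≤ r) (h : (x : ℝ) - y ≤ r) : ((x - y : ℕ) : ℝ) ≤ r := by
  rcases le_total y x with k | k
  · rwa [Nat.cast_sub k]
  · rwa [Nat.sub_eq_zero_of_le k, Nat.cast_zero]

theorem sub'_Pc (x y : ℕ) : (x : ℝ) - y ≤ ((x - y : ℕ) : ℝ) := by
  rcases le_total y x with k | k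
  · rw [Nat.cast_sub k]
  · have : (x : ℝ) ≤ y := Nat.cast_le.2 k
    rw [Nat.sub_eq_zero_of_le k, Nat.cast_zero]
    linarith

theorem shr_Pc (x : ℕ) : (x : ℝ) / 8192 ≤ ((x >>> 13 + 1 : ℕ) : ℝ) := by
  rw [div_le_iff₀ (by norm_num), Nat.shiftRight_eq_div_pow]
  exact_mod_cast (by omega : x ≤ (x / 2 ^ 13 + 1) * 8192)

theorem abs_Pc {a : ℕ} (h : a < 2 ^ 128) : |(a : ℝ) - 2 ^ 127| ≤ 2 ^ 127 := by
  have h1 : (a : ℝ) ≤ 2 ^ 128 := by exact_mod_cast h.le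
  have h2 : (0 : ℝ) ≤ a := Nat.cast_nonneg a
  rw [abs_le]
  constructor <;> linarith

theorem pcP (hB : BasP) (hTab : TabP) (hR : OneRP) (hL : OneLP) (hK : OneKP) : PcP := by
  obtain ⟨hand, hor, -, -, hab, hmn, hmx, -⟩ := hB
  intro a b c l h s ha hb hc hl hh hls hsh e he
  have hab' : ∀ d : ℕ, (ab (2 ^ 127) d : ℝ) = |(d : ℝ) - 2 ^ 127| := fun d => by
    have := congrArg (Int.cast : ℤ → ℝ) (hab (2 ^ 127) d)
    simpa only [Int.cast_natCast, Int.cast_abs, Int.cast_sub, Nat.cast_pow, Nat.cast_ofNat,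
      Int.cast_pow, Int.cast_ofNat] using this
  have he' : (e : ℝ) = |(a : ℝ) - 2 ^ 127| + |(b : ℝ) - 2 ^ 127| := by
    rw [he, Nat.cast_add, hab', hab']
  have l0 : (0 : ℝ) ≤ l := Nat.cast_nonneg l
  have h5 : (h : ℝ) ≤ 512 := by exact_mod_cast hh
  have e0 : (0 : ℝ) ≤ e := Nat.cast_nonneg e
  have p3 := low_Pc (abs_Pc ha) (abs_Pc hb) (abs_Pc hc) (s := s) (by linarith) (by linarith)
  obtain ⟨a1, a2, a3⟩ := facts_Pc hTab a b c l hl rfl rfl rfl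
  obtain ⟨b1, b2, b3⟩ := facts_Pc hTab a b c h hh rfl rfl rfl
  rw [← he', abs_le] at a1 a2 a3 b1 b2 b3
  have lit : ((170141183460469231731687303715884105728 : ℕ) : ℝ) = 2 ^ 127 := by norm_num
  have s1 : (l : ℝ) / 32 ≤ s := by linarith
  have s2 : s ≤ (h : ℝ) / 32 := by linarith
  have hlh : l ≤ h := by exact_mod_cast hls.trans hsh
  have hR' := hR ((a : ℝ) - 2 ^ 127) ((b : ℝ) - 2 ^ 127) ((c : ℝ) - 2 ^ 127) _ _ s s1 s2
  have hL' := hL ((a : ℝ) - 2 ^ 127) ((b : ℝ) - 2 ^ 127) ((c : ℝ) - 2 ^ 127) _ _ s s1 s2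
  have hK' := fun M => hK ((a : ℝ) - 2 ^ 127) ((b : ℝ) - 2 ^ 127) ((c : ℝ) - 2 ^ 127) _ _ s M s1 s2
  generalize f1 ((a : ℝ) - 2 ^ 127) ((b : ℝ) - 2 ^ 127) ((c : ℝ) - 2 ^ 127) = F at *
  generalize f1' ((a : ℝ) - 2 ^ 127) ((b : ℝ) - 2 ^ 127) ((c : ℝ) - 2 ^ 127) = F' at *
  generalize f1'' ((a : ℝ) - 2 ^ 127) ((b : ℝ) - 2 ^ 127) = F'' at *
  have hm : (mn (vF a b c l) (vF a b c h) : ℝ) - e - 2 ^ 200 ≤
      2 ^ 48 * min (F (l / 32)) (F (h / 32)) := by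
    rw [hmn, Nat.cast_min]
    have m1 := min_le_left (vF a b c l : ℝ) (vF a b c h)
    have m2 := min_le_right (vF a b c l : ℝ) (vF a b c h)
    rcases min_choice (F (l / 32)) (F (h / 32)) with k | k <;> rw [k] <;> linarith [a1.2, b1.2]
  have p2 : ((mn (vF a b c l) (vF a b c h) - pen a b e l h : ℕ) : ℝ) - e - 2 ^ 200 ≤
      2 ^ 48 * F s := by
    obtain ⟨m, hm'⟩ : ∃ m, m = mx (cP a b l + e - cN l) (cP a b h + e - cN h) := ⟨_, rfl⟩
    have hp : pen a b e l h = (m * ((h - l) * (h - l))) >>> 13 + 1 := by rw [hm']; rfl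
    have q := shr_Pc (m * ((h - l) * (h - l)))
    rw [← hp, Nat.cast_mul, Nat.cast_mul, Nat.cast_sub hlh] at q
    have m1 : ((cP a b l + e - cN l : ℕ) : ℝ) ≤ m :=
      Nat.cast_le.2 (by rw [hm', hmx]; exact le_max_left _ _)
    have m2 : ((cP a b h + e - cN h : ℕ) : ℝ) ≤ m :=
      Nat.cast_le.2 (by rw [hm', hmx]; exact le_max_right _ _)
    have n1 := sub'_Pc (cP a b l + e) (cN l)
    have n2 := sub'_Pc (cP a b h + e) (cN h)
    rw [Nat.cast_add] at n1 n2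
    have k := hK' (m / 2 ^ 48) (div_nonneg (Nat.cast_nonneg m) (by norm_num))
      (by linarith [a3.1]) (by linarith [b3.1])
    have := sub_Pc (x := mn (vF a b c l) (vF a b c h)) (y := pen a b e l h)
      (r := 2 ^ 48 * F s + e + 2 ^ 200) (by linarith) (by linarith)
    linarith
  refine ⟨?_, p2, p3⟩
  rw [pc]
  cases hq : orB (qR a b c e h) (qL a b c e l)
  · exact p2
  show ((mn (vF a b c l) (vF a b c h) - 0 : ℕ) : ℝ) - e - 2 ^ 200 ≤ _
  rw [Nat.sub_zero]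
  refine hm.trans (mul_le_mul_of_nonneg_left ?_ (by norm_num))
  rcases (hor _ _).1 hq with q | q
  · rw [qR, hand, hor, hor, Nat.ble_eq, Nat.ble_eq, Nat.ble_eq, Nat.ble_eq, Nat.add_eq,
      Nat.add_eq, ← Nat.cast_le (α := ℝ), ← Nat.cast_le (α := ℝ), ← Nat.cast_le (α := ℝ),
      ← Nat.cast_le (α := ℝ), lit, Nat.cast_add, Nat.cast_add] at q
    exact hR' (by linarith [q.1, b2.1]) (q.2.imp (fun k => by linarith)
      (Or.imp (fun k => by linarith) fun k => by linarith [b3.2]))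
  · rw [qL, hand, hor, hor, Nat.ble_eq, Nat.ble_eq, Nat.ble_eq, Nat.ble_eq, Nat.add_eq,
      Nat.add_eq, ← Nat.cast_le (α := ℝ), ← Nat.cast_le (α := ℝ), ← Nat.cast_le (α := ℝ),
      ← Nat.cast_le (α := ℝ), lit, Nat.cast_add, Nat.cast_add] at q
    exact hL' (by linarith [q.1, a2.2]) (q.2.imp (fun k => by linarith)
      (Or.imp (fun k => by linarith) fun k => by linarith [a3.2]))

theorem coP (hB : BasP) (h : PcP) : CoP := by
  obtain ⟨-, -, -, -, -, hmn, -⟩ := hB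
  intro a b c l u t s ha hb hc ht s0 s1 ⟨i1, i2⟩
  have p3 := (h a b c 0 512 s ha hb hc (by norm_num) le_rfl (by push_cast; linarith)
    (by push_cast; linarith) _ rfl).2.2
  obtain ⟨e, he⟩ : ∃ e, e = ab (2 ^ 127) a + ab (2 ^ 127) b := ⟨_, rfl⟩
  have hco : co a b c l u t = Bool.rec 0 ((Bool.rec
      (mn (mn (pc a b c e l t) (mn (vF a b c t) (vF a b c (t + 1)) - pen a b e t (t + 1)))
        (pc a b c e (t + 1) u)) (pc a b c e l u) (Nat.beq t 0) : ℕ) - e) (Nat.ble u 512) := by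
    rw [he, show 2 ^ 127 = 170141183460469231731687303715884105728 by norm_num]
    rfl
  rw [hco]
  cases hu : Nat.ble u 512
  · show ((0 : ℕ) : ℝ) - 2 ^ 200 ≤ _
    rw [Nat.cast_zero]
    linarith
  rw [Nat.ble_eq] at hu
  have j1 : (l : ℝ) ≤ 32 * s := i1.elim (fun k => by rw [k, Nat.cast_zero]; linarith) id
  have j2 : 32 * s ≤ u := i2.resolve_left (by omega)
  have j3 : l ≤ 512 := by exact_mod_cast j1.trans (by linarith : 32 * s ≤ 512)
  rw [sub_le_iff_le_add]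
  refine sub_Pc (by linarith) ?_
  cases Nat.beq t 0
  swap
  · have := (h a b c l u s ha hb hc j3 hu j1 j2 e he).1
    show (pc a b c e l u : ℝ) - e ≤ _
    linarith
  show ((mn _ _ : ℕ) : ℝ) - e ≤ _
  rw [hmn, hmn, Nat.cast_min, Nat.cast_min]
  rcases le_total (32 * s) t with k | k
  · have := (h a b c l t s ha hb hc j3 ht.le j1 k e he).1
    linarith [(min_le_left _ (pc a b c e (t + 1) u : ℝ)).trans (min_le_left (pc a b c e l t : ℝ)
      ((mn (vF a b c t) (vF a b c (t + 1)) - pen a b e t (t + 1) : ℕ) : ℝ))]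
  rcases le_total (32 * s) (t + 1 : ℕ) with k' | k'
  · have := (h a b c t (t + 1) s ha hb hc ht.le ht k k' e he).2.1
    linarith [(min_le_left _ (pc a b c e (t + 1) u : ℝ)).trans (min_le_right (pc a b c e l t : ℝ)
      ((mn (vF a b c t) (vF a b c (t + 1)) - pen a b e t (t + 1) : ℕ) : ℝ))]
  · have := (h a b c (t + 1) u s ha hb hc ht hu k' j2 e he).1
    linarith [min_le_right (min (pc a b c e l t : ℝ)
      ((mn (vF a b c t) (vF a b c (t + 1)) - pen a b e t (t + 1) : ℕ) : ℝ))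
      (pc a b c e (t + 1) u : ℝ)]

end Pool.Agent.MP_2877d0_al.T
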