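import Pool.Agent.MP_2877d0_al.T.St

namespace Pool.Agent.MP_2877d0_al.T

open Matrix Finset

theorem qs_Quick (μ : ℕ) (pl : List ℕ) : ∀ (zz : List (ℕ × ℕ × ℕ)) (x y : ℕ),
    qs μ pl zz x y = true →
    x + ∑ i ∈ range pl.length, (pl.getD i 0 - (μ * (zz.getD i 0).1) >>> 24) * (zz.getD i 0).2.1
      + 1 ≤ y + ∑ i ∈ range pl.length,
        ((μ * (zz.getD i 0).1) >>> 24 - pl.getD i 0) * (zz.getD i 0).2.2 := by
  induction pl with
  | nil =>
    intro zz x y h
    have h' : x + 1 ≤ y := Nat.le_of_ble_eq_true h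
    simpa using h'
  | cons p pl ih =>
    intro zz x y h
    cases zz with
    | nil => exact absurd h (by show ¬ (false = true); simp)
    | cons t zz =>
      have h' := ih zz (x + (p - (μ * t.1) >>> 24) * t.2.1) (y + ((μ * t.1) >>> 24 - p) * t.2.2) h
      rw [List.length_cons, sum_range_succ', sum_range_succ']
      simp only [List.getD_cons_succ, List.getD_cons_zero]
      omega

theorem shr_Quick (x k : ℕ) : ((x >>> k : ℕ) : ℝ) * 2 ^ k ≤ x ∧ (x : ℝ) < (((x >>> k : ℕ) : ℝ) + 1) * 2 ^ k := by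
  rw [Nat.shiftRight_eq_div_pow]
  have h1 := Nat.div_mul_le_self x (2 ^ k)
  have h2 : x < (x / 2 ^ k + 1) * 2 ^ k := by
    rw [← Nat.div_lt_iff_lt_mul (by positivity)]
    exact Nat.lt_succ_self _
  exact ⟨by exact_mod_cast h1, by exact_mod_cast h2⟩

theorem term_Quick (p m rh rl : ℕ) (R : ℝ) (h1 : R ≤ rh) (h2 : (rl : ℝ) ≤ R) :
    R * ((p : ℝ) - m) ≤ (((p - m) * rh : ℕ) : ℝ) - (((m - p) * rl : ℕ) : ℝ) := by
  rcases le_total p m with h | h
  · rw [Nat.sub_eq_zero_of_le h, Nat.cast_mul, Nat.cast_mul, Nat.cast_sub h]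
    have : (0 : ℝ) ≤ (m : ℝ) - p := sub_nonneg.2 (by exact_mod_cast h)
    push_cast
    nlinarith
  · rw [Nat.sub_eq_zero_of_le h, Nat.cast_mul, Nat.cast_mul, Nat.cast_sub h]
    have : (0 : ℝ) ≤ (p : ℝ) - m := sub_nonneg.2 (by exact_mod_cast h)
    push_cast
    nlinarith

theorem qsP (hB : BasP) : QsP := by
  intro r φ z L2 n sq pl zz hr hl hz hL hp hzz
  have one : ∀ μ : ℕ, qs μ pl zz (μ <<< 60) (L2 <<< 60) = true → False := by
    intro μ h
    have h1 := qs_Quick μ pl zz _ _ h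
    rw [hl, Nat.shiftLeft_eq, Nat.shiftLeft_eq, sum_range, sum_range] at h1
    have h2 : ((μ * 2 ^ 60 + ∑ i : Fin 12, (pl.getD i 0 - (μ * (zz.getD i 0).1) >>> 24) *
        (zz.getD i 0).2.1 + 1 : ℕ) : ℝ) ≤ ((L2 * 2 ^ 60 + ∑ i : Fin 12,
        ((μ * (zz.getD i 0).1) >>> 24 - pl.getD i 0) * (zz.getD i 0).2.2 : ℕ) : ℝ) :=
      Nat.cast_le.2 h1
    rw [Nat.cast_add, Nat.cast_add, Nat.cast_add, Nat.cast_sum, Nat.cast_sum] at h2
    have h3 : ∀ i : Fin 12, (2 : ℝ) ^ 84 * (r i * φ i ^ 2) ≤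
        (((pl.getD i 0 - (μ * (zz.getD i 0).1) >>> 24) * (zz.getD i 0).2.1 : ℕ) : ℝ) -
        ((((μ * (zz.getD i 0).1) >>> 24 - pl.getD i 0) * (zz.getD i 0).2.2 : ℕ) : ℝ) +
        (2 : ℝ) ^ 60 * μ * (r i * z i ^ 2) := by
      intro i
      obtain ⟨a1, a2, a3⟩ := hzz i
      have a4 := term_Quick (pl.getD i 0) ((μ * (zz.getD i 0).1) >>> 24) _ _ _ a2 a3
      have a5 := (shr_Quick (μ * (zz.getD i 0).1) 24).1
      rw [Nat.cast_mul] at a5
      have a6 := mul_le_mul_of_nonneg_left a1 (Nat.cast_nonneg (α := ℝ) μ)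
      have a7 := mul_le_mul_of_nonneg_left (hp i) (hr i).le
      have a8 := mul_le_mul_of_nonneg_left (a5.trans a6) (hr i).le
      linarith
    have h4 := sum_le_sum fun i (_ : i ∈ univ) => h3 i
    rw [sum_add_distrib, sum_sub_distrib, ← mul_sum, ← mul_sum] at h4
    unfold Qf at hz hL
    rw [hz] at h4
    push_cast at h2 h4
    linarith
  induction n generalizing sq with
  | zero => intro h; exact absurd h (by show ¬ (false = true); simp)
  | succ n ih =>
    intro h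
    have h' : (Bool.rec (orB (qs ((L2 * (sq % 256)) >>> 8) pl zz (((L2 * (sq % 256)) >>> 8) <<< 60)
        (L2 <<< 60)) (qtry L2 pl zz n (sq >>> 8))) false (Nat.beq sq 0) : Bool) = true := h
    cases hs : Nat.beq sq 0 with
    | true => rw [hs] at h'; exact absurd h' (by show ¬ (false = true); simp)
    | false =>
      rw [hs] at h'
      rcases (hB.2.1 _ _).1 h' with h1 | h1
      · exact one _ h1
      · exact ih _ h1

theorem pU_Quick (hB : BasP) (d : ℕ) (φ : ℝ) (h : |(d : ℝ) - 2 ^ 94 - 2 ^ 48 * φ| ≤ 704) :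
    2 ^ 36 * φ ^ 2 ≤ (pU d : ℝ) := by
  have h1 : (ab 19807040628566084398385987584 d : ℝ) = |(d : ℝ) - 2 ^ 94| := by
    have := congrArg (Int.cast : ℤ → ℝ) (hB.2.2.2.2.1 19807040628566084398385987584 d)
    push_cast at this
    rw [this]
    norm_num
  have h2 := (shr_Quick (ab 19807040628566084398385987584 d) 18).2
  have e : pU d = ((ab 19807040628566084398385987584 d >>> 18 + 2) *
      (ab 19807040628566084398385987584 d >>> 18 + 2)) >>> 24 + 1 := rfl
  have h3 := (shr_Quick ((ab 19807040628566084398385987584 d >>> 18 + 2) *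
      (ab 19807040628566084398385987584 d >>> 18 + 2)) 24).2
  rw [e]
  rw [h1] at h2
  generalize ab 19807040628566084398385987584 d >>> 18 = A at h2 h3 ⊢
  push_cast at h3 ⊢
  have h4 : 2 ^ 48 * |φ| ≤ |(d : ℝ) - 2 ^ 94| + 704 := by
    have h5 := abs_sub_abs_le_abs_sub (2 ^ 48 * φ) ((d : ℝ) - 2 ^ 94)
    rw [abs_sub_comm (2 ^ 48 * φ), abs_mul, abs_of_pos (by positivity : (0 : ℝ) < 2 ^ 48)] at h5
    linarith
  have h6 : 2 ^ 30 * |φ| ≤ (A : ℝ) + 2 := by linarith
  have h7 := mul_self_le_mul_self (by positivity) h6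
  have h8 : |φ| * |φ| = φ ^ 2 := by rw [abs_mul_abs_self, sq]
  nlinarith

theorem ent_Quick (L Lo : List ℕ) (a Lp Gp j : ℕ) (i : Fin 12) (y : Vec)
    (h : SR (c20 Lo (gr a Gp j)) y 108 (2 ^ 42) (3 * 2 ^ 138)) :
    |(entE L Lo a Lp Gp (a + j) (24 + i) : ℝ) - 2 ^ 48 * y i| ≤ 1 := by
  have hi := i.2
  unfold entE
  rw [if_neg (by omega), if_neg (by omega), if_neg (by omega), if_neg (by omega),
    if_pos (by omega), Nat.add_sub_cancel_left, Nat.add_sub_cancel_left]
  have h1 := abs_le.1 (h i).1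
  have h2 := shr_Quick (dg 192 (c20 Lo (gr a Gp j)) i + 2 ^ 59) 60
  generalize (dg 192 (c20 Lo (gr a Gp j)) i + 2 ^ 59) >>> 60 = q at h2 ⊢
  generalize dg 192 (c20 Lo (gr a Gp j)) i = D at h1 h2
  push_cast at h1 h2 ⊢
  rw [abs_le]
  constructor <;> linarith [h1.1, h1.2, h2.1, h2.2]

theorem quickP (hB : BasP) (hD : DualP) (hF : FirstP) (hC : CrossP) (hA : ApBP) (hK : KeyP)
    (hQ : QsP) : QuickP := by
  intro ω V V' L Lo a b Lp Gp sq St ξ zz hS hab hb hCand hξ hSt hzz h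
  obtain ⟨c, hc⟩ : ∃ c, c = 12 - b - a := ⟨_, rfl⟩
  rw [← hc] at hξ hSt h
  have hx := (hK L Lo a c Lp Gp ξ St (by omega) (by omega) hSt hξ).2.2.2 (by omega)
  have h' : qtry (lnL c (St >>> 3456) (keyOf (k128 c) St) (c <<< 101) 0 *
      lnL c (St >>> 3456) (keyOf (k128 c) St) (c <<< 101) 0)
      (mapR pU (digs 96 79228162514264337593543950336 12 (St >>> 2304))) zz 8 sq = true := h
  generalize lnL c (St >>> 3456) (keyOf (k128 c) St) (c <<< 101) 0 = x at hx h'
  have hm : ∀ f l, mapR f l = l.map f := hB.2.2.2.2.2.2.2.2.1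
  refine hQ (iv ω) (cmb (col V') fun l =>
      ((∑ k ∈ range c, ξ k * lam 20 (gr a Gp k) l : ℤ) : ℝ) / 4096) (col V' 0) _ 8 sq _ zz
    (fun i => inv_pos.2 (hS.pos i)) (by rw [hm, List.length_map, digs_length])
    ((hF _ _ _ _ (hD.2 ω V V' a b hS.pos hS.dual hS.fl)).1 hb) ?_ ?_ hzz h'
  · have h1 := hC ω V V' a b ξ (fun l =>
      ((∑ k ∈ range c, ξ k * lam 20 (gr a Gp k) l : ℤ) : ℝ) / 4096) hS.pos hS.dual hCand
      (fun l hl => by
        rw [sum_eq_zero fun k _ => ?_]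
        · simp
        · have : gr a Gp k >>> (20 * l) = 0 := by
            rw [Nat.shiftRight_eq_div_pow]
            exact Nat.div_eq_of_lt (lt_of_lt_of_le (Nat.mod_lt _ (by positivity))
              (Nat.pow_le_pow_right (by norm_num) (by omega)))
          unfold lam
          rw [if_pos this, mul_zero])
    rw [← sum_subset (range_subset_range.2 (by omega : c ≤ 12 - a)) (fun j _ hj => by
      rw [hξ j (by simpa using hj)]; simp)] at h1
    have h2 : ((x : ℤ) : ℝ) * (x : ℤ) = ((∑ j ∈ range c,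
        (∑ k ∈ range c, ξ k * lam 20 (gr a Gp k) (11 - a - j)) * ξ j : ℤ) : ℝ) ^ 2 := by
      rw [hx, Int.cast_abs, abs_mul_abs_self, pow_two]
    have h3 : ∑ j ∈ range c, ((∑ k ∈ range c, ξ k * lam 20 (gr a Gp k) (11 - a - j) : ℤ) : ℝ) /
        4096 * (ξ j : ℝ) = ((∑ j ∈ range c,
        (∑ k ∈ range c, ξ k * lam 20 (gr a Gp k) (11 - a - j)) * ξ j : ℤ) : ℝ) / 4096 := by
      rw [Int.cast_sum (range c) fun j =>
        (∑ k ∈ range c, ξ k * lam 20 (gr a Gp k) (11 - a - j)) * ξ j, sum_div]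
      refine sum_congr rfl fun j _ => ?_
      rw [Int.cast_mul]
      ring
    rw [h3, div_pow, ← h2, Int.cast_natCast] at h1
    rw [Nat.cast_mul]
    linarith
  · intro i
    have hi := i.2
    have e1 : (mapR pU (digs 96 79228162514264337593543950336 12 (St >>> 2304))).getD i 0 =
        pU (dg 96 St (24 + i)) := by
      have hl : (i : ℕ) < (digs 96 79228162514264337593543950336 12 (St >>> 2304)).length := by
        rw [digs_length]; exact hi
      have e2 := digs_getD 96 79228162514264337593543950336 12 (St >>> 2304) i hi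
      rw [List.getD_eq_getElem _ _ hl] at e2
      rw [hm, List.getD_eq_getElem _ _ (by rw [List.length_map]; exact hl), List.getElem_map, e2,
        ← Nat.shiftRight_add]
      unfold dg
      rw [Nat.mul_add]
      norm_num
    rw [e1]
    refine pU_Quick hB _ _ ?_
    have e3 := congrArg (Int.cast : ℤ → ℝ) (hSt.2 (24 + i) (by omega))
    rw [Int.cast_natCast, Int.cast_add, Int.cast_sum] at e3
    have e4 : cmb (col V') (fun l =>
        ((∑ k ∈ range c, ξ k * lam 20 (gr a Gp k) l : ℤ) : ℝ) / 4096) i =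
        ∑ k ∈ range c, (ξ k : ℝ) * cmb (col V') (fun j => (lam 20 (gr a Gp k) j : ℝ) / 4096) i := by
      unfold cmb
      simp only [mul_sum]
      rw [sum_comm]
      refine sum_congr rfl fun l _ => ?_
      rw [Int.cast_sum, sum_div, sum_mul]
      refine sum_congr rfl fun k _ => ?_
      rw [Int.cast_mul]
      ring
    rw [e3, e4, mul_sum, Int.cast_pow, Int.cast_ofNat, add_sub_cancel_left, ← sum_sub_distrib]
    refine (abs_sum_le_sum_abs _ _).trans ((sum_le_card_nsmul _ _ (64 : ℝ) fun k hk => ?_).trans ?_)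
    · have a1 := ent_Quick L Lo a Lp Gp k i _ (hA.1 Lo V' (gr a Gp k) hS.lo)
      have a2 : |(ξ k : ℝ)| ≤ 64 := by exact_mod_cast hSt.1 k (mem_range.1 hk)
      rw [Int.cast_mul, mul_left_comm, ← mul_sub, abs_mul]
      nlinarith [abs_nonneg (ξ k : ℝ)]
    · rw [card_range, nsmul_eq_mul]
      have : (c : ℝ) ≤ 11 := by exact_mod_cast (by omega : c ≤ 11)
      linarith

end Pool.Agent.MP_2877d0_al.T
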