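import Pool.Agent.MP_2877d0_al.T.St
namespace Pool.Agent.MP_2877d0_al.T
open Matrix Finset

lemma cst_mul_RefC (M N : ZMat) : cst (M * N) = cst M * cst N :=
  Matrix.map_mul (f := Int.castRingHom ℝ)

lemma cst_one_RefC : cst 1 = 1 := Matrix.map_one _ Int.cast_zero Int.cast_one

lemma dual_RefC {V V' : Mat} (h : Dual V V') : (V'.submatrix id Fin.rev)ᵀ * V = 1 := by
  ext j k
  rw [Matrix.mul_apply, Matrix.one_apply]
  exact h j k

lemma chg_RefC {V V' X X' : Mat} {M : ZMat} (h1 : Dual V V') (h2 : Dual X X') (hM : IsUnit M.det)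
    (hX : X = V * cst M) : ∃ M' : ZMat, IsUnit M'.det ∧ X' = V' * cst M' := by
  have a1 := mul_eq_one_comm.1 (dual_RefC h1)
  have a2 := dual_RefC h2
  rw [hX, ← Matrix.mul_assoc, mul_eq_one_comm] at a2
  have a3 : cst M⁻¹ * cst M = 1 := by
    rw [← cst_mul_RefC, Matrix.nonsing_inv_mul _ hM, cst_one_RefC]
  have a4 : (X'.submatrix id Fin.rev)ᵀ = cst M⁻¹ * (V'.submatrix id Fin.rev)ᵀ := by
    calc _ = (cst M⁻¹ * cst M) * ((X'.submatrix id Fin.rev)ᵀ *
          (V * (V'.submatrix id Fin.rev)ᵀ)) := by rw [a1, a3, Matrix.one_mul, Matrix.mul_one]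
      _ = cst M⁻¹ * ((cst M * ((X'.submatrix id Fin.rev)ᵀ * V)) * (V'.submatrix id Fin.rev)ᵀ) := by
          simp only [Matrix.mul_assoc]
      _ = _ := by rw [a2, Matrix.one_mul]
  refine ⟨M⁻¹ᵀ.submatrix Fin.revPerm Fin.revPerm, ?_, ?_⟩
  · rw [Matrix.det_submatrix_equiv_self, Matrix.det_transpose]
    exact Matrix.isUnit_nonsing_inv_det _ hM
  · ext i k
    have := congrFun (congrFun a4 (Fin.rev k)) i
    simp only [Matrix.transpose_apply, Matrix.submatrix_apply, id, Fin.rev_rev,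
      Matrix.mul_apply] at this
    rw [this, Matrix.mul_apply, ← Equiv.sum_comp Fin.revPerm]
    refine Finset.sum_congr rfl fun l _ => ?_
    simp only [cst, Matrix.map_apply, Matrix.transpose_apply, Matrix.submatrix_apply,
      Fin.revPerm_apply, Fin.rev_rev, mul_comm]

lemma mono_RefC {ω : Vec} {V : Mat} {a b c d : ℕ} (h : Fl ω V a b) (h1 : c ≤ a) (h2 : d ≤ b) :
    Fl ω V c d := by
  obtain ⟨N, a1, a2, a3⟩ := h
  exact ⟨N, a1, fun i j hij h => a2 i j hij (by omega), a3⟩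

lemma non_RefC {t : KT} (h : ktNon t = true) : t = KT.non := by
  cases t with
  | non => rfl
  | leaf k => exact absurd h Bool.false_ne_true
  | node p l r => exact absurd h Bool.false_ne_true

lemma key_RefC {E : Env} {kt : KT} {s : ℕ} (h : 1 ≤ keyS E kt s) :
    E.sd = s ∧ kt = KT.leaf (keyS E kt s) := by
  unfold keyS at h ⊢
  cases hb : Nat.beq E.sd s with
  | false => rw [hb] at h; exact absurd h (Nat.not_succ_le_zero 0)
  | true =>
    rw [hb] at h
    refine ⟨Nat.eq_of_beq_eq_true hb, ?_⟩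
    cases kt with
    | non => exact absurd h (Nat.not_succ_le_zero 0)
    | leaf k => rfl
    | node p l r => exact absurd h (Nat.not_succ_le_zero 0)

theorem refCP (hB : BasP) (hD : DualP) (hRot : RotP) (hA : ApAP) (hN : NodeP) (hX : BoxP)
    (hS : RefSP) : RefCP := by
  intro B B' ct nt NN E ω kt box cx hb hm
  have hand := hB.1
  refine ⟨fun j h => ?_, fun j g h => ?_⟩
  · simp only [useC, hand, Nat.ble_eq, Nat.beq_eq] at h
    obtain ⟨h1, h2, h3, h4, h5, h6⟩ := h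
    refine cx.old j h1 ω cx.pos ?_ ?_ ?_
    · rw [h2]
      exact mono_RefC cx.fl h3 h4
    · rw [h2]
      exact hX.2.1 _ _ _ _ _ h6 hb
    · rw [non_RefC h5]
      trivial
  · simp only [refC, hand, Nat.ble_eq] at h
    obtain ⟨h1, h2, h3, h4, h5, h6, h7⟩ := h
    have hg : g < 12 := by omega
    obtain ⟨d1, u1, -⟩ := hN B B' _ cx.fld.dual (cx.nodes _ cx.nid)
    obtain ⟨d2, u2, -⟩ := hN B B' _ cx.fld.dual (cx.nodes _ h2)
    have l0 : LC E.L0 (V0 B nt E.nid) := cx.l0 ▸ hA.1 _ _ _ cx.fld.ap0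
    have l1 : LC E.L1 (V1 B' nt E.nid) := cx.l1 ▸ hA.1 _ _ _ cx.fld.ap1
    have t0 := hA.1 TB0 B (ntGet nt (ctGet ct j).nid).1 cx.fld.ap0
    have t1 := hA.1 TB1 B' (ntGet nt (ctGet ct j).nid).2 cx.fld.ap1
    obtain ⟨Γ, g1, g2⟩ := hRot.2.2 B cx.fld.gal g
    have uM : IsUnit ((Uz (ntGet nt E.nid).1)⁻¹ * (Γ * Uz (ntGet nt (ctGet ct j).nid).1)).det := by
      rw [Matrix.det_mul, Matrix.det_mul]
      exact (Matrix.isUnit_nonsing_inv_det _ u1).mul (g1.mul u2)
    have eM : (Matrix.of fun i k => rot g (fun i => V0 B nt (ctGet ct j).nid i k) i) =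
        V0 B nt E.nid *
          cst ((Uz (ntGet nt E.nid).1)⁻¹ * (Γ * Uz (ntGet nt (ctGet ct j).nid).1)) := by
      rw [V0, V0, Matrix.mul_assoc, ← cst_mul_RefC, Matrix.mul_nonsing_inv_cancel_left _ _ u1,
        cst_mul_RefC, ← Matrix.mul_assoc]
      ext i k
      rw [Matrix.mul_apply]
      simp only [← g2]
      simp only [Matrix.of_apply, rot, Matrix.mul_apply]
    refine cx.old j h1 (rot (12 - g) ω) (fun i => cx.pos _) ?_ (hX.2.2.1 _ _ _ _ _ _ _ _ hg h5 hb)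
      (by rw [non_RefC h4]; trivial)
    rcases Nat.eq_zero_or_pos (keyS E kt 1) with k1 | k1
    · rw [k1] at h7
      refine hS ω _ _ _ _ _ _ _ _ _ _ _ _ _ _ g hg ⟨cx.pos, d1, cx.fl, l0, l1⟩ d2 t0 t1 uM eM
        (fun k0 => ?_) h6 h7
      obtain ⟨e1, e2⟩ := key_RefC k0
      rw [e2, Mem, if_pos e1] at hm
      exact hm
    · obtain ⟨e1, e2⟩ := key_RefC k1
      have k0 : keyS E kt 0 = 0 := by
        by_contra hc
        have := (key_RefC (Nat.pos_of_ne_zero hc)).1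
        omega
      rw [k0] at h6
      rw [e2, Mem, if_neg (by omega)] at hm
      obtain ⟨M', uM', eM'⟩ := chg_RefC d1 (hRot.2.1 _ _ g d2) uM eM
      have p1 : ∀ i, 0 < iv ω i := fun i => inv_pos.2 (cx.pos i)
      have := hD.2 (rot (12 - g) (iv ω)) _ _ _ _ (fun i => p1 _) (hD.1 _ _ d2)
        (hS (iv ω) _ _ _ _ M' _ _ _ _ _ _ _ _ _ g hg
        ⟨p1, hD.1 _ _ d1, hD.2 _ _ _ _ _ cx.pos d1 cx.fl, l1, l0⟩
        (hD.1 _ _ d2) t1 t0 uM' eM' (fun _ => hm) h7 h6)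
      rwa [show iv (rot (12 - g) (iv ω)) = rot (12 - g) ω from funext fun i => inv_inv _] at this

end Pool.Agent.MP_2877d0_al.T
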