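import Pool.Agent.MP_2877d0_al.T.St

namespace Pool.Agent.MP_2877d0_al.T

open Matrix Finset

lemma il0_RefS (hB : BasP) (X : ℕ) : ilist X =
    (List.range 12).map fun i => (dg 192 (X + bp) i : ℤ) - 2 ^ 190 := by
  obtain ⟨-, -, -, -, -, -, -, -, -, -, -, -, -, -, -, hd, -⟩ := hB
  have e : ∀ (St : ℕ) (c : ℤ), List.map (fun d => d - c) (d192 St >>= fun a => pure (a : ℤ)) =
      (List.range 12).map fun i => (dg 192 St i : ℤ) - c := fun St c => by
    rw [bind_pure_comp, hd]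
    exact (List.map_map ..).trans (List.map_map ..)
  rw [show (2 : ℤ) ^ 190 = 1569275433846670190958947355801916604025588861116008628224 by norm_num]
  exact (ilist.eq_1 X).trans (e _ _)

lemma il1_RefS {St : ℕ} {x : Vec} (h1 : SR St x 96 (2 ^ 19) (2 ^ 117)) (i : Fin 12) :
    |(((dg 192 St i : ℤ) - 2 ^ 190 : ℤ) : ℝ) - 2 ^ 96 * x i| ≤ 2 ^ 19 ∧
      |(((dg 192 St i : ℤ) - 2 ^ 190 : ℤ) : ℝ)| ≤ 2 ^ 117 := by
  obtain ⟨h2, h3⟩ := h1 i
  generalize dg 192 St i = n at h2 h3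
  exact ⟨by exact_mod_cast h2, by exact_mod_cast h3⟩

lemma il_RefS (hB : BasP) (hA : ApAP) {X : ℕ} {x : Vec}
    (h : AP X x (2 ^ 19) (2 ^ 117) (2 ^ 21)) : (ilist X).length = 12 ∧ ∀ i : Fin 12,
      |(((ilist X).getD i 0 : ℤ) : ℝ) - 2 ^ 96 * x i| ≤ 2 ^ 19 ∧
        |(((ilist X).getD i 0 : ℤ) : ℝ)| ≤ 2 ^ 117 := by
  have h1 := il1_RefS (hA.2.2 X x _ _ _ h (by norm_num))
  rw [il0_RefS hB]
  generalize X + bp = St at h1 ⊢
  refine ⟨by rw [List.length_map, List.length_range], fun i => ?_⟩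
  rw [List.getD_eq_getElem _ _ (by rw [List.length_map, List.length_range]; exact i.2),
    List.getElem_map, List.getElem_range]
  exact h1 i

lemma rot_RefS (l : List ℤ) (hl : l.length = 12) {g : ℕ} (hg : g < 12) (i : ℕ) (hi : i < 12) :
    (l.drop g ++ l.take g).getD i 0 = l.getD ((i + g) % 12) 0 := by
  rw [← List.rotate_eq_drop_append_take (by omega), List.getD_eq_getElem _ _ (by simpa [hl]),
    List.getElem_rotate, List.getD_eq_getElem _ _ (by omega)]
  simp only [hl]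

lemma prod_RefS {e f x y : ℝ} (h1 : |e - 2 ^ 96 * x| ≤ 2 ^ 19) (h2 : |e| ≤ 2 ^ 117)
    (h3 : |f - 2 ^ 96 * y| ≤ 2 ^ 19) (h4 : |f| ≤ 2 ^ 117) :
    |e * f - 2 ^ 192 * (x * y)| ≤ 2 ^ 138 := by
  have h5 : |2 ^ 96 * y| ≤ 2 ^ 118 := by
    rw [abs_le] at *
    constructor <;> linarith [h3.1, h3.2, h4.1, h4.2]
  have e1 : e * f - 2 ^ 192 * (x * y) =
      e * (f - 2 ^ 96 * y) + (e - 2 ^ 96 * x) * (2 ^ 96 * y) := by ring
  rw [e1]
  refine (abs_add_le _ _).trans ?_
  rw [abs_mul, abs_mul (e - _)]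
  have a1 := mul_le_mul h2 h3 (abs_nonneg _) (by positivity)
  have a2 := mul_le_mul h1 h5 (abs_nonneg _) (by positivity)
  refine (add_le_add a1 a2).trans (by norm_num)

theorem rdotP (hB : BasP) (hA : ApAP) : RdotP := by
  intro Lo T V' W g j k y z hg hLo hT hz hn
  obtain ⟨a1, a2⟩ := il_RefS hB hA (hLo.2 (11 - j) (by omega))
  obtain ⟨b1, b2⟩ := il_RefS hB hA (hT.2 k k.2)
  obtain ⟨-, -, -, -, -, -, -, -, -, -, -, -, -, -, hd, -⟩ := hB
  have e : ((rdot Lo T g j k : ℤ) : ℝ) = ∑ i : Fin 12,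
      (((ilist (Lo.getD (11 - j) 0)).getD i 0 : ℤ) : ℝ) *
        (((ilist (T.getD k 0)).getD ((i + g) % 12) 0 : ℤ) : ℝ) := by
    rw [rdot, hd _ _ (by rw [a1, List.length_append, List.length_drop, List.length_take, b1]; omega),
      a1, ← Fin.sum_univ_eq_sum_range (fun i => _ * _) 12]
    push_cast
    exact sum_congr rfl fun i _ => by rw [rot_RefS _ b1 hg i i.2]
  have h1 : |((rdot Lo T g j k : ℤ) : ℝ) - 2 ^ 192 * z| ≤ 12 * 2 ^ 138 := by
    rw [e, ← hz, mul_sum, ← sum_sub_distrib]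
    refine (abs_sum_le_sum_abs _ _).trans ((sum_le_card_nsmul _ _ (2 ^ 138) fun i _ => ?_).trans
      (by simp))
    have c1 := a2 i
    have c2 := b2 ⟨(i + g) % 12, Nat.mod_lt _ (by norm_num)⟩
    have c3 : col V' (11 - j) i = V' i (Fin.rev j) := by
      rw [col, dif_pos (by omega)]
      congr 1
      ext
      simp only [Fin.val_rev]
      omega
    have c4 : ∀ i, col W k i = W i k := fun i => by rw [col, dif_pos k.2]
    rw [c3] at c1
    rw [c4] at c2
    exact prod_RefS c1.1 c1.2 c2.1 c2.2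
  have h2 : |rdot Lo T g j k - y * 2 ^ 192| ≤ 2 ^ 190 := by
    rw [near, Nat.ble_eq] at hn
    rw [show (2 : ℤ) ^ 192 = 6277101735386680763835789423207666416102355444464034512896 by
      norm_num, show (2 : ℤ) ^ 190 = 1569275433846670190958947355801916604025588861116008628224 by
      norm_num, Int.abs_eq_natAbs]
    exact_mod_cast hn
  have h3 : |rdot Lo T g j k - 2 ^ 192 * z| ≤ 12 * 2 ^ 138 := by exact_mod_cast h1
  generalize rdot Lo T g j k = r at h2 h3
  rw [abs_le] at h2 h3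
  omega

lemma ref_RefS (hB : BasP) {Lo T : List ℕ} {c a key g : ℕ} (h : refS Lo T c a key g = true) :
    c ≤ 12 ∧ ∀ k, k < c → (k < a → ∀ j, j < 12 → k < j → near (rdot Lo T g j k) 0 = true) ∧
      (a ≤ k → k = a ∧ 1 ≤ key ∧
        ((∀ j, j < 12 → a ≤ j → near (rdot Lo T g j k) (lam 8 key (j - a)) = true) ∨
        ∀ j, j < 12 → a ≤ j → near (rdot Lo T g j k) (-lam 8 key (j - a)) = true)) := by
  obtain ⟨h1, h2, h3, -⟩ := hB
  rw [refS, h1, Nat.ble_eq, h3] at h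
  refine ⟨h.1, fun k hk => ⟨fun hka j hj hkj => ?_, fun hka => ?_⟩⟩
  · have := h.2 k hk
    rw [show Nat.ble a k = false from Bool.eq_false_iff.2 (by rw [Ne, Nat.ble_eq]; omega)] at this
    have h4 := (h3 _ _).1 this j hj
    rw [h2, Nat.ble_eq] at h4
    exact h4.resolve_left (by omega)
  · have := h.2 k hk
    rw [show Nat.ble a k = true from Nat.ble_eq.mpr hka] at this
    have h4 := (h1 _ _).1 this
    rw [h1, h2, h3, h3, Nat.ble_eq, Nat.beq_eq] at h4
    refine ⟨h4.1, h4.2.1, h4.2.2.imp (fun h5 j hj haj => ?_) fun h5 j hj haj => ?_⟩ <;>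
    · have h6 := h5 j hj
      rw [h2, Nat.ble_eq] at h6
      exact h6.resolve_left (by omega)

lemma int_RefS {V V' : Mat} (h : Dual V V') (M : ZMat) (j k : Fin 12) :
    ∑ i, V' i (Fin.rev j) * (V * cst M) i k = (M j k : ℤ) := by
  simp only [mul_apply, mul_sum, ← mul_assoc]
  rw [sum_comm]
  simp only [← sum_mul, h j]
  simp [cst]

theorem refSP (hB : BasP) (hD : DualP) (hC : ChildP) (hR : RefP) (hRot : RotP) (h : RdotP) :
    RefSP := by
  intro ω V V' W W' M L L' T T' a b c d key g hg hS hW hT hT' hM he hk r1 r2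
  refine hRot.1 ω W g c d hg ?_
  have hd := hRot.2.1 W W' g hW
  have i1 : ∀ (j k : Fin 12) (y : ℤ), near (rdot L' T g j k) y = true →
      ∑ i, V' i (Fin.rev j) * (Matrix.of fun i k => rot g (fun i => W i k) i) i k = y := by
    intro j k y hy
    have e := int_RefS hS.dual M j k
    rw [← he] at e
    rw [e, h L' T V' W g j k y _ hg hS.lo hT e hy]
  have i2 : ∀ (j k : Fin 12) (y : ℤ), near (rdot L T' g j k) y = true →
      ∑ i, V i (Fin.rev j) * (Matrix.of fun i k => rot g (fun i => W' i k) i) i k = y := by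
    intro j k y hy
    have e := int_RefS hd M⁻¹ (Fin.rev k) (Fin.rev j)
    have e1 : V * cst M * cst M⁻¹ = V := by
      have e2 : cst M * cst M⁻¹ = cst (M * M⁻¹) :=
        (Matrix.map_mul (f := Int.castRingHom ℝ)).symm
      rw [Matrix.mul_assoc, e2, Matrix.mul_nonsing_inv M hM]
      simp [cst]
    rw [he, e1, Fin.rev_rev, sum_congr rfl fun i _ => mul_comm _ _] at e
    rw [e, h L T' V W' g j k y _ hg hS.lc hT' e hy]
  obtain ⟨p1, p2⟩ := ref_RefS hB r1
  obtain ⟨-, q2⟩ := ref_RefS hB r2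
  have hdb : d ≤ b := by
    by_contra hc
    have := ((q2 b (by omega)).2 le_rfl).2.1
    omega
  have z2 : ∀ j k : Fin 12, k.val < d → k < j →
      ∑ i, V i (Fin.rev j) * (Matrix.of fun i k => rot g (fun i => W' i k) i) i k = 0 :=
    fun j k h1 h2 => by simpa using i2 j k 0 ((q2 k h1).1 (by omega) j j.2 h2)
  have z1 : ∀ j k : Fin 12, k.val < c → k.val < a → k < j →
      ∑ i, V' i (Fin.rev j) * (Matrix.of fun i k => rot g (fun i => W i k) i) i k = 0 :=
    fun j k h1 h2 h3 => by simpa using i1 j k 0 ((p2 k h1).1 h2 j j.2 h3)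
  by_cases hca : c ≤ a
  · exact hR.1 ω V V' _ _ M a b c d hS.dual hd hM he hca hdb
      (fun j k h1 => z1 j k h1 (by omega)) z2 hS.fl
  have hc : c = a + 1 := by
    by_contra hc
    have := ((p2 (a + 1) (by omega)).2 (by omega)).1
    omega
  subst hc
  obtain ⟨-, k1, k2⟩ := (p2 a (by omega)).2 le_rfl
  rcases k2 with k2 | k2
  · refine hR.2 ω V V' _ _ M a b d _ hS.dual hd hM he hdb
      (fun j k h1 => z1 j k (by omega) h1) (fun j k h1 h2 => ?_) z2 (hk k1)
    subst h1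
    exact i1 j k _ (k2 j j.2 h2)
  · refine hR.2 ω V V' _ _ M a b d _ hS.dual hd hM he hdb
      (fun j k h1 => z1 j k (by omega) h1) (fun j k h1 h2 => ?_) z2 (hC.2 _ _ _ _ _ (hk k1))
    subst h1
    exact i1 j k _ (k2 j j.2 h2)

end Pool.Agent.MP_2877d0_al.T
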