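import Pool.Agent.MP_2877d0_al.T.Math

namespace Pool.Agent.MP_2877d0_al.T

open Matrix Finset

lemma pat_Root (a b : ℕ) (N : ZMat) : Pat a b N ↔
    N.BlockTriangular fun i : Fin 12 => if i.val < a ∨ 12 ≤ i.val + b then i.val else a := by
  refine ⟨fun h i j hij => ?_, fun h i j h1 h2 => h ?_⟩
  · have h1 : j.val < i.val ∧ (j.val < a ∨ 12 ≤ i.val + b) := by
      simp only at hij
      split_ifs at hij <;> omega
    exact h i j h1.1 h1.2
  · have h3 : j.val < i.val := h1
    simp only
    split_ifs <;> omega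

lemma inv_Root {a b : ℕ} {N : ZMat} (hN : IsUnit N.det) (h : Pat a b N) : Pat a b N⁻¹ := by
  have := N.invertibleOfIsUnitDet hN
  rw [pat_Root] at h ⊢
  exact blockTriangular_inv_of_blockTriangular h

lemma cmul_Root (M N : ZMat) : cst (M * N) = cst M * cst N := by
  have := map_mul (Int.castRingHom ℝ).mapMatrix M N
  exact this

lemma cst_Root {M N : ZMat} (h : M * N = 1) : cst M * cst N = 1 := by
  have := congrArg (Int.castRingHom ℝ).mapMatrix h
  rwa [map_mul, map_one] at this

lemma gram_Root {X Y D D' u v : Mat} (h1 : Y * X = 1) (h2 : D' * D = 1) (h3 : v * u = 1)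
    (h : Xᵀ * D * X = uᵀ * u) : Y * D' * Yᵀ = v * vᵀ := by
  have a1 : Yᵀ * Xᵀ = 1 := by rw [← transpose_mul, mul_eq_one_comm.1 h1, transpose_one]
  have a2 : uᵀ * vᵀ = 1 := by rw [← transpose_mul, h3, transpose_one]
  have a3 : Y * D' * Yᵀ * (uᵀ * u) = 1 := by
    rw [← h]
    calc _ = Y * (D' * (Yᵀ * Xᵀ) * D) * X := by simp only [Matrix.mul_assoc]
      _ = 1 := by rw [a1, Matrix.mul_one, h2, Matrix.mul_one, h1]
  have a4 : uᵀ * u * (v * vᵀ) = 1 := by
    calc _ = uᵀ * (u * v) * vᵀ := by simp only [Matrix.mul_assoc]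
      _ = 1 := by rw [mul_eq_one_comm.1 h3, Matrix.mul_one, a2]
  rw [← Matrix.mul_one (Y * D' * Yᵀ), ← a4, ← Matrix.mul_assoc, a3, Matrix.one_mul]

lemma pv_Root {V V' : Mat} (hD : Dual V V') : (V'.submatrix id Fin.rev)ᵀ * V = 1 := by
  ext j k
  rw [one_apply, ← hD j k]
  rfl

lemma wit_Root {ω : Vec} {V V' : Mat} {a b : ℕ} {N : ZMat} (hω : ∀ i, 0 < ω i)
    (hD : Dual V V') (hW : Wit ω V a b N) :
    Wit (iv ω) V' b a (N⁻¹.submatrix Fin.revPerm Fin.revPerm)ᵀ := by
  obtain ⟨hN, hP, u, hu, hu1, hG⟩ := hW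
  have hb : u.BlockTriangular id := fun i j h => hu i j h
  have hdet : IsUnit u.det := by
    rw [det_of_isUpperTriangular hb]
    simp only [hu1, Finset.prod_const_one, isUnit_one]
  have := u.invertibleOfIsUnitDet hdet
  have hv : u⁻¹.BlockTriangular id := blockTriangular_inv_of_blockTriangular hb
  have hvu : u⁻¹ * u = 1 := nonsing_inv_mul u hdet
  have hv1 : ∀ i, u⁻¹ i i = 1 := fun i => by
    have e := congrFun (congrFun hvu i) i
    rw [mul_apply, Finset.sum_eq_single i, hu1, mul_one, one_apply_eq] at e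
    · exact e
    · intro k _ hk
      rcases lt_or_gt_of_ne hk with h | h
      · rw [hv h, zero_mul]
      · rw [hu k i h, mul_zero]
    · exact fun h => absurd (Finset.mem_univ i) h
  have hPV := pv_Root hD
  have hY : cst N⁻¹ * (V'.submatrix id Fin.rev)ᵀ * (V * cst N) = 1 := by
    rw [Matrix.mul_assoc, ← Matrix.mul_assoc _ V, hPV, Matrix.one_mul,
      cst_Root (nonsing_inv_mul N hN)]
  have hDD : diagonal (iv ω) * diagonal ω = 1 := by
    rw [diagonal_mul_diagonal, ← diagonal_one]
    exact congrArg diagonal (funext fun i => inv_mul_cancel₀ (hω i).ne')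
  have key := gram_Root hY hDD hvu hG
  refine ⟨?_, fun i j h1 h2 => ?_,
    (u⁻¹.submatrix Fin.revPerm Fin.revPerm)ᵀ, fun i j h => hv (Fin.rev_lt_rev.2 h),
    fun i => hv1 _, ?_⟩
  · rw [det_transpose, det_submatrix_equiv_self]
    exact isUnit_nonsing_inv_det N hN
  · refine inv_Root hN hP _ _ (Fin.rev_lt_rev.2 h1) ?_
    have h3 : j.val < i.val := h1
    simp only [Fin.revPerm_apply, Fin.val_rev]
    omega
  · have e : V' * cst (N⁻¹.submatrix Fin.revPerm Fin.revPerm)ᵀ =
        ((cst N⁻¹ * (V'.submatrix id Fin.rev)ᵀ).submatrix Fin.revPerm id)ᵀ := by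
      ext i j
      simp only [mul_apply, transpose_apply, submatrix_apply, cst, map_apply, id]
      rw [← Equiv.sum_comp Fin.revPerm]
      simp only [Fin.revPerm_apply, Fin.rev_rev, mul_comm]
    rw [e, transpose_transpose, transpose_transpose, transpose_submatrix u⁻¹,
      submatrix_mul_equiv, ← key]
    rfl

lemma sq_Root (w : Vec) (h1 : ∑ i, |w i| ≤ 1) (h0 : ∑ i, w i = 0) : ∑ i, 2 * w i ^ 2 ≤ 1 := by
  have e : ∑ i, (|w i| + w i) = ∑ i, |w i| := by rw [Finset.sum_add_distrib, h0, add_zero]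
  have e' : ∑ i, (|w i| - w i) = ∑ i, |w i| := by rw [Finset.sum_sub_distrib, h0, sub_zero]
  have hb : ∀ i, 2 * |w i| ≤ 1 := by
    intro i
    rcases le_total 0 (w i) with h | h
    · have := Finset.single_le_sum (f := fun i => |w i| + w i)
        (fun k _ => by have := neg_abs_le (w k); linarith) (Finset.mem_univ i)
      rw [e] at this
      simp only [abs_of_nonneg h] at this ⊢
      linarith
    · have := Finset.single_le_sum (f := fun i => |w i| - w i)
        (fun k _ => by have := le_abs_self (w k); linarith) (Finset.mem_univ i)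
      rw [e'] at this
      simp only [abs_of_nonpos h] at this ⊢
      linarith
  refine le_trans (Finset.sum_le_sum fun i _ => ?_) h1
  have := hb i
  have h2 := abs_nonneg (w i)
  rw [← sq_abs]
  nlinarith

theorem rootP (hD : DualP) : RootP := by
  intro B V V' U h hO hDn hU hV hVV hV0 hB
  obtain ⟨d, o, u, γ, hd, ho, hu, hu1, hγ, hBe⟩ := hB
  have hγr : cst γ * cst γ⁻¹ = 1 := cst_Root (mul_nonsing_inv γ hγ)
  have hBe' : B = diagonal d * o * u * cst γ := hBe
  have h1 : B * cst γ⁻¹ = diagonal d * (o * u) := by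
    rw [hBe', Matrix.mul_assoc, hγr, Matrix.mul_one, Matrix.mul_assoc]
  have hoo : ∀ k l, ∑ i, o i k * o i l = if k = l then 1 else 0 := by
    intro k l
    have := congrFun (congrFun ho k) l
    simpa [mul_apply, one_apply] using this
  have c0 : ∀ i, (o * u) i 0 = o i 0 := by
    intro i
    rw [mul_apply, Finset.sum_eq_single 0, hu1, mul_one]
    · intro b _ hb; rw [hu b 0 (Fin.pos_of_ne_zero hb), mul_zero]
    · simp
  have hx : InO B (fun i => d i * o i 0) := by
    refine ⟨fun j => γ⁻¹ j 0, ?_⟩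
    funext i
    have := congrFun (congrFun h1 i) 0
    rw [diagonal_mul, mul_apply, c0] at this
    rw [← this]; simp [mulVec, dotProduct, cst]
  obtain ⟨L, hL⟩ : ∃ L : Fin 12, L = Fin.last 11 := ⟨_, rfl⟩
  have hL0 : (0 : Fin 12) ≠ L := by rw [hL]; decide
  have hLr : Fin.rev (0 : Fin 12) = L := by rw [hL]; decide
  have huL : ∀ k, u L k = if L = k then 1 else 0 := by
    intro k
    by_cases hi : L = k
    · rw [if_pos hi, ← hi, hu1]
    · have : k < L := by
        rw [hL] at hi ⊢; exact Fin.lt_last_iff_ne_last.mpr (Ne.symm hi)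
      rw [if_neg hi, hu L k this]
  have hy : InD B (fun i => o i L / d i) := by
    refine ⟨fun j => γ L j, ?_⟩
    have e1 : (diagonal d)ᵀ *ᵥ (fun i => o i L / d i) = o *ᵥ Pi.single L 1 := by
      funext i
      rw [diagonal_transpose, mulVec_diagonal, mulVec_single_one]
      field_simp [hd i]; rfl
    have e2 : uᵀ *ᵥ Pi.single L 1 = Pi.single L 1 := by
      funext i
      rw [mulVec_single_one]
      simp [huL, Pi.single_apply, eq_comm]
    rw [hBe, transpose_mul, transpose_mul, transpose_mul, ← mulVec_mulVec, ← mulVec_mulVec,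
      ← mulVec_mulVec, e1, mulVec_mulVec _ oᵀ o, ho, one_mulVec, e2, mulVec_single_one]
    funext j; simp
  have hx0 : ∀ i, d i * o i 0 ≠ 0 := by
    refine hO _ hx fun hc => ?_
    have := hoo 0 0
    rw [if_pos rfl, Finset.sum_eq_zero] at this
    · exact zero_ne_one this
    · intro i _
      have := (mul_eq_zero.mp (congrFun hc i)).resolve_left (hd i)
      rw [this, mul_zero]
  have hy0 : ∀ i, o i L / d i ≠ 0 := by
    refine hDn _ hy fun hc => ?_
    have := hoo L L
    rw [if_pos rfl, Finset.sum_eq_zero] at this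
    · exact zero_ne_one this
    · intro i _
      have := (div_eq_zero_iff.mp (congrFun hc i)).resolve_right (hd i)
      rw [this, mul_zero]
  have ho0 : ∀ i, o i 0 ≠ 0 := fun i => right_ne_zero_of_mul (hx0 i)
  have hoL : ∀ i, o i L ≠ 0 := fun i => fun hc => hy0 i (by rw [hc, zero_div])
  have hz := h.mul_dual hx hy
  have ez : ((fun i => d i * o i 0) * fun i => o i L / d i) = fun i => o i 0 * o i L := by
    funext i; simp only [Pi.mul_apply]; field_simp [hd i]
  rw [ez] at hz
  obtain ⟨t, ht⟩ := hz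
  obtain ⟨w, hw⟩ : ∃ w : Vec, w = fun i => o i 0 * o i L := ⟨_, rfl⟩
  rw [← hw] at ht
  have hs : ∀ k, (((Uᵀ *ᵥ t) k : ℤ) : ℝ) = (Vᵀ *ᵥ w) k := by
    intro k
    rw [hV, transpose_mul, ← mulVec_mulVec, ht]
    simp [mulVec, dotProduct, cst]
  have hPV := pv_Root hVV
  have hWV : V'.submatrix id Fin.rev * Vᵀ = 1 := by
    have := congrArg transpose (mul_eq_one_comm.1 hPV)
    rwa [transpose_mul, transpose_transpose, transpose_one] at this
  have hw0 : ∑ i, w i = 0 := by
    rw [hw]; simpa [hL0] using hoo 0 L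
  have hw1 : ∑ i, |w i| ≤ 1 := by
    have a1 := hoo 0 0
    have a2 := hoo L L
    rw [if_pos rfl] at a1 a2
    have a3 : ∑ i, |w i| ≤ ∑ i, (o i 0 * o i 0 + o i L * o i L) / 2 := by
      refine Finset.sum_le_sum fun i _ => ?_
      rw [hw]
      refine abs_le.mpr ⟨?_, ?_⟩
      · nlinarith [sq_nonneg (o i 0 + o i L)]
      · nlinarith [sq_nonneg (o i 0 - o i L)]
    rw [← Finset.sum_div, Finset.sum_add_distrib, a1, a2] at a3
    linarith
  obtain ⟨ξ, hξ⟩ : ∃ ξ : ℕ → ℤ,
      ξ = fun j => if hj : j < 12 then (Uᵀ *ᵥ t) (Fin.rev ⟨j, hj⟩) else 0 := ⟨_, rfl⟩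
  have hξj : ∀ j : Fin 12, ξ j.val = (Uᵀ *ᵥ t) (Fin.rev j) := by
    intro j; rw [hξ]; simp only [j.isLt, dif_pos]
  have hk : kap V' 0 ξ = w := by
    funext i
    have e1 : kap V' 0 ξ i = ∑ j : Fin 12, (ξ j.val : ℝ) * V' i j := by
      simp only [kap, cmb, Nat.not_lt_zero, if_false, Nat.sub_zero]
      rw [← Fin.sum_univ_eq_sum_range (fun j => (ξ j : ℝ) * col V' j i) 12]
      refine Finset.sum_congr rfl fun j _ => ?_
      simp only [col, j.isLt, dif_pos]
    have e2 : w i = (V'.submatrix id Fin.rev *ᵥ (Vᵀ *ᵥ w)) i := by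
      rw [mulVec_mulVec, hWV, one_mulVec]
    rw [e1, e2]
    conv_rhs => rw [mulVec, dotProduct, ← Equiv.sum_comp Fin.revPerm]
    refine Finset.sum_congr rfl fun j _ => ?_
    rw [hξj, hs]
    simp only [Fin.revPerm_apply, submatrix_apply, Fin.rev_rev, id, mul_comm]
  have h11 : ∀ j, 11 ≤ j → ξ j = 0 := by
    intro j hj
    by_cases h12 : j < 12
    · have e : j = L.val := by rw [hL]; simp only [Fin.val_last]; omega
      have e2 : Fin.rev L = 0 := by rw [← hLr, Fin.rev_rev]
      have e3 : ((ξ j : ℤ) : ℝ) = 0 := by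
        rw [e, hξj, hs, e2, ← hw0]
        simp [mulVec, dotProduct, hV0]
      exact_mod_cast e3
    · rw [hξ]; simp only [h12, dif_neg, not_false_eq_true]
  refine ⟨ξ, ?_, h11, by rw [hk]; exact hw1, by rw [hk]; exact sq_Root w hw1 hw0, ?_⟩
  · by_contra hc
    push Not at hc
    have hall : ∀ j, ξ j = 0 := fun j => by
      rcases lt_or_ge j 11 with h' | h'
      · exact hc j h'
      · exact h11 j h'
    have e : w 0 = 0 := by
      rw [← hk]; simp [kap, cmb, hall]
    rw [hw] at e
    exact mul_ne_zero (ho0 0) (hoL 0) e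
  rw [hk]
  intro hlt
  obtain ⟨n2, hn2⟩ := h.norm_dual hy
  obtain ⟨M, hM⟩ := h.exists_mat hx
  have hM' : diagonal (fun i => d i * o i 0) * B = B * cst M := hM
  have hn1 : ∏ i, d i * o i 0 = (M.det : ℝ) := by
    have := congrArg det hM
    rw [det_mul, det_mul, det_diagonal, cast_det, mul_comm] at this
    exact mul_left_cancel₀ h.det_ne this
  have hMu : IsUnit M.det := by
    have a1 : (M.det : ℝ) ≠ 0 := by
      rw [← hn1]; exact Finset.prod_ne_zero_iff.mpr fun i _ => hx0 i
    have a2 : (n2 : ℝ) ≠ 0 := by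
      rw [← hn2]
      exact mul_ne_zero (pow_ne_zero _ h.det_ne) (Finset.prod_ne_zero_iff.mpr fun i _ => hy0 i)
    have a3 : B.det ^ 2 * ∏ i, |w i| = |(M.det : ℝ)| * |(n2 : ℝ)| := by
      rw [← abs_mul, ← hn1, ← hn2, ← Finset.abs_prod, ← abs_of_nonneg (sq_nonneg B.det),
        ← abs_mul, abs_of_nonneg (sq_nonneg B.det), mul_left_comm, ← Finset.prod_mul_distrib]
      congr 2
      refine Finset.prod_congr rfl fun i _ => ?_
      rw [hw]; field_simp [hd i]
    rw [a3] at hlt
    have b1 : M.det ≠ 0 := by exact_mod_cast a1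
    have b2 : n2 ≠ 0 := by exact_mod_cast a2
    have b3 : |M.det| * |n2| < 2 := by exact_mod_cast hlt
    have b4 := Int.one_le_abs b1
    have b5 := Int.one_le_abs b2
    have b6 : |M.det| = 1 := by nlinarith
    exact Int.isUnit_iff_abs_eq.mpr b6
  obtain ⟨N, hN⟩ : ∃ N : ZMat, N = U⁻¹ * M⁻¹ * γ⁻¹ := ⟨_, rfl⟩
  have hNu : IsUnit N.det := by
    rw [hN, det_mul, det_mul]
    exact ((isUnit_nonsing_inv_det U hU).mul (isUnit_nonsing_inv_det M hMu)).mul
      (isUnit_nonsing_inv_det γ hγ)
  have hG : diagonal (fun i => o i 0) * (V * cst N) = o * u := by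
    have a1 : diagonal (fun i => d i * o i 0) * (V * cst N) = diagonal d * (o * u) := by
      rw [← h1, hV, hN, cmul_Root, cmul_Root]
      calc _ = diagonal (fun i => d i * o i 0) * B * (cst U * cst U⁻¹) * cst M⁻¹ * cst γ⁻¹ := by
            simp only [Matrix.mul_assoc]
        _ = B * (cst M * cst M⁻¹) * cst γ⁻¹ := by
            rw [cst_Root (mul_nonsing_inv U hU), hM']; simp only [Matrix.mul_assoc, Matrix.mul_one]
        _ = _ := by rw [cst_Root (mul_nonsing_inv M hMu), Matrix.mul_one]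
    ext i k
    have := congrFun (congrFun a1 i) k
    rw [diagonal_mul, diagonal_mul, mul_assoc] at this
    rw [diagonal_mul]
    exact mul_left_cancel₀ (hd i) this
  have hω : ∀ i, 0 < o i 0 ^ 2 := fun i => by have := ho0 i; positivity
  have hWit : Wit (fun i => o i 0 ^ 2) V 1 0 N := by
    refine ⟨hNu, fun i j hij hj => ?_, u, hu, hu1, ?_⟩
    · have hj0 : j = 0 := by
        have := i.isLt
        apply Fin.ext; simp only [Fin.val_zero]; omega
      subst hj0
      have a1 : ∀ k, (V * cst N) k 0 = V k 0 := by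
        intro k
        have := congrFun (congrFun hG k) 0
        rw [diagonal_mul, c0] at this
        rw [hV0]
        exact mul_left_cancel₀ (ho0 k) (by rw [this, mul_one])
      have a2 : cst N = (V'.submatrix id Fin.rev)ᵀ * (V * cst N) := by
        rw [← Matrix.mul_assoc, hPV, Matrix.one_mul]
      have a3 : cst N i 0 = 0 := by
        rw [a2, mul_apply]
        simp only [a1]
        rw [← mul_apply, hPV, one_apply_ne (ne_of_gt hij)]
      have a4 : ((N i 0 : ℤ) : ℝ) = 0 := a3
      exact_mod_cast a4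
    · have a1 : diagonal (fun i => o i 0 ^ 2) =
          (diagonal fun i => o i 0)ᵀ * diagonal fun i => o i 0 := by
        rw [diagonal_transpose, diagonal_mul_diagonal]; simp only [sq]
      calc _ = (diagonal (fun i => o i 0) * (V * cst N))ᵀ *
            (diagonal (fun i => o i 0) * (V * cst N)) := by
            rw [a1, transpose_mul (diagonal _)]; simp only [Matrix.mul_assoc]
        _ = uᵀ * (oᵀ * o) * u := by rw [hG, transpose_mul]; simp only [Matrix.mul_assoc]
        _ = _ := by rw [ho, Matrix.mul_one]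
  refine ⟨_, hω, ⟨N, hWit⟩, _, wit_Root hω hVV hWit, by norm_num, fun j _ => ?_⟩
  have a1 : w ᵥ* (V * cst N) = Pi.single L 1 := by
    funext k
    have b1 : (w ᵥ* (V * cst N)) k = (oᵀ * (o * u)) L k := by
      rw [← hG, mul_apply, vecMul, dotProduct]
      refine Finset.sum_congr rfl fun i _ => ?_
      rw [diagonal_mul, hw, transpose_apply]; ring
    rw [b1, ← Matrix.mul_assoc, ho, Matrix.one_mul, huL, Pi.single_apply]
    simp only [eq_comm]
  have a2 : w ᵥ* V = Pi.single L 1 ᵥ* cst N⁻¹ := by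
    rw [← a1, vecMul_vecMul, Matrix.mul_assoc, cst_Root (mul_nonsing_inv N hNu), Matrix.mul_one]
  have a3 : ((N⁻¹ L (Fin.rev j) : ℤ) : ℝ) = ξ j.val := by
    rw [hξj, hs, mulVec_transpose, a2, single_one_vecMul]
    rfl
  have a4 : N⁻¹ L (Fin.rev j) = ξ j.val := by exact_mod_cast a3
  rw [Nat.sub_zero, ← a4, ← hLr]
  rfl

end Pool.Agent.MP_2877d0_al.T
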