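import Pool.Agent.MP_2877d0_al.T.St
namespace Pool.Agent.MP_2877d0_al.T
open Matrix Finset

theorem su_eq_Sq (d : ℕ) : su d = (ab (2 ^ 190) d / 2 ^ 78 + 2) * (ab (2 ^ 190) d / 2 ^ 78 + 2) /
    2 ^ 24 + 1 := by
  have e : (1569275433846670190958947355801916604025588861116008628224 : ℕ) = 2 ^ 190 := by
    norm_num
  rw [← Nat.shiftRight_eq_div_pow, ← Nat.shiftRight_eq_div_pow, ← e]
  rfl

theorem sl_eq_Sq (d : ℕ) : sl d = (ab (2 ^ 190) d / 2 ^ 78 - 1) * (ab (2 ^ 190) d / 2 ^ 78 - 1) /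
    2 ^ 24 := by
  have e : (1569275433846670190958947355801916604025588861116008628224 : ℕ) = 2 ^ 190 := by
    norm_num
  rw [← Nat.shiftRight_eq_div_pow, ← Nat.shiftRight_eq_div_pow, ← e]
  rfl

theorem up_Sq (y : ℕ) (t : ℝ) (t0 : 0 ≤ t) (h1 : 2 ^ 108 * t ≤ y + 2 ^ 42)
    (h2 : y ≤ 3 * 2 ^ 138) :
    2 ^ 36 * t ^ 2 ≤ (((y / 2 ^ 78 + 2) * (y / 2 ^ 78 + 2) / 2 ^ 24 + 1 : ℕ) : ℝ) ∧
      (y / 2 ^ 78 + 2) * (y / 2 ^ 78 + 2) / 2 ^ 24 + 1 ≤ 2 ^ 100 := by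
  have a1 : y < 2 ^ 78 * (y / 2 ^ 78 + 1) := Nat.lt_mul_div_succ y (by positivity)
  have a2 : y / 2 ^ 78 ≤ 3 * 2 ^ 60 := (Nat.div_le_div_right h2).trans (by norm_num)
  generalize y / 2 ^ 78 = q at a1 a2 ⊢
  have a3 : (q + 2) * (q + 2) < 2 ^ 24 * ((q + 2) * (q + 2) / 2 ^ 24 + 1) :=
    Nat.lt_mul_div_succ _ (by positivity)
  have a4 : (q + 2) * (q + 2) ≤ (3 * 2 ^ 60 + 2) * (3 * 2 ^ 60 + 2) :=
    Nat.mul_le_mul (by omega) (by omega)
  refine ⟨?_, (Nat.add_le_add_right (Nat.div_le_div_right a4) 1).trans (by norm_num)⟩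
  generalize (q + 2) * (q + 2) / 2 ^ 24 + 1 = s at a3 ⊢
  have b1 : (y : ℝ) < 2 ^ 78 * (q + 1) := by exact_mod_cast a1
  have b3 : ((q : ℝ) + 2) * (q + 2) < 2 ^ 24 * s := by exact_mod_cast a3
  have b4 : 2 ^ 30 * t ≤ (q : ℝ) + 2 := by linarith
  have b5 : (2 ^ 30 * t) * (2 ^ 30 * t) ≤ ((q : ℝ) + 2) * (q + 2) :=
    mul_self_le_mul_self (by positivity) b4
  nlinarith

theorem lo_Sq (y : ℕ) (t : ℝ) (t0 : 0 ≤ t) (h1 : (y : ℝ) ≤ 2 ^ 108 * t + 2 ^ 42)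
    (h2 : y ≤ 3 * 2 ^ 138) :
    (((y / 2 ^ 78 - 1) * (y / 2 ^ 78 - 1) / 2 ^ 24 : ℕ) : ℝ) ≤ 2 ^ 36 * t ^ 2 ∧
      (y / 2 ^ 78 - 1) * (y / 2 ^ 78 - 1) / 2 ^ 24 ≤ 2 ^ 100 := by
  have a1 : 2 ^ 78 * (y / 2 ^ 78) ≤ y := Nat.mul_div_le y _
  have a2 : y / 2 ^ 78 ≤ 3 * 2 ^ 60 := (Nat.div_le_div_right h2).trans (by norm_num)
  generalize y / 2 ^ 78 = q at a1 a2 ⊢
  have a3 : 2 ^ 24 * ((q - 1) * (q - 1) / 2 ^ 24) ≤ (q - 1) * (q - 1) := Nat.mul_div_le _ _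
  have a4 : (q - 1) * (q - 1) ≤ (3 * 2 ^ 60) * (3 * 2 ^ 60) :=
    Nat.mul_le_mul (by omega) (by omega)
  refine ⟨?_, (Nat.div_le_div_right a4).trans (by norm_num)⟩
  have b4 : ((q - 1 : ℕ) : ℝ) ≤ 2 ^ 30 * t := by
    rcases Nat.eq_zero_or_pos q with h | h
    · subst h
      simpa using t0
    · have b1 : (2 : ℝ) ^ 78 * q ≤ y := by exact_mod_cast a1
      rw [Nat.cast_sub h, Nat.cast_one]
      linarith
  generalize (q - 1) * (q - 1) / 2 ^ 24 = s at a3 ⊢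
  generalize q - 1 = a at a3 b4
  have b3 : (2 : ℝ) ^ 24 * s ≤ a * a := by exact_mod_cast a3
  have b5 : (a : ℝ) * a ≤ (2 ^ 30 * t) * (2 ^ 30 * t) :=
    mul_self_le_mul_self (by positivity) b4
  nlinarith

theorem sqP (hB : BasP) : SqP := by
  obtain ⟨-, -, -, -, hab, -, -, -, -, -, -, -, hpk, -, -, h192, -⟩ := hB
  intro St x h
  have e1 : ∀ f : ℕ → ℕ, pk f (d192 St) =
      ∑ i ∈ range 12, f (dg 192 St i) * (2 ^ 128) ^ i := by
    intro f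
    rw [hpk, h192, List.length_map, List.length_range]
    refine sum_congr rfl fun i hi => ?_
    have hi' := mem_range.1 hi
    rw [List.getD_eq_getElem _ _ (by simpa using hi'), List.getElem_map, List.getElem_range]
  have e2 : ∀ i : Fin 12, ab (2 ^ 190) (dg 192 St i) ≤ 3 * 2 ^ 138 ∧
      2 ^ 108 * |x i| ≤ (ab (2 ^ 190) (dg 192 St i) : ℝ) + 2 ^ 42 ∧
      (ab (2 ^ 190) (dg 192 St i) : ℝ) ≤ 2 ^ 108 * |x i| + 2 ^ 42 := by
    intro i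
    obtain ⟨h1, h2⟩ := h i
    have h3 := hab (2 ^ 190) (dg 192 St i)
    generalize ab (2 ^ 190) (dg 192 St i) = y at h3 ⊢
    generalize dg 192 St i = d at h1 h2 h3
    have h4 : (y : ℝ) = |(d : ℝ) - 2 ^ 190| := by exact_mod_cast h3
    have h5 : (y : ℤ) ≤ ((3 * 2 ^ 138 : ℕ) : ℤ) := by
      rw [h3]
      exact_mod_cast h2
    have h6 : ((2 ^ 42 : ℕ) : ℝ) = 2 ^ 42 := by norm_num
    rw [h6] at h1
    have h7 : (2 : ℝ) ^ 108 * |x i| = |2 ^ 108 * x i| := by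
      rw [abs_mul, abs_of_pos (show (0 : ℝ) < 2 ^ 108 by positivity)]
    rw [h7, h4]
    generalize (d : ℝ) - 2 ^ 190 = u at h1 ⊢
    generalize 2 ^ 108 * x i = w at h1 ⊢
    refine ⟨by exact_mod_cast h5, ?_, ?_⟩
    · have := abs_sub_abs_le_abs_sub w u
      rw [abs_sub_comm] at this
      linarith
    · have := abs_sub_abs_le_abs_sub u w
      linarith
  refine ⟨⟨fun i => su (dg 192 St i), ⟨e1 su, fun i hi => ?_⟩, fun i => ?_⟩,
    ⟨fun i => sl (dg 192 St i), ⟨e1 sl, fun i hi => ?_⟩, fun i => ?_⟩⟩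
  · obtain ⟨a, b, -⟩ := e2 ⟨i, hi⟩
    beta_reduce
    rw [su_eq_Sq]
    exact (up_Sq _ _ (abs_nonneg _) b a).2
  · obtain ⟨a, b, -⟩ := e2 i
    rw [← sq_abs]
    beta_reduce
    rw [su_eq_Sq]
    exact (up_Sq _ _ (abs_nonneg _) b a).1
  · obtain ⟨a, -, b⟩ := e2 ⟨i, hi⟩
    beta_reduce
    rw [sl_eq_Sq]
    exact (lo_Sq _ _ (abs_nonneg _) b a).2
  · obtain ⟨a, -, b⟩ := e2 i
    rw [← sq_abs]
    beta_reduce
    rw [sl_eq_Sq]
    exact (lo_Sq _ _ (abs_nonneg _) b a).1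

theorem cut_Sq (ω : Vec) (X : ℕ) (A B C : ℕ → ℤ) (D : ℤ)
    (hX : (X : ℤ) = ∑ i ∈ range 12, A i * (2 ^ 128) ^ i +
      (∑ i ∈ range 12, B i * (2 ^ 128) ^ i) * (2 ^ 128) ^ 12 +
      (∑ i ∈ range 12, C i * (2 ^ 128) ^ i) * (2 ^ 128) ^ 24 + D * (2 ^ 128) ^ 36 +
      (2 ^ 128) ^ 37)
    (hA : ∀ i, i < 12 → |A i| ≤ 2 ^ 100) (hB : ∀ i, i < 12 → |B i| ≤ 2 ^ 100)
    (hC : ∀ i, i < 12 → |C i| ≤ 2 ^ 100) (hD : |D| ≤ 2 ^ 100)
    (h : ∑ i : Fin 12, ((A i : ℝ) * ω i + B i * iv ω i + C i * sg ω i) ≤ D) : CutOK ω X := by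
  refine ⟨fun f => if f < 12 then A f else if f < 24 then B (f - 12) else
    if f < 36 then C (f - 24) else D, ?_, fun f hf => ?_, ?_⟩
  · rw [hX]
    clear hX
    generalize (2 ^ 128 : ℤ) = W
    have e : ∀ g : ℕ → ℤ, ∑ f ∈ range 37, g f = ∑ i ∈ range 12, g i + ∑ i ∈ range 12, g (12 + i) +
        ∑ i ∈ range 12, g (24 + i) + g 36 := fun g => by
      rw [sum_range_succ, sum_range_add g 24 12, sum_range_add g 12 12]
    rw [e, sum_mul, sum_mul]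
    refine congrArg (· + _) (congrArg₂ (· + ·) (congrArg₂ (· + ·) (congrArg₂ (· + ·)
      (sum_congr rfl fun i hi => ?_) (sum_congr rfl fun i hi => ?_))
      (sum_congr rfl fun i hi => ?_)) rfl)
    · beta_reduce
      rw [if_pos (mem_range.1 hi)]
    · have := mem_range.1 hi
      beta_reduce
      rw [if_neg (by omega), if_pos (by omega), Nat.add_sub_cancel_left, pow_add]
      ring
    · have := mem_range.1 hi
      beta_reduce
      rw [if_neg (by omega), if_neg (by omega), if_pos (by omega), Nat.add_sub_cancel_left,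
        pow_add]
      ring
  · clear hX
    beta_reduce
    split_ifs with h1 h2 h3
    · exact hA _ h1
    · exact hB _ (by omega)
    · exact hC _ (by omega)
    · exact hD
  · clear hX
    refine le_of_eq_of_le (sum_congr rfl fun i _ => ?_) (h.trans_eq (by simp))
    have := i.2
    beta_reduce
    rw [if_pos i.2, if_neg (show ¬12 + (i : ℕ) < 12 by omega),
      if_pos (show 12 + (i : ℕ) < 24 by omega), if_neg (show ¬24 + (i : ℕ) < 12 by omega),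
      if_neg (show ¬24 + (i : ℕ) < 24 by omega), if_pos (show 24 + (i : ℕ) < 36 by omega),
      Nat.add_sub_cancel_left, Nat.add_sub_cancel_left]

theorem lt_Sq (W : ℕ) (n : ℕ → ℕ) : ∀ k, (∀ i, i < k → n i < W) →
    ∑ i ∈ range k, n i * W ^ i < W ^ k := by
  intro k
  induction k with
  | zero => intro _; simp
  | succ k ih =>
    intro h
    have h1 := ih fun i hi => h i (by omega)
    have h2 : (n k + 1) * W ^ k ≤ W * W ^ k := Nat.mul_le_mul_right _ (h k (by omega))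
    rw [sum_range_succ, pow_succ']
    nlinarith

theorem mk_eq_Sq (ty P N rp rn : ℕ) (hty : ty ≤ 2) (hN : N < (2 ^ 128) ^ 12) (hr : rn ≤ 2 ^ 100) :
    (mk ty P N rp rn : ℤ) = ((P : ℤ) - N) * (2 ^ 128) ^ (12 * ty) +
      ((rp : ℤ) - rn) * (2 ^ 128) ^ 36 + (2 ^ 128) ^ 37 := by
  have e : mk ty P N rp rn = ((2 ^ 128) ^ 37 + P * (2 ^ 128) ^ (12 * ty) + rp * (2 ^ 128) ^ 36) -
      (N * (2 ^ 128) ^ (12 * ty) + rn * (2 ^ 128) ^ 36) := by
    rw [← pow_mul, ← pow_mul, ← pow_mul, ← mul_assoc, ← Nat.shiftLeft_eq, ← Nat.shiftLeft_eq,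
      ← Nat.shiftLeft_eq, ← Nat.shiftLeft_eq, ← Nat.one_shiftLeft]
    rfl
  have hr' : rn + 1 ≤ 2 ^ 128 := by omega
  have hz : ((2 ^ 128 : ℕ) : ℤ) = 2 ^ 128 := by norm_num
  rw [e, ← hz]
  have W1 : 1 ≤ 2 ^ 128 := by norm_num
  generalize 2 ^ 128 = W at hN hr' W1 ⊢
  have h1 : N * W ^ (12 * ty) ≤ W ^ 36 := by
    calc N * W ^ (12 * ty) ≤ W ^ 12 * W ^ 24 :=
          Nat.mul_le_mul hN.le (Nat.pow_le_pow_right W1 (by omega))
      _ = W ^ 36 := by rw [← pow_add]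
  have h2 : (rn + 1) * W ^ 36 ≤ W ^ 37 := by
    rw [pow_succ' W 36]
    exact Nat.mul_le_mul_right _ hr'
  rw [Nat.cast_sub (by nlinarith [Nat.zero_le (P * W ^ (12 * ty)), Nat.zero_le (rp * W ^ 36)])]
  push_cast
  ring

theorem mkP : MkP := by
  have z0 : |(0 : ℤ)| ≤ 2 ^ 100 := by norm_num
  refine ⟨fun ω => ?_, ⟨by simp, fun _ _ => by positivity⟩,
    ⟨by decide +kernel, fun _ _ => by norm_num⟩, ?_⟩
  · refine cut_Sq ω G0 (fun _ => 0) (fun _ => 0) (fun _ => 0) 0 ?_ (fun _ _ => z0)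
      (fun _ _ => z0) (fun _ _ => z0) z0 (by simp)
    have e : G0 = (2 ^ 128) ^ 37 := by
      rw [← pow_mul, ← Nat.one_shiftLeft]
      rfl
    have hz : ((2 ^ 128 : ℕ) : ℤ) = 2 ^ 128 := by norm_num
    rw [e, ← hz]
    generalize 2 ^ 128 = W
    simp
  · intro ω ty P N rp rn p n hty hP hN h1 h2 h
    have hN' : N < (2 ^ 128) ^ 12 := by
      rw [hN.1]
      exact lt_Sq _ n 12 fun i hi => (hN.2 i hi).trans_lt (by norm_num)
    have e := mk_eq_Sq ty P N rp rn hty hN' h2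
    have e1 : (P : ℤ) - N = ∑ i ∈ range 12, ((p i : ℤ) - n i) * (2 ^ 128) ^ i := by
      have hz : ((2 ^ 128 : ℕ) : ℤ) = 2 ^ 128 := by norm_num
      rw [hP.1, hN.1, ← hz]
      generalize 2 ^ 128 = W
      push_cast
      rw [← sum_sub_distrib]
      exact sum_congr rfl fun i _ => by ring
    have b : ∀ u v : ℕ, u ≤ 2 ^ 100 → v ≤ 2 ^ 100 → |(u : ℤ) - v| ≤ 2 ^ 100 := by
      intro u v hu hv
      rw [abs_le]
      constructor <;> omega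
    have b1 : ∀ i, i < 12 → |(p i : ℤ) - n i| ≤ 2 ^ 100 := fun i hi =>
      b _ _ (hP.2 i hi) (hN.2 i hi)
    have b2 := b _ _ h1 h2
    rw [e1] at e
    interval_cases ty
    · refine cut_Sq ω _ (fun i => (p i : ℤ) - n i) (fun _ => 0) (fun _ => 0) ((rp : ℤ) - rn) ?_
        b1 (fun _ _ => z0) (fun _ _ => z0) b2 (by simpa [gv] using h)
      rw [e]
      generalize (2 ^ 128 : ℤ) = W
      simp
    · refine cut_Sq ω _ (fun _ => 0) (fun i => (p i : ℤ) - n i) (fun _ => 0) ((rp : ℤ) - rn) ?_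
        (fun _ _ => z0) b1 (fun _ _ => z0) b2 (by simpa [gv] using h)
      rw [e]
      generalize (2 ^ 128 : ℤ) = W
      simp
    · refine cut_Sq ω _ (fun _ => 0) (fun _ => 0) (fun i => (p i : ℤ) - n i) ((rp : ℤ) - rn) ?_
        (fun _ _ => z0) (fun _ _ => z0) b1 b2 (by simpa [gv] using h)
      rw [e]
      generalize (2 ^ 128 : ℤ) = W
      simp

end Pool.Agent.MP_2877d0_al.T
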