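import Pool.Agent.MP_2877d0_al.T.St
namespace Pool.Agent.MP_2877d0_al.T
open Matrix Finset

def lo_TabE : ℕ := 1371422221714331984900963014590074007
def hi_TabE : ℕ := 1371422221714331984900963014590074008
def den_TabE : ℕ := 1329227995784915872903807060280344576

def ok_TabE (t a b : ℕ) : Bool :=
  Nat.ble (t * hi_TabE ^ b * den_TabE ^ a)
      (2 ^ 48 * lo_TabE ^ a * den_TabE ^ b + hi_TabE ^ b * den_TabE ^ a) &&
    Nat.ble (2 ^ 48 * hi_TabE ^ a * den_TabE ^ b) ((t + 1) * lo_TabE ^ b * den_TabE ^ a)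

def row_TabE (k : ℕ) : Bool :=
  ok_TabE (tX k) k 384 && ok_TabE (tY k) 384 k && Nat.ble (2 ^ 30) (tX k) &&
    Nat.ble (tX k) (2 ^ 54) && Nat.ble (2 ^ 30) (tY k) && Nat.ble (tY k) (2 ^ 66)

lemma all_TabE : (List.range 513).all row_TabE = true := by decide +kernel

lemma exp_TabE : (lo_TabE : ℝ) / den_TabE ≤ Real.exp (1 / 32) ∧
    Real.exp (1 / 32) ≤ (hi_TabE : ℝ) / den_TabE := by
  have h := abs_le.1 (Real.exp_bound (x := 1 / 32) (by norm_num [abs_of_pos]) (n := 16) (by norm_num))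
  rw [abs_of_pos (by norm_num)] at h
  simp only [Finset.sum_range_succ, Finset.sum_range_zero, Nat.factorial] at h
  unfold lo_TabE hi_TabE den_TabE
  norm_num at h ⊢
  constructor <;> linarith [h.1, h.2]

lemma key_TabE {t a b : ℕ} (h : ok_TabE t a b = true) :
    |(t : ℝ) - 2 ^ 48 * Real.exp ((a : ℝ) / 32 - (b : ℝ) / 32)| ≤ 1 := by
  simp only [ok_TabE, Bool.and_eq_true, Nat.ble_eq] at h
  have h1 : (t : ℝ) * hi_TabE ^ b * den_TabE ^ a ≤
      2 ^ 48 * lo_TabE ^ a * den_TabE ^ b + hi_TabE ^ b * den_TabE ^ a := by exact_mod_cast h.1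
  have h2 : (2 : ℝ) ^ 48 * hi_TabE ^ a * den_TabE ^ b ≤ (t + 1) * lo_TabE ^ b * den_TabE ^ a := by
    exact_mod_cast h.2
  obtain ⟨e1, e2⟩ := exp_TabE
  have l0 : (0 : ℝ) < lo_TabE := Nat.cast_pos.2 (by decide)
  have h0 : (0 : ℝ) < hi_TabE := Nat.cast_pos.2 (by decide)
  have d0 : (0 : ℝ) < den_TabE := Nat.cast_pos.2 (by decide)
  have E0 := Real.exp_pos (1 / 32)
  rw [Real.exp_sub, ← mul_one_div (a : ℝ), ← mul_one_div (b : ℝ), Real.exp_nat_mul,
    Real.exp_nat_mul]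
  generalize Real.exp (1 / 32) = E at *
  generalize (lo_TabE : ℝ) = l at *
  generalize (hi_TabE : ℝ) = u at *
  generalize (den_TabE : ℝ) = d at *
  have b1 : (l / d) ^ a / (u / d) ^ b ≤ E ^ a / E ^ b := by gcongr
  have b2 : E ^ a / E ^ b ≤ (u / d) ^ a / (l / d) ^ b := by gcongr
  have b3 : (t : ℝ) - 1 ≤ 2 ^ 48 * ((l / d) ^ a / (u / d) ^ b) := by
    rw [div_pow, div_pow, div_div_div_eq, ← mul_div_assoc, le_div_iff₀ (by positivity)]
    linarith
  have b4 : 2 ^ 48 * ((u / d) ^ a / (l / d) ^ b) ≤ (t : ℝ) + 1 := by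
    rw [div_pow, div_pow, div_div_div_eq, ← mul_div_assoc, div_le_iff₀ (by positivity)]
    linarith
  rw [abs_le]
  constructor <;> linarith

theorem tabP : TabP := by
  intro k hk
  have h := List.all_eq_true.1 all_TabE k (List.mem_range.2 (by omega))
  simp only [row_TabE, Bool.and_eq_true, Nat.ble_eq] at h
  obtain ⟨⟨⟨⟨⟨h1, h2⟩, h3⟩, h4⟩, h5⟩, h6⟩ := h
  have e : ((384 : ℕ) : ℝ) / 32 = 12 := by norm_num
  exact ⟨e ▸ key_TabE h1, e ▸ key_TabE h2, h3, h4, h5, h6⟩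

end Pool.Agent.MP_2877d0_al.T
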