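import Pool.Agent.MP_2877d0_al.T.St
namespace Pool.Agent.MP_2877d0_al.T
open Matrix Finset

def hj_Td (H j : ℕ) : ℕ :=
  Nat.add (Nat.mod (Nat.shiftRight H (Nat.mul 18 (Nat.mul j (Nat.sub j 1))))
    (Nat.shiftLeft 1 (Nat.mul 36 j))) (Nat.shiftLeft 34628173824 (Nat.mul 36 j))

noncomputable def dd_Td (F : List ℕ) (H j i : ℕ) : ℕ := dg 192 (c36 F (hj_Td H j)) i / 2 ^ 68

noncomputable def ff_Td (F : List ℕ) (H j i : ℕ) : ℤ := (dd_Td F H j i : ℤ) - 2 ^ 122

theorem shift_Td (H j t : ℕ) : hj_Td H j >>> (36 * (j + t)) = 34628173824 / 2 ^ (36 * t) := by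
  have e : hj_Td H j = H >>> (18 * (j * (j - 1))) % 2 ^ (36 * j) + 34628173824 * 2 ^ (36 * j) := by
    show H >>> (18 * (j * (j - 1))) % (1 <<< (36 * j)) + 34628173824 <<< (36 * j) = _
    rw [Nat.shiftLeft_eq, Nat.shiftLeft_eq, one_mul]
  have hp : 0 < 2 ^ (36 * j) := Nat.two_pow_pos _
  rw [e, Nat.shiftRight_eq_div_pow _ (36 * (j + t)), mul_add, pow_add, ← Nat.div_div_eq_div_mul,
    Nat.add_mul_div_right _ _ hp, Nat.div_eq_of_lt (Nat.mod_lt _ hp), zero_add]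

theorem zero_Td (H : ℕ) {j l : ℕ} (h : j < l) : hj_Td H j >>> (36 * l) = 0 := by
  obtain ⟨t, rfl⟩ : ∃ t, l = j + (t + 1) := ⟨l - j - 1, by omega⟩
  rw [shift_Td]
  exact Nat.div_eq_of_lt (lt_of_lt_of_le (by norm_num : 34628173824 < 2 ^ 36)
    (Nat.pow_le_pow_right two_pos (by omega)))

theorem diag_Td (H j : ℕ) : lam 36 (hj_Td H j) j = 2 ^ 28 := by
  have h := shift_Td H j 0
  rw [add_zero, mul_zero, pow_zero, Nat.div_one] at h
  unfold lam
  rw [h]
  norm_num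

theorem zip_Td (φ : ℕ → ℕ → ℕ) (ρ : List ℕ) (g : ℕ → ℕ) (h : ρ.length = 12) :
    (List.zipWith φ ρ ((List.range 12).map g)).length = 12 ∧ ∀ i, i < 12 →
      (List.zipWith φ ρ ((List.range 12).map g)).getD i 0 = φ (ρ.getD i 0) (g i) := by
  have hl : (List.zipWith φ ρ ((List.range 12).map g)).length = 12 := by
    rw [List.length_zipWith, List.length_map, List.length_range, h, min_self]
  refine ⟨hl, fun i hi => ?_⟩
  rw [List.getD_eq_getElem _ _ (by omega), List.getD_eq_getElem _ _ (by omega),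
    List.getElem_zipWith, List.getElem_map, List.getElem_range]

theorem err_Td {d : ℕ} {x : ℝ} (h : |(d : ℝ) - 2 ^ 190 - 2 ^ 124 * x| ≤ ((2 ^ 69 : ℕ) : ℝ)) :
    |2 ^ 56 * x - ((((d / 2 ^ 68 : ℕ) : ℤ) - 2 ^ 122 : ℤ) : ℝ)| ≤ 3 := by
  have h1 := Nat.div_add_mod d (2 ^ 68)
  have h2 : d % 2 ^ 68 < 2 ^ 68 := Nat.mod_lt _ (Nat.two_pow_pos _)
  generalize d / 2 ^ 68 = q at *
  generalize d % 2 ^ 68 = r at *
  have h3 : (d : ℝ) = 2 ^ 68 * q + r := by exact_mod_cast h1.symm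
  have h4 : (r : ℝ) < 2 ^ 68 := by exact_mod_cast h2
  have h5 : (0 : ℝ) ≤ r := Nat.cast_nonneg r
  rw [h3, abs_le] at h
  push_cast at h ⊢
  rw [abs_le]
  constructor <;> linarith [h.1, h.2]

theorem tdP (hB : BasP) (hA : ApBP) : TdP := by
  intro F ρ x n H k hn hF hk hρ hok
  obtain ⟨b1, -, b3, -, b5, -, -, -, b9, b10, b11, b12, b13, -, -, b16, -⟩ := hB
  have eD : ∀ j, tD F H j = (List.range 12).map (dd_Td F H j) := fun j => by
    show mapR (fun d => d >>> 68) (d192 (c36 F (hj_Td H j))) = _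
    rw [b9, b16, List.map_map]
    exact List.map_congr_left fun i _ => Nat.shiftRight_eq_div_pow _ _
  have eab : ∀ j i, ab 5316911983139663491615228241121378304 (dd_Td F H j i) =
      (ff_Td F H j i).natAbs := fun j i => by
    have h1 := b5 5316911983139663491615228241121378304 (dd_Td F H j i)
    have h2 : ((5316911983139663491615228241121378304 : ℕ) : ℤ) = 2 ^ 122 := by norm_num
    rw [h2, ← Int.natCast_natAbs] at h1
    exact_mod_cast h1
  have eG : ∀ j, (tG ρ F H j).length = 12 ∧ ∀ i, i < 12 →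
      (tG ρ F H j).getD i 0 = ρ.getD i 0 * (ff_Td F H j i).natAbs ^ 2 := fun j => by
    unfold tG
    rw [b11, eD]
    refine ⟨(zip_Td _ ρ _ hρ).1, fun i hi => ?_⟩
    rw [(zip_Td _ ρ _ hρ).2 i hi, eab, sq]
    rfl
  have eR : ∀ j, (tR ρ F H j).length = 12 ∧ ∀ i, i < 12 →
      (tR ρ F H j).getD i 0 = ρ.getD i 0 * dd_Td F H j i := fun j => by
    unfold tR
    rw [b11, eD]
    exact zip_Td _ ρ _ hρ
  have eS : ∀ j, tS ρ F H j = ∑ i ∈ range 12, ρ.getD i 0 * (ff_Td F H j i).natAbs ^ 2 := fun j => by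
    unfold tS
    rw [b10, (eG j).1]
    exact sum_congr rfl fun i hi => (eG j).2 i (mem_range.1 hi)
  have eE : ∀ j l, (tE ρ F H j l : ℤ) =
      |∑ i ∈ range 12, (ρ.getD i 0 : ℤ) * ff_Td F H j i * ff_Td F H l i| := fun j l => by
    have h1 : ∀ j, sumL (tR ρ F H j) = ∑ i ∈ range 12, ρ.getD i 0 * dd_Td F H j i := fun j => by
      rw [b10, (eR j).1]
      exact sum_congr rfl fun i hi => (eR j).2 i (mem_range.1 hi)
    have h2 : zs (tR ρ F H j) (tD F H l) =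
        ∑ i ∈ range 12, ρ.getD i 0 * dd_Td F H j i * dd_Td F H l i := by
      rw [b12 _ _ (by rw [(eR j).1, eD, List.length_map, List.length_range]), (eR j).1]
      refine sum_congr rfl fun i hi => ?_
      have hi' := mem_range.1 hi
      rw [(eR j).2 i hi', eD, List.getD_eq_getElem ((List.range 12).map _) _ (by simpa using hi'),
        List.getElem_map, List.getElem_range]
    show ((ab ((sumL (tR ρ F H j) + sumL (tR ρ F H l)) <<< 122)
      (zs (tR ρ F H j) (tD F H l) + sumL ρ <<< 244) : ℕ) : ℤ) = _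
    rw [b5, h1, h1, h2, b10, hρ, Nat.shiftLeft_eq, Nat.shiftLeft_eq]
    congr 1
    simp only [Nat.cast_add, Nat.cast_mul, Nat.cast_sum, Nat.cast_pow, Nat.cast_ofNat, add_mul,
      sum_mul, ← sum_add_distrib, ← sum_sub_distrib]
    refine sum_congr rfl fun i _ => ?_
    unfold ff_Td
    ring
  have eT : ∀ k, tTau ρ F H k = ∑ i ∈ range 12, (∑ j ∈ range k,
      ρ.getD i 0 * (ff_Td F H j i).natAbs ^ 2 * 2 ^ 36 / tS ρ F H j) * (2 ^ 128) ^ i := fun k => by
    induction k with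
    | zero => simp only [range_zero, sum_empty, zero_mul, sum_const_zero]; rfl
    | succ k ih =>
      show tTau ρ F H k + pk (fun g => g <<< 36 / tS ρ F H k) (tG ρ F H k) = _
      rw [ih, b13, (eG k).1, ← sum_add_distrib]
      refine sum_congr rfl fun i hi => ?_
      rw [sum_range_succ _ k, add_mul, (eG k).2 i (mem_range.1 hi), Nat.shiftLeft_eq]
  have hb : ∀ i, i < 12 → ∑ j ∈ range k,
      ρ.getD i 0 * (ff_Td F H j i).natAbs ^ 2 * 2 ^ 36 / tS ρ F H j ≤ 12 * 2 ^ 36 := fun i hi => by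
    refine (sum_le_card_nsmul _ _ (2 ^ 36) fun j _ => ?_).trans ?_
    · refine Nat.div_le_of_le_mul (Nat.mul_le_mul_right _ ?_)
      rw [eS]
      exact single_le_sum (f := fun i => ρ.getD i 0 * (ff_Td F H j i).natAbs ^ 2)
        (fun _ _ => Nat.zero_le _) (mem_range.2 hi)
    · rw [card_range, smul_eq_mul]
      exact Nat.mul_le_mul_right _ (hk.trans hn)
  have hok' : ∀ j, j < k → 2 ^ 154 ≤ tS ρ F H j ∧ tS ρ F H j ≤ 2 ^ 166 ∧ ∀ l, l < j →
      tE ρ F H j l * tE ρ F H j l * 2 ^ 48 ≤ tS ρ F H j * tS ρ F H l := fun j hj => by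
    have h1 := (b3 _ _).1 hok j hj
    rw [b1, b1, b3, Nat.ble_eq, Nat.ble_eq] at h1
    refine ⟨le_of_eq_of_le (by norm_num) h1.1, h1.2.1.trans_eq (by norm_num), fun l hl => ?_⟩
    have h2 := Nat.ble_eq.mp (h1.2.2 l hl)
    rw [← Nat.shiftLeft_eq]
    exact h2
  refine ⟨fun j l => (lam 36 (hj_Td H j) l : ℝ) / 2 ^ 28, ff_Td F H, fun j => ?_, fun j l h => ?_,
    fun j hj i => ?_, fun j hj => ⟨eS j, (hok' j hj).1, (hok' j hj).2.1⟩, fun j hj l hl => ?_,
    ⟨eT k, fun i hi => (hb i hi).trans (by norm_num)⟩, hb⟩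
  · beta_reduce
    rw [diag_Td]
    norm_num
  · beta_reduce
    unfold lam
    rw [if_pos (zero_Td H h)]
    simp
  · exact err_Td (hA.2.2 F x n (hj_Td H j) hn hF (zero_Td H (hj.trans_le hk)) i).1
  · have h1 : ((tE ρ F H j l * tE ρ F H j l * 2 ^ 48 : ℕ) : ℤ) ≤
        ((tS ρ F H j * tS ρ F H l : ℕ) : ℤ) := Int.ofNat_le.2 ((hok' j hj).2.2 l hl)
    rw [Nat.cast_mul, Nat.cast_mul, Nat.cast_mul, eE, abs_mul_abs_self, ← sq, Nat.cast_pow,
      Nat.cast_ofNat] at h1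
    exact h1

end Pool.Agent.MP_2877d0_al.T
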