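import Pool.Agent.MP_2877d0_al.T.St
namespace Pool.Agent.MP_2877d0_al.T
open Matrix Finset

theorem prod_Th (x : ℝ) (n : ℕ) : ∀ k, ch x (k + 2 * n) + ch x k = ch x (k + n) * ch x n := by
  induction n using Nat.twoStepInduction with
  | zero => intro k; simp only [ch, mul_zero, add_zero]; ring
  | one => intro k; simp only [ch]; ring
  | more n h0 h1 =>
    intro k
    have a := h1 (k + 1)
    have b := h0 (k + 2)
    rw [show k + 1 + 2 * (n + 1) = k + 2 * n + 2 + 1 by ring,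
      show k + 1 + (n + 1) = k + (n + 2) by ring] at a
    rw [show k + 2 + 2 * n = k + 2 * n + 2 by ring, show k + 2 + n = k + (n + 2) by ring] at b
    have c : ch x (k + 2 * n + 2 + 2) = x * ch x (k + 2 * n + 2 + 1) - ch x (k + 2 * n + 2) := rfl
    have d : ch x (k + 2) = x * ch x (k + 1) - ch x k := rfl
    have e : ch x (n + 2) = x * ch x (n + 1) - ch x n := rfl
    rw [show k + 2 * (n + 2) = k + 2 * n + 2 + 2 by ring, c, e]
    linear_combination x * a - b + d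

theorem dbl_Th (x : ℝ) (n : ℕ) : ch x (2 ^ (n + 1)) = ch x (2 ^ n) ^ 2 - 2 := by
  have a := prod_Th x (2 ^ n) 0
  rw [zero_add, zero_add, ← pow_succ'] at a
  have b : ch x 0 = 2 := rfl
  linear_combination a - b

theorem per_Th {x : ℝ} (h : ch x 12 = ch x 9 - ch x 3 + 1) (k m : ℕ) :
    ch x (k + 45 * m) = ch x k := by
  have r : ∀ k, ch x (k + 24) - ch x (k + 21) + ch x (k + 15) - ch x (k + 12) + ch x (k + 9) -
      ch x (k + 3) + ch x k = 0 := fun k => by
    have a := prod_Th x 12 k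
    have b := prod_Th x 9 (k + 3)
    have c := prod_Th x 3 (k + 9)
    simp only [add_assoc, Nat.reduceMul, Nat.reduceAdd] at a b c
    linear_combination a - b + c + ch x (k + 12) * h
  have s : ∀ k, ch x (k + 45) = ch x k := fun k => by
    have a := r (k + 21)
    have b := r (k + 18)
    have c := r (k + 15)
    have d := r (k + 6)
    have e := r (k + 3)
    simp only [add_assoc, Nat.reduceAdd] at a b c d e
    linear_combination a + b + c - d - e - r k
  induction m with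
  | zero => rfl
  | succ m ih => rw [mul_add, mul_one, ← add_assoc, s, ih]

/-- the minimal polynomial -/
def f_Th (x : ℝ) : ℝ := x ^ 12 - 12 * x ^ 10 - x ^ 9 + 54 * x ^ 8 + 9 * x ^ 7 - 112 * x ^ 6 -
  27 * x ^ 5 + 105 * x ^ 4 + 31 * x ^ 3 - 36 * x ^ 2 - 12 * x + 1

theorem f_eq_Th (x : ℝ) : ch x 12 = ch x 9 - ch x 3 + 1 ↔ f_Th x = 0 := by
  have : f_Th x = ch x 12 - (ch x 9 - ch x 3 + 1) := by
    simp only [ch, f_Th]
    ring
  rw [this, sub_eq_zero]

theorem f_sq_Th (x : ℝ) : f_Th (x ^ 2 - 2) = f_Th x * f_Th (-x) := by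
  unfold f_Th
  ring

/-- the approximations -/
def T_Th : ℕ → ℤ
  | 0 => 12432026825591455809320084654817977658820345959431774970176
  | n + 1 => T_Th n ^ 2 / 2 ^ 192 - 2 * 2 ^ 192

theorem ex_Th : ∃ x : ℝ, f_Th x = 0 ∧ |2 ^ 192 * x - T_Th 0| ≤ 1 ∧ |x| ≤ 2 := by
  have hc : Continuous f_Th := by unfold f_Th; fun_prop
  obtain ⟨x, ⟨h1, h2⟩, h⟩ := intermediate_value_Icc
    (a := (12432026825591455809320084654817977658820345959431774970175 / 2 ^ 192 : ℝ))
    (b := 12432026825591455809320084654817977658820345959431774970177 / 2 ^ 192) (by norm_num)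
    hc.continuousOn (show (0 : ℝ) ∈ _ from ⟨by norm_num [f_Th], by norm_num [f_Th]⟩)
  rw [div_le_iff₀ (by positivity)] at h1
  rw [le_div_iff₀ (by positivity)] at h2
  refine ⟨x, h, ?_, ?_⟩
  · simp only [T_Th, Int.cast_ofNat]
    exact abs_le.2 ⟨by linarith, by linarith⟩
  · norm_num at h1 h2
    exact abs_le.2 ⟨by linarith, by linarith⟩

theorem step_Th {S : ℤ} (hS : 0 < S) {x e : ℝ} {t : ℤ} (hx : |x| ≤ 2) (h : |S * x - t| ≤ e)
    (h1 : 1 ≤ e) (h2 : e ≤ S) : |S * (x ^ 2 - 2) - (t ^ 2 / S - 2 * S : ℤ)| ≤ e * 6 := by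
  have hS' : (0 : ℝ) < S := by exact_mod_cast hS
  have a : ((S * (t ^ 2 / S) + t ^ 2 % S : ℤ) : ℝ) = (t ^ 2 : ℤ) := by rw [Int.mul_ediv_add_emod]
  have b : (0 : ℝ) ≤ (t ^ 2 % S : ℤ) := by exact_mod_cast Int.emod_nonneg _ hS.ne'
  have c : ((t ^ 2 % S : ℤ) : ℝ) < S := by exact_mod_cast Int.emod_lt_of_pos _ hS
  have d : |S * x + t| ≤ 5 * S := by
    have := abs_le.1 h
    have k := abs_le.1 hx
    exact abs_le.2 ⟨by nlinarith, by nlinarith⟩
  have g : |(S * x - t) * (S * x + t)| ≤ e * (5 * S) := by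
    rw [abs_mul]
    exact mul_le_mul h d (abs_nonneg _) (by linarith)
  rw [Int.cast_add, Int.cast_mul, Int.cast_pow] at a
  rw [Int.cast_sub, Int.cast_mul, Int.cast_ofNat]
  generalize ((t ^ 2 / S : ℤ) : ℝ) = q at *
  generalize ((t ^ 2 % S : ℤ) : ℝ) = r at *
  refine le_of_mul_le_mul_left ?_ hS'
  rw [← abs_of_pos hS', ← abs_mul, abs_of_pos hS',
    show S * (S * (x ^ 2 - 2) - (q - 2 * S)) = (S * x - t) * (S * x + t) + r by
      linear_combination -a]
  have := abs_le.1 g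
  exact abs_le.2 ⟨by nlinarith, by nlinarith⟩

theorem chk_Th : ∀ i : Fin 12, |T_Th i - 2 ^ 64 * thI.getD i 0| ≤ 2 ^ 65 := by decide +kernel

theorem thP : ThP := by
  obtain ⟨x, h0, h1, h2⟩ := ex_Th
  have k : ∀ n, f_Th (ch x (2 ^ n)) = 0 ∧ |ch x (2 ^ n)| ≤ 2 ∧
      (n ≤ 12 → |(2 ^ 192 : ℤ) * ch x (2 ^ n) - T_Th n| ≤ 6 ^ n) := fun n => by
    induction n with
    | zero => exact ⟨h0, h2, fun _ => by
        rw [Int.cast_pow, Int.cast_ofNat, pow_zero (6 : ℝ)]
        exact h1⟩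
    | succ n ih =>
      obtain ⟨a, b, c⟩ := ih
      rw [dbl_Th, f_sq_Th, a, zero_mul, pow_succ (6 : ℝ)]
      refine ⟨rfl, ?_, fun hn => step_Th (by positivity) b (c (by omega))
        (one_le_pow₀ (by norm_num)) ((pow_le_pow_right₀ (by norm_num) (by omega : n ≤ 12)).trans
          (by norm_num))⟩
      have := abs_le.1 b
      exact abs_le.2 ⟨by nlinarith [sq_nonneg (ch x (2 ^ n))], by nlinarith⟩
  refine ⟨fun i => ch x (2 ^ i.val), fun i => (f_eq_Th _).2 (k i).1, fun i => ?_, fun i => ?_⟩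
  · rw [← dbl_Th]
    show ch x (2 ^ ((i.val + 1) % 12)) = _
    by_cases h : i.val + 1 < 12
    · rw [Nat.mod_eq_of_lt h]
    · rw [show i.val + 1 = 12 by omega]
      exact (per_Th ((f_eq_Th x).2 h0) 1 91).symm
  · have a := abs_le.1 ((k i).2.2 (by omega))
    have b : |(T_Th i : ℝ) - 2 ^ 64 * (thI.getD i 0 : ℤ)| ≤ 2 ^ 65 := by exact_mod_cast chk_Th i
    have c : (6 : ℝ) ^ i.val ≤ 6 ^ 12 := pow_le_pow_right₀ (by norm_num) (by omega)
    have d := abs_le.1 b
    generalize ((thI.getD i 0 : ℤ) : ℝ) = u at *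
    push_cast at a
    norm_num at a c d ⊢
    exact abs_le.2 ⟨by linarith [a.1, d.1], by linarith [a.2, d.2]⟩

end Pool.Agent.MP_2877d0_al.T
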