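import Pool.Agent.MP_2877d0_al.T.Math

namespace Pool.Agent.MP_2877d0_al.T
open Matrix Finset

lemma diag_Tlem {k : ℕ} (A : Matrix (Fin k) (Fin k) ℝ) (hA : A.IsHermitian) :
    ∃ P : Matrix (Fin k) (Fin k) ℝ, Pᵀ * P = 1 ∧ P * Pᵀ = 1 ∧
      A.det = ∏ m, (Pᵀ * A * P) m m := by
  have h1 : star (hA.eigenvectorUnitary : Matrix (Fin k) (Fin k) ℝ) =
      (hA.eigenvectorUnitary : Matrix (Fin k) (Fin k) ℝ)ᵀ := by
    ext i j
    simp [Matrix.star_apply]
  refine ⟨hA.eigenvectorUnitary, ?_, ?_, ?_⟩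
  · rw [← h1]; exact Unitary.coe_star_mul_self _
  · rw [← h1]; exact Unitary.coe_mul_star_self _
  · have h2 := hA.conjStarAlgAut_star_eigenvectorUnitary
    rw [Unitary.conjStarAlgAut_star_apply, h1] at h2
    rw [h2, hA.det_eq_prod_eigenvalues]
    simp

lemma jensen_Tlem (ω ρ y : Vec) (R η : ℝ) (hω : ∀ i, 0 < ω i) (hρ : ∀ i, 0 < ρ i)
    (hn : |Qf ρ y - 1| ≤ η) (hη : η ≤ 1 / 2)
    (hR : ∀ i, |Real.log (ω i) - Real.log (ρ i)| ≤ R) :
    0 < Qf ω y ∧ ∑ i, ρ i * y i ^ 2 * (Real.log (ω i) - Real.log (ρ i)) - η * (R + 2) ≤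
      Real.log (Qf ω y) := by
  set n := Qf ρ y with hnd
  set S := ∑ i, ρ i * y i ^ 2 * (Real.log (ω i) - Real.log (ρ i)) with hS
  obtain ⟨hn1, hn2⟩ := abs_le.mp hn
  have hη0 : 0 ≤ η := (abs_nonneg _).trans hn
  have hnp : 0 < n := by linarith
  have hw : ∀ i, 0 ≤ ρ i * y i ^ 2 := fun i => mul_nonneg (hρ i).le (sq_nonneg _)
  set μ := S / n with hμ
  have hSn : S = μ * n := by rw [hμ]; field_simp
  have hSR : |S| ≤ R * n := by
    calc |S| ≤ ∑ i, |ρ i * y i ^ 2 * (Real.log (ω i) - Real.log (ρ i))| :=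
          Finset.abs_sum_le_sum_abs _ _
      _ ≤ ∑ i, R * (ρ i * y i ^ 2) := by
          refine Finset.sum_le_sum fun i _ => ?_
          rw [abs_mul, abs_of_nonneg (hw i), mul_comm]
          exact mul_le_mul_of_nonneg_right (hR i) (hw i)
      _ = R * n := by rw [← Finset.mul_sum, hnd, Qf]
  have hμR : |μ| ≤ R := by
    rw [hμ, abs_div, abs_of_pos hnp, div_le_iff₀ hnp]; exact hSR
  have hlow : n * Real.exp μ ≤ Qf ω y := by
    have e1 : n * Real.exp μ = ∑ i, Real.exp μ *
        (ρ i * y i ^ 2 * ((Real.log (ω i) - Real.log (ρ i)) - μ + 1)) := by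
      rw [← Finset.mul_sum]
      have : ∑ i, ρ i * y i ^ 2 * ((Real.log (ω i) - Real.log (ρ i)) - μ + 1) =
          S + (1 - μ) * n := by
        rw [hS, hnd, Qf, Finset.mul_sum, ← Finset.sum_add_distrib]
        exact Finset.sum_congr rfl fun i _ => by ring
      rw [this, hSn]; ring
    rw [e1, Qf]
    refine Finset.sum_le_sum fun i _ => ?_
    have h1 := Real.add_one_le_exp ((Real.log (ω i) - Real.log (ρ i)) - μ)
    have h2 : ω i = ρ i * (Real.exp μ * Real.exp ((Real.log (ω i) - Real.log (ρ i)) - μ)) := by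
      rw [← Real.exp_add, add_sub_cancel, Real.exp_sub, Real.exp_log (hω i), Real.exp_log (hρ i)]
      field_simp [(hρ i).ne']
    have h3 := mul_le_mul_of_nonneg_left h1 (mul_nonneg (Real.exp_pos μ).le (hw i))
    calc _ = Real.exp μ * (ρ i * y i ^ 2) * ((Real.log (ω i) - Real.log (ρ i)) - μ + 1) := by ring
      _ ≤ _ := h3
      _ = ρ i * (Real.exp μ * Real.exp ((Real.log (ω i) - Real.log (ρ i)) - μ)) * y i ^ 2 := by
          ring
      _ = _ := by rw [← h2]
  have hpos : 0 < n * Real.exp μ := mul_pos hnp (Real.exp_pos μ)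
  refine ⟨hpos.trans_le hlow, ?_⟩
  have hl := Real.log_le_log hpos hlow
  rw [Real.log_mul hnp.ne' (Real.exp_pos μ).ne', Real.log_exp] at hl
  have h4 := Real.one_sub_inv_le_log_of_pos hnp
  have h5 : n⁻¹ ≤ 1 + 2 * η := by
    rw [inv_le_iff_one_le_mul₀ hnp]
    nlinarith
  have h6 : (n - 1) * μ ≤ η * R := by
    calc (n - 1) * μ ≤ |(n - 1) * μ| := le_abs_self _
      _ = |n - 1| * |μ| := abs_mul _ _
      _ ≤ η * R := mul_le_mul hn hμR (abs_nonneg _) hη0
  rw [hSn]
  nlinarith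

lemma qf_comb_Tlem {k : ℕ} (w : Vec) (G : Fin k → Vec) (p : Fin k → ℝ) :
    Qf w (fun i => ∑ j, p j * G j i) = ∑ j, ∑ l, p j * p l * Ip w (G j) (G l) := by
  simp only [Qf, Ip, sq, Finset.sum_mul_sum]
  simp only [Finset.mul_sum]
  rw [Finset.sum_comm]
  refine Finset.sum_congr rfl fun j _ => ?_
  rw [Finset.sum_comm]
  refine Finset.sum_congr rfl fun l _ => Finset.sum_congr rfl fun i _ => by ring

lemma near_Tlem {k : ℕ} (B : Fin k → Fin k → ℝ) (p : Fin k → ℝ) (ε : ℝ) (hε : 0 ≤ ε)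
    (hp : ∑ j, p j * p j = 1) (hd : ∀ j, B j j = 1) (ho : ∀ j l, j ≠ l → |B j l| ≤ ε) :
    |∑ j, ∑ l, p j * p l * B j l - 1| ≤ k * ε := by
  have e1 : ∑ j, ∑ l, p j * p l * B j l - 1 =
      ∑ j, ∑ l, p j * p l * (B j l - if j = l then 1 else 0) := by
    simp only [mul_sub, Finset.sum_sub_distrib, mul_ite, mul_one, mul_zero, Finset.sum_ite_eq,
      Finset.mem_univ, if_true, hp]
  rw [e1]
  calc _ ≤ ∑ j, |∑ l, p j * p l * (B j l - if j = l then 1 else 0)| :=
        Finset.abs_sum_le_sum_abs _ _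
    _ ≤ ∑ j, ∑ l, (p j * p j + p l * p l) / 2 * ε := by
        refine Finset.sum_le_sum fun j _ => (Finset.abs_sum_le_sum_abs _ _).trans ?_
        refine Finset.sum_le_sum fun l _ => ?_
        rw [abs_mul]
        refine mul_le_mul ?_ ?_ (abs_nonneg _)
          (by nlinarith [mul_self_nonneg (p j), mul_self_nonneg (p l)])
        · rw [abs_le]
          constructor
          · nlinarith [sq_nonneg (p j + p l)]
          · nlinarith [sq_nonneg (p j - p l)]
        · by_cases h : j = l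
          · subst h; simp [hd, hε]
          · simpa [h] using ho j l h
    _ = k * ε := by
        have e2 : ∀ j, ∑ l, (p j * p j + p l * p l) / 2 * ε =
            k * ε / 2 * (p j * p j) + ε / 2 := by
          intro j
          rw [← Finset.sum_mul, ← Finset.sum_div, Finset.sum_add_distrib, hp]
          simp only [Finset.sum_const, Finset.card_univ, Fintype.card_fin, nsmul_eq_mul]
          ring
        rw [Finset.sum_congr rfl fun j _ => e2 j, Finset.sum_add_distrib, ← Finset.mul_sum, hp]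
        simp only [Finset.sum_const, Finset.card_univ, Fintype.card_fin, nsmul_eq_mul]
        ring

theorem tlemP : TlemP := by
  intro k F ω ρ ε R hω hρ hdet hD hε hk hoff hR
  have hD' : ∀ j : Fin k, 0 < Qf ρ (F j) := fun j => hD j j.2
  set d : Fin k → ℝ := fun j => (√(Qf ρ (F j)))⁻¹ with hd
  have hdd : ∀ j, d j * d j = (Qf ρ (F j))⁻¹ := fun j => by
    rw [hd]; simp only; rw [← mul_inv, Real.mul_self_sqrt (hD' j).le]
  set G : Fin k → Vec := fun j i => d j * F j i with hG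
  have hIp : ∀ (w : Vec) (j l : Fin k), Ip w (G j) (G l) = d j * Ip w (F j) (F l) * d l := by
    intro w j l
    simp only [Ip, hG, Finset.mul_sum, Finset.sum_mul]
    exact Finset.sum_congr rfl fun i _ => by ring
  have hsym : ∀ (w x y : Vec), Ip w x y = Ip w y x := fun w x y =>
    Finset.sum_congr rfl fun i _ => by ring
  set A : Matrix (Fin k) (Fin k) ℝ := Matrix.of fun j l => Ip ω (G j) (G l) with hA
  have hAH : A.IsHermitian := by
    ext i j
    simp [hA, hsym ω (G j) (G i)]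
  have hAdet : A.det = ∏ j : Fin k, (Qf ρ (F j))⁻¹ := by
    have : A = diagonal d * (Matrix.of fun j l : Fin k => Ip ω (F j) (F l)) * diagonal d := by
      ext j l
      simp [hA, hIp]
    rw [this, det_mul, det_mul, hdet, det_diagonal, mul_one, ← Finset.prod_mul_distrib]
    exact Finset.prod_congr rfl fun j _ => hdd j
  obtain ⟨P, hP1, hP2, hPd⟩ := diag_Tlem A hAH
  set y : Fin k → Vec := fun m i => ∑ j, P j m * G j i with hy
  have hlam : ∀ m, (Pᵀ * A * P) m m = Qf ω (y m) := by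
    intro m
    rw [hy, qf_comb_Tlem]
    simp only [Matrix.mul_apply, transpose_apply, hA, of_apply, Finset.sum_mul]
    rw [Finset.sum_comm]
    exact Finset.sum_congr rfl fun j _ => Finset.sum_congr rfl fun l _ => by ring
  have hB : ∀ j l : Fin k, l < j → |Ip ρ (G j) (G l)| ≤ ε := by
    intro j l h
    refine abs_le_of_sq_le_sq' ?_ hε |> abs_le.mpr
    have h1 := hoff j j.2 l h
    have e : Ip ρ (G j) (G l) ^ 2 =
        Ip ρ (F j) (F l) ^ 2 / (Qf ρ (F j) * Qf ρ (F l)) := by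
      rw [hIp, div_eq_mul_inv, mul_inv, ← hdd, ← hdd]; ring
    rw [e, div_le_iff₀ (mul_pos (hD' j) (hD' l))]
    exact h1
  have hn : ∀ m, |Qf ρ (y m) - 1| ≤ k * ε := by
    intro m
    rw [hy, qf_comb_Tlem]
    refine near_Tlem (fun j l => Ip ρ (G j) (G l)) (fun j => P j m) ε hε ?_ ?_ ?_
    · have := congrFun (congrFun hP1 m) m
      simpa [Matrix.mul_apply] using this
    · intro j
      have e : Ip ρ (F j) (F j) = Qf ρ (F j) := Finset.sum_congr rfl fun i _ => by ring
      rw [hIp, e, mul_right_comm, hdd, inv_mul_cancel₀ (hD' j).ne']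
    · intro j l h
      rcases lt_or_gt_of_ne h with h | h
      · rw [hsym]; exact hB l j h
      · exact hB j l h
  have hJ := fun m => jensen_Tlem ω ρ (y m) R (k * ε) hω hρ (hn m) hk hR
  have hlog : ∑ m, Real.log (Qf ω (y m)) = -∑ j ∈ range k, Real.log (Qf ρ (F j)) := by
    rw [← Real.log_prod fun m _ => (hJ m).1.ne', ← Finset.prod_congr rfl fun m _ => hlam m, ← hPd,
      hAdet, Real.log_prod fun j _ => (inv_pos.mpr (hD' j)).ne', ← Fin.sum_univ_eq_sum_range
        (fun j => Real.log (Qf ρ (F j))) k, ← Finset.sum_neg_distrib]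
    exact Finset.sum_congr rfl fun j _ => Real.log_inv _
  have hsq : ∀ i, ∑ m, ρ i * y m i ^ 2 = ∑ j ∈ range k, ρ i * F j i ^ 2 / Qf ρ (F j) := by
    intro i
    rw [← Fin.sum_univ_eq_sum_range (fun j => ρ i * F j i ^ 2 / Qf ρ (F j)) k, ← Finset.mul_sum]
    have e1 : ∑ m, y m i ^ 2 = ∑ j, ∑ l, G j i * G l i * (P * Pᵀ) j l := by
      simp only [hy, sq, Finset.sum_mul_sum]
      simp only [Matrix.mul_apply, transpose_apply, Finset.mul_sum]
      rw [Finset.sum_comm]
      refine Finset.sum_congr rfl fun j _ => ?_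
      rw [Finset.sum_comm]
      exact Finset.sum_congr rfl fun l _ => Finset.sum_congr rfl fun m _ => by ring
    rw [e1, hP2, Finset.mul_sum]
    refine Finset.sum_congr rfl fun j _ => ?_
    simp only [Matrix.one_apply, mul_ite, mul_one, mul_zero, Finset.sum_ite_eq, Finset.mem_univ,
      if_true, hG]
    rw [div_eq_mul_inv, ← hdd]; ring
  have hs := Finset.sum_le_sum fun m (_ : m ∈ (univ : Finset (Fin k))) => (hJ m).2
  rw [hlog, Finset.sum_sub_distrib, Finset.sum_comm] at hs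
  simp only [← Finset.sum_mul, hsq, Finset.sum_const, Finset.card_univ, Fintype.card_fin,
    nsmul_eq_mul] at hs
  linarith

end Pool.Agent.MP_2877d0_al.T
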