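import Pool.Agent.MP_2877d0_al.T.St
namespace Pool.Agent.MP_2877d0_al.T
open Matrix Finset

theorem lam_Top : ∀ j : Fin 12, lam 16 32769 j = if j = 0 then 1 else 0 := by decide +kernel

theorem rnd_Top (d : ℕ) (x : ℝ) (h : |(d : ℝ) - 2 ^ 190 - 2 ^ 96 * x| ≤ ((2 ^ 19 : ℕ) : ℝ)) :
    |2 ^ 60 * x - ((((d + 2 ^ 35) >>> 36 : ℕ) : ℤ) - 2 ^ 154 : ℤ)| ≤ 1 := by
  rw [Nat.shiftRight_eq_div_pow]
  have h1 : ((d + 2 ^ 35) / 2 ^ 36 * 2 ^ 36 : ℕ) ≤ d + 2 ^ 35 := Nat.div_mul_le_self _ _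
  have h2 : d + 2 ^ 35 < ((d + 2 ^ 35) / 2 ^ 36 + 1) * 2 ^ 36 := by
    rw [← Nat.div_lt_iff_lt_mul (by norm_num)]; exact Nat.lt_succ_self _
  generalize (d + 2 ^ 35) / 2 ^ 36 = q at h1 h2
  have h3 : (q : ℝ) * 2 ^ 36 ≤ d + 2 ^ 35 := by exact_mod_cast h1
  have h4 : (d : ℝ) + 2 ^ 35 < (q + 1) * 2 ^ 36 := by exact_mod_cast h2
  push_cast at h ⊢
  rw [abs_le] at h ⊢
  constructor <;> linarith [h.1, h.2]

theorem mem_Top {ω : Vec} {V V' : Mat} {k : ℕ} (h : Cand (iv ω) V' 0 1 (lam 8 k)) (t : KT)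
    (ht : Leaf k t) : Mem ω V V' 1 0 1 t := by
  induction t with
  | non => trivial
  | leaf j =>
    have e : j = k := ht
    subst e
    exact h
  | node p l r a b => exact Or.imp a b ht

theorem leaf_Top (A B : Bool) (h : orB false (Bool.rec true A B) = true) (e : B = true) :
    A = true := by
  subst e
  exact h

theorem kap_Top (V : Mat) (ξ : ℕ → ℤ) : kap V 0 ξ = cmb (col V) fun j => (ξ j : ℝ) := by
  simp [kap]

theorem sum_Top (hA : ApAP) {L Lo : List ℕ} {V : Mat} {Lp Gp St : ℕ} {ξ : ℕ → ℤ} (hL : LC L V)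
    (hS : StOK L Lo 0 11 Lp Gp ξ St) (h0 : ξ 11 = 0) (h1 : ∑ i, |kap V 0 ξ i| ≤ 1) :
    sumAbs 19807040628566084398385987584 (digs 96 79228162514264337593543950336 12 St) ≤
      1152921504606855424 := by
  have key : ∀ i : Fin 12, ((|((digs 96 79228162514264337593543950336 12 St).getD i 0 : ℤ) -
      (19807040628566084398385987584 : ℕ)| : ℤ) : ℝ) ≤ 2 ^ 60 * |kap V 0 ξ i| + 704 := by
    intro i
    have e1 : ((digs 96 79228162514264337593543950336 12 St).getD i 0 : ℤ) -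
        (19807040628566084398385987584 : ℕ) = ∑ j ∈ range 11, ξ j * entE L Lo 0 Lp Gp (0 + j) i := by
      have := hS.2 i (i.2.trans (by norm_num))
      rw [digs_getD _ _ _ _ _ i.2]
      rw [dg] at this
      norm_num at this ⊢
      linarith
    have e2 : kap V 0 ξ i = ∑ j ∈ range 11, (ξ j : ℝ) * col V j i := by
      rw [kap_Top, cmb, sum_range_succ, h0, Int.cast_zero, zero_mul, add_zero]
    have e3 := digit_err ξ (fun j => entE L Lo 0 Lp Gp (0 + j) i) (fun j => col V j i) (2 ^ 60) 64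
      hS.1 fun j hj => by
        rw [entE, if_pos i.2, zero_add]
        exact rnd_Top _ _ (hA.2.2 _ _ _ _ _ (hL.2 j (by omega)) (by norm_num) i).1
    rw [e1, e2, Int.cast_abs, ← abs_of_pos (show (0 : ℝ) < 2 ^ 60 by norm_num), ← abs_mul]
    have e4 := abs_sub_abs_le_abs_sub ((∑ j ∈ range 11, ξ j * entE L Lo 0 Lp Gp (0 + j) i : ℤ) : ℝ)
      (2 ^ 60 * ∑ j ∈ range 11, (ξ j : ℝ) * col V j i)
    rw [abs_sub_comm] at e4
    norm_num at e3 e4 ⊢
    linarith
  have h2 := sumAbs_eq 19807040628566084398385987584 (digs 96 79228162514264337593543950336 12 St)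
  rw [digs_length, ← Fin.sum_univ_eq_sum_range (fun i => |((digs 96 79228162514264337593543950336
    12 St).getD i 0 : ℤ) - (19807040628566084398385987584 : ℕ)|) 12] at h2
  have h3 := sum_le_sum fun i (_ : i ∈ univ) => key i
  rw [← Int.cast_sum, ← h2, sum_add_distrib, ← mul_sum, sum_const, card_univ, Fintype.card_fin,
    Int.cast_natCast] at h3
  have h4 : ((sumAbs 19807040628566084398385987584 (digs 96 79228162514264337593543950336 12 St) :
      ℕ) : ℝ) ≤ (1152921504606855424 : ℕ) := by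
    rw [Nat.cast_ofNat]
    norm_num at h3
    linarith
  exact_mod_cast h4

theorem nrm_Top (hB : BasP) (hA : ApAP) {u : ℕ × ℕ} {V : Mat} {key : ℕ}
    (hL : LC (cols TB1 u.2) V) (h : normOK u key = true) :
    756680642578125 * ∏ i, |kap V 0 (lam 8 key) i| < 2 := by
  obtain ⟨-, -, -, -, hab, -, -, -, -, -, -, -, -, -, -, hd, -⟩ := hB
  have hs := hA.2.2 _ _ _ _ _ (hA.2.1 _ V 0 key hL) le_rfl
  rw [normOK, Nat.ble_eq, hd, List.map_map, ← List.prod_toFinset _ List.nodup_range,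
    List.toFinset_range, ← Fin.prod_univ_eq_prod_range, Nat.add_one_le_iff,
    ← Nat.cast_lt (α := ℝ), Nat.cast_mul, Nat.cast_prod, Nat.cast_pow,
    show 1153 = 96 * 12 + 1 from rfl, pow_succ' _ (96 * 12), pow_mul] at h
  generalize kapP (cols TB1 u.2) 0 key + bp = St at h hs
  have h1 : ∏ i : Fin 12, 2 ^ 96 * |kap V 0 (lam 8 key) i| ≤ _ :=
    prod_le_prod (g := fun i : Fin 12 => ((((fun d =>
      ab 1569275433846670190958947355801916604025588861116008628224 d + 2 ^ 30) ∘ dg 192 St) i :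
      ℕ) : ℝ)) (fun i _ => by positivity) fun i _ => by
      have e1 := congrArg (Int.cast : ℤ → ℝ)
        (hab 1569275433846670190958947355801916604025588861116008628224 (dg 192 St i))
      have e2 := abs_sub_abs_le_abs_sub (2 ^ 96 * kap V 0 (lam 8 key) i)
        ((dg 192 St i : ℝ) - 2 ^ 190)
      rw [abs_sub_comm (2 ^ 96 * _), abs_mul, abs_of_pos (show (0 : ℝ) < 2 ^ 96 by norm_num)] at e2
      have e3 := (hs i).1
      simp only [Function.comp]
      norm_num at e1 e2 e3 ⊢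
      linarith
  rw [prod_mul_distrib, prod_const, card_univ, Fintype.card_fin] at h1
  have h2 := (mul_le_mul_of_nonneg_left h1 (Nat.cast_nonneg 756680642578125)).trans_lt h
  rw [mul_left_comm, mul_comm ((2 : ℕ) : ℝ), Nat.cast_ofNat, Nat.cast_ofNat] at h2
  exact lt_of_mul_lt_mul_left h2 (by positivity)

theorem topP (hB : BasP) (hR : RootP) (hC : ChildP) (hA : ApAP) (hN : NodeP) (hE : EnumEP)
    (hK : KeyP) : TopP := by
  intro B B' nt n np pre np' kt e hF hn h0 hp hr hk hpre hS hD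
  obtain ⟨d1, d2, -⟩ := hN B B' _ hF.dual hn
  have hL := hA.1 TB1 B' (ntGet nt n).2 hF.ap1
  obtain ⟨ξ, a1, a2, a3, a4, a5⟩ := hR B _ _ _ hF.ord hF.nzO hF.nzD d2 rfl d1 (fun i => by
    simp [Matrix.mul_apply, cst, Uz, h0, lam_Top, hF.one]) hD
  obtain ⟨σ, St, r, b1, b2, b3⟩ := hE _ _ _ _ e 0 1 np (leafR kt) (fun _ => 2) ξ (fun j => ξ j) hL
    hp hr (fun i => by
      rw [List.getD_eq_getElem _ _ (by simp), List.getElem_replicate]
      norm_num) (fun _ _ => rfl) a2 a1 (by rwa [← kap_Top])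
  have c0 : ∀ j, 11 ≤ j → σ * ξ j = 0 := fun j hj => by rw [a2 j hj, mul_zero]
  obtain ⟨c1, c2, -⟩ := hK _ _ 0 11 _ _ _ St (by norm_num) le_rfl b3 c0
  have c3 : ∀ i, |kap (B' * cst (Uz (ntGet nt n).2)) 0 (fun j => σ * ξ j) i| =
      |kap (B' * cst (Uz (ntGet nt n).2)) 0 ξ i| := fun i => by
    rcases b1 with rfl | rfl <;> simp [kap_Top, cmb]
  have c4 := sum_Top hA hL b3 (c0 11 le_rfl) (by simpa only [c3] using a3)
  have c5 : ktFind (keyOf (k128 11) St) kt = keyOf (k128 11) St := by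
    rw [leafR] at b2
    exact Nat.eq_of_beq_eq_true (leaf_Top _ _ b2 (Nat.ble_eq_true_of_le c4))
  have hB' := hB
  obtain ⟨-, -, -, -, -, -, -, -, -, -, -, -, -, -, -, -, -, -, -, g1, -, g2⟩ := hB'
  have c6 := g2 kt _ c1 c5
  have c7 := nrm_Top hB hA hL (g1 _ kt _ hk c6)
  rw [c2] at c7
  obtain ⟨ω, w1, w2, w3⟩ := a5 (by rw [hF.det]; simpa only [c3] using c7)
  refine hS ω w1 w2 (fun f hf => ⟨Or.inl (hpre f hf).1, Or.inl (hpre f hf).2⟩)
    (mem_Top (k := keyOf (k128 11) St) ?_ kt c6)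
  rw [c2, V1]
  rcases b1 with rfl | rfl
  · simpa only [one_mul] using w3
  · simpa only [neg_one_mul] using hC.2 _ _ _ _ _ w3

end Pool.Agent.MP_2877d0_al.T
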