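import Pool.Agent.MP_2877d0_al.T.St
namespace Pool.Agent.MP_2877d0_al.T
open Matrix Finset

lemma abs_Tre {r a : ℝ} (h0 : 0 ≤ r) (hr : r ≤ 2 ^ 66) (ha : r * (a * a) ≤ 2 ^ 166) :
    r * |a| ≤ 2 ^ 116 := by
  refine (pow_le_pow_iff_left₀ (by positivity) (by positivity) two_ne_zero).1 ?_
  calc (r * |a|) ^ 2 = r * (r * (a * a)) := by rw [mul_pow, sq_abs]; ring
    _ ≤ 2 ^ 66 * 2 ^ 166 := mul_le_mul hr ha (mul_nonneg h0 (mul_self_nonneg a)) (by positivity)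
    _ = _ := by norm_num

lemma prod_Tre {r x y a b : ℝ} (h0 : 0 ≤ r) (hr : r ≤ 2 ^ 66) (hx : |x - a| ≤ 3)
    (hy : |y - b| ≤ 3) (ha : r * (a * a) ≤ 2 ^ 166) (hb : r * (b * b) ≤ 2 ^ 166) :
    |r * (x * y) - r * (a * b)| ≤ 2 ^ 119 := by
  have h1 := abs_Tre h0 hr ha
  have h2 := abs_Tre h0 hr hb
  have h3 : |(x - a) * (y - b) + (x - a) * b + a * (y - b)| ≤ 3 * 3 + 3 * |b| + |a| * 3 := by
    refine (abs_add_three _ _ _).trans ?_
    rw [abs_mul, abs_mul, abs_mul]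
    gcongr
  rw [show r * (x * y) - r * (a * b) = r * ((x - a) * (y - b) + (x - a) * b + a * (y - b)) by ring,
    abs_mul, abs_of_nonneg h0]
  refine (mul_le_mul_of_nonneg_left h3 h0).trans ?_
  have h4 : r * (3 * 3 + 3 * |b| + |a| * 3) = 9 * r + 3 * (r * |b|) + 3 * (r * |a|) := by ring
  rw [h4]
  norm_num at h1 h2 hr ⊢
  linarith

lemma ip_Tre {D D' S S' I E : ℝ} (hS : 2 ^ 154 ≤ S) (hS' : 2 ^ 154 ≤ S')
    (hD : |2 ^ 160 * D - S| ≤ 2 ^ 123) (hD' : |2 ^ 160 * D' - S'| ≤ 2 ^ 123)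
    (hI : |2 ^ 160 * I - E| ≤ 2 ^ 123) (hE : E ^ 2 * 2 ^ 48 ≤ S * S') :
    I ^ 2 ≤ (1.01 / 2 ^ 24) ^ 2 * (D * D') := by
  have a1 : 0.999 * S ≤ 2 ^ 160 * D := by
    have := (abs_le.1 hD).1
    norm_num at this hS ⊢
    linarith
  have a2 : 0.999 * S' ≤ 2 ^ 160 * D' := by
    have := (abs_le.1 hD').1
    norm_num at this hS' ⊢
    linarith
  have p1 : (0 : ℝ) < S := lt_of_lt_of_le (by positivity) hS
  have p2 : (0 : ℝ) < S' := lt_of_lt_of_le (by positivity) hS'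
  have a3 := mul_le_mul a1 a2 (by positivity) (le_trans (by positivity) a1)
  have a4 := mul_le_mul hS hS' (by positivity) p1.le
  have a5 : (2 ^ 160 * I - E) ^ 2 ≤ (2 ^ 123) ^ 2 := sq_le_sq' (abs_le.1 hI).1 (abs_le.1 hI).2
  have a6 : (2 ^ 160 * I) ^ 2 ≤ (1 + 1 / 128) * E ^ 2 + 129 * (2 ^ 160 * I - E) ^ 2 := by
    obtain ⟨e, he⟩ : ∃ e, e = 2 ^ 160 * I - E := ⟨_, rfl⟩
    rw [← he, show 2 ^ 160 * I = E + e by rw [he]; ring]
    nlinarith [sq_nonneg (E - 128 * e)]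
  obtain ⟨e, he⟩ : ∃ e, e = (2 ^ 160 * I - E) ^ 2 := ⟨_, rfl⟩
  rw [← he] at a5 a6
  rw [mul_pow] at a6
  rw [mul_mul_mul_comm, mul_mul_mul_comm (2 ^ 160 : ℝ)] at a3
  norm_num at a3 a4 a5 a6 hE ⊢
  linarith

lemma lev_Tre {G g D S t : ℝ} (hS : 2 ^ 154 ≤ S) (hD : |D - S| ≤ 2 ^ 123) (hG : |G - g| ≤ 2 ^ 119)
    (g0 : 0 ≤ g) (g1 : g ≤ S) (t1 : t ≤ g * 2 ^ 36 / S) (t2 : g * 2 ^ 36 / S < t + 1) :
    |t - 2 ^ 36 * (G / D)| ≤ 2 ^ 7 := by
  have p1 : (0 : ℝ) < S := lt_of_lt_of_le (by positivity) hS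
  have a1 : 2 ^ 154 - 2 ^ 123 ≤ D := by linarith [(abs_le.1 hD).1]
  have p2 : (0 : ℝ) < D := lt_of_lt_of_le (by norm_num) a1
  have a2 : |G / D - g / S| ≤ 1 / 2 ^ 30 := by
    have e : G / D - g / S = (G - g + g / S * (S - D)) / D := by field_simp; ring
    have b1 : |g / S * (S - D)| ≤ 1 * 2 ^ 123 := by
      rw [abs_mul, abs_of_nonneg (div_nonneg g0 p1.le), abs_sub_comm]
      exact mul_le_mul ((div_le_one p1).2 g1) hD (abs_nonneg _) zero_le_one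
    rw [e, abs_div, abs_of_pos p2, div_le_iff₀ p2]
    have b2 := abs_add_le (G - g) (g / S * (S - D))
    norm_num at b1 hG a1 ⊢
    rw [abs_mul] at b2
    linarith
  rw [mul_div_right_comm] at t1 t2
  have a3 := abs_le.1 a2
  rw [abs_le]
  norm_num at a3 t1 t2 ⊢
  constructor <;> linarith [a3.1, a3.2]

lemma pt_Tre {t l u w : ℝ} (h : |t - 2 ^ 36 * l| ≤ 2 ^ 7) (l0 : 0 ≤ l) (l1 : l ≤ 1)
    (hu : |u| ≤ 16) (hw : |w| ≤ 1 / 2 ^ 29) : t * u ≤ 2 ^ 36 * (l * (u - w)) + 17 * 2 ^ 7 := by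
  have a1 : (t - 2 ^ 36 * l) * u ≤ 2 ^ 7 * 16 := by
    refine (le_abs_self _).trans ?_
    rw [abs_mul]
    exact mul_le_mul h hu (abs_nonneg _) (by positivity)
  have a2 : l * w ≤ 1 * (1 / 2 ^ 29) :=
    (mul_le_mul_of_nonneg_left (le_abs_self w) l0).trans
      (mul_le_mul l1 hw (abs_nonneg _) zero_le_one)
  norm_num at a1 a2 ⊢
  linarith

lemma pi_Tre (S : ℕ → ℕ) (D : ℕ → ℝ) (k : ℕ)
    (h : ∀ j, j < k → 2 ^ 154 ≤ S j ∧ |2 ^ 160 * D j - S j| ≤ 2 ^ 123) :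
    (tPi S k : ℝ) / 2 ^ 48 ≤ ∏ j ∈ range k, D j := by
  induction k with
  | zero =>
    rw [show tPi S 0 = 281474976710656 from rfl]
    norm_num
  | succ k ih =>
    obtain ⟨h1, h2⟩ := h k (Nat.lt_succ_self k)
    have e : tPi S (k + 1) = (tPi S k * (S k >>> 112 - 4096)) >>> 48 := rfl
    have a1 : 4096 ≤ S k / 2 ^ 112 :=
      (Nat.le_div_iff_mul_le (by positivity)).2 (le_trans (by norm_num) h1)
    have a2 : ((S k / 2 ^ 112 - 4096 : ℕ) : ℝ) ≤ 2 ^ 48 * D k := by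
      have b1 : ((S k / 2 ^ 112 : ℕ) : ℝ) ≤ S k / (2 ^ 112 : ℕ) := Nat.cast_div_le
      have b2 := (abs_le.1 h2).1
      rw [Nat.cast_sub a1]
      obtain ⟨c, hc⟩ : ∃ c, c = ((S k / 2 ^ 112 : ℕ) : ℝ) := ⟨_, rfl⟩
      rw [← hc] at b1 ⊢
      norm_num at b1 b2 ⊢
      linarith
    have a3 := ih fun j hj => h j (hj.trans (Nat.lt_succ_self k))
    rw [e, Nat.shiftRight_eq_div_pow, Nat.shiftRight_eq_div_pow, prod_range_succ]
    calc _ ≤ ((tPi S k * (S k / 2 ^ 112 - 4096) : ℕ) : ℝ) / (2 ^ 48 : ℕ) / 2 ^ 48 :=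
          div_le_div_of_nonneg_right Nat.cast_div_le (by positivity)
      _ = (tPi S k : ℝ) / 2 ^ 48 * (((S k / 2 ^ 112 - 4096 : ℕ) : ℝ) / 2 ^ 48) := by
          rw [Nat.cast_mul, Nat.cast_pow, Nat.cast_ofNat]
          ring
      _ ≤ _ := mul_le_mul a3 ((div_le_iff₀' (by positivity)).2 a2)
          (div_nonneg (Nat.cast_nonneg _) (by positivity))
          (le_trans (div_nonneg (Nat.cast_nonneg _) (by positivity)) a3)

theorem treP (hT : TlemP) : TreP := by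
  intro k F ω β ρ f S hk hω hdet hρ hf hS hE hP
  obtain ⟨ρ', hρ'⟩ : ∃ ρ' : Vec, ρ' = fun i : Fin 12 => (ρ i : ℝ) / 2 ^ 48 := ⟨_, rfl⟩
  have r0 : ∀ i : Fin 12, (0 : ℝ) < ρ i := fun i =>
    Nat.cast_pos.2 (lt_of_lt_of_le (by positivity) (hρ i).1)
  have r1 : ∀ i : Fin 12, (ρ i : ℝ) ≤ 2 ^ 66 := fun i => by exact_mod_cast (hρ i).2.1
  have p0 : ∀ i, 0 < ρ' i := fun i => by rw [hρ']; exact div_pos (r0 i) (by positivity)
  have cg : ∀ j i, ((ρ i * (f j i).natAbs ^ 2 : ℕ) : ℝ) = ρ i * ((f j i : ℝ) * f j i) :=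
    fun j i => by rw [Nat.cast_mul, Nat.cast_pow, Nat.cast_natAbs, Int.cast_abs, sq_abs, sq]
  have eS : ∀ j, j < k → (S j : ℝ) = ∑ i : Fin 12, ρ i * ((f j i : ℝ) * f j i) := fun j hj => by
    rw [(hS j hj).1, Nat.cast_sum, ← Fin.sum_univ_eq_sum_range
      (fun i => ((ρ i * (f j i).natAbs ^ 2 : ℕ) : ℝ))]
    exact sum_congr rfl fun i _ => cg j i
  have s0 : ∀ j, j < k → (2 : ℝ) ^ 154 ≤ S j := fun j hj => by exact_mod_cast (hS j hj).2.1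
  have g0 : ∀ j (i : Fin 12), (0 : ℝ) ≤ ρ i * ((f j i : ℝ) * f j i) := fun j i =>
    mul_nonneg (r0 i).le (mul_self_nonneg _)
  have g1 : ∀ j, j < k → ∀ i : Fin 12, ρ i * ((f j i : ℝ) * f j i) ≤ S j := fun j hj i => by
    rw [eS j hj]
    exact single_le_sum (f := fun i : Fin 12 => ρ i * ((f j i : ℝ) * f j i))
      (fun i _ => g0 j i) (mem_univ i)
  have g2 : ∀ j, j < k → ∀ i : Fin 12, ρ i * ((f j i : ℝ) * f j i) ≤ 2 ^ 166 := fun j hj i =>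
    (g1 j hj i).trans (by exact_mod_cast (hS j hj).2.2)
  have d1 : ∀ j, j < k → ∀ l, l < k → ∀ i : Fin 12,
      |2 ^ 160 * (ρ' i * (F j i * F l i)) - ρ i * ((f j i : ℝ) * f l i)| ≤ 2 ^ 119 :=
    fun j hj l hl i => by
      rw [show 2 ^ 160 * (ρ' i * (F j i * F l i)) =
        ρ i * (2 ^ 56 * F j i * (2 ^ 56 * F l i)) by rw [hρ']; ring]
      exact prod_Tre (r0 i).le (r1 i) (hf j hj i) (hf l hl i) (g2 j hj i) (g2 l hl i)
  have d2 : ∀ j, j < k → ∀ l, l < k →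
      |2 ^ 160 * Ip ρ' (F j) (F l) - ∑ i : Fin 12, ρ i * ((f j i : ℝ) * f l i)| ≤ 2 ^ 123 :=
    fun j hj l hl => by
      rw [Ip, mul_sum, ← sum_sub_distrib]
      refine (abs_sum_le_sum_abs _ _).trans ((sum_le_sum fun i _ => d1 j hj l hl i).trans ?_)
      norm_num
  have d3 : ∀ j, j < k → |2 ^ 160 * Qf ρ' (F j) - S j| ≤ 2 ^ 123 := fun j hj => by
    rw [eS j hj, Qf]
    simp only [sq]
    exact d2 j hj j hj
  have q0 : ∀ j, j < k → 0 < Qf ρ' (F j) := fun j hj => by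
    have h1 := (abs_le.1 (d3 j hj)).1
    have h2 := s0 j hj
    linarith
  have w1 : ∀ i, |Real.log (ρ' i) - β i| ≤ 1 / 2 ^ 29 := fun i => by
    rw [hρ']; exact (hρ i).2.2.1
  have k7 : (k : ℝ) ≤ 7 := by exact_mod_cast hk
  have key := hT k F ω ρ' (1.01 / 2 ^ 24) 16.01 hω p0 hdet q0 (by positivity)
    (by norm_num; linarith) (fun j hj l hl => ip_Tre (s0 j hj) (s0 l (hl.trans hj)) (d3 j hj)
      (d3 l (hl.trans hj)) (d2 j hj l (hl.trans hj)) (by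
        have h1 : (((∑ i ∈ range 12, ρ i * f j i * f l i) ^ 2 * 2 ^ 48 : ℤ) : ℝ) ≤
          (((S j : ℤ) * S l : ℤ) : ℝ) := Int.cast_le.2 (hE j hj l hl)
        rw [← Fin.sum_univ_eq_sum_range (fun i => ρ i * f j i * f l i)] at h1
        push_cast at h1
        simp only [mul_assoc] at h1
        exact le_trans (le_of_eq (by norm_num)) h1))
    (fun i => by
      have h1 := abs_le.1 (w1 i)
      have h2 := abs_le.1 (hρ i).2.2.2
      rw [abs_le]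
      norm_num at h1 ⊢
      constructor <;> linarith [h1.1, h1.2, h2.1, h2.2])
  have l1 : Real.log ((tPi S k : ℝ) / 2 ^ 48) ≤ ∑ j ∈ range k, Real.log (Qf ρ' (F j)) := by
    rw [← Real.log_prod fun j hj => (q0 j (mem_range.1 hj)).ne']
    exact Real.log_le_log (div_pos (Nat.cast_pos.2 hP) (by positivity))
      (pi_Tre S _ k fun j hj => ⟨(hS j hj).2.1, d3 j hj⟩)
  have l2 : ∀ i : Fin 12, ((∑ j ∈ range k, ρ i * (f j i).natAbs ^ 2 * 2 ^ 36 / S j : ℕ) : ℝ) *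
      (Real.log (ω i) - β i) ≤ 2 ^ 36 * ((∑ j ∈ range k, ρ' i * F j i ^ 2 / Qf ρ' (F j)) *
        (Real.log (ω i) - Real.log (ρ' i))) + k * (17 * 2 ^ 7) := fun i => by
    rw [Nat.cast_sum, sum_mul, sum_mul, mul_sum, ← nsmul_eq_mul, ← card_range k, ← sum_const,
      card_range, ← sum_add_distrib]
    refine sum_le_sum fun j hj => ?_
    have hj' := mem_range.1 hj
    have S0 : 0 < S j := lt_of_lt_of_le (by positivity) (hS j hj').2.1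
    rw [show Real.log (ω i) - Real.log (ρ' i) =
      Real.log (ω i) - β i - (Real.log (ρ' i) - β i) by ring]
    refine pt_Tre ?_ (div_nonneg (mul_nonneg (p0 i).le (sq_nonneg _)) (q0 j hj').le)
      ((div_le_one (q0 j hj')).2 (single_le_sum (f := fun i => ρ' i * F j i ^ 2)
        (fun i _ => mul_nonneg (p0 i).le (sq_nonneg _)) (mem_univ i))) (hρ i).2.2.2 (w1 i)
    rw [← mul_div_mul_left _ _ (show (2 : ℝ) ^ 160 ≠ 0 by positivity), sq (F j i)]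
    refine lev_Tre (s0 j hj') (d3 j hj') (d1 j hj' j hj' i) (g0 j i) (g1 j hj' i) ?_ ?_
    · refine Nat.cast_div_le.trans (le_of_eq ?_)
      rw [Nat.cast_mul, cg, Nat.cast_pow, Nat.cast_ofNat]
    · rw [div_lt_iff₀ (Nat.cast_pos.2 S0), ← cg]
      have h1 := Nat.lt_mul_div_succ (ρ i * (f j i).natAbs ^ 2 * 2 ^ 36) S0
      rw [mul_comm (S j)] at h1
      exact_mod_cast h1
  have l3 := sum_le_sum fun i (_ : i ∈ (univ : Finset (Fin 12))) => l2 i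
  rw [sum_add_distrib, ← mul_sum, sum_const, card_univ, Fintype.card_fin, nsmul_eq_mul] at l3
  have k2 : (k : ℝ) ≤ k * k := by exact_mod_cast Nat.le_mul_self k
  have k0 : (0 : ℝ) ≤ k := Nat.cast_nonneg k
  refine (add_le_add l3 (mul_le_mul_of_nonneg_left l1 (by positivity))).trans ?_
  obtain ⟨A, hA⟩ : ∃ A, A = ∑ i, (∑ j ∈ range k, ρ' i * F j i ^ 2 / Qf ρ' (F j)) *
    (Real.log (ω i) - Real.log (ρ' i)) := ⟨_, rfl⟩
  obtain ⟨B, hB⟩ : ∃ B, B = ∑ j ∈ range k, Real.log (Qf ρ' (F j)) := ⟨_, rfl⟩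
  rw [← hA, ← hB] at key ⊢
  norm_num at key ⊢
  linarith

end Pool.Agent.MP_2877d0_al.T
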