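import Pool.Agent.MP_2877d0_al.T.Agg
import Pool.Agent.MP_2877d0_al.T.Ap0
import Pool.Agent.MP_2877d0_al.T.ApA
import Pool.Agent.MP_2877d0_al.T.ApB
import Pool.Agent.MP_2877d0_al.T.Asm
import Pool.Agent.MP_2877d0_al.T.Bas
import Pool.Agent.MP_2877d0_al.T.Box
import Pool.Agent.MP_2877d0_al.T.Child
import Pool.Agent.MP_2877d0_al.T.Comb
import Pool.Agent.MP_2877d0_al.T.CutQ
import Pool.Agent.MP_2877d0_al.T.CutT
import Pool.Agent.MP_2877d0_al.T.CutU
import Pool.Agent.MP_2877d0_al.T.Dual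
import Pool.Agent.MP_2877d0_al.T.EnumE
import Pool.Agent.MP_2877d0_al.T.EnumS
import Pool.Agent.MP_2877d0_al.T.First
import Pool.Agent.MP_2877d0_al.T.Flag
import Pool.Agent.MP_2877d0_al.T.Fld
import Pool.Agent.MP_2877d0_al.T.MkCut
import Pool.Agent.MP_2877d0_al.T.OneK
import Pool.Agent.MP_2877d0_al.T.OneR
import Pool.Agent.MP_2877d0_al.T.Ord
import Pool.Agent.MP_2877d0_al.T.Pat
import Pool.Agent.MP_2877d0_al.T.Pc
import Pool.Agent.MP_2877d0_al.T.Quick
import Pool.Agent.MP_2877d0_al.T.Ref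
import Pool.Agent.MP_2877d0_al.T.RefC
import Pool.Agent.MP_2877d0_al.T.RefS
import Pool.Agent.MP_2877d0_al.T.Root
import Pool.Agent.MP_2877d0_al.T.Sq
import Pool.Agent.MP_2877d0_al.T.TabE
import Pool.Agent.MP_2877d0_al.T.Td
import Pool.Agent.MP_2877d0_al.T.Th
import Pool.Agent.MP_2877d0_al.T.Tlem
import Pool.Agent.MP_2877d0_al.T.Top
import Pool.Agent.MP_2877d0_al.T.Tre

/-! The soundness of the checker, put together. -/

namespace Pool.Agent.MP_2877d0_al.T

theorem apA : ApAP := apAP basP combP linP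
theorem apB : ApBP := apBP basP combP linP
theorem sqQ : SqP := sqP basP
theorem fst1 : FirstP := firstP patP
theorem nodeQ : NodeP := nodeP basP
theorem boxQ : BoxP := boxP basP
theorem initQ : InitP := initP basP dualP fst1 apB sqQ tabP
theorem enumEQ : EnumEP := enumEP basP apA
theorem keyQ : KeyP := keyP basP

theorem mkCutQ : MkCutP :=
  mkCutP basP dualP fst1 apA nodeQ (cutQP basP (qcutP patP) fst1 apB sqQ mkP)
    (cutKP basP crossP apB sqQ mkP) (cutUP basP fst1 apB sqQ mkP) (cutSP mkP)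
    (cutTP basP mkP tabP frameP (treP tlemP) (tdP basP apB)) (flgP (flagP patP) apA)

theorem certQ : CertP := certP basP (coP basP (pcP basP tabP oneRP (oneLP oneRP) oneKP)) aggP

theorem refCQ : RefCP :=
  refCP basP dualP rotP apA nodeQ boxQ (refSP basP dualP childP (refP patP) rotP (rdotP basP apA))

theorem enumCQ : EnumCP :=
  enumCP basP dualP apA nodeQ boxQ (enumSP basP childP apB sqQ initQ enumEQ keyQ
    (quickP basP dualP fst1 crossP apB keyQ (qsP basP)))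

theorem mainQ : MainP := mainP basP apA nodeQ boxQ initQ (chkP basP mkCutQ certQ boxQ refCQ enumCQ)

theorem topQ : TopP := topP basP (rootP dualP) childP apA nodeQ enumEQ keyQ

theorem fldQ : FldP := fldP thP ap0P ap1P ordP (gramP ordP ap0P)

/-- the shape of the last claim -/
noncomputable def lastOK (nt : NT) (c : Cl) : Bool :=
  andB (Nat.beq c.nid 0) (andB (Nat.beq c.a 1) (andB (Nat.beq c.b 0) (andB (Nat.beq c.sd 1)
    (andB (Nat.beq (dg 192 (ntGet nt 0).1 0) 32769) (andB (ktAll (normOK (ntGet nt 0)) c.kt)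
      (allN (fun f => andB (Nat.beq (fld c.pre (2 * f)) 0)
        (Nat.beq (fld c.pre (2 * f + 1)) 16777215)) 14))))))

theorem not_dec_of {ct : CT} {nt : NT} {NN N np : ℕ} {e : List ℕ} (h0 : 0 < NN) (h1 : 0 < np)
    (hD : Rg (Done ct nt NN) 0 (N + 1)) (hN : Rg (fun i => nodeOK (ntGet nt i) = true) 0 NN)
    (hR : Rg (fun p => rootE (ntGet nt 0) (ctGet ct N).kt e p np = true) 0 np)
    (hL : lastOK nt (ctGet ct N) = true) {n : ℕ} (hn : 12 ≤ n) :
    ¬ ∀ G : Matrix (Fin n) (Fin n) ℝ, G.det ≠ 0 → Dec G := by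
  intro h
  obtain ⟨B, B', hF⟩ := fldQ
  have hS := mainQ B B' ct nt NN (N + 1) hF (fun i hi => hN i (Nat.zero_le _) hi)
    (fun j hj => hD j (Nat.zero_le _) hj) N (Nat.lt_succ_self N)
  generalize ctGet ct N = c at hR hL hS
  obtain ⟨nid, a, b, sd, pre, np', kt⟩ := c
  obtain ⟨e1, hL⟩ := andB_true hL
  obtain ⟨e2, hL⟩ := andB_true hL
  obtain ⟨e3, hL⟩ := andB_true hL
  obtain ⟨e4, hL⟩ := andB_true hL
  obtain ⟨e5, hL⟩ := andB_true hL
  obtain ⟨e6, e7⟩ := andB_true hL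
  obtain rfl : nid = 0 := Nat.eq_of_beq_eq_true e1
  obtain rfl : a = 1 := Nat.eq_of_beq_eq_true e2
  obtain rfl : b = 0 := Nat.eq_of_beq_eq_true e3
  obtain rfl : sd = 1 := Nat.eq_of_beq_eq_true e4
  refine topQ B B' nt 0 np pre np' kt e hF (hN 0 le_rfl h0) (Nat.eq_of_beq_eq_true e5) h1
    (fun p hp => hR p (Nat.zero_le _) hp) e6 (fun f hf => ?_) hS
    (mono_le hn h B hF.ord.det_ne)
  obtain ⟨g1, g2⟩ := andB_true ((basP.2.2.1 _ _).mp e7 f hf)
  exact ⟨Nat.eq_of_beq_eq_true g1, Nat.eq_of_beq_eq_true g2⟩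

end Pool.Agent.MP_2877d0_al.T
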