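import Pool.Agent.MP_2877d0_al.Lat
import Pool.Agent.MP_2877d0_al.Order

/-! Flags of covolume one in dimension 12: definitions and statements of the real-number layer. -/

namespace Pool.Agent.MP_2877d0_al.T

open Matrix Finset

abbrev Vec := Fin 12 → ℝ
abbrev Mat := Matrix (Fin 12) (Fin 12) ℝ
abbrev ZMat := Matrix (Fin 12) (Fin 12) ℤ

/-- the real matrix of an integer matrix -/
def cst (N : ZMat) : Mat := N.map (Int.cast : ℤ → ℝ)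

/-- triangular in the first `a` columns and in the last `b` rows -/
def Pat (a b : ℕ) (N : ZMat) : Prop :=
  ∀ i j : Fin 12, j < i → (j.val < a ∨ 12 ≤ i.val + b) → N i j = 0

/-- the columns of `V * N` have all Gram-Schmidt lengths one for the weights `ω` -/
def Wit (ω : Vec) (V : Mat) (a b : ℕ) (N : ZMat) : Prop :=
  IsUnit N.det ∧ Pat a b N ∧ ∃ u : Mat, (∀ i j, j < i → u i j = 0) ∧ (∀ i, u i i = 1) ∧
    (V * cst N)ᵀ * diagonal ω * (V * cst N) = uᵀ * u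

def Fl (ω : Vec) (V : Mat) (a b : ℕ) : Prop := ∃ N, Wit ω V a b N

/-- the next vector of the flag has the coordinates `ξ 0, ξ 1, …` at the places `a, a + 1, …` -/
def Cand (ω : Vec) (V : Mat) (a b : ℕ) (ξ : ℕ → ℤ) : Prop :=
  ∃ N, Wit ω V a b N ∧ ∃ h : a < 12, ∀ j : Fin 12, a ≤ j.val → N j ⟨a, h⟩ = ξ (j.val - a)

def Qf (ω x : Vec) : ℝ := ∑ i, ω i * x i ^ 2
def Ip (ω x y : Vec) : ℝ := ∑ i, ω i * (x i * y i)
noncomputable def iv (ω : Vec) : Vec := fun i => (ω i)⁻¹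

/-- column `k`, zero for `k ≥ 12` -/
def col (V : Mat) (k : ℕ) : Vec := fun i => if h : k < 12 then V i ⟨k, h⟩ else 0

/-- real combination of at most twelve vectors -/
def cmb (x : ℕ → Vec) (c : ℕ → ℝ) : Vec := fun i => ∑ j ∈ range 12, c j * x j i

/-- the columns of `V'`, in reverse order, are the dual basis of the columns of `V` -/
def Dual (V V' : Mat) : Prop :=
  ∀ j k : Fin 12, ∑ i, V' i (Fin.rev j) * V i k = if j = k then 1 else 0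

/-- all initial segments of `f 0, …, f (k - 1)` have Gram determinant one -/
def Flag (ω : Vec) (f : ℕ → Vec) (k : ℕ) : Prop :=
  ∀ m, m ≤ k → (Matrix.of fun j l : Fin m => Ip ω (f j) (f l)).det = 1

/-- the candidate vector -/
def kap (V : Mat) (a : ℕ) (ξ : ℕ → ℤ) : Vec :=
  cmb (col V) fun j => if j < a then 0 else (ξ (j - a) : ℝ)

/-- cyclic shift of the coordinates -/
def rot (g : ℕ) (x : Vec) : Vec := fun i => x ⟨(i.val + g) % 12, Nat.mod_lt _ (by norm_num)⟩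

/-! ### statements -/

def PatP : Prop :=
  (∀ (a b : ℕ) (M N : ZMat), Pat a b M → Pat a b N → Pat a b (M * N)) ∧
  (∀ (a b : ℕ) (M N : ZMat), M * N = 1 → Pat a b M → Pat a b N) ∧
  (∀ (a b : ℕ) (M : ZMat), IsUnit M.det → Pat a b M → ∀ i : Fin 12,
    (i.val < a ∨ 12 ≤ i.val + b) → M i i = 1 ∨ M i i = -1)

def DualP : Prop :=
  (∀ V V' : Mat, Dual V V' → Dual V' V) ∧
  ∀ (ω : Vec) (V V' : Mat) (a b : ℕ), (∀ i, 0 < ω i) → Dual V V' → Fl ω V a b →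
    Fl (iv ω) V' b a

def QcutP : Prop :=
  ∀ (ω : Vec) (V : Mat) (a b c : ℕ) (x : ℕ → ℝ) (n : ℕ → ℤ), Fl ω V a b →
    (c ≤ a ∨ 12 ≤ c + b) → (∀ j, c ≤ j → j < 12 → x j = n j) →
    (∃ j, c ≤ j ∧ j < 12 ∧ n j ≠ 0) → 1 ≤ Qf ω (cmb (col V) x)

def FirstP : Prop :=
  ∀ (ω : Vec) (V : Mat) (a b : ℕ), Fl ω V a b →
    (1 ≤ a → Qf ω (col V 0) = 1) ∧
    (2 ≤ a → ∀ c : ℝ, Qf ω (fun i => c * col V 0 i + col V 1 i) =
      (c + Ip ω (col V 0) (col V 1)) ^ 2 + 1) ∧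
    V.det ^ 2 * ∏ i, ω i = 1

def FlagP : Prop :=
  (∀ (ω : Vec) (V : Mat) (a b : ℕ), a ≤ 12 → Fl ω V a b → Flag ω (col V) a) ∧
  (∀ (ω : Vec) (V : Mat) (a b : ℕ) (ξ : ℕ → ℤ), Cand ω V a b ξ →
    Flag ω (fun j => if j < a then col V j else kap V a ξ) (a + 1))

def FrameP : Prop :=
  ∀ (ω : Vec) (f : ℕ → Vec) (k : ℕ) (c : ℕ → ℕ → ℝ), k ≤ 12 → Flag ω f k →
    (∀ j, c j j = 1) → (∀ j l, j < l → c j l = 0) → Flag ω (fun j => cmb f (c j)) k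

def TlemP : Prop :=
  ∀ (k : ℕ) (F : ℕ → Vec) (ω ρ : Vec) (ε R : ℝ), (∀ i, 0 < ω i) → (∀ i, 0 < ρ i) →
    (Matrix.of fun j l : Fin k => Ip ω (F j) (F l)).det = 1 →
    (∀ j, j < k → 0 < Qf ρ (F j)) → 0 ≤ ε → k * ε ≤ 1 / 2 →
    (∀ j, j < k → ∀ l, l < j → Ip ρ (F j) (F l) ^ 2 ≤ ε ^ 2 * (Qf ρ (F j) * Qf ρ (F l))) →
    (∀ i, |Real.log (ω i) - Real.log (ρ i)| ≤ R) →
    ∑ i, (∑ j ∈ range k, ρ i * F j i ^ 2 / Qf ρ (F j)) * (Real.log (ω i) - Real.log (ρ i)) +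
      ∑ j ∈ range k, Real.log (Qf ρ (F j)) ≤ k * k * ε * (R + 2)

def ChildP : Prop :=
  (∀ (ω : Vec) (V : Mat) (a b : ℕ), a + b < 12 → Fl ω V a b → ∃ (ξ : ℕ → ℤ) (x : ℕ → ℝ),
    Cand ω V a b ξ ∧ (∃ j, j < 12 - a - b ∧ ξ j ≠ 0) ∧ (∀ j, 12 - a - b ≤ j → ξ j = 0) ∧
    (∀ j, a ≤ j → x j = ξ (j - a)) ∧ Qf ω (cmb (col V) x) = 1) ∧
  (∀ (ω : Vec) (V : Mat) (a b : ℕ) (ξ : ℕ → ℤ), Cand ω V a b ξ → Cand ω V a b fun j => -ξ j)

def CrossP : Prop :=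
  ∀ (ω : Vec) (V V' : Mat) (a b : ℕ) (ξ : ℕ → ℤ) (c : ℕ → ℝ), (∀ i, 0 < ω i) → Dual V V' →
    Cand ω V a b ξ → (∀ j, 12 - a ≤ j → c j = 0) →
    (∑ j ∈ range (12 - a), c (11 - a - j) * ξ j) ^ 2 ≤ Qf (iv ω) (cmb (col V') c)

/-- change of basis: `W = V * L`, `V' = W' * L'` -/
def RefP : Prop :=
  (∀ (ω : Vec) (V V' W W' : Mat) (L : ZMat) (a b c d : ℕ), Dual V V' → Dual W W' →
    IsUnit L.det → W = V * cst L → c ≤ a → d ≤ b →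
    (∀ j k : Fin 12, k.val < c → k < j → ∑ i, V' i (Fin.rev j) * W i k = 0) →
    (∀ j k : Fin 12, k.val < d → k < j → ∑ i, V i (Fin.rev j) * W' i k = 0) →
    Fl ω V a b → Fl ω W c d) ∧
  (∀ (ω : Vec) (V V' W W' : Mat) (L : ZMat) (a b d : ℕ) (ξ : ℕ → ℤ), Dual V V' → Dual W W' →
    IsUnit L.det → W = V * cst L → d ≤ b →
    (∀ j k : Fin 12, k.val < a → k < j → ∑ i, V' i (Fin.rev j) * W i k = 0) →
    (∀ j k : Fin 12, k.val = a → k ≤ j → ∑ i, V' i (Fin.rev j) * W i k = ξ (j.val - a)) →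
    (∀ j k : Fin 12, k.val < d → k < j → ∑ i, V i (Fin.rev j) * W' i k = 0) →
    Cand ω V a b ξ → Fl ω W (a + 1) d)

/-- shifting the coordinates -/
def RotP : Prop :=
  (∀ (ω : Vec) (W : Mat) (g a b : ℕ), g < 12 →
    Fl ω (Matrix.of fun i k => rot g (fun i => W i k) i) a b → Fl (rot (12 - g) ω) W a b) ∧
  (∀ (W W' : Mat) (g : ℕ), Dual W W' → Dual (Matrix.of fun i k => rot g (fun i => W i k) i)
    (Matrix.of fun i k => rot g (fun i => W' i k) i)) ∧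
  (∀ (B : Mat), (∃ Γ : ZMat, IsUnit Γ.det ∧ ∀ i k, rot 1 (fun i => B i k) i = (B * cst Γ) i k) →
    ∀ g : ℕ, ∃ Γ : ZMat, IsUnit Γ.det ∧ ∀ i k, rot g (fun i => B i k) i = (B * cst Γ) i k)

/-- the one-variable function of a certificate -/
noncomputable def f1 (A B C s : ℝ) : ℝ := A * Real.exp (s - 12) + B * Real.exp (12 - s) + C * s
noncomputable def f1' (A B C s : ℝ) : ℝ := A * Real.exp (s - 12) - B * Real.exp (12 - s) + C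
noncomputable def f1'' (A B s : ℝ) : ℝ := A * Real.exp (s - 12) + B * Real.exp (12 - s)

def OneRP : Prop :=
  ∀ A B C l h s : ℝ, l ≤ s → s ≤ h → f1' A B C h ≤ 0 → (0 ≤ A ∨ B ≤ 0 ∨ 0 ≤ f1'' A B h) →
    min (f1 A B C l) (f1 A B C h) ≤ f1 A B C s

def OneLP : Prop :=
  ∀ A B C l h s : ℝ, l ≤ s → s ≤ h → 0 ≤ f1' A B C l → (A ≤ 0 ∨ 0 ≤ B ∨ 0 ≤ f1'' A B l) →
    min (f1 A B C l) (f1 A B C h) ≤ f1 A B C s

def OneKP : Prop :=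
  ∀ A B C l h s M : ℝ, l ≤ s → s ≤ h → 0 ≤ M → f1'' A B l ≤ M → f1'' A B h ≤ M →
    min (f1 A B C l) (f1 A B C h) - M * (h - l) ^ 2 / 8 ≤ f1 A B C s

/-- first step: the first vector of the flag can be taken to be `1` -/
def RootP : Prop :=
  ∀ (B V V' : Mat) (U : ZMat), IsOrd B → (∀ x, InO B x → x ≠ 0 → ∀ i, x i ≠ 0) →
    (∀ y, InD B y → y ≠ 0 → ∀ i, y i ≠ 0) → IsUnit U.det → V = B * cst U → Dual V V' →
    (∀ i, V i 0 = 1) → Dec B → ∃ ξ : ℕ → ℤ, (∃ j, j < 11 ∧ ξ j ≠ 0) ∧ (∀ j, 11 ≤ j → ξ j = 0) ∧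
      ∑ i, |kap V' 0 ξ i| ≤ 1 ∧ ∑ i, 2 * kap V' 0 ξ i ^ 2 ≤ 1 ∧
      (B.det ^ 2 * ∏ i, |kap V' 0 ξ i| < 2 →
        ∃ ω : Vec, (∀ i, 0 < ω i) ∧ Fl ω V 1 0 ∧ Cand (iv ω) V' 0 1 ξ)

end Pool.Agent.MP_2877d0_al.T
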