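import Pool.Agent.MP_2877d0_al.T.Math
namespace Pool.Agent.MP_2877d0_al.T
open Matrix Finset

lemma cst_mul_Ref (M N : ZMat) : cst (M * N) = cst M * cst N :=
  Matrix.map_mul (f := Int.castRingHom ℝ)

lemma cst_one_Ref : cst 1 = 1 := Matrix.map_one _ Int.cast_zero Int.cast_one

lemma ent_Ref {V V' : Mat} (h : Dual V V') (L : ZMat) (j k : Fin 12) :
    ∑ i, V' i (Fin.rev j) * (V * cst L) i k = L j k := by
  simp only [Matrix.mul_apply, Finset.mul_sum, ← mul_assoc]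
  rw [Finset.sum_comm]
  simp only [← Finset.sum_mul, h j]
  simp [cst]

lemma mono_Ref {a b c d : ℕ} {N : ZMat} (h : Pat a b N) (hc : c ≤ a) (hd : d ≤ b) : Pat c d N :=
  fun i j hij hh => h i j hij (by omega)

lemma and_Ref {c d : ℕ} {N : ZMat} (h : Pat c 0 N) (h' : Pat 0 d N) : Pat c d N :=
  fun i j hij hh => hh.elim (fun e => h i j hij (Or.inl e)) fun e => h' i j hij (Or.inr e)

lemma back_Ref (V : Mat) {L : ZMat} (hL : IsUnit L.det) (N : ZMat) :
    V * cst L * cst (L⁻¹ * N) = V * cst N := by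
  rw [Matrix.mul_assoc, ← cst_mul_Ref, ← Matrix.mul_assoc, Matrix.mul_nonsing_inv _ hL,
    Matrix.one_mul]

lemma inv_Ref {V W' : Mat} {L : ZMat} {d : ℕ} (hL : IsUnit L.det) (hW : Dual (V * cst L) W')
    (h : ∀ j k : Fin 12, k.val < d → k < j → ∑ i, V i (Fin.rev j) * W' i k = 0) :
    Pat 0 d L⁻¹ := fun i j hij hh => by
  have h1 := ent_Ref hW (L⁻¹ * 1) i j
  have h2 := h (Fin.rev j) (Fin.rev i) (by rw [Fin.val_rev]; omega) (Fin.rev_lt_rev.2 hij)
  rw [back_Ref V hL, cst_one_Ref, Matrix.mul_one, Matrix.mul_one] at h1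
  simp only [Fin.rev_rev, mul_comm (V _ _)] at h2
  exact_mod_cast h1.symm.trans h2

lemma wit_Ref {ω : Vec} {V : Mat} {L N : ZMat} {a b c d : ℕ} (hL : IsUnit L.det)
    (h : Wit ω V a b N) (hp : Pat c d (L⁻¹ * N)) : Fl ω (V * cst L) c d :=
  ⟨L⁻¹ * N, by
    rw [Matrix.det_mul]
    exact (Matrix.isUnit_nonsing_inv_det _ hL).mul h.1, hp, by
    rw [back_Ref V hL]
    exact h.2.2⟩

theorem refP (hP : PatP) : RefP := by
  constructor
  · rintro ω V V' W W' L a b c d hV hW hL rfl hc hd h1 h2 ⟨N, hN⟩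
    have p1 : Pat c 0 L := fun i j hij hh => by
      have := h1 i j (by omega) hij
      rw [ent_Ref hV] at this
      exact_mod_cast this
    have p2 := hP.2.1 _ _ _ _ (Matrix.nonsing_inv_mul _ hL) (inv_Ref hL hW h2)
    exact wit_Ref hL hN (hP.1 _ _ _ _ (hP.2.1 _ _ _ _ (Matrix.mul_nonsing_inv _ hL)
      (and_Ref p1 p2)) (mono_Ref hN.2.1 hc hd))
  · rintro ω V V' W W' L a b d ξ hV hW hL rfl hd h1 h2 h3 ⟨N, hN, ha, hξ⟩
    simp only [ent_Ref hV, Int.cast_eq_zero, Int.cast_inj] at h1 h2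
    have p1 := hP.2.1 _ _ _ _ (Matrix.mul_nonsing_inv _ hN.1) hN.2.1
    have p2 : Pat (a + 1) 0 (N⁻¹ * L) := fun i j hij hh => by
      rcases Nat.lt_succ_iff_lt_or_eq.1 (show j.val < a + 1 by omega) with e | e
      · rw [Matrix.mul_apply]
        refine Finset.sum_eq_zero fun l _ => ?_
        rcases lt_or_ge j l with f | f
        · rw [h1 l j e f, mul_zero]
        · rw [p1 i l (f.trans_lt hij) (Or.inl (lt_of_le_of_lt f e)), zero_mul]
      · rw [← Matrix.one_apply_ne hij.ne', ← Matrix.nonsing_inv_mul _ hN.1, Matrix.mul_apply,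
          Matrix.mul_apply]
        refine Finset.sum_congr rfl fun l _ => ?_
        rcases lt_or_ge l j with f | f
        · rw [p1 i l (f.trans hij) (Or.inl (e ▸ f)), zero_mul, zero_mul]
        · rw [h2 l j e f, ← hξ l (e ▸ f), show j = ⟨a, ha⟩ from Fin.ext e]
    refine wit_Ref hL hN (and_Ref (hP.2.1 _ _ _ _ ?_ p2)
      (hP.1 _ _ _ _ (inv_Ref hL hW h3) (mono_Ref hN.2.1 (Nat.zero_le _) hd)))
    rw [Matrix.mul_assoc, ← Matrix.mul_assoc L, Matrix.mul_nonsing_inv _ hL, Matrix.one_mul,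
      Matrix.nonsing_inv_mul _ hN.1]

end Pool.Agent.MP_2877d0_al.T
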