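import Pool.Agent.MP_2877d0_al.T.Chk

/-! Meaning of the data of the checker, and the statements of its soundness. -/

namespace Pool.Agent.MP_2877d0_al.T

open Matrix Finset

/-- `X` packs twelve signed fields of 192 bits that approximate `2^96 x`, and a positive top -/
def AP (X : ℕ) (x : Vec) (e m g : ℕ) : Prop :=
  ∃ (v : ℕ → ℤ) (γ : ℤ), (X : ℤ) = ∑ f ∈ range 12, v f * (2 ^ 192) ^ f + γ * (2 ^ 192) ^ 12 ∧
    1 ≤ γ ∧ γ ≤ (g : ℤ) ∧ ∀ i : Fin 12, |(v i : ℝ) - 2 ^ 96 * x i| ≤ (e : ℝ) ∧ |v i| ≤ (m : ℤ)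

def LA (l : List ℕ) (x : ℕ → Vec) (n e m g : ℕ) : Prop :=
  l.length = n ∧ ∀ j, j < n → AP (l.getD j 0) (x j) e m g

/-- twelve columns -/
def LC (l : List ℕ) (V : Mat) : Prop := LA l (col V) 12 (2 ^ 19) (2 ^ 117) (2 ^ 21)

/-- the digits of `St`, minus `2^190`, approximate `2^sc x` -/
def SR (St : ℕ) (x : Vec) (sc e m : ℕ) : Prop :=
  ∀ i : Fin 12, |(dg 192 St i : ℝ) - 2 ^ 190 - 2 ^ sc * x i| ≤ (e : ℝ) ∧
    |(dg 192 St i : ℤ) - 2 ^ 190| ≤ (m : ℤ)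

def F12 (P : ℕ) (p : ℕ → ℕ) : Prop :=
  P = ∑ i ∈ range 12, p i * (2 ^ 128) ^ i ∧ ∀ i, i < 12 → p i ≤ 2 ^ 100

noncomputable def sg (ω : Vec) : Vec := fun i => Real.log (ω i) + 12

noncomputable def gv (ty : ℕ) (ω : Vec) : Vec :=
  if ty = 0 then ω else if ty = 1 then iv ω else sg ω

def CutOK (ω : Vec) (C : ℕ) : Prop :=
  ∃ c : ℕ → ℤ, (C : ℤ) = ∑ f ∈ range 37, c f * (2 ^ 128) ^ f + (2 ^ 128) ^ 37 ∧
    (∀ f, f < 37 → |c f| ≤ 2 ^ 100) ∧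
    ∑ i : Fin 12, (c i * ω i + c (12 + i) * iv ω i + c (24 + i) * sg ω i) ≤ c 36

def Bd (ω : Vec) : Prop := ∀ i, 0 ≤ sg ω i ∧ sg ω i ≤ 16

/-- inner product of the first two columns, in the units of the box -/
def muV (ω : Vec) (V : Mat) : ℝ := 4096 * Ip ω (col V 0) (col V 1) + 8388608

noncomputable def val (ω : Vec) (V V' : Mat) (f : ℕ) : ℝ :=
  if h : f < 12 then 32 * sg ω ⟨f, h⟩ else if f = 12 then muV ω V else muV (iv ω) V'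

def InI (x : ℝ) (lo hi : ℕ) : Prop := (lo = 0 ∨ (lo : ℝ) ≤ x) ∧ (hi = 16777215 ∨ x ≤ hi)

def InB (ω : Vec) (V V' : Mat) (box : ℕ) : Prop :=
  ∀ f, f < 14 → InI (val ω V V' f) (fld box (2 * f)) (fld box (2 * f + 1))

def Mem (ω : Vec) (V V' : Mat) (a b sd : ℕ) : KT → Prop
  | KT.non => True
  | KT.leaf k => if sd = 0 then Cand ω V a b (lam 8 k) else Cand (iv ω) V' b a (lam 8 k)
  | KT.node _ l r => Mem ω V V' a b sd l ∨ Mem ω V V' a b sd r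

/-- `k` is a leaf -/
def Leaf (k : ℕ) : KT → Prop
  | KT.non => False
  | KT.leaf j => j = k
  | KT.node _ l r => Leaf k l ∨ Leaf k r

def Uz (U : ℕ) : ZMat := Matrix.of fun j k => lam 16 (dg 192 U k) j

noncomputable def V0 (B : Mat) (nt : NT) (n : ℕ) : Mat := B * cst (Uz (ntGet nt n).1)
noncomputable def V1 (B' : Mat) (nt : NT) (n : ℕ) : Mat := B' * cst (Uz (ntGet nt n).2)

/-- meaning of a claim -/
def Sem (B B' : Mat) (nt : NT) (c : Cl) : Prop :=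
  ∀ ω : Vec, (∀ i, 0 < ω i) → Fl ω (V0 B nt c.nid) c.a c.b →
    InB ω (V0 B nt c.nid) (V1 B' nt c.nid) c.pre →
    Mem ω (V0 B nt c.nid) (V1 B' nt c.nid) c.a c.b c.sd c.kt → False

/-- what is used of the number field -/
structure Fld (B B' : Mat) : Prop where
  dual : B'ᵀ * B = 1
  ap0 : LA TB0 (col B) 12 1 (2 ^ 98) 1
  ap1 : LA TB1 (col B') 12 1 (2 ^ 98) 1
  det : B.det ^ 2 = 756680642578125
  gal : ∃ Γ : ZMat, IsUnit Γ.det ∧ ∀ i k, rot 1 (fun i => B i k) i = (B * cst Γ) i k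
  ord : IsOrd B
  nzO : ∀ x, InO B x → x ≠ 0 → ∀ i, x i ≠ 0
  nzD : ∀ y, InD B y → y ≠ 0 → ∀ i, y i ≠ 0
  one : ∀ i, B i 0 = 1

/-- one side of the state -/
structure Sd (ω : Vec) (V V' : Mat) (L Lo : List ℕ) (a b : ℕ) : Prop where
  pos : ∀ i, 0 < ω i
  dual : Dual V V'
  fl : Fl ω V a b
  lc : LC L V
  lo : LC Lo V'

/-- the state while one claim is checked -/
structure Cx (B B' : Mat) (ct : CT) (nt : NT) (NN : ℕ) (E : Env) (ω : Vec) : Prop where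
  fld : Fld B B'
  nodes : ∀ n, n < NN → nodeOK (ntGet nt n) = true
  nid : E.nid < NN
  sd : E.sd ≤ 1
  l0 : E.L0 = cols TB0 (ntGet nt E.nid).1
  l1 : E.L1 = cols TB1 (ntGet nt E.nid).2
  old : ∀ j, j < E.idx → Sem B B' nt (ctGet ct j)
  pos : ∀ i, 0 < ω i
  fl : Fl ω (V0 B nt E.nid) E.a E.b
  fin : E.fin = true → Bd ω

/-! ### elementary specifications -/

def BasP : Prop :=
  (∀ x y, andB x y = true ↔ x = true ∧ y = true) ∧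
  (∀ x y, orB x y = true ↔ x = true ∨ y = true) ∧
  (∀ p n, allN p n = true ↔ ∀ j, j < n → p j = true) ∧
  (∀ p l, allL p l = true ↔ ∀ x ∈ l, p x = true) ∧
  (∀ β d, (ab β d : ℤ) = |(d : ℤ) - β|) ∧ (∀ x y, mn x y = min x y) ∧ (∀ x y, mx x y = max x y) ∧
  (∀ c l, drp c l = l.drop c) ∧ (∀ f l, mapR f l = l.map f) ∧
  (∀ l, sumL l = ∑ i ∈ range l.length, l.getD i 0) ∧
  (∀ f l l', zl f l l' = List.zipWith f l l') ∧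
  (∀ l l', l.length = l'.length → zs l l' = ∑ i ∈ range l.length, l.getD i 0 * l'.getD i 0) ∧
  (∀ f l, pk f l = ∑ i ∈ range l.length, f (l.getD i 0) * (2 ^ 128) ^ i) ∧
  (∀ f n, sumI f n = ∑ j ∈ range n, f j) ∧
  (∀ l l', l.length = l'.length → dotZ l l' = ∑ i ∈ range l.length, l.getD i 0 * l'.getD i 0) ∧
  (∀ St, d192 St = (List.range 12).map (dg 192 St)) ∧
  (∀ P, d128 P = (List.range 12).map (dg 128 P)) ∧
  (∀ P p, F12 P p → ∀ i, i < 12 → dg 128 P i = p i) ∧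
  (∀ B f, fld B f = dg 24 B f) ∧
  (∀ p t k, ktAll p t = true → Leaf k t → p k = true) ∧
  (∀ p t key, ktAll p t = true → Leaf (ktFind key t) t) ∧
  (∀ t key, 1 ≤ key → ktFind key t = key → Leaf key t)

def CombP : Prop :=
  ∀ (k : ℕ → ℕ → ℕ) (w mul : ℕ) (l : List ℕ) (H acc s : ℕ), 0 < w → ∃ P Q : ℕ,
    comb k w (2 ^ w) mul l H acc s = k (acc + P) (s + Q) ∧
    (P : ℤ) - mul * 2 ^ (w - 1) * Q = ∑ j ∈ range l.length, mul * lam w H j * l.getD j 0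

/-- integer combinations of packed vectors -/
def LinP : Prop :=
  ∀ (l : List ℕ) (x : ℕ → Vec) (n e m g : ℕ) (z : ℕ → ℤ) (Λ β γ0 P Q : ℕ), n ≤ 12 →
    LA l x n e m g → (∀ j, |z j| ≤ (Λ : ℤ)) → (∀ j, n ≤ j → j < 12 → z j = 0) →
    (P : ℤ) - Q = ∑ f ∈ range 12, (β : ℤ) * (2 ^ 192) ^ f + γ0 * (2 ^ 192) ^ 12 +
      ∑ j ∈ range n, z j * l.getD j 0 →
    12 * Λ * g < γ0 → β + 12 * Λ * m < 2 ^ 192 →
    ∃ (v : ℕ → ℤ) (γ : ℤ), ((P - Q : ℕ) : ℤ) =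
      ∑ f ∈ range 12, (β + v f) * (2 ^ 192) ^ f + γ * (2 ^ 192) ^ 12 ∧
      1 ≤ γ ∧ γ ≤ γ0 + 12 * Λ * g ∧ ∀ i : Fin 12,
        |(v i : ℝ) - 2 ^ 96 * cmb x (fun j => z j) i| ≤ 12 * (Λ : ℝ) * e ∧ |v i| ≤ 12 * (Λ : ℤ) * m

def ApAP : Prop :=
  (∀ (TB : List ℕ) (B : Mat) (U : ℕ), LA TB (col B) 12 1 (2 ^ 98) 1 →
    LC (cols TB U) (B * cst (Uz U))) ∧
  (∀ (L : List ℕ) (V : Mat) (a key : ℕ), LC L V →
    AP (kapP L a key) (kap V a (lam 8 key)) (2 ^ 30) (2 ^ 128) (2 ^ 33)) ∧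
  (∀ (X : ℕ) (x : Vec) (e m g : ℕ), AP X x e m g → m ≤ 2 ^ 128 → SR (X + bp) x 96 e m)

def ApBP : Prop :=
  (∀ (L : List ℕ) (V : Mat) (H : ℕ), LC L V →
    SR (c20 L H) (cmb (col V) fun j => (lam 20 H j : ℝ) / 4096) 108 (2 ^ 42) (3 * 2 ^ 138)) ∧
  (∀ (L : List ℕ) (V : Mat) (c Hr Hi : ℕ), LC L V → Hr >>> (20 * c) = 0 →
    SR (cQ L c Hr Hi) (cmb (col V) fun j =>
      if j < c then (lam 20 Hr j : ℝ) / 4096 else (lam 8 Hi (j - c) : ℝ)) 108 (2 ^ 42) (3 * 2 ^ 138)) ∧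
  (∀ (F : List ℕ) (x : ℕ → Vec) (n H : ℕ), n ≤ 12 → LA F x n (2 ^ 30) (2 ^ 128) (2 ^ 33) →
    H >>> (36 * n) = 0 →
    SR (c36 F H) (cmb x fun j => (lam 36 H j : ℝ) / 2 ^ 28) 124 (2 ^ 69) (2 ^ 167))

def SqP : Prop :=
  ∀ (St : ℕ) (x : Vec), SR St x 108 (2 ^ 42) (3 * 2 ^ 138) →
    (∃ p, F12 (sqU St) p ∧ ∀ i : Fin 12, 2 ^ 36 * x i ^ 2 ≤ (p i : ℝ)) ∧
    (∃ p, F12 (sqL St) p ∧ ∀ i : Fin 12, (p i : ℝ) ≤ 2 ^ 36 * x i ^ 2)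

def MkP : Prop :=
  (∀ ω : Vec, CutOK ω G0) ∧ F12 0 (fun _ => 0) ∧ F12 ones (fun _ => 2 ^ 36) ∧
  ∀ (ω : Vec) (ty P N rp rn : ℕ) (p n : ℕ → ℕ), ty ≤ 2 → F12 P p → F12 N n → rp ≤ 2 ^ 100 →
    rn ≤ 2 ^ 100 → ∑ i : Fin 12, ((p i : ℝ) - n i) * gv ty ω i ≤ (rp : ℝ) - rn →
    CutOK ω (mk ty P N rp rn)

def TabP : Prop :=
  ∀ k, k ≤ 512 → |(tX k : ℝ) - 2 ^ 48 * Real.exp ((k : ℝ) / 32 - 12)| ≤ 1 ∧
    |(tY k : ℝ) - 2 ^ 48 * Real.exp (12 - (k : ℝ) / 32)| ≤ 1 ∧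
    2 ^ 30 ≤ tX k ∧ tX k ≤ 2 ^ 54 ∧ 2 ^ 30 ≤ tY k ∧ tY k ≤ 2 ^ 66

/-! ### certificates -/

def PcP : Prop :=
  ∀ (a b c l h : ℕ) (s : ℝ), a < 2 ^ 128 → b < 2 ^ 128 → c < 2 ^ 128 → l ≤ 512 → h ≤ 512 →
    (l : ℝ) ≤ 32 * s → 32 * s ≤ h → ∀ e : ℕ, e = ab (2 ^ 127) a + ab (2 ^ 127) b →
    ((pc a b c e l h : ℝ) - e - 2 ^ 200 ≤
      2 ^ 48 * f1 ((a : ℝ) - 2 ^ 127) ((b : ℝ) - 2 ^ 127) ((c : ℝ) - 2 ^ 127) s) ∧
    (((mn (vF a b c l) (vF a b c h) - pen a b e l h : ℕ) : ℝ) - e - 2 ^ 200 ≤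
      2 ^ 48 * f1 ((a : ℝ) - 2 ^ 127) ((b : ℝ) - 2 ^ 127) ((c : ℝ) - 2 ^ 127) s) ∧
    (-2 ^ 200 ≤ 2 ^ 48 * f1 ((a : ℝ) - 2 ^ 127) ((b : ℝ) - 2 ^ 127) ((c : ℝ) - 2 ^ 127) s)

def CoP : Prop :=
  ∀ (a b c l h t : ℕ) (s : ℝ), a < 2 ^ 128 → b < 2 ^ 128 → c < 2 ^ 128 → t < 512 → 0 ≤ s →
    s ≤ 16 → InI (32 * s) l h → (co a b c l h t : ℝ) - 2 ^ 200 ≤
      2 ^ 48 * f1 ((a : ℝ) - 2 ^ 127) ((b : ℝ) - 2 ^ 127) ((c : ℝ) - 2 ^ 127) s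

def AggP : Prop :=
  ∀ (ω : Vec) (pool : List ℕ) (m Y : ℕ), (∀ C ∈ pool, CutOK ω C) → m < 2 ^ 64 →
    ∑ i : Fin 12, (((dg 128 (agg pool m Y acc0) i : ℝ) - 2 ^ 127) * ω i +
      ((dg 128 (agg pool m Y acc0) (12 + i) : ℝ) - 2 ^ 127) * iv ω i +
      ((dg 128 (agg pool m Y acc0) (24 + i) : ℝ) - 2 ^ 127) * sg ω i) ≤
      (dg 128 (agg pool m Y acc0) 36 : ℝ) - 2 ^ 127

def CertP : Prop :=
  (∀ (ω : Vec) (V V' : Mat) (box : ℕ) (pool : List ℕ) (d : ℕ), (∀ i, 0 < ω i) → Bd ω →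
    InB ω V V' box → (∀ C ∈ pool, CutOK ω C) → cert box pool d = true → False) ∧
  (∀ (pool : List ℕ) (m : ℕ), ∀ C ∈ keepP pool m, C ∈ pool)

/-! ### cuts -/

def CutQP : Prop :=
  ∀ (ω : Vec) (V : Mat) (L : List ℕ) (a b s r : ℕ), s ≤ 1 → Fl (gv s ω) V a b → LC L V →
    CutOK ω (cutQ L a b s r) ∧ CutOK ω (cutF L a s)

def CutKP : Prop :=
  ∀ (ω : Vec) (V V' : Mat) (L : List ℕ) (a b key s r : ℕ), s ≤ 1 → (∀ i, 0 < ω i) → Dual V' V →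
    LC L V → (1 ≤ key → Cand (iv (gv s ω)) V' b a (lam 8 key)) → CutOK ω (cutK L b key s r)

def CutUP : Prop :=
  ∀ (ω : Vec) (V : Mat) (L : List ℕ) (a b s lo hi r : ℕ), s ≤ 1 → Fl (gv s ω) V a b → LC L V →
    lo < 2 ^ 24 → hi < 2 ^ 24 → InI (muV (gv s ω) V) lo hi → (∀ i, 0 < ω i) →
    CutOK ω (cutU L a s lo hi r) ∧ CutOK ω (cutM L s lo hi r)

def CutSP : Prop :=
  ∀ (ω : Vec) (s : Bool), (∀ i, 0 < ω i) → 756680642578125 * ∏ i, ω i = 1 → CutOK ω (cutS s)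

/-- the tangent inequality with rounded data -/
def TreP : Prop :=
  ∀ (k : ℕ) (F : ℕ → Vec) (ω β : Vec) (ρ : ℕ → ℕ) (f : ℕ → ℕ → ℤ) (S : ℕ → ℕ), k ≤ 7 →
    (∀ i, 0 < ω i) → (Matrix.of fun j l : Fin k => Ip ω (F j) (F l)).det = 1 →
    (∀ i : Fin 12, 2 ^ 30 ≤ ρ i ∧ ρ i ≤ 2 ^ 66 ∧ |Real.log ((ρ i : ℝ) / 2 ^ 48) - β i| ≤ 1 / 2 ^ 29 ∧
      |Real.log (ω i) - β i| ≤ 16) →
    (∀ j, j < k → ∀ i : Fin 12, |2 ^ 56 * F j i - f j i| ≤ 3) →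
    (∀ j, j < k → S j = ∑ i ∈ range 12, ρ i * (f j i).natAbs ^ 2 ∧ 2 ^ 154 ≤ S j ∧ S j ≤ 2 ^ 166) →
    (∀ j, j < k → ∀ l, l < j →
      (∑ i ∈ range 12, ρ i * f j i * f l i) ^ 2 * 2 ^ 48 ≤ (S j : ℤ) * S l) →
    0 < tPi S k →
    ∑ i : Fin 12, ((∑ j ∈ range k, ρ i * (f j i).natAbs ^ 2 * 2 ^ 36 / S j : ℕ) : ℝ) *
      (Real.log (ω i) - β i) + 2 ^ 36 * Real.log ((tPi S k : ℝ) / 2 ^ 48) ≤ k * k * 2 ^ 17

/-- unpacking of the frame -/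
def TdP : Prop :=
  ∀ (F ρ : List ℕ) (x : ℕ → Vec) (n H k : ℕ), n ≤ 12 → LA F x n (2 ^ 30) (2 ^ 128) (2 ^ 33) →
    k ≤ n → ρ.length = 12 → tOK ρ F H k = true →
    ∃ (c : ℕ → ℕ → ℝ) (f : ℕ → ℕ → ℤ), (∀ j, c j j = 1) ∧ (∀ j l, j < l → c j l = 0) ∧
      (∀ j, j < k → ∀ i : Fin 12, |2 ^ 56 * cmb x (c j) i - f j i| ≤ 3) ∧
      (∀ j, j < k → tS ρ F H j = ∑ i ∈ range 12, ρ.getD i 0 * (f j i).natAbs ^ 2 ∧
        2 ^ 154 ≤ tS ρ F H j ∧ tS ρ F H j ≤ 2 ^ 166) ∧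
      (∀ j, j < k → ∀ l, l < j → (∑ i ∈ range 12, ρ.getD i 0 * f j i * f l i) ^ 2 * 2 ^ 48 ≤
        (tS ρ F H j : ℤ) * tS ρ F H l) ∧
      F12 (tTau ρ F H k) (fun i =>
        ∑ j ∈ range k, ρ.getD i 0 * (f j i).natAbs ^ 2 * 2 ^ 36 / tS ρ F H j) ∧
      ∀ i, i < 12 → ∑ j ∈ range k, ρ.getD i 0 * (f j i).natAbs ^ 2 * 2 ^ 36 / tS ρ F H j ≤
        12 * 2 ^ 36

def CutTP : Prop :=
  ∀ (ω : Vec) (x : ℕ → Vec) (F : List ℕ) (n r : ℕ) (fin s : Bool), (∀ i, 0 < ω i) → n ≤ 12 →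
    LA F x n (2 ^ 30) (2 ^ 128) (2 ^ 33) → Flag (if s = true then iv ω else ω) x n →
    (fin = true → Bd ω) → CutOK ω (cutT F fin s r)

/-- the list of flag vectors -/
def FlgP : Prop :=
  ∀ (ω : Vec) (V : Mat) (L : List ℕ) (a b key : ℕ), Fl ω V a b → LC L V →
    (1 ≤ key → Cand ω V a b (lam 8 key)) →
    ∃ (x : ℕ → Vec) (n : ℕ), n ≤ 12 ∧ LA (flg L a key) x n (2 ^ 30) (2 ^ 128) (2 ^ 33) ∧
      Flag ω x n

def NodeP : Prop :=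
  ∀ (B B' : Mat) (u : ℕ × ℕ), B'ᵀ * B = 1 → nodeOK u = true →
    Dual (B * cst (Uz u.1)) (B' * cst (Uz u.2)) ∧ IsUnit (Uz u.1).det ∧
      (B * cst (Uz u.1)).det ^ 2 = B.det ^ 2

def MkCutP : Prop :=
  ∀ (B B' : Mat) (ct : CT) (nt : NT) (NN : ℕ) (E : Env) (ω : Vec) (kt : KT) (box c : ℕ),
    Cx B B' ct nt NN E ω → InB ω (V0 B nt E.nid) (V1 B' nt E.nid) box →
    Mem ω (V0 B nt E.nid) (V1 B' nt E.nid) E.a E.b E.sd kt → CutOK ω (mkCut E kt box c)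

/-! ### boxes and references -/

def BoxP : Prop :=
  (∀ (ω : Vec) (V V' : Mat) (box f v : ℕ), f ≤ 13 → v ≤ 16777215 → InB ω V V' box →
    InB ω V V' (setF box (2 * f + 1) v) ∨ InB ω V V' (setF box (2 * f) v)) ∧
  (∀ (ω : Vec) (V V' : Mat) (box pre : ℕ), subB box pre = true → InB ω V V' box →
    InB ω V V' pre) ∧
  (∀ (ω : Vec) (V V' W W' : Mat) (g box pre : ℕ), g < 12 → subR g box pre = true →
    InB ω V V' box → InB (rot (12 - g) ω) W W' pre) ∧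
  (∀ (ω : Vec) (V V' : Mat) (box : ℕ), finB box = true → InB ω V V' box → Bd ω)

def InitP : Prop :=
  (∀ (ω : Vec) (V V' : Mat) (L L' : List ℕ) (a b : ℕ), Sd ω V V' L L' a b →
    initOK L L' a b = true → InB ω V V' univ0 ∧ Bd ω) ∧
  (∀ (ω : Vec) (V V' : Mat) (box : ℕ) (s : Bool), (∀ i, 0 < ω i) → finB box = true →
    InB ω V V' box → ∀ i : Fin 12,
      (wLo s box i : ℝ) ≤ 2 ^ 48 * (if s = true then iv ω else ω) i ∧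
      2 ^ 48 * (if s = true then iv ω else ω) i ≤ (wHi s box i : ℝ))

/-- an inner product that is an integer is read off from the approximations -/
def RdotP : Prop :=
  ∀ (Lo T : List ℕ) (V' W : Mat) (g : ℕ) (j k : Fin 12) (y z : ℤ), g < 12 → LC Lo V' → LC T W →
    ∑ i, V' i (Fin.rev j) * rot g (fun i => W i k) i = z → near (rdot Lo T g j k) y = true → z = y

def RefSP : Prop :=
  ∀ (ω : Vec) (V V' W W' : Mat) (M : ZMat) (L L' T T' : List ℕ) (a b c d key g : ℕ), g < 12 →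
    Sd ω V V' L L' a b → Dual W W' → LC T W → LC T' W' → IsUnit M.det →
    (Matrix.of fun i k => rot g (fun i => W i k) i) = V * cst M →
    (1 ≤ key → Cand ω V a b (lam 8 key)) → refS L' T c a key g = true →
    refS L T' d b 0 g = true → Fl (rot (12 - g) ω) W c d

def RefCP : Prop :=
  ∀ (B B' : Mat) (ct : CT) (nt : NT) (NN : ℕ) (E : Env) (ω : Vec) (kt : KT) (box : ℕ),
    Cx B B' ct nt NN E ω → InB ω (V0 B nt E.nid) (V1 B' nt E.nid) box →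
    Mem ω (V0 B nt E.nid) (V1 B' nt E.nid) E.a E.b E.sd kt →
    (∀ j, useC ct E box j = true → False) ∧ (∀ j g, refC ct nt NN E kt box j g = true → False)

/-! ### enumeration -/

/-- the fields of the state reached for the integer vector `ξ` -/
def StOK (L Lo : List ℕ) (a c Lp Gp : ℕ) (ξ : ℕ → ℤ) (St : ℕ) : Prop :=
  (∀ j, j < c → |ξ j| ≤ 64) ∧ ∀ f, f < 50 → (dg 96 St f : ℤ) =
    2 ^ 94 + ∑ j ∈ range c, ξ j * entE L Lo a Lp Gp (a + j) f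

def EnumEP : Prop :=
  ∀ (V : Mat) (L Lo wt e : List ℕ) (a b np : ℕ) (leaf : Bool → ℕ → ℕ → Bool) (w : Vec)
    (ξ : ℕ → ℤ) (x : ℕ → ℝ), LC L V → 0 < np → (∀ p, p < np → enumE L Lo a b wt e p np leaf = true) →
    (∀ i : Fin 12, (wt.getD i 0 : ℝ) ≤ 2 ^ 48 * w i) → (∀ j, a ≤ j → x j = ξ (j - a)) →
    (∀ j, 12 - b - a ≤ j → ξ j = 0) → (∃ j, j < 12 - b - a ∧ ξ j ≠ 0) →
    Qf w (cmb (col V) x) ≤ 1 →
    ∃ (σ : ℤ) (St r : ℕ), (σ = 1 ∨ σ = -1) ∧ leaf false St r = true ∧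
      StOK L Lo a (12 - b - a) (e.getD 2 0) (e.getD 3 0) (fun j => σ * ξ j) St

def KeyP : Prop :=
  ∀ (L Lo : List ℕ) (a c Lp Gp : ℕ) (ξ : ℕ → ℤ) (St : ℕ), 1 ≤ c → c ≤ 11 →
    StOK L Lo a c Lp Gp ξ St → (∀ j, c ≤ j → ξ j = 0) →
    1 ≤ keyOf (k128 c) St ∧ lam 8 (keyOf (k128 c) St) = ξ ∧
      (∀ j, j < c → (dg 8 (keyOf (k128 c) St) j : ℤ) = ξ j + 128) ∧
      (a + c ≤ 12 → (lnL c (St >>> 3456) (keyOf (k128 c) St) (c <<< 101) 0 : ℤ) =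
        |∑ j ∈ range c, (∑ k ∈ range c, ξ k * lam 20 (gr a Gp k) (11 - a - j)) * ξ j|)

/-- the knapsack bound -/
def QsP : Prop :=
  ∀ (r φ z : Vec) (L2 n sq : ℕ) (pl : List ℕ) (zz : List (ℕ × ℕ × ℕ)), (∀ i, 0 < r i) →
    pl.length = 12 → Qf r z = 1 → (L2 : ℝ) ≤ 2 ^ 24 * Qf r φ →
    (∀ i : Fin 12, 2 ^ 36 * φ i ^ 2 ≤ (pl.getD i 0 : ℝ)) →
    (∀ i : Fin 12, ((zz.getD i 0).1 : ℝ) ≤ 2 ^ 36 * z i ^ 2 ∧
      2 ^ 48 * r i ≤ ((zz.getD i 0).2.1 : ℝ) ∧ ((zz.getD i 0).2.2 : ℝ) ≤ 2 ^ 48 * r i) →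
    qtry L2 pl zz n sq = true → False

def QuickP : Prop :=
  ∀ (ω : Vec) (V V' : Mat) (L Lo : List ℕ) (a b Lp Gp sq St : ℕ) (ξ : ℕ → ℤ)
    (zz : List (ℕ × ℕ × ℕ)), Sd ω V V' L Lo a b → a + b ≤ 11 → 1 ≤ b → Cand ω V a b ξ →
    (∀ j, 12 - b - a ≤ j → ξ j = 0) → StOK L Lo a (12 - b - a) Lp Gp ξ St →
    (∀ i : Fin 12, ((zz.getD i 0).1 : ℝ) ≤ 2 ^ 36 * col V' 0 i ^ 2 ∧
      2 ^ 48 * iv ω i ≤ ((zz.getD i 0).2.1 : ℝ) ∧ ((zz.getD i 0).2.2 : ℝ) ≤ 2 ^ 48 * iv ω i) →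
    quick (12 - b - a) (k128 (12 - b - a)) sq zz St = true → False

def EnumSP : Prop :=
  ∀ (ω : Vec) (V V' X X' : Mat) (ct : CT) (L Lo e : List ℕ) (a b box np : ℕ) (s : Bool)
    (top : KT), Sd (if s = true then iv ω else ω) V V' L Lo a b → InB ω X X' box → 0 < np →
    (∀ p, p < np → enumS ct L Lo a b s box e top p np = true) →
    ∃ key, 1 ≤ key ∧ Cand (if s = true then iv ω else ω) V a b (lam 8 key) ∧
      memC ct top key = true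

def EnumCP : Prop :=
  ∀ (B B' : Mat) (ct : CT) (nt : NT) (NN : ℕ) (E : Env) (ω : Vec) (box np : ℕ) (e : List ℕ)
    (top : KT), Cx B B' ct nt NN E ω → InB ω (V0 B nt E.nid) (V1 B' nt E.nid) box → 0 < np →
    (∀ p, p < np → enumC ct E box e top p np = true) → False

/-! ### the main induction -/

def ChkP : Prop :=
  ∀ (B B' : Mat) (ct : CT) (nt : NT) (NN : ℕ) (E : Env) (ω : Vec) (np : ℕ) (t : Tr) (kt : KT)
    (box : ℕ) (pool : List ℕ), Cx B B' ct nt NN E ω → 0 < np →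
    InB ω (V0 B nt E.nid) (V1 B' nt E.nid) box →
    Mem ω (V0 B nt E.nid) (V1 B' nt E.nid) E.a E.b E.sd kt → (∀ C ∈ pool, CutOK ω C) →
    (∀ p, p < np → chk ct nt NN E p np t kt box pool = true) → False

/-- claim `j` has been checked -/
def Done (ct : CT) (nt : NT) (NN j : ℕ) : Prop :=
  0 < (ctGet ct j).np ∧ ∃ t, ∀ p, p < (ctGet ct j).np → chkC ct nt NN j p t = true

def MainP : Prop :=
  ∀ (B B' : Mat) (ct : CT) (nt : NT) (NN N : ℕ), Fld B B' →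
    (∀ n, n < NN → nodeOK (ntGet nt n) = true) → (∀ j, j < N → Done ct nt NN j) →
    ∀ j, j < N → Sem B B' nt (ctGet ct j)

def TopP : Prop :=
  ∀ (B B' : Mat) (nt : NT) (n np pre np' : ℕ) (kt : KT) (e : List ℕ), Fld B B' →
    nodeOK (ntGet nt n) = true → dg 192 (ntGet nt n).1 0 = 32769 → 0 < np →
    (∀ p, p < np → rootE (ntGet nt n) kt e p np = true) →
    ktAll (normOK (ntGet nt n)) kt = true →
    (∀ f, f < 14 → fld pre (2 * f) = 0 ∧ fld pre (2 * f + 1) = 16777215) →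
    Sem B B' nt ⟨n, 1, 0, 1, pre, np', kt⟩ → ¬ Dec B

/-! ### the field -/

/-- `ch n (z + z⁻¹) = z ^ n + z⁻¹ ^ n` -/
def ch (x : ℝ) : ℕ → ℝ
  | 0 => 2
  | 1 => x
  | n + 2 => x * ch x (n + 1) - ch x n

def Bm (θ : Vec) : Mat := Matrix.of fun i j => if j.val = 0 then 1 else ch (θ i) j

def Hz : ZMat := Matrix.of fun j k => ent Hm j k
def Gz : ZMat := Matrix.of fun j k => ent Gm j k

noncomputable def Bd' (θ : Vec) : Mat := (1 / 45 : ℝ) • (Bm θ * cst Hz)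

structure Th (θ : Vec) : Prop where
  root : ∀ i, ch (θ i) 12 = ch (θ i) 9 - ch (θ i) 3 + 1
  sq : ∀ i, rot 1 θ i = θ i ^ 2 - 2
  apx : ∀ i : Fin 12, |2 ^ 128 * θ i - thI.getD i 0| ≤ 2 ^ 8

def ThP : Prop := ∃ θ, Th θ

def Ap0P : Prop := ∀ θ, Th θ → LA TB0 (col (Bm θ)) 12 1 (2 ^ 98) 1

def Ap1P : Prop := ∀ θ, Th θ → LA TB1 (col (Bd' θ)) 12 1 (2 ^ 98) 1

def OrdP : Prop :=
  ∀ θ, Th θ → InO (Bm θ) 1 ∧ (∀ x y, InO (Bm θ) x → InO (Bm θ) y → InO (Bm θ) (x * y)) ∧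
    ∃ Γ : ZMat, ∀ i k, rot 1 (fun i => Bm θ i k) i = (Bm θ * cst Γ) i k

def GramP : Prop :=
  ∀ θ, Th θ → IsOrd (Bm θ) ∧ (Bm θ)ᵀ * Bm θ = cst Gz ∧ (Bd' θ)ᵀ * Bm θ = 1 ∧
    (Bm θ).det ^ 2 = 756680642578125

def FldP : Prop := ∃ B B', Fld B B'

end Pool.Agent.MP_2877d0_al.T
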